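import Mathlib
import Pool.Agent.Work.MP_2ad852_ag.GF.Stmts

/-! Bundle of small proof modules (one section per former module). -/

section

/-!
# Homogeneous components
-/

namespace Pool.Agent.Work.MP_2ad852_ag.GF

open MvPolynomial Finset

section

attribute [local instance] MvPolynomial.gradedAlgebra

/-- components of an element of the ideal spanned by homogeneous elements are in the ideal -/
theorem hc_mem {ι : Type} {n : ℕ} (d : ι → ℕ) (f : ι → MvPolynomial (Fin n) ℂ)
    (hf : ∀ l, (f l).IsHomogeneous (d l)) (w : MvPolynomial (Fin n) ℂ)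
    (hw : w ∈ Ideal.span (Set.range f)) (i : ℕ) :
    homogeneousComponent i w ∈ Ideal.span (Set.range f) := by
  refine homogeneousComponent_mem_of_mem ?_ hw i
  apply Ideal.homogeneous_span
  rintro x ⟨l, rfl⟩
  exact ⟨d l, (mem_homogeneousSubmodule _ _).2 (hf l)⟩

end

theorem hc_mul {n : ℕ} {R : Type} [CommRing R] (k i : ℕ) (p g : MvPolynomial (Fin n) R)
    (hp : p.IsHomogeneous k) :
    homogeneousComponent (i + k) (p * g) = p * homogeneousComponent i g := by
  have h1 : p * g = ∑ j ∈ range (g.totalDegree + 1), p * homogeneousComponent j g := by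
    rw [← Finset.mul_sum, sum_homogeneousComponent]
  have h2 : ∀ j, homogeneousComponent (i + k) (p * homogeneousComponent j g) =
      if j = i then p * homogeneousComponent j g else 0 := by
    intro j
    have h3 : (p * homogeneousComponent j g).IsHomogeneous (k + j) :=
      hp.mul (homogeneousComponent_isHomogeneous j g)
    rw [homogeneousComponent_of_mem ((mem_homogeneousSubmodule _ _).2 h3)]
    by_cases hj : j = i
    · rw [if_pos hj, if_pos]
      rw [hj, add_comm]
    · rw [if_neg hj, if_neg]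
      omega
  rw [h1, map_sum, Finset.sum_congr rfl (fun j _ => h2 j), Finset.sum_ite_eq']
  split_ifs with h
  · rfl
  · rw [homogeneousComponent_eq_zero, mul_zero]
    simp only [Finset.mem_range] at h
    omega

theorem hc_mul_lt {n : ℕ} {R : Type} [CommRing R] (k e : ℕ) (p g : MvPolynomial (Fin n) R)
    (hp : p.IsHomogeneous k) (h : e < k) :
    homogeneousComponent e (p * g) = 0 := by
  have h1 : p * g = ∑ j ∈ range (g.totalDegree + 1), p * homogeneousComponent j g := by
    rw [← Finset.mul_sum, sum_homogeneousComponent]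
  rw [h1, map_sum]
  refine Finset.sum_eq_zero fun j _ => ?_
  have h3 : (p * homogeneousComponent j g).IsHomogeneous (k + j) :=
    hp.mul (homogeneousComponent_isHomogeneous j g)
  rw [homogeneousComponent_of_mem ((mem_homogeneousSubmodule _ _).2 h3), if_neg]
  omega

theorem X_pow_hom {n : ℕ} {R : Type} [CommRing R] (z : Fin n) (k : ℕ) :
    ((X z : MvPolynomial (Fin n) R) ^ k).IsHomogeneous k := isHomogeneous_X_pow z k

end Pool.Agent.Work.MP_2ad852_ag.GF

end

section

namespace Pool.Agent.Work.MP_2ad852_ag.GF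

open MvPolynomial Finset

theorem pr_CardCols : S_CardCols := by
  intro ι _ n z k e d
  unfold nC
  rw [Fintype.card_sigma]
  simp only [Fintype.card_coe]
  have h := Finset.sum_subtype (p := fun l : ι => d l ≤ e) (F := inferInstance)
    ((Finset.univ : Finset ι).filter (fun l => d l ≤ e)) (by intro x; simp)
    (fun l => (Mk z k (e - d l)).card)
  exact h.symm

end Pool.Agent.Work.MP_2ad852_ag.GF

end

section

namespace Pool.Agent.Work.MP_2ad852_ag.GF

open MvPolynomial Finset

theorem Mk_zero_card {n : ℕ} (z : Fin n) (k : ℕ) (hk : 1 ≤ k) : (Mk z k 0).card = 1 := by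
  rw [Finset.card_eq_one]
  refine ⟨0, ?_⟩
  ext p
  rw [mem_Mk, Finset.mem_singleton]
  constructor
  · rintro ⟨h, _⟩
    ext i
    rw [Finset.sum_eq_zero_iff] at h
    simpa using h i (Finset.mem_univ i)
  · rintro rfl
    refine ⟨by simp, ?_⟩
    rw [Finsupp.zero_apply]
    omega

theorem pr_ExtC : S_ExtC := by
  intro ι _ n z k e s d hk
  unfold nC
  rw [Finset.sum_filter, Finset.sum_filter, Fintype.sum_sum_type]
  simp only [Sum.elim_inl, Sum.elim_inr, le_refl, if_true, Nat.sub_self, Mk_zero_card z k hk,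
    Finset.sum_const, Finset.card_univ, Fintype.card_fin, smul_eq_mul, mul_one]
  all_goals rfl

end Pool.Agent.Work.MP_2ad852_ag.GF

end

section

/-!
# Item FinInj of the block GF
-/

namespace Pool.Agent.Work.MP_2ad852_ag.GF

open MvPolynomial Finset

/-- the homogeneous component of a product with a homogeneous polynomial -/
theorem finInj_comp_mul {n : ℕ} (c f : MvPolynomial (Fin n) ℂ) (D N : ℕ) (hf : f.IsHomogeneous D) :
    homogeneousComponent N (c * f) =
      (if D ≤ N then homogeneousComponent (N - D) c else 0) * f := by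
  have h1 : c * f = ∑ j ∈ Finset.range (c.totalDegree + 1), homogeneousComponent j c * f := by
    rw [← Finset.sum_mul, sum_homogeneousComponent]
  rw [h1, map_sum]
  have h2 : ∀ j ∈ Finset.range (c.totalDegree + 1),
      homogeneousComponent N (homogeneousComponent j c * f) =
        if N = j + D then homogeneousComponent j c * f else 0 := by
    intro j _
    have hj : (homogeneousComponent j c * f).IsHomogeneous (j + D) :=
      (homogeneousComponent_isHomogeneous j c).mul hf
    have := homogeneousComponent_of_mem (n := j + D) (m := N)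
      ((mem_homogeneousSubmodule _ _).2 hj)
    rw [this]
  rw [Finset.sum_congr rfl h2]
  by_cases hD : D ≤ N
  · rw [if_pos hD]
    by_cases hj : N - D ∈ Finset.range (c.totalDegree + 1)
    · rw [Finset.sum_eq_single_of_mem (N - D) hj]
      · rw [if_pos (by omega)]
      · intro b _ hb
        rw [if_neg (by omega)]
    · rw [homogeneousComponent_eq_zero, zero_mul]
      · refine Finset.sum_eq_zero fun b hb => ?_
        rw [if_neg]
        rintro h
        apply hj
        have : N - D = b := by omega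
        rw [this]; exact hb
      · rw [Finset.mem_range] at hj
        omega
  · rw [if_neg hD, zero_mul]
    refine Finset.sum_eq_zero fun b _ => ?_
    rw [if_neg (by omega)]

theorem pr_FinInj : S_FinInj := by
  intro ι _ n z k i d f hf hI g hg hmem
  obtain ⟨c, hc⟩ := Ideal.mem_span_range_iff_exists_fun.1 hmem
  let a : ι → MvPolynomial (Fin n) ℂ :=
    fun l => if d l ≤ i + k then homogeneousComponent (i + k - d l) (c l) else 0
  have hsum : ∑ l, f l * a l = X z ^ k * g := by
    have h1 : homogeneousComponent (i + k) (X z ^ k * g) = X z ^ k * g := by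
      have hh : (X z ^ k * g : MvPolynomial (Fin n) ℂ).IsHomogeneous (i + k) := by
        have h2 : ((X z : MvPolynomial (Fin n) ℂ) ^ k).IsHomogeneous (1 * k) :=
          (isHomogeneous_X ℂ z).pow k
        have h3 := h2.mul hg
        have h4 : 1 * k + i = i + k := by ring
        rw [h4] at h3
        exact h3
      have := homogeneousComponent_of_mem (n := i + k) (m := i + k)
        ((mem_homogeneousSubmodule _ _).2 hh)
      rw [this, if_pos rfl]
    rw [← h1, ← hc, map_sum]
    refine Finset.sum_congr rfl fun l _ => ?_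
    rw [finInj_comp_mul (c l) (f l) (d l) (i + k) (hf l), mul_comm]
  have ha := hI a (by
    intro l
    simp only [a]
    split_ifs with h
    · exact homogeneousComponent_isHomogeneous _ _
    · exact isHomogeneous_zero _ _ _) (by
    intro l hl
    simp only [a]
    rw [if_neg (by omega)]) (by
    rw [hsum]
    exact Dvd.intro _ rfl)
  choose b hb using ha
  have hX : (X z ^ k : MvPolynomial (Fin n) ℂ) ≠ 0 := pow_ne_zero _ (X_ne_zero z)
  have hg' : g = ∑ l, b l * f l := by
    apply mul_left_cancel₀ hX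
    rw [← hsum, Finset.mul_sum]
    refine Finset.sum_congr rfl fun l _ => ?_
    rw [hb l]
    ring
  rw [hg']
  exact Ideal.sum_mem _ fun l _ => Ideal.mul_mem_left _ _ (Ideal.subset_span ⟨l, rfl⟩)

end Pool.Agent.Work.MP_2ad852_ag.GF

end

section

/-!
# Item LALR
-/

namespace Pool.Agent.Work.MP_2ad852_ag.GF

theorem pr_LALR : S_LALR := by
  classical
  intro R I J _ _ _ _ A hc ⟨v, hv, hvA⟩
  obtain ⟨f⟩ : Nonempty (I ↪ J) := Function.Embedding.nonempty_of_card_le hc
  let M : Matrix J J R := fun j => if h : ∃ i, f i = j then A h.choose else 0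
  have hM : ∀ i, M (f i) = A i := by
    intro i
    have h : ∃ i', f i' = f i := ⟨i, rfl⟩
    have h2 : h.choose = i := f.injective h.choose_spec
    simp only [M, dif_pos h, h2]
  let w : J → R := fun j => if h : ∃ i, f i = j then v h.choose else 0
  have hw : ∀ i, w (f i) = v i := by
    intro i
    have h : ∃ i', f i' = f i := ⟨i, rfl⟩
    have h2 : h.choose = i := f.injective h.choose_spec
    simp only [w, dif_pos h, h2]
  have hw0 : ∀ j, (¬ ∃ i, f i = j) → w j = 0 := by
    intro j hj
    simp only [w, dif_neg hj]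
  have hwne : w ≠ 0 := by
    intro h
    apply hv
    funext i
    rw [← hw i, h]
    rfl
  have hwM : Matrix.vecMul w M = 0 := by
    funext b
    have h1 : Matrix.vecMul w M b = ∑ j, w j * M j b := rfl
    have h2 : Matrix.vecMul v A b = ∑ i, v i * A i b := rfl
    rw [h1]
    have h3 : ∑ j, w j * M j b = ∑ j ∈ Finset.univ.map f, w j * M j b := by
      symm
      apply Finset.sum_subset (Finset.subset_univ _)
      intro j _ hj
      rw [hw0 j, zero_mul]
      rintro ⟨i, hi⟩
      exact hj (Finset.mem_map.2 ⟨i, Finset.mem_univ _, hi⟩)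
    rw [h3, Finset.sum_map]
    have h4 : ∑ i, w (f i) * M (f i) b = ∑ i, v i * A i b :=
      Finset.sum_congr rfl fun i _ => by rw [hw, hM]
    rw [h4, ← h2, hvA]
  have hdet : M.det = 0 := Matrix.exists_vecMul_eq_zero_iff.1 ⟨w, hwne, hwM⟩
  obtain ⟨x, hx, hMx⟩ := Matrix.exists_mulVec_eq_zero_iff.2 hdet
  refine ⟨x, hx, ?_⟩
  funext i
  have h5 : Matrix.mulVec M x (f i) = ∑ b, M (f i) b * x b := rfl
  have h6 : Matrix.mulVec A x i = ∑ b, A i b * x b := rfl
  rw [h6]
  have h7 := congrFun hMx (f i)
  rw [h5, hM] at h7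
  exact h7

end Pool.Agent.Work.MP_2ad852_ag.GF

end

section

namespace Pool.Agent.Work.MP_2ad852_ag.GF

open Finset

theorem pr_LAcore (hR : S_LAright) : S_LAcore := by
  intro R P S Ω _ _ _ _ _ Bd F G A C hF hAF hAG hC hBd
  classical
  obtain ⟨Q, B, hQ, hB⟩ := hR R S Ω (Matrix.of C) (by
    intro x hx
    apply hC x
    intro s
    have h1 := congrFun hx s
    simp only [Matrix.mulVec, dotProduct, Matrix.of_apply, Pi.zero_apply] at h1
    rw [← h1]
    exact Finset.sum_congr rfl fun ω _ => mul_comm _ _)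
  -- the vectors `∑ s, B ω s * G s`
  let f : (Option Ω → R) →ₗ[R] (Bd → R) :=
    { toFun := fun a p => a none * F p + ∑ s, (∑ ω, a (some ω) * B ω s) * G s p
      map_add' := by
        intro a b
        funext p
        simp only [Pi.add_apply, add_mul, Finset.sum_add_distrib]
        ring
      map_smul' := by
        intro c a
        funext p
        simp only [Pi.smul_apply, smul_eq_mul, RingHom.id_apply, mul_assoc, mul_add,
          ← Finset.mul_sum] }
  have hf : Function.Injective f := by
    rw [injective_iff_map_eq_zero]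
    intro a ha
    have h1 := hBd (a none) (fun s => ∑ ω, a (some ω) * B ω s) (by
      intro p hp
      exact congrFun ha ⟨p, hp⟩)
    have h2 : ∀ ω, a (some ω) = 0 := by
      intro ω
      have h3 : ∑ p, A ω p * (a none * F p + ∑ s, (∑ ω, a (some ω) * B ω s) * G s p) = 0 := by
        apply Finset.sum_eq_zero
        intro p _
        rw [h1 p, mul_zero]
      have h4 : ∑ p, A ω p * (a none * F p + ∑ s, (∑ ω, a (some ω) * B ω s) * G s p) =
          a none * (∑ p, A ω p * F p) +
            ∑ s, (∑ ω, a (some ω) * B ω s) * ∑ p, A ω p * G s p := by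
        simp only [mul_add, Finset.sum_add_distrib, Finset.mul_sum]
        congr 1
        · exact Finset.sum_congr rfl fun p _ => by ring
        · rw [Finset.sum_comm]
          exact Finset.sum_congr rfl fun s _ => Finset.sum_congr rfl fun p _ => by ring
      rw [h4, hAF, mul_zero, zero_add] at h3
      have h5 : ∑ s, (∑ ω', a (some ω') * B ω' s) * ∑ p, A ω p * G s p =
          ∑ ω', a (some ω') * (B * Matrix.of C) ω' ω := by
        simp only [hAG, Matrix.mul_apply, Matrix.of_apply, Finset.sum_mul, Finset.mul_sum]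
        rw [Finset.sum_comm]
        exact Finset.sum_congr rfl fun s _ => Finset.sum_congr rfl fun p _ => by ring
      rw [h5, hB] at h3
      simp only [Matrix.smul_apply, Matrix.one_apply, smul_eq_mul, mul_ite, mul_one, mul_zero,
        Finset.sum_ite_eq', Finset.mem_univ, if_true] at h3
      rcases mul_eq_zero.1 h3 with h6 | h6
      · exact h6
      · exact absurd h6 hQ
    obtain ⟨p, hp⟩ := hF
    have h3 := h1 p
    simp only [h2, zero_mul, Finset.sum_const_zero, add_zero] at h3
    have h4 : a none = 0 := by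
      rcases mul_eq_zero.1 h3 with h6 | h6
      · exact h6
      · exact absurd h6 hp
    funext o
    cases o with
    | none => exact h4
    | some ω => exact h2 ω
  have h := card_le_of_injective R f hf
  rw [Fintype.card_option, Fintype.card_coe] at h
  exact h

end Pool.Agent.Work.MP_2ad852_ag.GF

end

section

namespace Pool.Agent.Work.MP_2ad852_ag.GF

open MvPolynomial Finset

theorem pr_LAleft : S_LAleft := by
  intro R I J _ _ _ _ _ A hA
  let K := FractionRing R
  let φ : R →+* K := algebraMap R K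
  have hφ : Function.Injective φ := IsFractionRing.injective R K
  let A' : Matrix I J K := A.map φ
  -- the rows are independent over the fraction field
  have hA' : ∀ w : I → K, Matrix.vecMul w A' = 0 → w = 0 := by
    intro w hw
    obtain ⟨b, hb⟩ := IsLocalization.exist_integer_multiples_of_finite
      (nonZeroDivisors R) w
    choose v hv using hb
    have hv0 : v = 0 := by
      apply hA
      ext j
      apply hφ
      have h1 : (Matrix.vecMul w A') j = 0 := by rw [hw]; rfl
      have h2 : φ ((Matrix.vecMul v A) j) = φ (b : R) * (Matrix.vecMul w A') j := by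
        simp only [Matrix.vecMul, dotProduct, map_sum, map_mul, Finset.mul_sum]
        refine Finset.sum_congr rfl fun i _ => ?_
        have h3 : φ (v i) = (b : R) • w i := hv i
        rw [h3, Algebra.smul_def]
        simp only [A', Matrix.map_apply]
        change φ (b : R) * w i * φ (A i j) = φ (b : R) * (w i * φ (A i j))
        ring
      rw [h2, h1, mul_zero]
      simp
    ext i
    have h3 : φ (v i) = (b : R) • w i := hv i
    rw [hv0, Algebra.smul_def] at h3
    have hb0 : φ (b : R) ≠ 0 := by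
      intro h0
      have : (b : R) = 0 := hφ (by rw [h0, map_zero])
      exact nonZeroDivisors.ne_zero b.2 this
    have h4 : φ (b : R) * w i = 0 := by
      rw [← h3]; simp
    rcases mul_eq_zero.1 h4 with h5 | h5
    · exact absurd h5 hb0
    · rw [h5]; rfl
  -- right inverse
  have hinj : LinearMap.ker (Matrix.vecMulLinear A') = ⊥ := by
    rw [LinearMap.ker_eq_bot']
    intro w hw
    exact hA' w hw
  obtain ⟨g, hg⟩ := LinearMap.exists_leftInverse_of_injective (Matrix.vecMulLinear A') hinj
  obtain ⟨B0, hB0⟩ : ∃ B0 : Matrix J I K, ∀ w : J → K, g w = Matrix.vecMul w B0 := by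
    classical
    refine ⟨fun j i => g (Pi.single j 1) i, fun w => ?_⟩
    ext i
    have hw : w = ∑ j, w j • (Pi.single j (1 : K) : J → K) := by
      ext j
      simp [Finset.sum_apply, Pi.single_apply]
    conv_lhs => rw [hw]
    rw [map_sum]
    simp only [map_smul, Finset.sum_apply, Pi.smul_apply, smul_eq_mul]
    rfl
  have hAB : A' * B0 = 1 := by
    ext i i'
    have h1 : g (Matrix.vecMulLinear A' (Pi.single i 1)) = Pi.single i 1 := by
      have := LinearMap.congr_fun hg (Pi.single i 1)
      exact this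
    rw [hB0] at h1
    have h2 := congrFun h1 i'
    rw [Matrix.vecMulLinear_apply, Matrix.vecMul_vecMul, Matrix.single_one_vecMul] at h2
    rw [Matrix.one_apply]
    rw [Pi.single_apply] at h2
    have h3 : (A' * B0) i i' = if i' = i then 1 else 0 := h2
    rw [h3]
    by_cases h : i = i'
    · rw [if_pos h.symm, if_pos h]
    · rw [if_neg h, if_neg (fun h' => h h'.symm)]
  obtain ⟨b, hb⟩ := IsLocalization.exist_integer_multiples_of_finite
      (nonZeroDivisors R) (fun x : J × I => B0 x.1 x.2)
  choose v hv using hb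
  let B : Matrix J I R := Matrix.of (fun j i => v (j, i))
  refine ⟨(b : R), B, nonZeroDivisors.ne_zero b.2, ?_⟩
  ext i i'
  apply hφ
  have h1 : (A' * B0) i i' = (1 : Matrix I I K) i i' := by rw [hAB]
  have h2 : φ ((A * B) i i') = φ (b : R) * (A' * B0) i i' := by
    rw [Matrix.mul_apply, Matrix.mul_apply, map_sum, Finset.mul_sum]
    refine Finset.sum_congr rfl fun j _ => ?_
    rw [map_mul]
    have h3 : φ (B j i') = (b : R) • B0 j i' := hv (j, i')
    rw [h3, Algebra.smul_def]
    simp only [A', Matrix.map_apply]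
    change φ (A i j) * (φ (b : R) * B0 j i') = φ (b : R) * (φ (A i j) * B0 j i')
    ring
  rw [h2, h1, Matrix.smul_apply, smul_eq_mul, map_mul]
  congr 1
  rw [Matrix.one_apply, Matrix.one_apply]
  split_ifs <;> simp

end Pool.Agent.Work.MP_2ad852_ag.GF

end

section

/-!
# Item LAright
-/

namespace Pool.Agent.Work.MP_2ad852_ag.GF

theorem pr_LAright (h : S_LAleft) : S_LAright := by
  intro R I J _ _ _ _ _ A hA
  obtain ⟨P, B, hP, hB⟩ := h R J I A.transpose (by
    intro v hv
    apply hA
    rw [Matrix.vecMul_transpose] at hv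
    exact hv)
  refine ⟨P, B.transpose, hP, ?_⟩
  have h1 := congrArg Matrix.transpose hB
  rw [Matrix.transpose_mul, Matrix.transpose_transpose, Matrix.transpose_smul,
    Matrix.transpose_one] at h1
  exact h1

end Pool.Agent.Work.MP_2ad852_ag.GF

end

section

namespace Pool.Agent.Work.MP_2ad852_ag.GF

open MvPolynomial Finset

/-- a column of the matrix evaluated on a functional -/
theorem MatL_col {ι : Type} [Fintype ι] {n : ℕ} {R : Type} [CommRing R] (z : Fin n) (k e : ℕ)
    (d : ι → ℕ) (f : ι → MvPolynomial (Fin n) R) (F : (Fin n →₀ ℕ) → R) (c : Cols z k e d) :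
    Matrix.vecMul (fun p : Rows z k e => F p.1) (mat z k e d f) c =
      fn z k e F (f c.1.1 * monomial c.2.1 1) := by
  unfold Matrix.vecMul dotProduct mat fn
  rw [← Finset.sum_coe_sort (Mk z k e)]
  exact Finset.sum_congr rfl fun p _ => mul_comm _ _

theorem pr_MatL : S_MatL := by
  intro ι _ n z k e d
  constructor
  · rintro ⟨v, hv, hvA⟩
    classical
    set F : (Fin n →₀ ℕ) → Rg ι n := fun p => if h : p ∈ Mk z k e then v ⟨p, h⟩ else 0 with hF
    have hFv : (fun p : Rows z k e => F p.1) = v := by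
      funext p
      simp [hF, p.2]
    refine ⟨F, ⟨?_, ?_⟩⟩
    · obtain ⟨p, hp⟩ := Function.ne_iff.1 hv
      refine ⟨p.1, p.2, ?_⟩
      rw [← hFv] at hp
      exact hp
    · intro l w
      apply fn_mul_of_monomial
      intro q
      by_cases hq : d l ≤ e ∧ q ∈ Mk z k (e - d l)
      · have h := MatL_col z k e d (gf (n := n) d) F ⟨⟨l, hq.1⟩, ⟨q, hq.2⟩⟩
        rw [hFv, hvA] at h
        exact h.symm
      · unfold fn
        refine Finset.sum_eq_zero fun p hp => ?_
        rw [coeff_mul_monomial']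
        split_ifs with hle
        · rw [coeff_gf, if_neg, zero_mul, zero_mul]
          intro hd
          apply hq
          rw [mem_Mk] at hp
          have h1 : ∑ i, p i = ∑ i, (p - q) i + ∑ i, q i := by
            rw [← Finset.sum_add_distrib]
            apply Finset.sum_congr rfl
            intro i _
            rw [Finsupp.tsub_apply]
            have := hle i
            omega
          have h2 : q z ≤ p z := hle z
          rw [mem_Mk]
          refine ⟨by omega, by omega, by omega⟩
        · rw [zero_mul]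
  · rintro ⟨F, hF⟩
    refine ⟨fun p => F p.1, ?_, ?_⟩
    · obtain ⟨p, hp, hFp⟩ := hF.ne
      intro h
      exact hFp (congrFun h ⟨p, hp⟩)
    · funext c
      rw [MatL_col]
      exact hF.kill _ _

end Pool.Agent.Work.MP_2ad852_ag.GF

end

section

/-!
# Item MatR: right kernel of the matrix and syzygies
-/

namespace Pool.Agent.Work.MP_2ad852_ag.GF

open MvPolynomial Finset

/-- coefficients of a product -/
theorem MatR_expand {n : ℕ} {R : Type} [CommRing R] (g a : MvPolynomial (Fin n) R)
    (p : Fin n →₀ ℕ) :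
    coeff p (g * a) = ∑ q ∈ a.support, coeff p (g * monomial q 1) * coeff q a := by
  conv_lhs => rw [a.as_sum, Finset.mul_sum, coeff_sum]
  refine Finset.sum_congr rfl fun q _ => ?_
  have h : (monomial q (coeff q a) : MvPolynomial (Fin n) R) = monomial q 1 * C (coeff q a) := by
    rw [mul_comm, C_mul_monomial, mul_one]
  rw [h, ← mul_assoc, mul_comm (g * monomial q 1), coeff_C_mul, mul_comm]

/-- sum over the columns -/
theorem MatR_cols {ι : Type} [Fintype ι] {n : ℕ} {R : Type} [CommRing R] (z : Fin n) (k e : ℕ)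
    (d : ι → ℕ) (G : ι → (Fin n →₀ ℕ) → R) :
    ∑ c : Cols z k e d, G c.1.1 c.2.1 =
      ∑ l : ι, if d l ≤ e then ∑ q ∈ Mk z k (e - d l), G l q else 0 := by
  classical
  rw [Fintype.sum_sigma, ← Finset.sum_filter,
    Finset.sum_subtype (p := fun l => d l ≤ e) (Finset.univ.filter fun l => d l ≤ e)
      (fun l => by simp)]
  refine Finset.sum_congr rfl fun l _ => ?_
  exact Finset.sum_coe_sort (Mk z k (e - d l.1)) (fun q => G l.1 q)

theorem pr_MatR : S_MatR := by
  classical
  intro ι _ n z k e d
  constructor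
  · rintro ⟨x, hx0, hx⟩
    obtain ⟨a, ha⟩ : ∃ a : ι → MvPolynomial (Fin n) (Rg ι n), ∀ l, a l =
        if h : d l ≤ e then ∑ q : {q : Fin n →₀ ℕ // q ∈ Mk z k (e - d l)},
          monomial q.1 (x ⟨⟨l, h⟩, q⟩) else 0 := ⟨_, fun l => rfl⟩
    have hco : ∀ (c : Cols z k e d), coeff c.2.1 (a c.1.1) = x c := by
      rintro ⟨⟨l, h⟩, q⟩
      rw [ha, dif_pos h, coeff_sum, Finset.sum_eq_single q]
      · rw [coeff_monomial, if_pos rfl]
      · intro b _ hb
        rw [coeff_monomial, if_neg]
        intro h'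
        exact hb (Subtype.ext h')
      · intro h'
        exact absurd (Finset.mem_univ _) h'
    have hco' : ∀ l (q : Fin n →₀ ℕ), q ∉ Mk z k (e - d l) → coeff q (a l) = 0 := by
      intro l q hq
      rw [ha]
      split_ifs with h
      · rw [coeff_sum]
        refine Finset.sum_eq_zero fun b _ => ?_
        rw [coeff_monomial, if_neg]
        rintro rfl
        exact hq b.2
      · rw [coeff_zero]
    refine ⟨a, ?_, ?_, ?_, ?_⟩
    · intro l
      rw [isHomogeneous_iff_Mt]
      intro p hp
      by_contra h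
      apply hp
      apply hco'
      intro h'
      exact h (mem_Mk.1 h').1
    · intro l hl
      rw [ha, dif_neg (by omega)]
    · intro p hp
      have h1 := congrFun hx ⟨p, hp⟩
      have h2 : ∑ c : Cols z k e d, coeff p (gf d c.1.1 * monomial c.2.1 1) *
          coeff c.2.1 (a c.1.1) = 0 := by
        refine Eq.trans (Finset.sum_congr rfl fun c _ => ?_) h1
        rw [hco]
        rfl
      rw [MatR_cols z k e d (fun l q => coeff p (gf d l * monomial q 1) * coeff q (a l))] at h2
      rw [coeff_sum, ← h2]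
      refine Finset.sum_congr rfl fun l _ => ?_
      split_ifs with h
      · rw [MatR_expand]
        refine Finset.sum_subset ?_ ?_
        · intro q hq
          by_contra h'
          exact (MvPolynomial.mem_support_iff.1 hq) (hco' l q h')
        · intro q _ hq
          rw [MvPolynomial.notMem_support_iff.1 hq, mul_zero]
      · rw [ha, dif_neg h, mul_zero, coeff_zero]
    · obtain ⟨c, hc⟩ := Function.ne_iff.1 hx0
      refine ⟨c.1.1, c.2.1, (mem_Mk.1 c.2.2).2, ?_⟩
      rw [hco]
      exact hc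
  · rintro ⟨a, ha⟩
    refine ⟨fun c => coeff c.2.1 (a c.1.1), ?_, ?_⟩
    · obtain ⟨l, p, hp, hne⟩ := ha.ne
      intro h0
      have hl : d l ≤ e := by
        by_contra h
        apply hne
        rw [ha.zero l (by omega), coeff_zero]
      have hp' : p ∈ Mk z k (e - d l) :=
        mem_Mk.2 ⟨(isHomogeneous_iff_Mt _ _).1 (ha.hom l) p hne, hp⟩
      exact hne (congrFun h0 ⟨⟨l, hl⟩, ⟨p, hp'⟩⟩)
    · funext p
      have h1 : ∑ c : Cols z k e d, coeff p.1 (gf d c.1.1 * monomial c.2.1 1) *
          coeff c.2.1 (a c.1.1) = 0 := by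
        rw [MatR_cols z k e d (fun l q => coeff p.1 (gf d l * monomial q 1) * coeff q (a l))]
        refine Eq.trans ?_ (ha.kill p.1 p.2)
        rw [coeff_sum]
        refine Finset.sum_congr rfl fun l _ => ?_
        split_ifs with h
        · rw [MatR_expand]
          have e1 : ∑ q ∈ (a l).support, coeff p.1 (gf d l * monomial q 1) * coeff q (a l) =
              ∑ q ∈ (a l).support ∩ Mk z k (e - d l),
                coeff p.1 (gf d l * monomial q 1) * coeff q (a l) := by
            symm
            refine Finset.sum_subset Finset.inter_subset_left ?_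
            intro q hq hq'
            rw [Finset.mem_inter, not_and] at hq'
            have h3 := hq' hq
            have h4 : ∑ i, q i = e - d l :=
              (isHomogeneous_iff_Mt _ _).1 (ha.hom l) q (MvPolynomial.mem_support_iff.1 hq)
            have h5 : ¬ q z < k := fun h5 => h3 (mem_Mk.2 ⟨h4, h5⟩)
            have h6 := (mem_Mk.1 p.2).2
            rw [coeff_mul_monomial', if_neg, zero_mul]
            intro h7
            have := h7 z
            omega
          have e2 : ∑ q ∈ Mk z k (e - d l), coeff p.1 (gf d l * monomial q 1) * coeff q (a l) =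
              ∑ q ∈ (a l).support ∩ Mk z k (e - d l),
                coeff p.1 (gf d l * monomial q 1) * coeff q (a l) := by
            symm
            refine Finset.sum_subset Finset.inter_subset_right ?_
            intro q hq hq'
            rw [Finset.mem_inter, not_and'] at hq'
            rw [MvPolynomial.notMem_support_iff.1 (hq' hq), mul_zero]
          rw [e1, e2]
        · rw [ha.zero l (by omega), mul_zero, coeff_zero]
      exact h1

end Pool.Agent.Work.MP_2ad852_ag.GF

end

section

/-!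
# Surjectivity passes to higher degrees
-/

namespace Pool.Agent.Work.MP_2ad852_ag.GF

open MvPolynomial Finset

theorem exists_sub_exp {n : ℕ} (p : Fin n →₀ ℕ) (E : ℕ) (h : E ≤ ∑ i, p i) :
    ∃ p' : Fin n →₀ ℕ, p' ≤ p ∧ ∑ i, p' i = E := by
  induction E with
  | zero => exact ⟨0, zero_le, by simp⟩
  | succ E ih =>
    obtain ⟨p', hle, hs⟩ := ih (by omega)
    have : ∃ i, p' i < p i := by
      by_contra hcon
      push Not at hcon
      have : ∑ i, p i ≤ ∑ i, p' i := Finset.sum_le_sum fun i _ => hcon i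
      omega
    obtain ⟨i, hi⟩ := this
    refine ⟨p' + Finsupp.single i 1, ?_, ?_⟩
    · intro j
      rw [Finsupp.add_apply]
      by_cases hj : i = j
      · rw [← hj, Finsupp.single_eq_same]
        exact hi
      · rw [Finsupp.single_eq_of_ne' hj, add_zero]
        exact hle j
    · simp only [Finsupp.add_apply, Finset.sum_add_distrib, hs]
      simp [Finsupp.single_apply]

theorem pr_Mono : S_Mono := by
  intro ι n z k E e f hEe hS h hh
  have key : ∀ p : Fin n →₀ ℕ, coeff p h ≠ 0 →
      ∃ w ∈ Ideal.span (Set.range f), X z ^ k ∣ monomial p (coeff p h) - w := by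
    intro p hp
    have hs := (isHomogeneous_iff_Mt h e).1 hh p hp
    obtain ⟨p', hle, hp'⟩ := exists_sub_exp p E (by omega)
    have hhom : (monomial p' (1 : ℂ)).IsHomogeneous E := by
      refine isHomogeneous_monomial 1 ?_
      rw [← sum_eq_degree]
      exact hp'
    obtain ⟨w', hw', hdvd⟩ := hS _ hhom
    refine ⟨monomial (p - p') (coeff p h) * w', Ideal.mul_mem_left _ _ hw', ?_⟩
    have : monomial p (coeff p h) - monomial (p - p') (coeff p h) * w' =
        monomial (p - p') (coeff p h) * (monomial p' 1 - w') := by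
      rw [mul_sub, monomial_mul, tsub_add_cancel_of_le hle, mul_one]
    rw [this]
    exact Dvd.dvd.mul_left hdvd _
  have key2 : ∀ p : Fin n →₀ ℕ,
      ∃ w ∈ Ideal.span (Set.range f), X z ^ k ∣ monomial p (coeff p h) - w := by
    intro p
    by_cases hp : coeff p h = 0
    · exact ⟨0, Ideal.zero_mem _, by rw [hp]; simp⟩
    · exact key p hp
  choose W hW1 hW2 using key2
  refine ⟨∑ p ∈ h.support, W p, Ideal.sum_mem _ fun p _ => hW1 p, ?_⟩
  have : h - ∑ p ∈ h.support, W p = ∑ p ∈ h.support, (monomial p (coeff p h) - W p) := by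
    rw [Finset.sum_sub_distrib, ← h.as_sum]
  rw [this]
  exact Finset.dvd_sum fun p _ => hW2 p

end Pool.Agent.Work.MP_2ad852_ag.GF

end

section

/-!
# Item NMP: normalised matching property of multisets
-/

namespace Pool.Agent.Work.MP_2ad852_ag.GF

open MvPolynomial Finset

namespace NNMP

variable {n : ℕ}

/-- the shadow -/
def Sh (U : Finset (Fin n)) (t : ℕ) (H : Finset (Fin n →₀ ℕ)) : Finset (Fin n →₀ ℕ) :=
  (Finset.finsuppAntidiag U t).filter (fun q => ∃ p ∈ H, q ≤ p)

theorem mem_Sh {U : Finset (Fin n)} {t : ℕ} {H : Finset (Fin n →₀ ℕ)} {q : Fin n →₀ ℕ} :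
    q ∈ Sh U t H ↔ q ∈ Finset.finsuppAntidiag U t ∧ ∃ p ∈ H, q ≤ p := by
  simp [Sh]

theorem sub_mem {U : Finset (Fin n)} {t : ℕ} {p : Fin n →₀ ℕ} {j : Fin n} (hj : j ∈ U)
    (hp : p ∈ Finset.finsuppAntidiag U (t + 1)) (h1 : 1 ≤ p j) :
    p - Finsupp.single j 1 ∈ Finset.finsuppAntidiag U t := by
  rw [Finset.mem_finsuppAntidiag] at hp ⊢
  constructor
  · have h2 : p - Finsupp.single j 1 + Finsupp.single j 1 = p := by
      apply tsub_add_cancel_of_le
      rw [Finsupp.single_le_iff]
      exact h1
    have h3 : ∑ i ∈ U, ((p - Finsupp.single j 1 : Fin n →₀ ℕ) i +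
        (Finsupp.single j 1 : Fin n →₀ ℕ) i) = t + 1 := by
      rw [← hp.1]
      apply Finset.sum_congr rfl
      intro i _
      rw [← Finsupp.add_apply, h2]
    rw [Finset.sum_add_distrib] at h3
    have h4 : ∑ i ∈ U, (Finsupp.single j 1 : Fin n →₀ ℕ) i = 1 := by
      rw [Finset.sum_eq_single_of_mem j hj]
      · simp
      · intro b _ hb
        simp [Ne.symm hb]
    rw [h4] at h3
    exact Nat.add_right_cancel h3
  · intro i hi
    apply hp.2
    rw [Finsupp.mem_support_iff] at hi ⊢
    intro h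
    apply hi
    simp [h]

theorem add_mem {U : Finset (Fin n)} {t : ℕ} {q : Fin n →₀ ℕ} {j : Fin n} (hj : j ∈ U)
    (hq : q ∈ Finset.finsuppAntidiag U t) :
    q + Finsupp.single j 1 ∈ Finset.finsuppAntidiag U (t + 1) := by
  rw [Finset.mem_finsuppAntidiag] at hq ⊢
  constructor
  · have h0 : U.sum ⇑(q + (Finsupp.single j 1 : Fin n →₀ ℕ)) =
        U.sum ⇑q + ∑ i ∈ U, (Finsupp.single j 1 : Fin n →₀ ℕ) i := by
      rw [← Finset.sum_add_distrib]
      rfl
    rw [h0, hq.1]
    congr 1
    rw [Finset.sum_eq_single_of_mem j hj]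
    · simp
    · intro b _ hb
      simp [Ne.symm hb]
  · intro i hi
    rw [Finsupp.mem_support_iff] at hi
    by_cases hij : i = j
    · rw [hij]; exact hj
    · apply hq.2
      rw [Finsupp.mem_support_iff]
      intro h
      apply hi
      simp [h, Ne.symm hij]

theorem low_j {U : Finset (Fin n)} {t : ℕ} {H : Finset (Fin n →₀ ℕ)}
    (hH : H ⊆ Finset.finsuppAntidiag U (t + 1)) {j : Fin n} (hj : j ∈ U) :
    ∑ p ∈ H, p j ≤ ∑ q ∈ Sh U t H, (q j + 1) := by
  classical
  have h1 : ∑ p ∈ H, p j = ∑ p ∈ H.filter (fun p => 1 ≤ p j), p j := by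
    rw [Finset.sum_filter]
    apply Finset.sum_congr rfl
    intro p _
    split_ifs with h
    · rfl
    · omega
  rw [h1]
  have hinj : Set.InjOn (fun p : Fin n →₀ ℕ => p - Finsupp.single j 1)
      (H.filter (fun p => 1 ≤ p j) : Finset (Fin n →₀ ℕ)) := by
    intro p hp p' hp' he
    have e1 : p - Finsupp.single j 1 + Finsupp.single j 1 = p := by
      apply tsub_add_cancel_of_le
      rw [Finsupp.single_le_iff]
      exact (Finset.mem_filter.mp hp).2
    have e2 : p' - Finsupp.single j 1 + Finsupp.single j 1 = p' := by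
      apply tsub_add_cancel_of_le
      rw [Finsupp.single_le_iff]
      exact (Finset.mem_filter.mp hp').2
    simp only at he
    rw [← e1, ← e2, he]
  have h2 : ∑ p ∈ H.filter (fun p => 1 ≤ p j), p j =
      ∑ q ∈ (H.filter (fun p => 1 ≤ p j)).image (fun p => p - Finsupp.single j 1), (q j + 1) := by
    rw [Finset.sum_image hinj]
    apply Finset.sum_congr rfl
    intro p hp
    have h3 := (Finset.mem_filter.mp hp).2
    simp only [Finsupp.coe_tsub, Pi.sub_apply, Finsupp.single_eq_same]
    omega
  rw [h2]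
  apply Finset.sum_le_sum_of_subset
  intro q hq
  rw [Finset.mem_image] at hq
  obtain ⟨p, hp, rfl⟩ := hq
  rw [Finset.mem_filter] at hp
  rw [mem_Sh]
  exact ⟨sub_mem hj (hH hp.1) hp.2, p, hp.1, tsub_le_self⟩

theorem up_j {U : Finset (Fin n)} {t : ℕ} {j : Fin n} (hj : j ∈ U) :
    ∑ q ∈ Finset.finsuppAntidiag U t, (q j + 1) ≤ ∑ p ∈ Finset.finsuppAntidiag U (t + 1), p j := by
  classical
  have hinj : Set.InjOn (fun q : Fin n →₀ ℕ => q + Finsupp.single j 1)
      (Finset.finsuppAntidiag U t : Finset (Fin n →₀ ℕ)) := by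
    intro q _ q' _ he
    exact add_right_cancel he
  have h2 : ∑ q ∈ Finset.finsuppAntidiag U t, (q j + 1) =
      ∑ p ∈ (Finset.finsuppAntidiag U t).image (fun q => q + Finsupp.single j 1), p j := by
    rw [Finset.sum_image hinj]
    apply Finset.sum_congr rfl
    intro q _
    simp
  rw [h2]
  apply Finset.sum_le_sum_of_subset
  intro p hp
  rw [Finset.mem_image] at hp
  obtain ⟨q, hq, rfl⟩ := hp
  exact add_mem hj hq

theorem low {U : Finset (Fin n)} {t : ℕ} {H : Finset (Fin n →₀ ℕ)}
    (hH : H ⊆ Finset.finsuppAntidiag U (t + 1)) :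
    H.card * (t + 1) ≤ (Sh U t H).card * (t + U.card) := by
  have h1 : ∑ j ∈ U, ∑ p ∈ H, p j = H.card * (t + 1) := by
    rw [Finset.sum_comm, Finset.sum_const_nat]
    intro p hp
    exact (Finset.mem_finsuppAntidiag.mp (hH hp)).1
  have h2 : ∑ j ∈ U, ∑ q ∈ Sh U t H, (q j + 1) = (Sh U t H).card * (t + U.card) := by
    rw [Finset.sum_comm, Finset.sum_const_nat]
    intro q hq
    rw [Finset.sum_add_distrib, (Finset.mem_finsuppAntidiag.mp (mem_Sh.mp hq).1).1]
    simp
  rw [← h1, ← h2]
  exact Finset.sum_le_sum fun j hj => low_j hH hj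

theorem up (U : Finset (Fin n)) (t : ℕ) :
    (Finset.finsuppAntidiag U t).card * (t + U.card) ≤
      (Finset.finsuppAntidiag U (t + 1)).card * (t + 1) := by
  have h1 : ∑ j ∈ U, ∑ p ∈ Finset.finsuppAntidiag U (t + 1), p j =
      (Finset.finsuppAntidiag U (t + 1)).card * (t + 1) := by
    rw [Finset.sum_comm, Finset.sum_const_nat]
    intro p hp
    exact (Finset.mem_finsuppAntidiag.mp hp).1
  have h2 : ∑ j ∈ U, ∑ q ∈ Finset.finsuppAntidiag U t, (q j + 1) =
      (Finset.finsuppAntidiag U t).card * (t + U.card) := by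
    rw [Finset.sum_comm, Finset.sum_const_nat]
    intro q hq
    rw [Finset.sum_add_distrib, (Finset.mem_finsuppAntidiag.mp hq).1]
    simp
  rw [← h1, ← h2]
  exact Finset.sum_le_sum fun j hj => up_j hj

theorem one {U : Finset (Fin n)} {t : ℕ} {H : Finset (Fin n →₀ ℕ)}
    (hH : H ⊆ Finset.finsuppAntidiag U (t + 1)) :
    H.card * (Finset.finsuppAntidiag U t).card ≤
      (Sh U t H).card * (Finset.finsuppAntidiag U (t + 1)).card := by
  have h1 := low hH
  have h2 := up U t
  have h3 : H.card * (Finset.finsuppAntidiag U t).card * (t + 1) ≤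
      (Sh U t H).card * (Finset.finsuppAntidiag U (t + 1)).card * (t + 1) := by
    calc H.card * (Finset.finsuppAntidiag U t).card * (t + 1)
        = (H.card * (t + 1)) * (Finset.finsuppAntidiag U t).card := by ring
      _ ≤ ((Sh U t H).card * (t + U.card)) * (Finset.finsuppAntidiag U t).card :=
          Nat.mul_le_mul_right _ h1
      _ = (Sh U t H).card * ((Finset.finsuppAntidiag U t).card * (t + U.card)) := by ring
      _ ≤ (Sh U t H).card * ((Finset.finsuppAntidiag U (t + 1)).card * (t + 1)) :=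
          Nat.mul_le_mul_left _ h2
      _ = _ := by ring
  exact Nat.le_of_mul_le_mul_right h3 (Nat.succ_pos t)

theorem main (U : Finset (Fin n)) (t h : ℕ) (hth : t ≤ h) :
    ∀ H : Finset (Fin n →₀ ℕ), H ⊆ Finset.finsuppAntidiag U h →
    H.card * (Finset.finsuppAntidiag U t).card ≤
      (Sh U t H).card * (Finset.finsuppAntidiag U h).card := by
  induction h, hth using Nat.le_induction with
  | base =>
    intro H hH
    apply Nat.mul_le_mul_right
    apply Finset.card_le_card
    intro q hq
    rw [mem_Sh]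
    exact ⟨hH hq, q, hq, le_rfl⟩
  | succ h hth ih =>
    intro H hH
    rcases Nat.eq_zero_or_pos (Finset.finsuppAntidiag U h).card with h0 | h0
    · have h1 := up U h
      have h2 := one hH
      have hHe : H = ∅ := by
        by_contra hne
        obtain ⟨p, hp⟩ := Finset.nonempty_iff_ne_empty.mpr hne
        have hp' := hH hp
        have hsum := (Finset.mem_finsuppAntidiag.mp hp').1
        have : ∃ j ∈ U, 1 ≤ p j := by
          by_contra hcon
          push Not at hcon
          have h5 : U.sum ⇑p = 0 := by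
            apply Finset.sum_eq_zero
            intro i hi
            have := hcon i hi
            omega
          rw [h5] at hsum
          omega
        obtain ⟨j, hj, hpj⟩ := this
        have h3 := sub_mem hj hp' hpj
        rw [Finset.card_eq_zero] at h0
        rw [h0] at h3
        exact absurd h3 (Finset.notMem_empty _)
      rw [hHe]
      simp
    · have h1 := one hH
      have h2 := ih (Sh U h H) (Finset.filter_subset _ _)
      have h3 : (Sh U t (Sh U h H)).card ≤ (Sh U t H).card := by
        apply Finset.card_le_card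
        intro q hq
        rw [mem_Sh] at hq ⊢
        obtain ⟨hq1, p', hp', hqp⟩ := hq
        obtain ⟨_, p, hp, hpp⟩ := mem_Sh.mp hp'
        exact ⟨hq1, p, hp, hqp.trans hpp⟩
      refine Nat.le_of_mul_le_mul_right ?_ h0
      calc H.card * (Finset.finsuppAntidiag U t).card * (Finset.finsuppAntidiag U h).card
          = (H.card * (Finset.finsuppAntidiag U h).card) * (Finset.finsuppAntidiag U t).card := by
            ring
        _ ≤ ((Sh U h H).card * (Finset.finsuppAntidiag U (h + 1)).card) *
            (Finset.finsuppAntidiag U t).card := Nat.mul_le_mul_right _ h1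
        _ = ((Sh U h H).card * (Finset.finsuppAntidiag U t).card) *
            (Finset.finsuppAntidiag U (h + 1)).card := by ring
        _ ≤ ((Sh U t (Sh U h H)).card * (Finset.finsuppAntidiag U h).card) *
            (Finset.finsuppAntidiag U (h + 1)).card := Nat.mul_le_mul_right _ h2
        _ ≤ ((Sh U t H).card * (Finset.finsuppAntidiag U h).card) *
            (Finset.finsuppAntidiag U (h + 1)).card :=
            Nat.mul_le_mul_right _ (Nat.mul_le_mul_right _ h3)
        _ = _ := by ring

end NNMP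

theorem pr_NMP : S_NMP := by
  intro n U t h H hth hH
  exact NNMP.main U t h hth H hH

end Pool.Agent.Work.MP_2ad852_ag.GF

end

section

/-!
# The item Num
-/

namespace Pool.Agent.Work.MP_2ad852_ag.GF

open MvPolynomial Finset

namespace Num

theorem asc_le (E g ρ : ℕ) (hρ : 1 ≤ ρ) (h : E + 1 ≤ ρ * (g + 1)) (k : ℕ) :
    (E + 1).ascFactorial k ≤ ρ ^ k * (g + 1).ascFactorial k := by
  induction k with
  | zero => simp
  | succ k ih =>
    rw [Nat.ascFactorial_succ, Nat.ascFactorial_succ, pow_succ]
    have h1 : E + 1 + k ≤ ρ * (g + 1 + k) := by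
      have : k ≤ ρ * k := Nat.le_mul_of_pos_left k hρ
      calc E + 1 + k ≤ ρ * (g + 1) + ρ * k := by omega
        _ = ρ * (g + 1 + k) := by ring
    calc (E + 1 + k) * (E + 1).ascFactorial k
        ≤ (ρ * (g + 1 + k)) * (ρ ^ k * (g + 1).ascFactorial k) := Nat.mul_le_mul h1 ih
      _ = ρ ^ k * ρ * ((g + 1 + k) * (g + 1).ascFactorial k) := by ring

theorem choose_le (E g ρ : ℕ) (hρ : 1 ≤ ρ) (h : E + 1 ≤ ρ * (g + 1)) (k : ℕ) :
    (E + k).choose k ≤ ρ ^ k * (g + k).choose k := by
  have h1 := asc_le E g ρ hρ h k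
  rw [Nat.ascFactorial_eq_factorial_mul_choose, Nat.ascFactorial_eq_factorial_mul_choose] at h1
  have h2 : k.factorial * (E + k).choose k ≤ k.factorial * (ρ ^ k * (g + k).choose k) := by
    calc _ ≤ _ := h1
      _ = _ := by ring
  exact Nat.le_of_mul_le_mul_left h2 (Nat.factorial_pos k)

theorem card_Mt (n t : ℕ) : (Mt (n + 1) t).card = (t + n).choose n := by
  unfold Mt
  rw [Finset.card_finsuppAntidiag_nat_eq_choose]
  simp only [Finset.card_univ, Fintype.card_fin]
  rw [show n + 1 + t - 1 = t + n by omega]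
  exact Nat.choose_symm_add

end Num

theorem pr_Num : S_Num := by
  intro n ρ hn hρ
  obtain ⟨n, rfl⟩ : ∃ m, n = m + 1 := ⟨n - 1, by omega⟩
  refine ⟨ρ ^ n, fun δ _ => ?_⟩
  rw [Num.card_Mt, Num.card_Mt]
  refine Num.choose_le _ _ ρ (by omega) ?_ n
  obtain ⟨σ, rfl⟩ : ∃ m, ρ = m + 2 := ⟨ρ - 2, by omega⟩
  have h1 : δ < δ / (σ + 2 - 1) * (σ + 2 - 1) + (σ + 2 - 1) :=
    Nat.lt_div_mul_add (by omega)
  rw [show σ + 2 - 1 = σ + 1 by omega] at h1 ⊢
  have h2 : (σ + 2) * (δ / (σ + 1) + 1) =
      δ / (σ + 1) * (σ + 1) + (σ + 1) + δ / (σ + 1) + 1 := by ring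
  omega

end Pool.Agent.Work.MP_2ad852_ag.GF

end

section

/-!
# Block GF, items OpenL and helper lemmas (shared with OpenR)
-/

namespace Pool.Agent.Work.MP_2ad852_ag.GF

open MvPolynomial Finset

theorem Xpow_dvd_of_exps {n : ℕ} {R : Type} [CommRing R] (z : Fin n) (k : ℕ)
    (u : MvPolynomial (Fin n) R) (h : ∀ p, coeff p u ≠ 0 → k ≤ p z) : X z ^ k ∣ u := by
  rw [u.as_sum]
  refine Finset.dvd_sum fun p hp => ?_
  have hk : k ≤ p z := h p (mem_support_iff.1 hp)
  refine ⟨monomial (p - Finsupp.single z k) (coeff p u), ?_⟩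
  rw [X_pow_eq_monomial, monomial_mul, one_mul, add_tsub_cancel_of_le]
  exact Finsupp.single_le_iff.2 hk

theorem coeff_eq_zero_of_Xpow_dvd {n : ℕ} {R : Type} [CommRing R] (z : Fin n) (k : ℕ)
    (u : MvPolynomial (Fin n) R) (h : X z ^ k ∣ u) (p : Fin n →₀ ℕ) (hp : p z < k) :
    coeff p u = 0 := by
  obtain ⟨v, rfl⟩ := h
  rw [X_pow_eq_monomial, coeff_monomial_mul', if_neg]
  intro hle
  exact absurd (Finsupp.single_le_iff.1 hle) (by omega)

/-- specialisation of the matrix of the generic forms -/
theorem mat_sf {ι : Type} {n : ℕ} (z : Fin n) (k e : ℕ) (d : ι → ℕ)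
    (c : ι × (Fin n →₀ ℕ) → ℂ) :
    (mat z k e d (gf (n := n) d)).map (eval c) = mat z k e d (sf d c) := by
  ext p q
  have h : sf d c q.1.1 * monomial q.2.1 1 =
      MvPolynomial.map (MvPolynomial.eval c) (gf (n := n) d q.1.1 * monomial q.2.1 1) := by
    rw [map_mul, map_gf, MvPolynomial.map_monomial, map_one (MvPolynomial.eval c)]
  simp only [Matrix.map_apply, mat]
  rw [h, coeff_map]

theorem pr_OpenL (hM : S_MatL) (hL : S_LAleft) : S_OpenL := by
  classical
  intro ι _ n z k e d hLK
  have hker : ∀ v : Rows z k e → Rg ι n,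
      Matrix.vecMul v (mat z k e d (gf (n := n) d)) = 0 → v = 0 := by
    intro v hv
    by_contra hne
    exact hLK ((hM ι n z k e d).1 ⟨v, hne, hv⟩)
  obtain ⟨P, B, hP, hAB⟩ := hL (Rg ι n) (Rows z k e) (Cols z k e d) _ hker
  refine ⟨P, hP, fun c hc h hh => ?_⟩
  have hAB' : (mat z k e d (sf d c)) * (B.map (eval c)) =
      (eval c P) • (1 : Matrix (Rows z k e) (Rows z k e) ℂ) := by
    rw [← mat_sf, ← Matrix.map_mul, hAB]
    ext i j
    simp only [Matrix.map_apply, Matrix.smul_apply, smul_eq_mul, map_mul]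
    congr 1
    by_cases hij : i = j
    · subst hij; simp
    · simp [Matrix.one_apply_ne hij]
  set w : Rows z k e → ℂ := fun p => coeff p.1 h with hw
  set x : Cols z k e d → ℂ := (eval c P)⁻¹ • Matrix.mulVec (B.map (eval c)) w with hx
  have hAx : Matrix.mulVec (mat z k e d (sf d c)) x = w := by
    rw [hx, Matrix.mulVec_smul, Matrix.mulVec_mulVec, hAB', Matrix.smul_mulVec, Matrix.one_mulVec,
      smul_smul, inv_mul_cancel₀ hc, one_smul]
  set W : MvPolynomial (Fin n) ℂ :=
    ∑ q : Cols z k e d, C (x q) * (sf d c q.1.1 * monomial q.2.1 1) with hW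
  refine ⟨W, ?_, ?_⟩
  · rw [hW]
    refine Ideal.sum_mem _ fun q _ => ?_
    refine Ideal.mul_mem_left _ _ ?_
    refine Ideal.mul_mem_right _ _ ?_
    exact Ideal.subset_span ⟨q.1.1, rfl⟩
  · apply Xpow_dvd_of_exps
    intro p hp
    by_contra hlt
    push Not at hlt
    apply hp
    have hWhom : W.IsHomogeneous e := by
      rw [hW]
      refine MvPolynomial.IsHomogeneous.sum _ _ _ fun q _ => ?_
      have h1 : (sf d c q.1.1 * monomial q.2.1 (1 : ℂ)).IsHomogeneous (d q.1.1 + (e - d q.1.1)) := by
        refine (sf_hom d c q.1.1).mul ?_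
        rw [isHomogeneous_iff_Mt]
        intro p hp
        rw [coeff_monomial] at hp
        by_cases hqp : q.2.1 = p
        · rw [← hqp]
          exact (mem_Mk.1 q.2.2).1
        · rw [if_neg hqp] at hp
          exact absurd rfl hp
      have h2 : d q.1.1 + (e - d q.1.1) = e := Nat.add_sub_of_le q.1.2
      rw [h2] at h1
      have h3 := (isHomogeneous_C (Fin n) (x q)).mul h1
      rwa [zero_add] at h3
    by_cases hpe : ∑ i, p i = e
    · have hpm : p ∈ Mk z k e := mem_Mk.2 ⟨hpe, hlt⟩
      have h1 := congrFun hAx ⟨p, hpm⟩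
      rw [coeff_sub, hW, coeff_sum]
      have h2 : (∑ q : Cols z k e d, coeff p (C (x q) * (sf d c q.1.1 * monomial q.2.1 1))) =
          Matrix.mulVec (mat z k e d (sf d c)) x ⟨p, hpm⟩ := by
        rw [Matrix.mulVec, dotProduct]
        refine Finset.sum_congr rfl fun q _ => ?_
        rw [coeff_C_mul, mul_comm]
        rfl
      rw [h2, h1, hw]
      exact sub_self _
    · rw [coeff_sub]
      have h1 : coeff p h = 0 := by
        by_contra h0
        exact hpe ((isHomogeneous_iff_Mt h e).1 hh p h0)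
      have h2 : coeff p W = 0 := by
        by_contra h0
        exact hpe ((isHomogeneous_iff_Mt W e).1 hWhom p h0)
      rw [h1, h2, sub_zero]

end Pool.Agent.Work.MP_2ad852_ag.GF

end

section

namespace Pool.Agent.Work.MP_2ad852_ag.GF

open MvPolynomial Finset

theorem pr_Pull : S_Pull := by
  intro r n d P hP
  obtain ⟨c0, hc0⟩ : ∃ c0 : Fin r × (Fin n →₀ ℕ) → ℂ, eval c0 P ≠ 0 := by
    by_contra hcon
    push Not at hcon
    exact hP (MvPolynomial.funext fun x => by rw [hcon x, map_zero])
  -- the mixing of coefficients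
  obtain ⟨mix, hmix⟩ : ∃ mix : (Fin r × (Fin n →₀ ℕ) → ℂ) → (Fin r × (Fin n →₀ ℕ) → ℂ),
      ∀ c l b, mix c (l, b) = if ∑ i, b i = d l then c (l, b) else c0 (l, b) :=
    ⟨fun c p => if ∑ i, p.2 i = d p.1 then c p else c0 p, fun c l b => rfl⟩
  obtain ⟨P', hP'⟩ : ∃ P' : MvPolynomial (Fin r × (Fin n →₀ ℕ)) ℂ,
      ∀ c, eval c P' = eval (mix c) P := by
    refine ⟨bind₁ (fun p => if ∑ i, p.2 i = d p.1 then X p else C (c0 p)) P, fun c => ?_⟩
    rw [← MvPolynomial.coe_aeval_eq_eval, ← MvPolynomial.coe_aeval_eq_eval]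
    show aeval c (bind₁ _ P) = aeval (mix c) P
    rw [aeval_bind₁]
    congr 1
    apply MvPolynomial.algHom_ext
    rintro ⟨l, b⟩
    rw [aeval_X, aeval_X, hmix]
    simp only
    split_ifs with h
    · rw [aeval_X]
    · simp
  have hfc : ∀ c : Fin r × (Fin n →₀ ℕ) → ℂ,
      mix (fun p => (sf d c p.1).coeff p.2) = mix c := by
    intro c
    funext ⟨l, b⟩
    rw [hmix, hmix]
    split_ifs with h
    · simp only
      rw [coeff_sf, if_pos h]
    · rfl
  refine ⟨P', ⟨sf d c0, sf_hom d c0, ?_⟩, ?_⟩
  · rw [hP', hfc]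
    have : mix c0 = c0 := by
      funext ⟨l, b⟩
      rw [hmix]
      split_ifs <;> rfl
    rw [this]
    exact hc0
  · intro f hf hne
    refine ⟨mix (fun p => (f p.1).coeff p.2), ?_, ?_⟩
    · rw [← hP']
      exact hne
    · funext l
      ext p
      rw [coeff_sf]
      split_ifs with h
      · rw [hmix, if_pos h]
      · by_contra h0
        exact h ((isHomogeneous_iff_Mt (f l) (d l)).1 (hf l) p h0)

end Pool.Agent.Work.MP_2ad852_ag.GF

end

section

/-!
# The dichotomy: left and right kernels are not both nonzero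
-/

namespace Pool.Agent.Work.MP_2ad852_ag.GF

open MvPolynomial Finset

theorem Mk_mono {n : ℕ} {z : Fin n} {k t : ℕ} {p : Fin n →₀ ℕ} (h : p ∈ Mk z k t) : 1 ≤ k := by
  rw [mem_Mk] at h; omega

theorem LKw.one_le {ι : Type} {n : ℕ} {z : Fin n} {k e : ℕ} {d : ι → ℕ}
    {F : (Fin n →₀ ℕ) → Rg ι n} (h : LKw z k e d F) : 1 ≤ k := by
  obtain ⟨p, hp, _⟩ := h.ne
  exact Mk_mono hp

theorem caseA (hCore : S_Core) {ι : Type} [Fintype ι] {n : ℕ} {z : Fin n} {k e : ℕ} {d : ι → ℕ}
    {F : (Fin n →₀ ℕ) → Rg ι n} (hF : LKw z k e d F) (hn : (Mk z k e).card ≤ nC z k e d)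
    (hc : ∀ l, d l ≤ e → (Bad z k e (IsLead z k e F)).card * (Mk z k (e - d l)).card ≤
      (Std z k (e - d l) (IsLead z k e F)).card * (Mk z k e).card) : False := by
  have h1 := hCore ι n z k e d F hF
  have h2 : (Bad z k e (IsLead z k e F)).card * nC z k e d ≤
      (∑ l ∈ (Finset.univ : Finset ι).filter (fun l => d l ≤ e),
        (Std z k (e - d l) (IsLead z k e F)).card) * (Mk z k e).card := by
    unfold nC
    rw [Finset.mul_sum, Finset.sum_mul]
    exact Finset.sum_le_sum fun l hl => hc l (Finset.mem_filter.1 hl).2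
  have h3 : 0 < (Mk z k e).card := by
    obtain ⟨p, hp, _⟩ := hF.ne
    exact Finset.card_pos.2 ⟨p, hp⟩
  have h4 : (Bad z k e (IsLead z k e F)).card * (Mk z k e).card ≤
      (∑ l ∈ (Finset.univ : Finset ι).filter (fun l => d l ≤ e),
        (Std z k (e - d l) (IsLead z k e F)).card) * (Mk z k e).card :=
    le_trans (Nat.mul_le_mul_left _ hn) h2
  have h5 := Nat.le_of_mul_le_mul_right h4 h3
  omega

/-- the comparison in degree `0` -/
theorem comb_zero (hZ : S_LeadZero) {ι : Type} {n : ℕ} {z : Fin n} {k e : ℕ} {d : ι → ℕ}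
    {F : (Fin n →₀ ℕ) → Rg ι n} (hF : LKw z k e d F) :
    (Bad z k e (IsLead z k e F)).card * (Mk z k 0).card ≤
      (Std z k 0 (IsLead z k e F)).card * (Mk z k e).card := by
  have h0 : ¬ IsLead z k e F 0 := hZ n _ z k e F hF.ne
  have hk := hF.one_le
  have h1 : Mk z k 0 = {0} := by
    ext p
    rw [mem_Mk, Finset.mem_singleton]
    constructor
    · rintro ⟨h, _⟩
      rw [Finset.sum_eq_zero_iff] at h
      ext i
      exact h i (Finset.mem_univ i)
    · rintro rfl
      simp
      omega
  have h2 : Std z k 0 (IsLead z k e F) = {0} := by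
    classical
    ext p
    unfold Std
    rw [Finset.mem_filter, h1, Finset.mem_singleton]
    constructor
    · rintro ⟨h, _⟩
      exact h
    · rintro rfl
      exact ⟨rfl, h0⟩
  have h3 : (Bad z k e (IsLead z k e F)).card ≤ (Mk z k e).card := by
    classical
    unfold Bad
    exact Finset.card_filter_le _ _
  rw [h1, h2, Finset.card_singleton]
  omega

theorem RK_of_RKz {ι : Type} [Fintype ι] {n : ℕ} {z : Fin n} {k e : ℕ} {d : ι → ℕ}
    (h : RKz z k e d) : RK z k e d := by
  obtain ⟨a, ha, _⟩ := h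
  exact ⟨a, ha⟩

/-- square case -/
theorem LK_of_RK (hML : S_MatL) (hMR : S_MatR) (hCC : S_CardCols) (hSq : S_LASq)
    {ι : Type} [Fintype ι] {n : ℕ} {z : Fin n} {k e : ℕ} {d : ι → ℕ}
    (hn : nC z k e d = (Mk z k e).card) (h : RK z k e d) : LK z k e d := by
  rw [← hML]
  rw [← hMR] at h
  apply hSq _ _ _ _ _ h
  rw [hCC, hn]
  simp [Rows]

theorem RK_of_LK (hML : S_MatL) (hMR : S_MatR) (hCC : S_CardCols) (hLR : S_LALR)
    {ι : Type} [Fintype ι] {n : ℕ} {z : Fin n} {k e : ℕ} {d : ι → ℕ}
    (hn : (Mk z k e).card ≤ nC z k e d) (h : LK z k e d) : RK z k e d := by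
  rw [← hMR]
  rw [← hML] at h
  apply hLR _ _ _ _ _ h
  rw [hCC]
  simpa [Rows] using hn

/-- Case A of the proof, with enough columns -/
theorem free_of_card (hCore : S_Core) (hZ : S_LeadZero) (hAdd : S_LeadAdd) (hT : S_Terra)
    (hLS : S_LeadSyz) {n ρ : ℕ} (hn2 : 2 ≤ n)
    (hρ : ∀ (z : Fin n) (k e t m : ℕ) (L : (Fin n →₀ ℕ) → Prop)
      (μ : Fin n →₀ ℕ), 1 ≤ k → L μ → μ z = 0 → ∑ i, μ i = m → 1 ≤ t → t ≤ m → ρ * m ≤ e →
      (Bad z k e L).card * (Mk z k t).card ≤ (Std z k t L).card * (Mk z k e).card)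
    {ι : Type} [Fintype ι] {z : Fin n} {k e : ℕ} {d : ι → ℕ}
    (hd : ∀ l, d l ≤ e → ρ * (e - d l) ≤ e) (hn : (Mk z k e).card ≤ nC z k e d)
    (h1 : RKz z k e d) (h2 : LK z k e d) : False := by
  obtain ⟨F, hF⟩ := h2
  obtain ⟨a, ha, l0, p0, hp0, hp0'⟩ := h1
  have hann := hT ι n z k e d F a hF ha.hom ha.zero ha.kill l0
  have hl0 : d l0 ≤ e := by
    by_contra hcon
    rw [ha.zero l0 (by omega)] at hp0'
    exact hp0' (coeff_zero _)
  obtain ⟨μ0, hμz, hμs, hμL⟩ := hLS n _ z k e (e - d l0) F (a l0) (ha.hom l0) hann ⟨p0, hp0, hp0'⟩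
  have hk := hF.one_le
  refine caseA hCore hF hn fun l hl => ?_
  by_cases ht : e - d l = 0
  · rw [ht]
    exact comb_zero hZ hF
  · -- extend the leading exponent
    obtain ⟨i, hi⟩ : ∃ i : Fin n, i ≠ z := by
      have : Nontrivial (Fin n) := Fin.nontrivial_iff_two_le.2 hn2
      exact exists_ne z
    set M := max (e - d l0) (e - d l) with hM
    have hMle : ρ * M ≤ e := by
      rcases le_total (e - d l0) (e - d l) with h | h
      · rw [hM, max_eq_right h]; exact hd l hl
      · rw [hM, max_eq_left h]; exact hd l0 hl0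
    refine hρ z k e (e - d l) M (IsLead z k e F) (μ0 + Finsupp.single i (M - (e - d l0))) hk
      (hAdd _ _ _ _ _ _ _ _ hμL) ?_ ?_ (by omega) (le_max_right _ _) hMle
    · rw [Finsupp.add_apply, hμz, Finsupp.single_apply, if_neg hi, add_zero]
    · have : ∑ j, (μ0 + Finsupp.single i (M - (e - d l0))) j = ∑ j, μ0 j + (M - (e - d l0)) := by
        simp only [Finsupp.add_apply, Finset.sum_add_distrib]
        congr 1
        rw [Finset.sum_eq_single i]
        · simp
        · intro j _ hj
          rw [Finsupp.single_apply, if_neg (Ne.symm hj)]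
        · intro h; exact absurd (Finset.mem_univ i) h
      rw [this, hμs]
      have := le_max_left (e - d l0) (e - d l)
      omega

/-- Case A of the proof -/
theorem free_false (hCore : S_Core) (hZ : S_LeadZero) (hAdd : S_LeadAdd) (hT : S_Terra)
    (hLS : S_LeadSyz) (hML : S_MatL) (hMR : S_MatR) (hCC : S_CardCols) (hSq : S_LASq)
    (hExtR : S_ExtR) (hExtC : S_ExtC) {n ρ : ℕ} (hn2 : 2 ≤ n)
    (hρ : ∀ (z : Fin n) (k e t m : ℕ) (L : (Fin n →₀ ℕ) → Prop)
      (μ : Fin n →₀ ℕ), 1 ≤ k → L μ → μ z = 0 → ∑ i, μ i = m → 1 ≤ t → t ≤ m → ρ * m ≤ e →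
      (Bad z k e L).card * (Mk z k t).card ≤ (Std z k t L).card * (Mk z k e).card)
    {ι : Type} [Fintype ι] {z : Fin n} {k e : ℕ} {d : ι → ℕ}
    (hd : ∀ l, d l ≤ e → ρ * (e - d l) ≤ e)
    (h1 : RKz z k e d) (h2 : LK z k e d) : False := by
  by_cases hn : (Mk z k e).card ≤ nC z k e d
  · exact free_of_card hCore hZ hAdd hT hLS hn2 hρ hd hn h1 h2
  · have hk : 1 ≤ k := by
      obtain ⟨F, hF⟩ := h2
      exact hF.one_le
    set s := (Mk z k e).card - nC z k e d with hs
    have h3 : RKz z k e (Sum.elim d (fun _ : Fin s => e)) := hExtR ι n z k e s d h1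
    have h4 : nC z k e (Sum.elim d (fun _ : Fin s => e)) = (Mk z k e).card := by
      rw [hExtC ι n z k e s d hk]
      omega
    have h5 : LK z k e (Sum.elim d (fun _ : Fin s => e)) :=
      LK_of_RK hML hMR hCC hSq h4 (RK_of_RKz h3)
    refine free_of_card hCore hZ hAdd hT hLS hn2 hρ ?_ h4.ge h3 h5
    rintro (l | j) hl
    · exact hd l hl
    · simp

/-- the dichotomy -/
theorem dich (hCore : S_Core) (hZ : S_LeadZero) (hAdd : S_LeadAdd) (hT : S_Terra)
    (hLS : S_LeadSyz) (hML : S_MatL) (hMR : S_MatR) (hCC : S_CardCols) (hSq : S_LASq)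
    (hExtR : S_ExtR) (hExtC : S_ExtC) (hGA : S_GA) (hGB : S_GB) (hGC : S_GC)
    {n ρ : ℕ} (hn2 : 2 ≤ n) (hρ2 : 1 ≤ ρ)
    (hρ : ∀ (z : Fin n) (k e t m : ℕ) (L : (Fin n →₀ ℕ) → Prop)
      (μ : Fin n →₀ ℕ), 1 ≤ k → L μ → μ z = 0 → ∑ i, μ i = m → 1 ≤ t → t ≤ m → ρ * m ≤ e →
      (Bad z k e L).card * (Mk z k t).card ≤ (Std z k t L).card * (Mk z k e).card)
    {ι : Type} [Fintype ι] {z : Fin n} {d : ι → ℕ} (k : ℕ) :
    ∀ e : ℕ, (∀ l, d l ≤ e → ρ * (e - d l) ≤ e) → RK z k e d → LK z k e d → False := by
  induction k with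
  | zero =>
    intro e _ _ h2
    obtain ⟨F, hF⟩ := h2
    have := hF.one_le
    omega
  | succ k ih =>
    intro e hd h1 h2
    by_cases hz : RKz z (k + 1) e d
    · exact free_false hCore hZ hAdd hT hLS hML hMR hCC hSq hExtR hExtC hn2 hρ hd hz h2
    · obtain ⟨hk, he, h3⟩ := hGB ι n z (k + 1) e d h1 hz
      rw [Nat.add_sub_cancel] at h3
      have h4 : ¬ LK z k (e - 1) d := by
        intro h4
        refine ih (e - 1) (fun l hl => ?_) h3 h4
        have h5 := hd l (by omega)
        have h6 : e - d l = (e - 1 - d l) + 1 := by omega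
        rw [h6, Nat.mul_add] at h5
        omega
      have h5 : LK z 1 e d := hGC ι n z (k + 1) e d he h2 (by rwa [Nat.add_sub_cancel])
      have h6 : RK z 1 e d := hGA ι n z (k + 1) e d hn2 h1
      have h7 : RKz z 1 e d := by
        obtain ⟨a, ha⟩ := h6
        obtain ⟨l, p, hp, hp'⟩ := ha.ne
        exact ⟨a, ha, l, p, by omega, hp'⟩
      exact free_false hCore hZ hAdd hT hLS hML hMR hCC hSq hExtR hExtC hn2 hρ hd h7 h5

/-- the dichotomy for `k = 1` in a long range of degrees -/
theorem dich1 (hCore : S_Core) (hML : S_MatL) (hMR : S_MatR) (hCC : S_CardCols) (hSq : S_LASq)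
    (hExtR : S_ExtR) (hExtC : S_ExtC) (hU : S_CombU1)
    {n : ℕ} {ι : Type} [Fintype ι] {z : Fin n} {d : ι → ℕ} (e : ℕ)
    (hd : ∀ l, d l ≤ e → 2 * (e - d l) + n ≤ e + 2) (h1 : RK z 1 e d) (h2 : LK z 1 e d) :
    False := by
  have h7 : RKz z 1 e d := by
    obtain ⟨a, ha⟩ := h1
    obtain ⟨l, p, hp, hp'⟩ := ha.ne
    exact ⟨a, ha, l, p, by omega, hp'⟩
  by_cases hn : (Mk z 1 e).card ≤ nC z 1 e d
  · obtain ⟨F, hF⟩ := h2
    exact caseA hCore hF hn fun l hl => hU n z (e - d l) e _ (hd l hl)
  · set s := (Mk z 1 e).card - nC z 1 e d with hs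
    have h3 : RKz z 1 e (Sum.elim d (fun _ : Fin s => e)) := hExtR ι n z 1 e s d h7
    have h4 : nC z 1 e (Sum.elim d (fun _ : Fin s => e)) = (Mk z 1 e).card := by
      rw [hExtC ι n z 1 e s d le_rfl]
      omega
    have h5 : LK z 1 e (Sum.elim d (fun _ : Fin s => e)) :=
      LK_of_RK hML hMR hCC hSq h4 (RK_of_RKz h3)
    obtain ⟨F, hF⟩ := h5
    -- some original form has degree at most `e`
    obtain ⟨a, ha, l0, p0, hp0, hp0'⟩ := h7
    have hl0 : d l0 ≤ e := by
      by_contra hcon
      rw [ha.zero l0 (by omega)] at hp0'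
      exact hp0' (coeff_zero _)
    have h8 := hd l0 hl0
    refine caseA hCore hF h4.ge fun l hl => hU n z _ e _ ?_
    rcases l with l | j
    · exact hd l hl
    · simp only [Sum.elim_inr]
      omega

end Pool.Agent.Work.MP_2ad852_ag.GF

end
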