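import Mathlib
import Pool.Agent.Work.MP_2ad852_ag.Bd.B01
import Pool.Agent.Work.MP_2ad852_ag.GF.Stmts
import Pool.Agent.Work.MP_2ad852_ag.GS.Stmts

/-! Bundle of small proof modules (one section per former module). -/

section

/-!
# Surjectivity of the multiplication by `z ^ k` on the quotient
-/

namespace Pool.Agent.Work.MP_2ad852_ag.GF

open MvPolynomial Finset

theorem pr_FinSurj : S_FinSurj := by
  intro ι n z k i d f hf hS h hh
  obtain ⟨w, hw, g0, hg⟩ := hS h hh
  have h1 := congrArg (homogeneousComponent (i + k)) hg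
  rw [map_sub, homogeneousComponent_eq_self hh, hc_mul k i _ _ (X_pow_hom z k)] at h1
  refine ⟨homogeneousComponent i g0, homogeneousComponent_isHomogeneous i g0, ?_⟩
  have h2 : h - X z ^ k * homogeneousComponent i g0 = homogeneousComponent (i + k) w := by
    rw [← h1]; ring
  rw [h2]
  exact hc_mem d f hf w hw (i + k)

end Pool.Agent.Work.MP_2ad852_ag.GF

end

section

/-!
# Surjectivity in degree `E` modulo `z ^ (E + 1)` is surjectivity modulo every power
-/

namespace Pool.Agent.Work.MP_2ad852_ag.GF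

open MvPolynomial Finset

theorem pr_Full : S_Full := by
  intro ι n z k E d f hf hS h hh
  obtain ⟨w, hw, g, hg⟩ := hS h hh
  have h1 : homogeneousComponent E (h - w) = 0 := by
    rw [hg]
    exact hc_mul_lt (E + 1) E _ _ (X_pow_hom z (E + 1)) (Nat.lt_succ_self E)
  rw [map_sub, homogeneousComponent_eq_self hh] at h1
  refine ⟨homogeneousComponent E w, hc_mem d f hf w hw E, ?_⟩
  rw [h1]
  exact dvd_zero _

end Pool.Agent.Work.MP_2ad852_ag.GF

end

section

/-! Item LASq from item LALR applied to the transposed matrix. -/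

namespace Pool.Agent.Work.MP_2ad852_ag.GF

theorem pr_LASqB : S_LASq := by
  intro R I J _ _ _ _ A h hx
  obtain ⟨x, hx0, hx1⟩ := hx
  obtain ⟨v, hv0, hv1⟩ := pr_LALR R J I A.transpose h.ge ⟨x, hx0, by
    rw [Matrix.vecMul_transpose]; exact hx1⟩
  exact ⟨v, hv0, by rw [Matrix.mulVec_transpose] at hv1; exact hv1⟩

end Pool.Agent.Work.MP_2ad852_ag.GF

end

section

/-!
# Block GF, item OpenR
-/

namespace Pool.Agent.Work.MP_2ad852_ag.GF

open MvPolynomial Finset

theorem pr_OpenR (hM : S_MatR) (hL : S_LAright) : S_OpenR := by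
  classical
  intro ι _ n z k e d hRK
  have hker : ∀ x : Cols z k e d → Rg ι n,
      Matrix.mulVec (mat z k e d (gf (n := n) d)) x = 0 → x = 0 := by
    intro v hv
    by_contra hne
    exact hRK ((hM ι n z k e d).1 ⟨v, hne, hv⟩)
  obtain ⟨P, B, hP, hBA⟩ := hL (Rg ι n) (Rows z k e) (Cols z k e d) _ hker
  refine ⟨P, hP, fun c hc a hhom hzero hdvd => ?_⟩
  have hBA' : (B.map (eval c)) * (mat z k e d (sf d c)) =
      (eval c P) • (1 : Matrix (Cols z k e d) (Cols z k e d) ℂ) := by
    rw [← mat_sf, ← Matrix.map_mul, hBA]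
    ext i j
    simp only [Matrix.map_apply, Matrix.smul_apply, smul_eq_mul, map_mul]
    congr 1
    by_cases hij : i = j
    · subst hij; simp
    · simp [Matrix.one_apply_ne hij]
  set x : Cols z k e d → ℂ := fun q => coeff q.2.1 (a q.1.1) with hx
  -- the truncation of `a l`
  set tr : ι → MvPolynomial (Fin n) ℂ := fun l =>
    if d l ≤ e then ∑ q ∈ Mk z k (e - d l), monomial q (coeff q (a l)) else 0 with htr
  have htrunc : ∀ l, X z ^ k ∣ a l - tr l := by
    intro l
    apply Xpow_dvd_of_exps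
    intro p hp
    by_contra hlt
    push Not at hlt
    apply hp
    rw [coeff_sub]
    by_cases hde : d l ≤ e
    · by_cases hpe : ∑ i, p i = e - d l
      · have hpm : p ∈ Mk z k (e - d l) := mem_Mk.2 ⟨hpe, hlt⟩
        rw [htr]
        simp only [if_pos hde]
        rw [coeff_sum, Finset.sum_eq_single_of_mem p hpm]
        · rw [coeff_monomial, if_pos rfl, sub_self]
        · intro b _ hb
          rw [coeff_monomial, if_neg hb]
      · have h1 : coeff p (a l) = 0 := by
          by_contra h0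
          exact hpe ((isHomogeneous_iff_Mt _ _).1 (hhom l) p h0)
        rw [htr]
        simp only [if_pos hde]
        rw [coeff_sum, h1, Finset.sum_eq_zero, sub_zero]
        intro b hb
        rw [coeff_monomial, if_neg]
        rintro rfl
        exact hpe (mem_Mk.1 hb).1
    · rw [htr]
      simp only [if_neg hde]
      rw [hzero l (by omega)]
      simp
  have hAx : Matrix.mulVec (mat z k e d (sf d c)) x = 0 := by
    funext p
    have h1 : Matrix.mulVec (mat z k e d (sf d c)) x p =
        coeff p.1 (∑ l, sf d c l * tr l) := by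
      rw [Matrix.mulVec, dotProduct, coeff_sum, Fintype.sum_sigma]
      have h2 : ∀ l : ι, coeff p.1 (sf d c l * tr l) =
          if h : d l ≤ e then ∑ q : {q : Fin n →₀ ℕ // q ∈ Mk z k (e - d l)},
            (mat z k e d (sf d c)) p ⟨⟨l, h⟩, q⟩ * x ⟨⟨l, h⟩, q⟩ else 0 := by
        intro l
        by_cases hde : d l ≤ e
        · rw [dif_pos hde, htr]
          simp only [if_pos hde]
          rw [Finset.mul_sum, coeff_sum, ← Finset.sum_coe_sort]
          refine Finset.sum_congr rfl fun q _ => ?_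
          have h3 : sf d c l * monomial q.1 (coeff q.1 (a l)) =
              C (coeff q.1 (a l)) * (sf d c l * monomial q.1 1) := by
            have h4 : (monomial q.1 (coeff q.1 (a l)) : MvPolynomial (Fin n) ℂ) =
                C (coeff q.1 (a l)) * monomial q.1 1 := by
              rw [C_mul_monomial, mul_one]
            rw [h4]; ring
          rw [h3, coeff_C_mul, mul_comm]
          rfl
        · rw [dif_neg hde, htr]
          simp only [if_neg hde]
          rw [mul_zero, coeff_zero]
      rw [Finset.sum_congr rfl fun l _ => h2 l]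
      rw [Finset.sum_dite, Finset.sum_const_zero, add_zero]
      symm
      refine Finset.sum_bij' (fun l _ => ⟨l.1, (Finset.mem_filter.1 l.2).2⟩)
        (fun l _ => ⟨l.1, Finset.mem_filter.2 ⟨Finset.mem_univ _, l.2⟩⟩) ?_ ?_ ?_ ?_ ?_
      · intro l _; exact Finset.mem_univ _
      · intro l _; exact Finset.mem_attach _ _
      · intro l _; rfl
      · intro l _; rfl
      · intro l _; rfl
    rw [h1]
    have h2 : (∑ l, sf d c l * tr l) =
        (∑ l, sf d c l * a l) - ∑ l, sf d c l * (a l - tr l) := by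
      rw [← Finset.sum_sub_distrib]
      exact Finset.sum_congr rfl fun l _ => by ring
    have h3 : X z ^ k ∣ ∑ l, sf d c l * tr l := by
      rw [h2]
      exact dvd_sub hdvd (Finset.dvd_sum fun l _ => Dvd.dvd.mul_left (htrunc l) _)
    exact coeff_eq_zero_of_Xpow_dvd z k _ h3 p.1 (mem_Mk.1 p.2).2
  have hx0 : x = 0 := by
    have h1 : Matrix.mulVec ((B.map (eval c)) * (mat z k e d (sf d c))) x = 0 := by
      rw [← Matrix.mulVec_mulVec, hAx, Matrix.mulVec_zero]
    rw [hBA', Matrix.smul_mulVec, Matrix.one_mulVec] at h1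
    rcases smul_eq_zero.1 h1 with h2 | h2
    · exact absurd h2 hc
    · exact h2
  intro l
  apply Xpow_dvd_of_exps
  intro q hq
  by_contra hlt
  push Not at hlt
  by_cases hde : d l ≤ e
  · have hqe : ∑ i, q i = e - d l := (isHomogeneous_iff_Mt _ _).1 (hhom l) q hq
    have hqm : q ∈ Mk z k (e - d l) := mem_Mk.2 ⟨hqe, hlt⟩
    have h1 := congrFun hx0 ⟨⟨l, hde⟩, ⟨q, hqm⟩⟩
    exact hq h1
  · rw [hzero l (by omega)] at hq
    exact hq (coeff_zero q)

end Pool.Agent.Work.MP_2ad852_ag.GF

end

section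

/-!
# Item BadLe: the bad monomials in one row and level
-/

set_option autoImplicit false

namespace Pool.Agent.Work.MP_2ad852_ag.GS

open MvPolynomial Finset Pool.Agent.Work.MP_2ad852_ag.GF

theorem BadLe_sub {n : ℕ} (f : Fin n →₀ ℕ) (t : ℕ) (h : t ≤ ∑ i, f i) :
    ∃ e : Fin n →₀ ℕ, e ≤ f ∧ ∑ i, e i = t := by
  induction t with
  | zero => exact ⟨0, by simp, by simp⟩
  | succ t ih =>
    obtain ⟨e, he, hs⟩ := ih (by omega)
    have : ∃ i, e i < f i := by
      by_contra hcon
      simp only [not_exists, not_lt] at hcon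
      have := Finset.sum_le_sum (fun i (_ : i ∈ Finset.univ) => hcon i)
      omega
    obtain ⟨i, hi⟩ := this
    refine ⟨e + Finsupp.single i 1, ?_, ?_⟩
    · intro x
      rw [Finsupp.add_apply, Finsupp.single_apply]
      split_ifs with hx
      · subst hx; omega
      · have := he x; omega
    · simp only [Finsupp.add_apply, Finset.sum_add_distrib, hs, Finsupp.single_apply]
      simp

theorem BadLe_ex {n : ℕ} {z y : Fin n} {L : (Fin n →₀ ℕ) → Prop} (hL : Closed z y L) :
    ∀ (t : ℕ) (e q : Fin n →₀ ℕ), ∑ i, e i = t → e z = 0 → e y = 0 →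
      L (q + Finsupp.single y t) → L (q + e) := by
  intro t
  induction t with
  | zero =>
    intro e q he _ _ hq
    have h0 : e = 0 := by
      ext x
      have := Finset.sum_eq_zero_iff.1 he x (mem_univ x)
      simpa using this
    subst h0
    simpa using hq
  | succ t ih =>
    intro e q he hz hy hq
    have hex : ∃ x, e x ≠ 0 := by
      by_contra hcon
      simp only [not_exists, not_not] at hcon
      rw [Finset.sum_eq_zero (fun i _ => hcon i)] at he
      omega
    obtain ⟨x, hx⟩ := hex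
    have hxz : x ≠ z := fun h => hx (h ▸ hz)
    have hxy : x ≠ y := fun h => hx (h ▸ hy)
    have h1 := hL.ex (q + Finsupp.single y (t + 1)) x hq hxy hxz (by simp; omega)
    have e1 : q + Finsupp.single y (t + 1) - Finsupp.single y 1 + Finsupp.single x 1 =
        (q + Finsupp.single x 1) + Finsupp.single y t := by
      ext i
      simp only [Finsupp.add_apply, Finsupp.tsub_apply, Finsupp.single_apply]
      split_ifs <;> omega
    rw [e1] at h1
    have e2 : q + e = (q + Finsupp.single x 1) + (e - Finsupp.single x 1) := by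
      ext i
      simp only [Finsupp.add_apply, Finsupp.tsub_apply, Finsupp.single_apply]
      split_ifs with h
      · subst h; omega
      · omega
    rw [e2]
    refine ih (e - Finsupp.single x 1) (q + Finsupp.single x 1) ?_ ?_ ?_ h1
    · have e3 : e = (e - Finsupp.single x 1) + Finsupp.single x 1 := by
        ext i
        simp only [Finsupp.add_apply, Finsupp.tsub_apply, Finsupp.single_apply]
        split_ifs with h
        · subst h; omega
        · omega
      have e4 : ∑ i, e i = ∑ i, (e - Finsupp.single x 1 : Fin n →₀ ℕ) i + 1 := by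
        conv_lhs => rw [e3]
        simp only [Finsupp.add_apply, Finset.sum_add_distrib, Finsupp.single_apply]
        simp
      omega
    · simp [hz]
    · simp [hy]

/-- sum over all variables -/
theorem BadLe_sum {n : ℕ} {z y : Fin n} (hyz : y ≠ z) (f : Fin n → ℕ) :
    ∑ i, f i = f z + f y + ∑ x ∈ TT z y, f x := by
  have h1 := Finset.add_sum_erase (Finset.univ : Finset (Fin n)) f (mem_univ z)
  have h2 := Finset.add_sum_erase ((Finset.univ : Finset (Fin n)).erase z) f
    (Finset.mem_erase.2 ⟨hyz, mem_univ y⟩)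
  rw [TT]
  omega

theorem BadLe_mem_TT {n : ℕ} {z y x : Fin n} : x ∈ TT z y ↔ x ≠ y ∧ x ≠ z := by
  simp [TT]

theorem BadLe_mem_MT {n : ℕ} {z y : Fin n} {a : ℕ} {c : Fin n →₀ ℕ} (hyz : y ≠ z) :
    c ∈ MT z y a ↔ ∑ i, c i = a ∧ c z = 0 ∧ c y = 0 := by
  rw [MT, Finset.mem_finsuppAntidiag, BadLe_sum hyz]
  constructor
  · rintro ⟨h1, h2⟩
    have hz : c z = 0 := by
      by_contra h
      have := BadLe_mem_TT.1 (h2 (Finsupp.mem_support_iff.2 h))
      exact this.2 rfl
    have hy : c y = 0 := by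
      by_contra h
      have := BadLe_mem_TT.1 (h2 (Finsupp.mem_support_iff.2 h))
      exact this.1 rfl
    refine ⟨?_, hz, hy⟩
    rw [hz, hy, zero_add, zero_add]
    exact h1
  · rintro ⟨h1, hz, hy⟩
    rw [hz, hy, zero_add, zero_add] at h1
    refine ⟨h1, fun x hx => ?_⟩
    rw [Finsupp.mem_support_iff] at hx
    rw [BadLe_mem_TT]
    exact ⟨fun h => hx (h ▸ hy), fun h => hx (h ▸ hz)⟩

/-- the half of a monomial in the other variables -/
noncomputable def BadLe_half {n : ℕ} (z y : Fin n) (p : Fin n →₀ ℕ) : Fin n →₀ ℕ :=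
  Finsupp.equivFunOnFinite.symm (fun x => if x ∈ TT z y then p x / 2 else 0)

theorem BadLe_half_apply {n : ℕ} (z y : Fin n) (p : Fin n →₀ ℕ) (x : Fin n) :
    BadLe_half z y p x = if x ∈ TT z y then p x / 2 else 0 := by
  simp [BadLe_half]

/-- the key of a fibre -/
def BadLe_key {n : ℕ} (z y x1 : Fin n) (p : Fin n →₀ ℕ) : ℕ × (Fin n → ℕ) :=
  (p y, fun x => if x ∈ (TT z y).erase x1 then p x % 2 else 0)

/-- the main claim -/
theorem BadLe_claim {n : ℕ} {z y : Fin n} {k s D i j : ℕ} {L : (Fin n →₀ ℕ) → Prop}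
    (hyz : y ≠ z) (hL : Closed z y L) (his : i ≤ s) (p : Fin n →₀ ℕ)
    (hp : p ∈ Bad2 z k (2 * s + D) L) (hW : Win s D k (p z) j)
    (c' : Fin n →₀ ℕ) (hc : c' ≤ BadLe_half z y p) (hc' : c' ∈ MT z y (s - max j i)) :
    c' ∈ cell z y s L j (max j i) := by
  classical
  rw [cell, Finset.mem_filter]
  refine ⟨hc', fun hLc => ?_⟩
  rw [Bad2, Finset.mem_filter, mem_Mk] at hp
  obtain ⟨⟨hdeg, -⟩, hno⟩ := hp
  obtain ⟨hW1, hW2, hW3, hW4⟩ := hW
  rw [BadLe_mem_MT hyz] at hc'
  obtain ⟨hc1, hc2, hc3⟩ := hc'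
  set i' := max j i with hi'
  have hji : j ≤ i' := le_max_left _ _
  have hi's : i' ≤ s := max_le hW4 his
  -- the rest
  set f : Fin n →₀ ℕ := Finsupp.equivFunOnFinite.symm
    (fun x => if x ∈ TT z y then p x - 2 * c' x else 0) with hf
  have hfa : ∀ x, f x = if x ∈ TT z y then p x - 2 * c' x else 0 := fun x => by simp [hf]
  have hle : ∀ x, x ∈ TT z y → 2 * c' x ≤ p x := by
    intro x hx
    have := hc x
    rw [BadLe_half_apply, if_pos hx] at this
    omega
  have hfsum : ∑ x, f x + 2 * (s - i') + p z + p y = 2 * s + D := by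
    have h1 := BadLe_sum hyz (fun x => f x)
    have h2 := BadLe_sum hyz (fun x => c' x)
    have h3 := BadLe_sum hyz (fun x => p x)
    have hfz : f z = 0 := by rw [hfa, if_neg]; rw [BadLe_mem_TT]; tauto
    have hfy : f y = 0 := by rw [hfa, if_neg]; rw [BadLe_mem_TT]; tauto
    have h4 : ∑ x ∈ TT z y, p x = ∑ x ∈ TT z y, f x + 2 * ∑ x ∈ TT z y, c' x := by
      rw [Finset.mul_sum, ← Finset.sum_add_distrib]
      refine Finset.sum_congr rfl fun x hx => ?_
      rw [hfa, if_pos hx]
      have := hle x hx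
      omega
    simp only [hfz, hfy] at h1
    simp only [hc2, hc3] at h2
    rw [hc1] at h2
    rw [hdeg] at h3
    omega
  obtain ⟨e1, he1, hs1⟩ := BadLe_sub f (i' - j - min (i' - j) (p y)) (by omega)
  have hfe : ∑ x, (f - e1) x + (i' - j - min (i' - j) (p y)) = ∑ x, f x := by
    rw [← hs1, ← Finset.sum_add_distrib]
    refine Finset.sum_congr rfl fun x _ => ?_
    rw [Finsupp.tsub_apply]
    have := he1 x
    omega
  obtain ⟨e2, he2, hs2⟩ := BadLe_sub (f - e1)
    (i' - j - min (i' - j) (p y - min (i' - j) (p y))) (by omega)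
  have hz1 : e1 z = 0 := by
    have := he1 z
    rw [hfa, if_neg (by rw [BadLe_mem_TT]; tauto)] at this
    omega
  have hy1 : e1 y = 0 := by
    have := he1 y
    rw [hfa, if_neg (by rw [BadLe_mem_TT]; tauto)] at this
    omega
  have hz2 : e2 z = 0 := by
    have := he2 z
    rw [Finsupp.tsub_apply, hfa, if_neg (by rw [BadLe_mem_TT]; tauto)] at this
    omega
  have hy2 : e2 y = 0 := by
    have := he2 y
    rw [Finsupp.tsub_apply, hfa, if_neg (by rw [BadLe_mem_TT]; tauto)] at this
    omega
  -- general membership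
  have hmem : ∀ (a : ℕ) (e : Fin n →₀ ℕ), a ≤ i' - j → ∑ x, e x = i' - j - a → e z = 0 →
      e y = 0 → L ((Finsupp.single z (p z) + Finsupp.single y a + c') + e) := by
    intro a e ha hs hz hy
    apply BadLe_ex hL (i' - j - a) e _ hs hz hy
    have h1 := hL.add _ (Finsupp.single z (p z - j)) hLc
    have h2 : Finsupp.single z j + Finsupp.single y (i' - j) + c' + Finsupp.single z (p z - j) =
        Finsupp.single z (p z) + Finsupp.single y a + c' + Finsupp.single y (i' - j - a) := by
      ext x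
      simp only [Finsupp.add_apply, Finsupp.single_apply]
      split_ifs <;> omega
    rwa [h2] at h1
  have hq1 := hmem (min (i' - j) (p y)) e1 (by omega) hs1 hz1 hy1
  have hq2 := hmem (min (i' - j) (p y - min (i' - j) (p y))) e2 (by omega) hs2 hz2 hy2
  refine hno _ _ hq1 hq2 ?_ ?_ ?_
  · simp [Finsupp.add_apply, hc2, hz1, hyz]
  · simp [Finsupp.add_apply, hc2, hz2, hyz]
  · intro x
    simp only [Finsupp.add_apply, Finsupp.single_apply]
    by_cases hxz : z = x
    · subst hxz
      simp [hyz, hc2, hz1, hz2]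
    · by_cases hxy : y = x
      · subst hxy
        simp only [if_neg hxz, if_true, hc3, hy1, hy2]
        omega
      · simp only [if_neg hxz, if_neg hxy]
        have hx : x ∈ TT z y := BadLe_mem_TT.2 ⟨fun h => hxy h.symm, fun h => hxz h.symm⟩
        have h1 := he1 x
        have h2 := he2 x
        rw [Finsupp.tsub_apply] at h2
        rw [hfa, if_pos hx] at h1 h2
        have h3 := hle x hx
        omega

theorem BadLe_id {n : ℕ} {z y x1 : Fin n} (hyz : y ≠ z) (hx1z : x1 ≠ z) (hx1y : x1 ≠ y)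
    (p : Fin n →₀ ℕ) :
    ∑ x, p x = Lw z y x1 p + 2 * ∑ x, BadLe_half z y p x + p x1 % 2 := by
  have h1 := BadLe_sum hyz (fun x => p x)
  have h2 := BadLe_sum hyz (fun x => BadLe_half z y p x)
  have hz : BadLe_half z y p z = 0 := by
    rw [BadLe_half_apply, if_neg]; rw [BadLe_mem_TT]; tauto
  have hy : BadLe_half z y p y = 0 := by
    rw [BadLe_half_apply, if_neg]; rw [BadLe_mem_TT]; tauto
  simp only [hz, hy] at h2
  have h3 : ∑ x ∈ TT z y, p x =
      2 * ∑ x ∈ TT z y, BadLe_half z y p x + ∑ x ∈ TT z y, p x % 2 := by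
    rw [Finset.mul_sum, ← Finset.sum_add_distrib]
    refine Finset.sum_congr rfl fun x hx => ?_
    rw [BadLe_half_apply, if_pos hx]
    omega
  have h4 := Finset.add_sum_erase (TT z y) (fun x => p x % 2) (BadLe_mem_TT.2 ⟨hx1y, hx1z⟩)
  simp only at h1 h4
  rw [Lw]
  omega

theorem BadLe_key_eq {n : ℕ} {z y x1 : Fin n} {p q : Fin n →₀ ℕ}
    (h : BadLe_key z y x1 p = BadLe_key z y x1 q) :
    p y = q y ∧ ∀ x ∈ (TT z y).erase x1, p x % 2 = q x % 2 := by
  rw [BadLe_key, BadLe_key, Prod.mk.injEq] at h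
  refine ⟨h.1, fun x hx => ?_⟩
  have := congrFun h.2 x
  simpa only [if_pos hx] using this

theorem BadLe_Lw_eq {n : ℕ} {z y x1 : Fin n} {p q : Fin n →₀ ℕ}
    (h : BadLe_key z y x1 p = BadLe_key z y x1 q) (hz : p z = q z) :
    Lw z y x1 p = Lw z y x1 q := by
  obtain ⟨h1, h2⟩ := BadLe_key_eq h
  rw [Lw, Lw, hz, h1, Finset.sum_congr rfl h2]

/-- the inverse of the half -/
noncomputable def BadLe_dbl {n : ℕ} (z y x1 : Fin n) (p0 : Fin n →₀ ℕ) (r : ℕ)
    (c : Fin n →₀ ℕ) : Fin n →₀ ℕ :=
  Finsupp.equivFunOnFinite.symm (fun x => if x = z then p0 z else if x = y then p0 y else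
    2 * c x + (if x = x1 then r else p0 x % 2))

theorem BadLe_dbl_apply {n : ℕ} (z y x1 : Fin n) (p0 : Fin n →₀ ℕ) (r : ℕ)
    (c : Fin n →₀ ℕ) (x : Fin n) :
    BadLe_dbl z y x1 p0 r c x = if x = z then p0 z else if x = y then p0 y else
    2 * c x + (if x = x1 then r else p0 x % 2) := by
  simp [BadLe_dbl]

theorem BadLe_main (hN : S_NMP) : S_BadLe := by
  intro n z y x1 k s D m i j L hyz hx1z hx1y hL hmk his hW
  classical
  set Bd := (Bad2 z k (2 * s + D) L).filter (fun p => p z = m ∧ lev z y x1 D p = i) with hBd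
  set Rw := row z y x1 (2 * s + D) D m i with hRw
  have hsub : Bd ⊆ Rw := by
    intro p hp
    rw [hBd, Finset.mem_filter, Bad2, Finset.mem_filter, mem_Mk] at hp
    rw [hRw, row, Finset.mem_filter, mem_Mt]
    exact ⟨hp.1.1.1, hp.2⟩
  have hfib : ∀ b ∈ Rw.image (BadLe_key z y x1),
      (Bd.filter (fun p => BadLe_key z y x1 p = b)).card * (MT z y (s - max j i)).card ≤
      (Rw.filter (fun p => BadLe_key z y x1 p = b)).card * (cell z y s L j (max j i)).card := by
    intro b hb
    obtain ⟨p0, hp0, rfl⟩ := Finset.mem_image.1 hb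
    rw [hRw, row, Finset.mem_filter, mem_Mt] at hp0
    obtain ⟨hd0, hz0, hl0⟩ := hp0
    have hid0 := BadLe_id hyz hx1z hx1y p0
    set Λ := Lw z y x1 p0 with hΛ
    set a := (2 * s + D - Λ) / 2 with ha
    have hΛle : Λ ≤ 2 * s + D := by omega
    have hlev : (Λ - D + 1) / 2 = i := hl0
    have hth : s - max j i ≤ a := by
      have : i ≤ max j i := le_max_right _ _
      omega
    -- half
    have hhalf : ∀ p ∈ Rw.filter (fun p => BadLe_key z y x1 p = BadLe_key z y x1 p0),
        BadLe_half z y p ∈ MT z y a ∧ p x1 % 2 = (2 * s + D - Λ) % 2 := by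
      intro p hp
      rw [Finset.mem_filter, hRw, row, Finset.mem_filter, mem_Mt] at hp
      obtain ⟨⟨hd, hz, hl⟩, hk⟩ := hp
      have hid := BadLe_id hyz hx1z hx1y p
      rw [BadLe_Lw_eq hk (hz.trans hz0.symm), ← hΛ] at hid
      refine ⟨?_, by omega⟩
      rw [BadLe_mem_MT hyz]
      refine ⟨by omega, ?_, ?_⟩
      · rw [BadLe_half_apply, if_neg]; rw [BadLe_mem_TT]; tauto
      · rw [BadLe_half_apply, if_neg]; rw [BadLe_mem_TT]; tauto
    have hinj : Set.InjOn (BadLe_half z y)
        (Rw.filter (fun p => BadLe_key z y x1 p = BadLe_key z y x1 p0) : Finset (Fin n →₀ ℕ)) := by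
      intro p hp q hq hpq
      have hp1 := hhalf p (Finset.mem_coe.1 hp)
      have hq1 := hhalf q (Finset.mem_coe.1 hq)
      have hp' := Finset.mem_coe.1 hp
      have hq' := Finset.mem_coe.1 hq
      rw [Finset.mem_filter, hRw, row, Finset.mem_filter, mem_Mt] at hp' hq'
      obtain ⟨h1, h2⟩ := BadLe_key_eq (hp'.2.trans hq'.2.symm)
      ext x
      by_cases hxz : x = z
      · subst hxz; rw [hp'.1.2.1, hq'.1.2.1]
      · by_cases hxy : x = y
        · subst hxy; exact h1
        · have hx : x ∈ TT z y := BadLe_mem_TT.2 ⟨hxy, hxz⟩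
          have h3 : BadLe_half z y p x = BadLe_half z y q x := by rw [hpq]
          rw [BadLe_half_apply, BadLe_half_apply, if_pos hx, if_pos hx] at h3
          have h4 : p x % 2 = q x % 2 := by
            by_cases hx1 : x = x1
            · subst hx1; omega
            · exact h2 x (Finset.mem_erase.2 ⟨hx1, hx⟩)
          omega
    -- the number of elements of the fibre
    have hcard : (MT z y a).card ≤
        (Rw.filter (fun p => BadLe_key z y x1 p = BadLe_key z y x1 p0)).card := by
      set r := (2 * s + D - Λ) % 2 with hr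
      apply Finset.card_le_card_of_injOn (BadLe_dbl z y x1 p0 r)
      · intro c hc
        have hc' := (BadLe_mem_MT hyz).1 (Finset.mem_coe.1 hc)
        obtain ⟨hc1, hc2, hc3⟩ := hc'
        have hpar : ∀ x ∈ (TT z y).erase x1, BadLe_dbl z y x1 p0 r c x % 2 = p0 x % 2 := by
          intro x hx
          obtain ⟨hx1, hx2⟩ := Finset.mem_erase.1 hx
          obtain ⟨hx3, hx4⟩ := BadLe_mem_TT.1 hx2
          rw [BadLe_dbl_apply, if_neg hx4, if_neg hx3, if_neg hx1]
          omega
        have hdz : BadLe_dbl z y x1 p0 r c z = p0 z := by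
          rw [BadLe_dbl_apply, if_pos rfl]
        have hdy : BadLe_dbl z y x1 p0 r c y = p0 y := by
          rw [BadLe_dbl_apply, if_neg hyz, if_pos rfl]
        have hkey : BadLe_key z y x1 (BadLe_dbl z y x1 p0 r c) = BadLe_key z y x1 p0 := by
          rw [BadLe_key, BadLe_key, hdy]
          congr 1
          funext x
          split_ifs with hx
          · exact hpar x hx
          · rfl
        have hLw := BadLe_Lw_eq hkey hdz
        have hhalf' : BadLe_half z y (BadLe_dbl z y x1 p0 r c) = c := by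
          ext x
          rw [BadLe_half_apply]
          split_ifs with hx
          · obtain ⟨hx3, hx4⟩ := BadLe_mem_TT.1 hx
            rw [BadLe_dbl_apply, if_neg hx4, if_neg hx3]
            split_ifs <;> omega
          · by_cases hxz : x = z
            · rw [hxz, hc2]
            · by_cases hxy : x = y
              · rw [hxy, hc3]
              · exact absurd (BadLe_mem_TT.2 ⟨hxy, hxz⟩) hx
        have hx1' : BadLe_dbl z y x1 p0 r c x1 % 2 = r := by
          rw [BadLe_dbl_apply, if_neg hx1z, if_neg hx1y, if_pos rfl]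
          omega
        have hid := BadLe_id hyz hx1z hx1y (BadLe_dbl z y x1 p0 r c)
        rw [hhalf', hLw, hc1, hx1', ← hΛ] at hid
        rw [Finset.mem_coe, Finset.mem_filter, hRw, row, Finset.mem_filter, mem_Mt]
        refine ⟨⟨by omega, hdz.trans hz0, ?_⟩, hkey⟩
        rw [lev, hLw, ← hΛ]
        exact hlev
      · intro c hc c' hc' h
        have h1 := (BadLe_mem_MT hyz).1 (Finset.mem_coe.1 hc)
        have h2 := (BadLe_mem_MT hyz).1 (Finset.mem_coe.1 hc')
        ext x
        by_cases hxz : x = z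
        · rw [hxz, h1.2.1, h2.2.1]
        · by_cases hxy : x = y
          · rw [hxy, h1.2.2, h2.2.2]
          · have h3 : BadLe_dbl z y x1 p0 r c x = BadLe_dbl z y x1 p0 r c' x := by rw [h]
            rw [BadLe_dbl_apply, BadLe_dbl_apply, if_neg hxz, if_neg hxy, if_neg hxz,
              if_neg hxy] at h3
            omega
    -- the bad part of the fibre
    set B' := Bd.filter (fun p => BadLe_key z y x1 p = BadLe_key z y x1 p0) with hB'
    have hBsub : B' ⊆ Rw.filter (fun p => BadLe_key z y x1 p = BadLe_key z y x1 p0) :=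
      Finset.filter_subset_filter _ hsub
    have hC : (B'.image (BadLe_half z y)).card = B'.card :=
      Finset.card_image_of_injOn (hinj.mono (Finset.coe_subset.2 hBsub))
    have hnm := hN n (TT z y) (s - max j i) a (B'.image (BadLe_half z y)) hth (by
      intro c hc
      obtain ⟨p, hp, rfl⟩ := Finset.mem_image.1 hc
      exact (hhalf p (hBsub hp)).1)
    rw [hC] at hnm
    have hcell : ((Finset.finsuppAntidiag (TT z y) (s - max j i)).filter
        (fun q => ∃ p ∈ B'.image (BadLe_half z y), q ≤ p)) ⊆ cell z y s L j (max j i) := by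
      intro q hq
      rw [Finset.mem_filter] at hq
      obtain ⟨hq1, c, hc, hqc⟩ := hq
      obtain ⟨p, hp, rfl⟩ := Finset.mem_image.1 hc
      rw [hB', Finset.mem_filter, hBd, Finset.mem_filter] at hp
      exact BadLe_claim hyz hL his p hp.1.1 (by rw [hp.1.2.1]; exact hW) q hqc hq1
    calc B'.card * (MT z y (s - max j i)).card
        ≤ ((Finset.finsuppAntidiag (TT z y) (s - max j i)).filter
          (fun q => ∃ p ∈ B'.image (BadLe_half z y), q ≤ p)).card *
            (Finset.finsuppAntidiag (TT z y) a).card := hnm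
      _ ≤ (cell z y s L j (max j i)).card *
          (Rw.filter (fun p => BadLe_key z y x1 p = BadLe_key z y x1 p0)).card :=
        Nat.mul_le_mul (Finset.card_le_card hcell) hcard
      _ = _ := mul_comm _ _
  rw [Finset.card_eq_sum_card_fiberwise (f := BadLe_key z y x1) (s := Bd)
      (t := Rw.image (BadLe_key z y x1)) (fun p hp => Finset.mem_coe.2
        (Finset.mem_image_of_mem _ (hsub (Finset.mem_coe.1 hp)))),
    Finset.card_eq_sum_card_fiberwise (f := BadLe_key z y x1) (s := Rw)
      (t := Rw.image (BadLe_key z y x1)) (fun p hp => Finset.mem_coe.2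
        (Finset.mem_image_of_mem _ (Finset.mem_coe.1 hp))), Finset.sum_mul, Finset.sum_mul]
  exact Finset.sum_le_sum hfib

theorem pr_BadLe : S_BadLe := BadLe_main pr_NMP

end Pool.Agent.Work.MP_2ad852_ag.GS

end

section

namespace Pool.Agent.Work.MP_2ad852_ag.GS

open MvPolynomial Finset Pool.Agent.Work.MP_2ad852_ag.GF

theorem CapSum_sum {n : ℕ} (z y : Fin n) (hy : y ≠ z) (p : Fin n →₀ ℕ) :
    ∑ i, p i = p z + p y + ∑ i ∈ TT z y, p i := by
  unfold TT
  rw [← Finset.add_sum_erase _ _ (Finset.mem_univ z),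
    ← Finset.add_sum_erase (Finset.univ.erase z) (fun i => p i) (Finset.mem_erase.2 ⟨hy, Finset.mem_univ y⟩)]
  ring

theorem CapSum_mem_MT {n : ℕ} {z y : Fin n} {a : ℕ} {c : Fin n →₀ ℕ} :
    c ∈ MT z y a ↔ ∑ i ∈ TT z y, c i = a ∧ c z = 0 ∧ c y = 0 := by
  unfold MT
  rw [Finset.mem_finsuppAntidiag]
  constructor
  · rintro ⟨h1, h2⟩
    refine ⟨h1, ?_, ?_⟩
    · by_contra h
      have := h2 (Finsupp.mem_support_iff.2 h)
      simp [TT] at this
    · by_contra h
      have := h2 (Finsupp.mem_support_iff.2 h)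
      simp [TT] at this
  · rintro ⟨h1, h2, h3⟩
    refine ⟨h1, fun i hi => ?_⟩
    rw [Finsupp.mem_support_iff] at hi
    simp only [TT, Finset.mem_erase, Finset.mem_univ, and_true]
    constructor
    · rintro rfl
      exact hi h3
    · rintro rfl
      exact hi h2

theorem pr_CapSum : S_CapSum := by
  intro n z y s β hy
  have h1 : ∑ i ∈ Finset.range (s + 1), (MT z y (s - i)).card * (min i β + 1) =
      ((Finset.range (s + 1)).sigma
        (fun i => MT z y (s - i) ×ˢ Finset.range (min i β + 1))).card := by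
    rw [Finset.card_sigma]
    refine Finset.sum_congr rfl fun i _ => ?_
    rw [Finset.card_product, Finset.card_range]
  rw [h1]
  refine Finset.card_nbij'
    (fun p => (⟨p z + p y, ((p.erase z).erase y, p z)⟩ : Σ _ : ℕ, (Fin n →₀ ℕ) × ℕ))
    (fun t => Finsupp.single z t.2.2 + Finsupp.single y (t.1 - t.2.2) + t.2.1) ?_ ?_ ?_ ?_
  · intro p hp
    rw [Finset.mem_coe, mem_Mk, CapSum_sum z y hy] at hp
    rw [Finset.mem_coe, Finset.mem_sigma, Finset.mem_product, Finset.mem_range, Finset.mem_range,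
      CapSum_mem_MT]
    obtain ⟨h2, h3⟩ := hp
    refine ⟨by dsimp only; omega, ⟨?_, ?_, ?_⟩, ?_⟩
    · have : ∑ i ∈ TT z y, ((p.erase z).erase y) i = ∑ i ∈ TT z y, p i := by
        refine Finset.sum_congr rfl fun i hi => ?_
        simp only [TT, Finset.mem_erase] at hi
        rw [Finsupp.erase_ne hi.1, Finsupp.erase_ne hi.2.1]
      dsimp only
      rw [this]
      omega
    · rw [Finsupp.erase_ne hy.symm, Finsupp.erase_same]
    · rw [Finsupp.erase_same]
    · dsimp only
      omega
  · rintro ⟨i, c, j⟩ ht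
    rw [Finset.mem_coe, Finset.mem_sigma, Finset.mem_product, Finset.mem_range, Finset.mem_range,
      CapSum_mem_MT] at ht
    obtain ⟨h2, ⟨h3, h4, h5⟩, h6⟩ := ht
    dsimp only at h2 h3 h4 h5 h6
    rw [Finset.mem_coe, mem_Mk, CapSum_sum z y hy]
    have e1 : (Finsupp.single z j + Finsupp.single y (i - j) + c) z = j := by
      simp [h4, hy]
    have e2 : (Finsupp.single z j + Finsupp.single y (i - j) + c) y = i - j := by
      simp [h5, hy.symm]
    have e3 : ∑ x ∈ TT z y, (Finsupp.single z j + Finsupp.single y (i - j) + c) x =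
        ∑ x ∈ TT z y, c x := by
      refine Finset.sum_congr rfl fun x hx => ?_
      simp only [TT, Finset.mem_erase] at hx
      rw [Finsupp.add_apply, Finsupp.add_apply, Finsupp.single_eq_of_ne hx.2.1,
        Finsupp.single_eq_of_ne hx.1]
      ring
    dsimp only
    rw [e1, e2, e3, h3]
    omega
  · intro p hp
    dsimp only
    ext x
    rw [Finsupp.add_apply, Finsupp.add_apply]
    by_cases hx : x = z
    · subst hx
      rw [Finsupp.single_eq_same, Finsupp.single_eq_of_ne hy.symm, Finsupp.erase_ne hy.symm,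
        Finsupp.erase_same]
      ring
    · by_cases hx2 : x = y
      · subst hx2
        rw [Finsupp.single_eq_same, Finsupp.single_eq_of_ne hx, Finsupp.erase_same]
        omega
      · rw [Finsupp.single_eq_of_ne hx, Finsupp.single_eq_of_ne hx2, Finsupp.erase_ne hx2,
          Finsupp.erase_ne hx]
        ring
  · rintro ⟨i, c, j⟩ ht
    rw [Finset.mem_coe, Finset.mem_sigma, Finset.mem_product, Finset.mem_range, Finset.mem_range,
      CapSum_mem_MT] at ht
    obtain ⟨h2, ⟨h3, h4, h5⟩, h6⟩ := ht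
    dsimp only at h2 h3 h4 h5 h6
    have e1 : (Finsupp.single z j + Finsupp.single y (i - j) + c) z = j := by
      simp [h4, hy]
    have e2 : (Finsupp.single z j + Finsupp.single y (i - j) + c) y = i - j := by
      simp [h5, hy.symm]
    have e3 : ((Finsupp.single z j + Finsupp.single y (i - j) + c).erase z).erase y = c := by
      ext x
      by_cases hx : x = y
      · subst hx
        rw [Finsupp.erase_same, h5]
      · rw [Finsupp.erase_ne hx]
        by_cases hx2 : x = z
        · subst hx2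
          rw [Finsupp.erase_same, h4]
        · rw [Finsupp.erase_ne hx2, Finsupp.add_apply, Finsupp.add_apply,
            Finsupp.single_eq_of_ne hx2, Finsupp.single_eq_of_ne hx]
          ring
    dsimp only
    rw [e1, e2, e3]
    have : j + (i - j) = i := by omega
    rw [this]

end Pool.Agent.Work.MP_2ad852_ag.GS

end

section

/-!
# Item CombS
-/

namespace Pool.Agent.Work.MP_2ad852_ag.GS

open MvPolynomial Finset Pool.Agent.Work.MP_2ad852_ag.GF

theorem CombS_exists_third {n : ℕ} (hn : 3 ≤ n) (z y : Fin n) : ∃ x : Fin n, x ≠ z ∧ x ≠ y := by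
  classical
  by_contra h
  push Not at h
  have h1 : (Finset.univ : Finset (Fin n)) ⊆ {z, y} := by
    intro x _
    rw [Finset.mem_insert, Finset.mem_singleton]
    by_cases hx : x = z
    · exact Or.inl hx
    · exact Or.inr (h x hx)
  have h2 := Finset.card_le_card h1
  have h3 : ({z, y} : Finset (Fin n)).card ≤ 2 := Finset.card_le_two
  rw [Finset.card_univ, Fintype.card_fin] at h2
  omega

theorem CombS_MT_pos {n : ℕ} (z y x1 : Fin n) (h1 : x1 ≠ z) (h2 : x1 ≠ y) (a : ℕ) :
    0 < (MT z y a).card := by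
  classical
  refine Finset.card_pos.mpr ⟨Finsupp.single x1 a, ?_⟩
  unfold MT
  rw [Finset.mem_finsuppAntidiag]
  have hx : x1 ∈ TT z y := by
    unfold TT
    rw [Finset.mem_erase, Finset.mem_erase]
    exact ⟨h2, h1, Finset.mem_univ _⟩
  constructor
  · rw [Finset.sum_eq_single_of_mem x1 hx]
    · exact Finsupp.single_eq_same
    · intro b _ hb
      exact Finsupp.single_eq_of_ne hb
  · intro i hi
    rw [Finsupp.mem_support_iff] at hi
    by_contra hne
    apply hi
    refine Finsupp.single_eq_of_ne ?_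
    rintro rfl
    exact hne hx

theorem CombS_Mk_pos {n : ℕ} (z x1 : Fin n) (h1 : x1 ≠ z) (k s : ℕ) (hk : 1 ≤ k) :
    0 < (Mk z k s).card := by
  classical
  refine Finset.card_pos.mpr ⟨Finsupp.single x1 s, ?_⟩
  rw [mem_Mk]
  constructor
  · rw [Finset.sum_eq_single_of_mem x1 (Finset.mem_univ _)]
    · exact Finsupp.single_eq_same
    · intro b _ hb
      exact Finsupp.single_eq_of_ne hb
  · rw [Finsupp.single_eq_of_ne (Ne.symm h1)]
    omega

theorem CombS_Lw_le {n : ℕ} (z y x1 : Fin n) (hyz : y ≠ z) (p : Fin n →₀ ℕ) :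
    Lw z y x1 p ≤ ∑ i, p i := by
  classical
  have h1 : ∑ i, p i = p z + (p y + ∑ i ∈ TT z y, p i) := by
    rw [← Finset.add_sum_erase _ _ (Finset.mem_univ z)]
    congr 1
    rw [← Finset.add_sum_erase (Finset.univ.erase z) _ (Finset.mem_erase.mpr ⟨hyz, Finset.mem_univ y⟩)]
    rfl
  have h2 : ∑ x ∈ (TT z y).erase x1, p x % 2 ≤ ∑ i ∈ TT z y, p i := by
    refine le_trans (Finset.sum_le_sum (fun x _ => Nat.mod_le (p x) 2)) ?_
    exact Finset.sum_le_sum_of_subset (Finset.erase_subset _ _)
  unfold Lw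
  omega

theorem CombS_lev_le {n : ℕ} (z y x1 : Fin n) (hyz : y ≠ z) (s D : ℕ) (p : Fin n →₀ ℕ)
    (hp : ∑ i, p i = 2 * s + D) : lev z y x1 D p ≤ s := by
  have h := CombS_Lw_le z y x1 hyz p
  unfold lev
  omega

open Classical in
theorem CombS_sum_fib {n : ℕ} (z y x1 : Fin n) (hyz : y ≠ z) (k s D : ℕ)
    (L : (Fin n →₀ ℕ) → Prop) :
    (Bad2 z k (2 * s + D) L).card = ∑ m ∈ Finset.range k, ∑ i ∈ Finset.range (s + 1),
      ((Bad2 z k (2 * s + D) L).filter (fun p => p z = m ∧ lev z y x1 D p = i)).card := by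
  rw [← Finset.sum_product' (Finset.range k) (Finset.range (s + 1))
    (fun m i => ((Bad2 z k (2 * s + D) L).filter (fun p => p z = m ∧ lev z y x1 D p = i)).card)]
  have h := Finset.card_eq_sum_card_fiberwise (s := Bad2 z k (2 * s + D) L)
    (t := Finset.range k ×ˢ Finset.range (s + 1)) (f := fun p => (p z, lev z y x1 D p)) (by
      intro p hp
      have hp' : p ∈ Bad2 z k (2 * s + D) L := hp
      unfold Bad2 at hp'
      rw [Finset.mem_filter, mem_Mk] at hp'
      have := CombS_lev_le z y x1 hyz s D p hp'.1.1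
      rw [Finset.mem_coe, Finset.mem_product, Finset.mem_range, Finset.mem_range]
      exact ⟨hp'.1.2, by simpa using Nat.lt_succ_of_le this⟩)
  rw [h]
  refine Finset.sum_congr rfl (fun x _ => ?_)
  congr 1
  refine Finset.filter_congr (fun p _ => ?_)
  constructor
  · intro hx
    rw [← hx]
    exact ⟨rfl, rfl⟩
  · rintro ⟨h1, h2⟩
    exact Prod.ext h1 h2

theorem pr_CombS (hStd : S_StdSum) (hDens : S_Dens) (hBad : S_BadLe) (hM1 : S_RowMass1)
    (hM0 : S_RowMass0) (hRS : S_RowSum) (hCS : S_CapSum) (hRat : S_Ratio) (hG : S_GG)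
    (hDual : S_Dual) : S_CombS := by
  classical
  intro n z y k s D ρ L hn hyz hk hL hρ hMk
  obtain ⟨x1, hx1z, hx1y⟩ := CombS_exists_third hn z y
  have hMTpos : ∀ a, 0 < (MT z y a).card := CombS_MT_pos z y x1 hx1z hx1y
  set a : ℕ → ℕ := fun i => (MT z y (s - i)).card with ha
  have hapos : ∀ i, 0 < a i := fun i => hMTpos _
  have haposR : ∀ i, (0 : ℝ) < (a i : ℝ) := fun i => by exact_mod_cast hapos i
  set r : ℕ → ℕ → ℕ := fun m i => (row z y x1 (2 * s + D) D m i).card with hr
  set W : ℕ → ℝ := fun i => (a i : ℝ) with hW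
  set G : ℤ → ℝ := fun x => (GG (n - 3) x : ℝ) with hGdef
  set α : ℕ → ℕ → ℝ := fun m i => if i = 0 then (r m 0 : ℝ) / (a 0 : ℝ)
    else G ((D : ℤ) + 2 * i - m) with hα
  obtain ⟨hG1, hG2, hG3⟩ := hG (n - 3)
  have hρ0 : (0 : ℝ) < ρ := lt_of_lt_of_le (by positivity) hρ
  -- the mass identity
  have hmass : ∀ m i, i ≤ s → W i * α m i = (r m i : ℝ) := by
    intro m i hi
    by_cases h0 : i = 0
    · subst h0
      have hne : (a 0 : ℝ) ≠ 0 := ne_of_gt (haposR 0)
      show (a 0 : ℝ) * (if (0 : ℕ) = 0 then (r m 0 : ℝ) / (a 0 : ℝ)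
        else G ((D : ℤ) + 2 * (0 : ℕ) - m)) = (r m 0 : ℝ)
      rw [if_pos rfl, mul_div_cancel₀ _ hne]
    · simp only [hα, if_neg h0, hW]
      have := hM1 n z y x1 s D m i hyz hx1z hx1y (Nat.one_le_iff_ne_zero.mpr h0) hi
      simp only [hr, ha, hGdef]
      rw [this]
      push_cast
      ring
  have hCut : CutData s D k ρ ((2 : ℝ) ^ (n - 2)) W G α := by
    refine ⟨hk, ?_, ?_, ?_, ?_, ?_, ?_, ?_, ?_, ?_⟩
    · have : (2 : ℝ) * 2 ^ (n - 2) = 2 ^ (n - 1) := by
        rw [← pow_succ']
        congr 1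
        omega
      rw [this]
      exact hρ
    · intro i
      exact le_of_lt (haposR i)
    · intro x y' hxy
      simp only [hGdef]
      exact_mod_cast hG1 x y' hxy
    · intro x
      simp only [hGdef]
      have h1 := hG2 x
      have h2 : n - 3 + 1 = n - 2 := by omega
      rw [h2] at h1
      exact_mod_cast h1
    · intro x hx
      simp only [hGdef]
      exact_mod_cast hG3 x hx
    · intro m i hi
      simp only [hα]
      rw [if_neg (by omega)]
    · intro m
      simp only [hα, if_pos, hGdef]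
      rw [le_div_iff₀ (haposR 0)]
      have := (hM0 n z y x1 s D m hyz hx1z hx1y).1
      simp only [ha, hr, Nat.sub_zero]
      exact_mod_cast this
    · intro m hm
      simp only [hα, if_pos]
      have := (hM0 n z y x1 s D m hyz hx1z hx1y).2 hm
      simp only [hr]
      rw [this]
      simp
    · intro β hβ
      have h1 : ∑ i ∈ Finset.range (s + 1), W i * ∑ m ∈ Finset.range (β + 1), α m i =
          ((Mk z (β + 1) (2 * s + D)).card : ℝ) := by
        rw [← hRS n z y x1 s D β hyz hx1z hx1y]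
        push_cast
        rw [Finset.sum_comm]
        refine Finset.sum_congr rfl (fun i hi => ?_)
        rw [Finset.mul_sum]
        refine Finset.sum_congr rfl (fun m _ => ?_)
        exact hmass m i (by rw [Finset.mem_range] at hi; omega)
      have h2 : ∑ i ∈ Finset.range (s + 1), W i * ((min i β : ℕ) + 1) =
          ((Mk z (β + 1) s).card : ℝ) := by
        rw [hCS n z y s β hyz]
        push_cast
        refine Finset.sum_congr rfl (fun i _ => ?_)
        simp only [hW, ha]
      rw [h1, h2]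
      have h3 := hRat n z s (2 * s + D) (β + 1) k (by omega) (by omega) (by omega)
      have h4 : (0 : ℝ) < ((Mk z k s).card : ℝ) := by
        exact_mod_cast CombS_Mk_pos z x1 hx1z k s hk
      have h5 : ((Mk z (β + 1) (2 * s + D)).card : ℝ) * ((Mk z k s).card : ℝ) ≤
          ((Mk z k (2 * s + D)).card : ℝ) * ((Mk z (β + 1) s).card : ℝ) := by exact_mod_cast h3
      have h6 : ((Mk z k (2 * s + D)).card : ℝ) * ((Mk z (β + 1) s).card : ℝ) ≤
          ρ * ((Mk z k s).card : ℝ) * ((Mk z (β + 1) s).card : ℝ) :=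
        mul_le_mul_of_nonneg_right hMk (Nat.cast_nonneg _)
      have h7 : ((Mk z (β + 1) (2 * s + D)).card : ℝ) * ((Mk z k s).card : ℝ) ≤
          (ρ * ((Mk z (β + 1) s).card : ℝ)) * ((Mk z k s).card : ℝ) := by
        calc _ ≤ _ := h5
          _ ≤ _ := h6
          _ = _ := by ring
      exact le_of_mul_le_mul_right h7 h4
  -- the common multiple
  set Q : ℕ := ∏ i ∈ Finset.range (s + 1), a i with hQ
  have hQpos : 0 < Q := Finset.prod_pos (fun i _ => hapos i)
  set b : ℕ → ℕ := fun i => Q / a i with hb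
  have hab : ∀ i, i ≤ s → a i * b i = Q := by
    intro i hi
    exact Nat.mul_div_cancel' (Finset.dvd_prod_of_mem a (Finset.mem_range.mpr (by omega)))
  set c : ℕ → ℕ → ℕ := fun j i => (cell z y s L j i).card with hc
  set E : ℕ → ℕ → ℕ := fun j i => c j i * b i with hE
  set bd : ℕ → ℕ → ℕ := fun m i =>
    ((Bad2 z k (2 * s + D) L).filter (fun p => p z = m ∧ lev z y x1 D p = i)).card with hbd
  set B : ℕ → ℕ → ℝ := fun m i => if i ≤ s then (Q : ℝ) * (bd m i : ℝ) else 0 with hB
  have hdual := hDual s D k ρ ((2 : ℝ) ^ (n - 2)) W G α hCut E B ?_ ?_ ?_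
  · have hL1 : ∑ m ∈ Finset.range k, ∑ i ∈ Finset.range (s + 1), B m i =
        (Q : ℝ) * ((Bad2 z k (2 * s + D) L).card : ℝ) := by
      rw [CombS_sum_fib z y x1 hyz k s D L]
      push_cast
      rw [Finset.mul_sum]
      refine Finset.sum_congr rfl (fun m _ => ?_)
      rw [Finset.mul_sum]
      refine Finset.sum_congr rfl (fun i hi => ?_)
      simp only [hB]
      rw [if_pos (by rw [Finset.mem_range] at hi; omega)]
    have hR1 : ∑ j ∈ Finset.range (min k (s + 1)), ∑ i ∈ Finset.Ico j (s + 1),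
        W i * (E j i : ℝ) = (Q : ℝ) * ((Std z k s L).card : ℝ) := by
      rw [hStd n z y k s L hyz]
      push_cast
      rw [Finset.mul_sum]
      refine Finset.sum_congr rfl (fun j _ => ?_)
      rw [Finset.mul_sum]
      refine Finset.sum_congr rfl (fun i hi => ?_)
      rw [Finset.mem_Ico] at hi
      have h1 := hab i (by omega)
      simp only [hW, hE]
      rw [← h1]
      push_cast
      ring
    rw [hL1, hR1] at hdual
    have hQR : (0 : ℝ) < (Q : ℝ) := by exact_mod_cast hQpos
    have : (Q : ℝ) * ((Bad2 z k (2 * s + D) L).card : ℝ) ≤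
        (Q : ℝ) * (ρ * ((Std z k s L).card : ℝ)) := by
      calc _ ≤ _ := hdual
        _ = _ := by ring
    exact le_of_mul_le_mul_left this hQR
  · -- monotone
    intro j i hji his
    have h1 := hDens n z y s i j L hyz hL hji his
    have h2 := hab i (by omega)
    have h3 := hab (i + 1) (by omega)
    have h4 : c j i * a (i + 1) ≤ c j (i + 1) * a i := h1
    have h5 : 0 < a i * a (i + 1) := Nat.mul_pos (hapos _) (hapos _)
    refine Nat.le_of_mul_le_mul_left ?_ h5
    calc a i * a (i + 1) * (c j i * b i) = (a i * b i) * (c j i * a (i + 1)) := by ring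
      _ = Q * (c j i * a (i + 1)) := by rw [h2]
      _ ≤ Q * (c j (i + 1) * a i) := Nat.mul_le_mul_left _ h4
      _ = (a (i + 1) * b (i + 1)) * (c j (i + 1) * a i) := by rw [h3]
      _ = a i * a (i + 1) * (c j (i + 1) * b (i + 1)) := by ring
  · -- zero
    intro m i h0
    simp only [hB]
    split_ifs with hi
    · have h1 := hmass m i hi
      rw [h0, mul_zero] at h1
      have h2 : r m i = 0 := by exact_mod_cast h1.symm
      have h3 : bd m i ≤ r m i := by
        refine Finset.card_le_card ?_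
        intro p hp
        rw [Finset.mem_filter] at hp
        obtain ⟨hp1, hp2, hp3⟩ := hp
        unfold Bad2 at hp1
        rw [Finset.mem_filter] at hp1
        unfold row
        rw [Finset.mem_filter]
        exact ⟨(Finset.mem_filter.mp hp1.1).1, hp2, hp3⟩
      have h4 : bd m i = 0 := by omega
      rw [h4]
      simp
    · exact le_refl _
  · -- the bound
    intro m i j hm hi hwin
    have hjs : j ≤ s := hwin.2.2.2
    have h1 := hBad n z y x1 k s D m i j L hyz hx1z hx1y hL hm hi hwin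
    have hmax : max j i ≤ s := max_le hjs hi
    have h2 := hab (max j i) hmax
    have h3 : bd m i * a (max j i) ≤ r m i * c j (max j i) := h1
    rw [hmass m i hi]
    simp only [hB]
    rw [if_pos hi]
    have h4 : Q * bd m i ≤ r m i * E j (max j i) := by
      calc Q * bd m i = b (max j i) * (bd m i * a (max j i)) := by rw [← h2]; ring
        _ ≤ b (max j i) * (r m i * c j (max j i)) := Nat.mul_le_mul_left _ h3
        _ = r m i * E j (max j i) := by simp only [hE]; ring
    exact_mod_cast h4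

end Pool.Agent.Work.MP_2ad852_ag.GS

end

section

/-!
# Block GS: item CombW
-/

namespace Pool.Agent.Work.MP_2ad852_ag.GS

open MvPolynomial Finset Pool.Agent.Work.MP_2ad852_ag.GF

namespace CombW

theorem lev_le {n : ℕ} (z y x1 : Fin n) (s D : ℕ) (p : Fin n →₀ ℕ) (hyz : y ≠ z)
    (hp : ∑ i, p i = 2 * s + D) : lev z y x1 D p ≤ s := by
  have h1 : ∑ x ∈ (TT z y).erase x1, p x % 2 ≤ ∑ x ∈ TT z y, p x := by
    refine (Finset.sum_le_sum (fun x _ => Nat.mod_le _ _)).trans ?_
    exact Finset.sum_le_sum_of_subset (Finset.erase_subset _ _)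
  have h2 : p z + (p y + ∑ x ∈ TT z y, p x) = ∑ i, p i := by
    unfold TT
    rw [Finset.add_sum_erase _ (fun x => p x) (Finset.mem_erase.2 ⟨hyz, Finset.mem_univ _⟩),
      Finset.add_sum_erase _ (fun x => p x) (Finset.mem_univ _)]
  unfold lev Lw
  omega

theorem MT_pos {n : ℕ} (z y x1 : Fin n) (hz : x1 ≠ z) (hy : x1 ≠ y) (a : ℕ) :
    0 < (MT z y a).card := by
  rw [Finset.card_pos]
  refine ⟨Finsupp.single x1 a, ?_⟩
  unfold MT
  rw [Finset.mem_finsuppAntidiag]
  have hx : x1 ∈ TT z y := by
    unfold TT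
    exact Finset.mem_erase.2 ⟨hy, Finset.mem_erase.2 ⟨hz, Finset.mem_univ _⟩⟩
  refine ⟨?_, ?_⟩
  · rw [Finset.sum_eq_single_of_mem x1 hx]
    · simp
    · intro b _ hb
      simp [Ne.symm hb]
  · intro b hb
    rw [Finsupp.mem_support_iff] at hb
    by_cases h : x1 = b
    · rw [← h]
      exact hx
    · exfalso
      apply hb
      simp [h]

end CombW

open CombW in
theorem pr_CombW (hStd : S_StdSum) (hDens : S_Dens) (hBad : S_BadLe) (hM1 : S_RowMass1)
    (hRS : S_RowSum) (hG : S_GG) (hCS : S_CapSum) : S_CombW := by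
  classical
  intro n z y s D ρ L hn hyz hL hρ hMk
  -- a third variable
  obtain ⟨x1, hx1⟩ : ∃ x1 : Fin n, x1 ∉ ({z, y} : Finset (Fin n)) := by
    by_contra h
    push Not at h
    have h1 : (Finset.univ : Finset (Fin n)) ⊆ {z, y} := fun x _ => h x
    have h2 := Finset.card_le_card h1
    have h3 : ({z, y} : Finset (Fin n)).card ≤ 2 := Finset.card_le_two
    rw [Finset.card_univ, Fintype.card_fin] at h2
    omega
  rw [Finset.mem_insert, Finset.mem_singleton, not_or] at hx1
  obtain ⟨hx1z, hx1y⟩ := hx1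
  set W : ℕ → ℝ := fun i => ((MT z y (s - i)).card : ℝ) with hWdef
  set c : ℕ → ℝ := fun i => ((cell z y s L 0 i).card : ℝ) with hcdef
  set r : ℕ → ℝ := fun i => ((row z y x1 (2 * s + D) D 0 i).card : ℝ) with hrdef
  set E : ℕ → ℝ := fun i => c i / W i with hEdef
  set Bi : ℕ → Finset (Fin n →₀ ℕ) := fun i =>
    (Bad2 z 1 (2 * s + D) L).filter (fun p => p z = 0 ∧ lev z y x1 D p = i) with hBidef
  have hWpos : ∀ i, 0 < W i := fun i => by
    have := MT_pos z y x1 hx1z hx1y (s - i)
    show (0 : ℝ) < ((MT z y (s - i)).card : ℝ)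
    exact_mod_cast this
  have hWE : ∀ i, W i * E i = c i := fun i => by
    rw [hEdef]
    field_simp [(hWpos i).ne']
  -- the standard monomials
  have hStd1 : ((Std z 1 s L).card : ℝ) = ∑ i ∈ Finset.range (s + 1), c i := by
    rw [hStd n z y 1 s L hyz]
    rw [show min 1 (s + 1) = 1 by omega, Finset.sum_range_one]
    rw [Nat.Ico_zero_eq_range]
    push_cast
    rfl
  -- the bad monomials
  have hBad1 : ((Bad2 z 1 (2 * s + D) L).card : ℝ) =
      ∑ i ∈ Finset.range (s + 1), ((Bi i).card : ℝ) := by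
    have h1 : (Bad2 z 1 (2 * s + D) L).card = ∑ i ∈ Finset.range (s + 1), (Bi i).card := by
      rw [Finset.card_eq_sum_card_fiberwise (f := fun p => lev z y x1 D p)
        (t := Finset.range (s + 1))]
      · apply Finset.sum_congr rfl
        intro i _
        rw [hBidef]
        congr 1
        apply Finset.filter_congr
        intro p hp
        have h2 : p z = 0 := by
          have h3 := (Finset.mem_filter.1 hp).1
          have h4 := (mem_Mk.1 h3).2
          omega
        simp [h2]
      · intro p hp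
        have h3 := (Finset.mem_filter.1 hp).1
        have h4 := (mem_Mk.1 h3).1
        have h5 := lev_le z y x1 s D p hyz h4
        rw [Finset.coe_range, Set.mem_Iio]
        show lev z y x1 D p < s + 1
        omega
    rw [h1]
    push_cast
    rfl
  -- comparison with the rows
  have hBi : ∀ i ∈ Finset.range (s + 1), ((Bi i).card : ℝ) ≤ r i * E i := by
    intro i hi
    rw [Finset.mem_range] at hi
    have hWin : Win s D 1 0 0 := by
      unfold Win
      refine ⟨?_, le_rfl, by omega, by omega⟩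
      rw [Nat.zero_sub]
    have h1 := hBad n z y x1 1 s D 0 i 0 L hyz hx1z hx1y hL (by omega) (by omega) hWin
    rw [show max 0 i = i by omega] at h1
    have h2 : ((Bi i).card : ℝ) * W i ≤ r i * c i := by
      show ((Bi i).card : ℝ) * ((MT z y (s - i)).card : ℝ) ≤
        ((row z y x1 (2 * s + D) D 0 i).card : ℝ) * ((cell z y s L 0 i).card : ℝ)
      exact_mod_cast h1
    rw [hEdef]
    show ((Bi i).card : ℝ) ≤ r i * (c i / W i)
    rw [← mul_div_assoc, le_div_iff₀ (hWpos i)]
    exact h2
  -- densities are nondecreasing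
  have hE1 : ∀ i, i < s → E i ≤ E (i + 1) := by
    intro i hi
    have h1 := hDens n z y s i 0 L hyz hL (Nat.zero_le _) hi
    rw [hEdef]
    show c i / W i ≤ c (i + 1) / W (i + 1)
    rw [div_le_div_iff₀ (hWpos _) (hWpos _)]
    show ((cell z y s L 0 i).card : ℝ) * ((MT z y (s - (i + 1))).card : ℝ) ≤
      ((cell z y s L 0 (i + 1)).card : ℝ) * ((MT z y (s - i)).card : ℝ)
    exact_mod_cast h1
  have hE0 : ∀ i, i ≤ s → E 0 ≤ E i := by
    intro i
    induction i with
    | zero => intro _; exact le_rfl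
    | succ i ih => intro hi; exact (ih (by omega)).trans (hE1 i (by omega))
  have hE0n : 0 ≤ E 0 := by
    rw [hEdef]
    exact div_nonneg (Nat.cast_nonneg _) (hWpos 0).le
  -- the rows of positive level
  have hr : ∀ i, 1 ≤ i → i ≤ s → r i ≤ ρ * W i := by
    intro i hi1 his
    have h1 := hM1 n z y x1 s D 0 i hyz hx1z hx1y hi1 his
    have h2 := (hG (n - 3)).2.1 ((D : ℤ) + 2 * i - (0 : ℕ))
    have h3 : n - 3 + 1 = n - 2 := by omega
    rw [h3] at h2
    have h4 : r i ≤ (2 : ℝ) ^ (n - 2) * W i := by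
      have h5 : (row z y x1 (2 * s + D) D 0 i).card ≤ 2 ^ (n - 2) * (MT z y (s - i)).card := by
        rw [h1]
        exact Nat.mul_le_mul_right _ h2
      show ((row z y x1 (2 * s + D) D 0 i).card : ℝ) ≤
        (2 : ℝ) ^ (n - 2) * ((MT z y (s - i)).card : ℝ)
      exact_mod_cast h5
    exact h4.trans (mul_le_mul_of_nonneg_right hρ (hWpos i).le)
  have hterm : ∀ i ∈ Finset.range (s + 1), (r i - ρ * W i) * E i ≤ (r i - ρ * W i) * E 0 := by
    intro i hi
    rw [Finset.mem_range] at hi
    rcases Nat.eq_zero_or_pos i with h0 | h0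
    · rw [h0]
    · exact mul_le_mul_of_nonpos_left (hE0 i (by omega)) (by linarith [hr i h0 (by omega)])
  have hrs : ∑ i ∈ Finset.range (s + 1), r i = ((Mk z 1 (2 * s + D)).card : ℝ) := by
    have h1 := hRS n z y x1 s D 0 hyz hx1z hx1y
    rw [Finset.sum_range_one] at h1
    rw [← h1]
    push_cast
    rfl
  have hws : ∑ i ∈ Finset.range (s + 1), W i = ((Mk z 1 s).card : ℝ) := by
    have h1 := hCS n z y s 0 hyz
    rw [h1]
    push_cast
    apply Finset.sum_congr rfl
    intro i _
    simp [hWdef]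
  have hsum : ∑ i ∈ Finset.range (s + 1), (r i - ρ * W i) * E i ≤ 0 := by
    refine (Finset.sum_le_sum hterm).trans ?_
    rw [← Finset.sum_mul, Finset.sum_sub_distrib, ← Finset.mul_sum, hrs, hws]
    exact mul_nonpos_of_nonpos_of_nonneg (by linarith) hE0n
  rw [hBad1, hStd1]
  calc ∑ i ∈ Finset.range (s + 1), ((Bi i).card : ℝ)
      ≤ ∑ i ∈ Finset.range (s + 1), r i * E i := Finset.sum_le_sum hBi
    _ = ∑ i ∈ Finset.range (s + 1), (r i - ρ * W i) * E i +
          ρ * ∑ i ∈ Finset.range (s + 1), c i := by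
        rw [Finset.mul_sum, ← Finset.sum_add_distrib]
        apply Finset.sum_congr rfl
        intro i _
        rw [← hWE i]
        ring
    _ ≤ ρ * ∑ i ∈ Finset.range (s + 1), c i := by linarith

end Pool.Agent.Work.MP_2ad852_ag.GS

end

section

/-!
# Item Core2 of the block GS
-/

namespace Pool.Agent.Work.MP_2ad852_ag.GS

open MvPolynomial Finset Pool.Agent.Work.MP_2ad852_ag.GF

private theorem sumRows2 {n : ℕ} {R : Type} [CommRing R] (z : Fin n) (k e : ℕ)
    (f : (Fin n →₀ ℕ) → R) : ∑ p : Rows z k e, f p.1 = ∑ p ∈ Mk z k e, f p :=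
  Finset.sum_coe_sort (Mk z k e) f

open Classical in
theorem pr_Core2 (hTan3 : S_Tan3) (hTan4 : S_Tan4) (hVan2 : S_Van2) (hInd2 : S_Ind2)
    (hLA : GF.S_LAcore) : S_Core2 := by
  intro R ι _ _ _ n z y k e d F fs D yb hyz hne hkill hD1 hD2 hspan
  set L : (Fin n →₀ ℕ) → Prop := IsLead2 z y k e F with hL
  let Sx : Type := Σ l : {l : ι // d l ≤ e}, {b : Fin n →₀ ℕ // b ∈ Mt n (d l.1)}
  let Om : Type := Σ l : {l : ι // d l ≤ e}, {q : Fin n →₀ ℕ // q ∈ Std z k (e - d l.1) L}
  let Bd : Finset (Rows z k e) := Finset.univ.filter (fun p => p.1 ∈ Bad2 z k e L)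
  have hcardB : Bd.card = (Bad2 z k e L).card := by
    have h1 : Bd.map (Function.Embedding.subtype _) = Bad2 z k e L := by
      ext p
      simp only [Bd, Finset.mem_map, Finset.mem_filter, Finset.mem_univ, true_and,
        Function.Embedding.coe_subtype, Subtype.exists, exists_and_left, exists_prop,
        exists_eq_right_right]
      constructor
      · rintro ⟨h, -⟩
        exact h
      · intro h
        exact ⟨h, (Finset.mem_filter.1 h).1⟩
    rw [← h1, Finset.card_map]
  have hcardO : Fintype.card Om = ∑ l ∈ (Finset.univ : Finset ι).filter (fun l => d l ≤ e),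
      (Std z k (e - d l) L).card := by
    simp only [Om]
    rw [Fintype.card_sigma]
    rw [Finset.sum_subtype (p := fun l => d l ≤ e)
      ((Finset.univ : Finset ι).filter (fun l => d l ≤ e)) (by simp)
      (fun l => (Std z k (e - d l) L).card)]
    exact Finset.sum_congr rfl fun l _ => by rw [Fintype.card_coe]
  rw [← hcardB, ← hcardO]
  refine hLA R (Rows z k e) Sx Om Bd (fun p => F p.1)
    (fun s p => D s.1.1 s.2.1 (F p.1))
    (fun ω p => coeff p.1 (fs ω.1.1 * monomial ω.2.1 1))
    (fun s ω => if ω.1.1 = s.1.1 then - fn z k e F (yb s.2.1 * monomial ω.2.1 1) else 0)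
    ?_ ?_ ?_ ?_ ?_
  · obtain ⟨p, hp, h⟩ := hne
    exact ⟨⟨p, hp⟩, h⟩
  · intro ω
    have h := hkill ω.1.1 (monomial ω.2.1 1)
    unfold fn at h
    rw [← sumRows2] at h
    exact h
  · intro s ω
    have h := hTan3 n R z k e F (D s.1.1 s.2.1) (fs ω.1.1)
      (if ω.1.1 = s.1.1 then yb s.2.1 else 0) (monomial ω.2.1 1) (hkill ω.1.1) ?_
    · have h2 : fn z k e (fun p => D s.1.1 s.2.1 (F p)) (fs ω.1.1 * monomial ω.2.1 1) =
          ∑ p : Rows z k e, coeff p.1 (fs ω.1.1 * monomial ω.2.1 1) *
            D s.1.1 s.2.1 (F p.1) := by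
        unfold fn
        rw [← sumRows2]
      rw [← h2, h]
      split_ifs with h3
      · rfl
      · rw [zero_mul, fn_zero, neg_zero]
    · intro p
      split_ifs with h3
      · rw [h3]
        exact hD1 s.1.1 s.2.1 s.2.2 p
      · rw [coeff_zero]
        exact hD2 s.1.1 ω.1.1 s.2.1 s.2.2 h3 p
  · intro c hc
    funext ω
    obtain ⟨l, q, hq⟩ := ω
    let c' : (Fin n →₀ ℕ) → R := fun q =>
      if h : q ∈ Std z k (e - d l.1) L then c ⟨l, ⟨q, h⟩⟩ else 0
    have hc' : ∀ q (h : q ∈ Std z k (e - d l.1) L), c' q = c ⟨l, ⟨q, h⟩⟩ := by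
      intro q h
      simp only [c', dif_pos h]
    have hann : IsAnn z k e F (∑ q ∈ Std z k (e - d l.1) L, monomial q (c' q)) := by
      apply hspan l.1 l.2
      · apply IsHomogeneous.sum
        intro q hq
        rw [isHomogeneous_iff_Mt]
        intro p hp
        rw [coeff_monomial] at hp
        have hpq : q = p := by
          by_contra hne'
          exact hp (if_neg hne')
        rw [← hpq]
        exact (mem_Mk.1 (Finset.mem_filter.1 hq).1).1
      · intro b hb
        have h := hc ⟨l, ⟨b, hb⟩⟩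
        rw [Fintype.sum_sigma] at h
        rw [Finset.sum_eq_single_of_mem l (Finset.mem_univ _)] at h
        · simp only [if_true] at h
          have h2 : ∑ q : {q : Fin n →₀ ℕ // q ∈ Std z k (e - d l.1) L},
              c ⟨l, q⟩ * (- fn z k e F (yb b * monomial q.1 1)) =
              ∑ q ∈ Std z k (e - d l.1) L, c' q * (- fn z k e F (yb b * monomial q 1)) := by
            rw [← Finset.sum_coe_sort (Std z k (e - d l.1) L)
              (fun q => c' q * (- fn z k e F (yb b * monomial q 1)))]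
            refine Finset.sum_congr rfl fun q _ => ?_
            rw [hc' q.1 q.2]
          rw [h2] at h
          simp only [mul_neg, Finset.sum_neg_distrib, neg_eq_zero] at h
          rw [Finset.mul_sum, fn_sum, ← h]
          refine Finset.sum_congr rfl fun q _ => ?_
          have h5 : yb b * monomial q (c' q) = C (c' q) * (yb b * monomial q 1) := by
            have h6 : (monomial q (c' q) : MvPolynomial (Fin n) R) = C (c' q) * monomial q 1 := by
              rw [C_mul_monomial, mul_one]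
            rw [h6]; ring
          rw [h5, fn_C_mul]
        · intro l' _ hl'
          refine Finset.sum_eq_zero fun q _ => ?_
          rw [if_neg, mul_zero]
          intro h3
          exact hl' (Subtype.ext h3)
    have key := hInd2 n R z y k e (e - d l.1) F c' hyz hann q hq
    rw [hc' q hq] at key
    exact key
  · intro c0 c hB p
    have hV := hVan2 n R z y k e F
      (fun p => c0 * F p + ∑ s : Sx, c s * D s.1.1 s.2.1 (F p)) hyz ?_ ?_ p.1 p.2
    · exact hV
    · intro m u v hu hv
      have h1 : fn z k e (fun p => c0 * F p + ∑ s : Sx, c s * D s.1.1 s.2.1 (F p))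
          (X z ^ m * (u * v))
          = c0 * fn z k e F (X z ^ m * (u * v)) +
            ∑ s : Sx, c s * fn z k e (fun p => D s.1.1 s.2.1 (F p)) (X z ^ m * (u * v)) := by
        unfold fn
        rw [Finset.mul_sum]
        simp_rw [Finset.mul_sum]
        rw [Finset.sum_comm, ← Finset.sum_add_distrib]
        refine Finset.sum_congr rfl fun p _ => ?_
        rw [mul_add, Finset.mul_sum]
        congr 1
        · ring
        · exact Finset.sum_congr rfl fun s _ => by ring
      have h2 : fn z k e F (X z ^ m * (u * v)) = 0 := by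
        rw [← mul_assoc]
        exact hu v
      rw [h1, h2, mul_zero, zero_add]
      refine Finset.sum_eq_zero fun s _ => ?_
      rw [hTan4 n R z k e F (D s.1.1 s.2.1) m u v hu hv, mul_zero]
    · intro p hp
      exact hB ⟨p, (Finset.mem_filter.1 hp).1⟩ (Finset.mem_filter.2 ⟨Finset.mem_univ _, hp⟩)

end Pool.Agent.Work.MP_2ad852_ag.GS

end

section

/-!
# Item Core3 of the block GS
-/

namespace Pool.Agent.Work.MP_2ad852_ag.GS

open MvPolynomial Finset Pool.Agent.Work.MP_2ad852_ag.GF

theorem pr_Core3 (hCore2 : S_Core2) (hAdd : S_LeadAdd2) (hEx : S_LeadEx) (hKill : S_TwKill)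
    (hNe : S_TwNe) (hD : S_TwD) (hSpan : S_TwSpan) (hPDE : S_TwPDE) : S_Core3 := by
  intro ι _ n z y k e d F hyz hF
  refine ⟨IsLead2 z y k e (twF z y k e F), ⟨?_, ?_⟩, ?_⟩
  · intro q r hq
    exact hAdd n (R2 ι n) z y k e (twF z y k e F) q r hyz hq
  · intro q x hq hxy hxz hqy
    refine hEx n (R2 ι n) z y x k e (twF z y k e F)
      ((pderiv (R := ℂ) (σ := (ι × (Fin n →₀ ℕ)) ⊕ Fin n) (Sum.inr x)).restrictScalars ℤ)
      hyz hxy hxz ?_ q hq hqy
    intro p _
    exact hPDE ι n z y x k e F hyz hxy hxz p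
  · refine hCore2 (R2 ι n) ι n z y k e d (twF z y k e F) (twf z y d)
      (fun l b => (pderiv (R := ℂ) (σ := (ι × (Fin n →₀ ℕ)) ⊕ Fin n)
        (Sum.inl (l, b))).restrictScalars ℤ)
      (fun b => twi (ι := ι) z y (monomial b 1)) hyz (hNe ι n z y k e F hyz hF.ne)
      (hKill ι n z y k e d F hyz hF) ?_ ?_ ?_
    · intro l b hb p
      exact (hD ι n z y d l l b p hb).1
    · intro l l' b hb hne p
      exact (hD ι n z y d l l' b p hb).2 hne
    · intro l hle w hw h
      exact hSpan ι n z y k e (d l) (twF z y k e F) w hyz hle hw h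

end Pool.Agent.Work.MP_2ad852_ag.GS

end

section

/-!
# Item Cut
-/

namespace Pool.Agent.Work.MP_2ad852_ag.GS

theorem Cut_hole_mono {s k : ℕ} {g : ℕ → ℕ} {i i' m' : ℕ} (h : i' ≤ i)
    (hh : Hole s k g i m') : Hole s k g i' m' :=
  ⟨hh.1, hh.2.1, hh.2.2.1, lt_of_le_of_lt h hh.2.2.2⟩

theorem Cut_tt_eq (ρ : ℝ) (α : ℕ → ℕ → ℝ) (i b : ℕ) (h0 : 0 < b) (hb : b ≤ i) :
    ∑ m ∈ Finset.range b, α m i - ρ * b = tt ρ α i (b - 1) := by
  unfold tt
  have h1 : b - 1 + 1 = b := by omega
  have h2 : min i (b - 1) = b - 1 := by omega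
  rw [h1, h2]
  have h3 : (((b - 1 : ℕ) : ℝ) + 1) = (b : ℝ) := by
    have : ((b - 1 + 1 : ℕ) : ℝ) = (b : ℝ) := by rw [h1]
    push_cast at this
    exact this
  rw [h3]

theorem Cut_tail (h1 : S_ww1) (h2 : S_ww2) (h3 : S_ww3) (hS : S_StepC)
    (s D k : ℕ) (ρ κ : ℝ) (W : ℕ → ℝ) (G : ℤ → ℝ) (α : ℕ → ℕ → ℝ)
    (hC : CutData s D k ρ κ W G α) (g : ℕ → ℕ) :
    ∀ N i0 : ℕ, s - i0 ≤ N → i0 ≤ s → Full s k g i0 →
      ∃ β, β < k ∧ (i0 ≤ β ∨ β = k - 1) ∧
        ∑ i ∈ Finset.Ico i0 (s + 1), W i * ww s D k ρ α g i ≤ VV s ρ W α i0 β := by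
  classical
  intro N
  induction N with
  | zero =>
    intro i0 hN hi0 hfull
    have hk := hC.hk
    by_cases hA : ∀ m', ¬ Hole s k g i0 m'
    · refine ⟨k - 1, by omega, Or.inr rfl, ?_⟩
      unfold VV
      refine Finset.sum_le_sum (fun i hi => ?_)
      rw [Finset.mem_Ico] at hi
      refine mul_le_mul_of_nonneg_left ?_ (hC.hW i)
      exact h3 s D k ρ κ W G α hC g i (by omega)
        (fun m' hm' => hA m' (Cut_hole_mono hi.1 hm'))
    · exfalso
      push Not at hA
      obtain ⟨m', hm'⟩ := hA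
      exact hfull m' (by have := hm'.2.1; omega) hm'
  | succ N ih =>
    intro i0 hN hi0 hfull
    have hk := hC.hk
    by_cases hA : ∀ m', ¬ Hole s k g i0 m'
    · refine ⟨k - 1, by omega, Or.inr rfl, ?_⟩
      unfold VV
      refine Finset.sum_le_sum (fun i hi => ?_)
      rw [Finset.mem_Ico] at hi
      refine mul_le_mul_of_nonneg_left ?_ (hC.hW i)
      exact h3 s D k ρ κ W G α hC g i (by omega)
        (fun m' hm' => hA m' (Cut_hole_mono hi.1 hm'))
    · push Not at hA
      obtain ⟨b', hb', hmin⟩ : ∃ b', Hole s k g i0 b' ∧ ∀ m' < b', ¬ Hole s k g i0 m' :=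
        ⟨Nat.find hA, Nat.find_spec hA, fun m' hm' => Nat.find_min hA hm'⟩
      have hib : i0 < b' := by
        by_contra hcon
        exact hfull b' (by omega) hb'
      obtain ⟨hbk, hbs, hbg, hig⟩ := hb'
      have hb' : Hole s k g i0 b' := ⟨hbk, hbs, hbg, hig⟩
      have hbb : Hole s k g b' b' := ⟨hbk, hbs, hbg, hbg⟩
      have hno : ∀ i, i0 ≤ i → ∀ m' < b', ¬ Hole s k g i m' :=
        fun i hi m' hm' hh => hmin m' hm' (Cut_hole_mono hi hh)
      -- levels below `b'`
      have hlow : ∀ i, i0 ≤ i → i < b' → ww s D k ρ α g i ≤ tt ρ α i (b' - 1) := by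
        intro i hi hib'
        exact h2 s D k ρ κ W G α hC g i b' (by omega) hib'
          (Cut_hole_mono (le_of_lt hib') hbb) (hno i hi)
      -- not full levels above
      have hhigh : ∀ i, b' ≤ i → i ≤ s → ¬ Full s k g i →
          ww s D k ρ α g i ≤ tt ρ α i (b' - 1) := by
        intro i hi his hnf
        rw [← Cut_tt_eq ρ α i b' (by omega) hi]
        apply h1 s D k ρ κ W G α hC g i b' his hi (hno i (by omega))
        unfold Full at hnf
        push Not at hnf
        exact hnf
      have hnfb : ¬ Full s k g b' := fun h => h b' le_rfl hbb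
      by_cases hex : ∃ i1, b' < i1 ∧ i1 ≤ s ∧ Full s k g i1
      · obtain ⟨i1, ⟨hi1, hi1s, hi1f⟩, hi1m⟩ : ∃ i1, (b' < i1 ∧ i1 ≤ s ∧ Full s k g i1) ∧
            ∀ i < i1, ¬ (b' < i ∧ i ≤ s ∧ Full s k g i) :=
          ⟨Nat.find hex, Nat.find_spec hex, fun i hi => Nat.find_min hex hi⟩
        obtain ⟨β, hβk, hβ, htail⟩ := ih i1 (by omega) hi1s hi1f
        have hbβ : b' - 1 < β := by
          rcases hβ with h | h
          · omega
          · omega
        have hstep := hS s D k ρ κ W G α hC i0 (b' - 1) i1 β (by omega) (by omega) hbβ hβk hi1s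
        have hsplit : ∑ i ∈ Finset.Ico i0 (s + 1), W i * ww s D k ρ α g i =
            ∑ i ∈ Finset.Ico i0 i1, W i * ww s D k ρ α g i +
            ∑ i ∈ Finset.Ico i1 (s + 1), W i * ww s D k ρ α g i :=
          (Finset.sum_Ico_consecutive _ (by omega) (by omega)).symm
        have hfirst : ∑ i ∈ Finset.Ico i0 i1, W i * ww s D k ρ α g i ≤
            ∑ i ∈ Finset.Ico i0 i1, W i * tt ρ α i (b' - 1) := by
          refine Finset.sum_le_sum (fun i hi => ?_)
          rw [Finset.mem_Ico] at hi
          refine mul_le_mul_of_nonneg_left ?_ (hC.hW i)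
          by_cases hc : i < b'
          · exact hlow i hi.1 hc
          · apply hhigh i (by omega) (by omega)
            by_cases hc2 : i = b'
            · rw [hc2]; exact hnfb
            · intro hf
              exact hi1m i hi.2 ⟨by omega, by omega, hf⟩
        have htot : ∑ i ∈ Finset.Ico i0 (s + 1), W i * ww s D k ρ α g i ≤
            max (VV s ρ W α i0 (b' - 1)) (VV s ρ W α i0 β) := by
          rw [hsplit]
          exact le_trans (add_le_add hfirst htail) hstep
        rcases le_max_iff.mp htot with h | h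
        · exact ⟨b' - 1, by omega, Or.inl (by omega), h⟩
        · exact ⟨β, hβk, Or.inl (by omega), h⟩
      · refine ⟨b' - 1, by omega, Or.inl (by omega), ?_⟩
        unfold VV
        refine Finset.sum_le_sum (fun i hi => ?_)
        rw [Finset.mem_Ico] at hi
        refine mul_le_mul_of_nonneg_left ?_ (hC.hW i)
        by_cases hc : i < b'
        · exact hlow i hi.1 hc
        · apply hhigh i (by omega) (by omega)
          by_cases hc2 : i = b'
          · rw [hc2]; exact hnfb
          · intro hf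
            exact hex ⟨i, by omega, by omega, hf⟩

theorem pr_Cut (h1 : S_ww1) (h2 : S_ww2) (h3 : S_ww3) (hV : S_VV) (hS : S_StepC) : S_Cut := by
  classical
  intro s D k ρ κ W G α hC g
  have hneg : ∀ i, i ≤ s → ¬ Full s k g i → W i * ww s D k ρ α g i ≤ 0 := by
    intro i hi hnf
    have h : ww s D k ρ α g i ≤ ∑ m ∈ Finset.range 0, α m i - ρ * (0 : ℕ) := by
      apply h1 s D k ρ κ W G α hC g i 0 hi (by omega) (fun m' hm' => absurd hm' (by omega))
      unfold Full at hnf
      push Not at hnf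
      exact hnf
    simp only [Finset.range_zero, Finset.sum_empty, Nat.cast_zero, mul_zero, sub_zero] at h
    exact mul_nonpos_of_nonneg_of_nonpos (hC.hW i) h
  by_cases hex : ∃ i0, i0 ≤ s ∧ Full s k g i0
  · obtain ⟨i0, ⟨hi0, hi0f⟩, hi0m⟩ : ∃ i0, (i0 ≤ s ∧ Full s k g i0) ∧
        ∀ i < i0, ¬ (i ≤ s ∧ Full s k g i) :=
      ⟨Nat.find hex, Nat.find_spec hex, fun i hi => Nat.find_min hex hi⟩
    obtain ⟨β, hβk, _, htail⟩ := Cut_tail h1 h2 h3 hS s D k ρ κ W G α hC g (s - i0) i0 le_rfl
      hi0 hi0f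
    have hVV := hV s D k ρ κ W G α hC i0 β hβk
    have hsplit : ∑ i ∈ Finset.range (s + 1), W i * ww s D k ρ α g i =
        ∑ i ∈ Finset.Ico 0 i0, W i * ww s D k ρ α g i +
        ∑ i ∈ Finset.Ico i0 (s + 1), W i * ww s D k ρ α g i := by
      rw [Finset.range_eq_Ico]
      exact (Finset.sum_Ico_consecutive _ (by omega) (by omega)).symm
    have hfirst : ∑ i ∈ Finset.Ico 0 i0, W i * ww s D k ρ α g i ≤ 0 := by
      apply Finset.sum_nonpos
      intro i hi
      rw [Finset.mem_Ico] at hi
      exact hneg i (by omega) (fun hf => hi0m i hi.2 ⟨by omega, hf⟩)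
    rw [hsplit]
    linarith
  · apply Finset.sum_nonpos
    intro i hi
    rw [Finset.mem_range] at hi
    exact hneg i (by omega) (fun hf => hex ⟨i, by omega, hf⟩)

end Pool.Agent.Work.MP_2ad852_ag.GS

end

section

namespace Pool.Agent.Work.MP_2ad852_ag.GS

open MvPolynomial Finset Pool.Agent.Work.MP_2ad852_ag.GF

theorem Dens_step {n : ℕ} {U : Finset (Fin n)} {a : ℕ} {p q : Fin n →₀ ℕ}
    (hq : q ∈ Finset.finsuppAntidiag U a) (hp : p ∈ Finset.finsuppAntidiag U (a + 1))
    (h : q ≤ p) : ∃ x ∈ U, p = q + Finsupp.single x 1 := by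
  rw [Finset.mem_finsuppAntidiag] at hq hp
  have hex : ∃ x ∈ U, q x < p x := by
    by_contra hcon
    push Not at hcon
    have : ∑ x ∈ U, p x ≤ ∑ x ∈ U, q x := Finset.sum_le_sum hcon
    have e1 : ∑ x ∈ U, p x = a + 1 := hp.1
    have e2 : ∑ x ∈ U, q x = a := hq.1
    omega
  obtain ⟨x, hxU, hx⟩ := hex
  refine ⟨x, hxU, ?_⟩
  have hle : ∀ i ∈ U, (q + Finsupp.single x 1 : Fin n →₀ ℕ) i ≤ p i := by
    intro i _
    rw [Finsupp.add_apply]
    by_cases hi : x = i
    · subst hi
      rw [Finsupp.single_eq_same]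
      exact hx
    · rw [Finsupp.single_apply, if_neg hi, add_zero]
      exact h i
  have hsum : ∑ i ∈ U, (q + Finsupp.single x 1 : Fin n →₀ ℕ) i = ∑ i ∈ U, p i := by
    have e1 : ∑ x ∈ U, p x = a + 1 := hp.1
    have e2 : ∑ x ∈ U, q x = a := hq.1
    simp only [Finsupp.add_apply, Finset.sum_add_distrib, e1, e2]
    congr 1
    rw [Finset.sum_eq_single_of_mem x hxU]
    · exact Finsupp.single_eq_same
    · intro b _ hb
      rw [Finsupp.single_apply, if_neg (Ne.symm hb)]
  have heq := (Finset.sum_eq_sum_iff_of_le hle).1 hsum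
  ext i
  by_cases hi : i ∈ U
  · exact (heq i hi).symm
  · have h1 : p i = 0 := by
      by_contra hne
      exact hi (hp.2 (Finsupp.mem_support_iff.2 hne))
    have h2 : q i = 0 := by
      by_contra hne
      exact hi (hq.2 (Finsupp.mem_support_iff.2 hne))
    have hxi : x ≠ i := fun hh => hi (hh ▸ hxU)
    rw [Finsupp.add_apply, Finsupp.single_apply, if_neg hxi, h1, h2, add_zero]

theorem pr_Dens (hN : GF.S_NMP) : S_Dens := by
  classical
  intro n z y s i j L hyz hC hji his
  have hH : cell z y s L j i ⊆ Finset.finsuppAntidiag (TT z y) (s - i) :=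
    Finset.filter_subset _ _
  have h1 := hN n (TT z y) (s - (i + 1)) (s - i) (cell z y s L j i) (by omega) hH
  refine h1.trans (Nat.mul_le_mul_right _ (Finset.card_le_card ?_))
  intro q hq
  rw [Finset.mem_filter] at hq
  obtain ⟨hq1, p, hp, hqp⟩ := hq
  have hp' := hp
  unfold cell at hp'
  rw [Finset.mem_filter] at hp'
  obtain ⟨hp1, hp2⟩ := hp'
  unfold MT at hp1
  have hsi : s - i = (s - (i + 1)) + 1 := by omega
  rw [hsi] at hp1
  obtain ⟨x, hxU, hx⟩ := Dens_step hq1 hp1 hqp
  unfold cell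
  rw [Finset.mem_filter]
  refine ⟨hq1, fun hL => hp2 ?_⟩
  have hxy : x ≠ y := (Finset.mem_erase.1 hxU).1
  have hxz : x ≠ z := (Finset.mem_erase.1 (Finset.mem_erase.1 hxU).2).1
  have hry : 1 ≤ (Finsupp.single z j + Finsupp.single y (i + 1 - j) + q : Fin n →₀ ℕ) y := by
    rw [Finsupp.add_apply, Finsupp.add_apply, Finsupp.single_eq_same]
    omega
  have h3 := hC.ex _ x hL hxy hxz hry
  have h4 : (Finsupp.single z j + Finsupp.single y (i + 1 - j) + q : Fin n →₀ ℕ) -
      Finsupp.single y 1 + Finsupp.single x 1 =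
      Finsupp.single z j + Finsupp.single y (i - j) + p := by
    have h5 : (Finsupp.single y (i + 1 - j) : Fin n →₀ ℕ) =
        Finsupp.single y (i - j) + Finsupp.single y 1 := by
      rw [← Finsupp.single_add]
      congr 1
      omega
    rw [hx, h5]
    have h6 : (Finsupp.single z j + (Finsupp.single y (i - j) + Finsupp.single y 1) + q :
        Fin n →₀ ℕ) = (Finsupp.single z j + Finsupp.single y (i - j) + q) +
          Finsupp.single y 1 := by abel
    rw [h6, add_tsub_cancel_right]
    abel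
  rw [h4] at h3
  exact h3

end Pool.Agent.Work.MP_2ad852_ag.GS

end

section

/-!
# Layer cake: from cuts to densities
-/

namespace Pool.Agent.Work.MP_2ad852_ag.GS

open Finset

theorem Dual_G_nonneg {s D k : ℕ} {ρ κ : ℝ} {W : ℕ → ℝ} {G : ℤ → ℝ} {α : ℕ → ℕ → ℝ}
    (h : CutData s D k ρ κ W G α) (x : ℤ) : 0 ≤ G x := by
  have h1 := h.G_neg (min x (-1)) (lt_of_le_of_lt (min_le_right _ _) (by norm_num))
  rw [← h1]
  exact h.G_mono _ _ (min_le_left _ _)

theorem Dual_α_nonneg {s D k : ℕ} {ρ κ : ℝ} {W : ℕ → ℝ} {G : ℤ → ℝ} {α : ℕ → ℕ → ℝ}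
    (h : CutData s D k ρ κ W G α) (m i : ℕ) : 0 ≤ α m i := by
  rcases Nat.eq_zero_or_pos i with hi | hi
  · rw [hi]
    exact (Dual_G_nonneg h _).trans (h.hα0 m)
  · rw [h.hα m i hi]
    exact Dual_G_nonneg h _

open Classical in
/-- the cut of height `τ` -/
noncomputable def Dual_g (s : ℕ) (E : ℕ → ℕ → ℕ) (τ j : ℕ) : ℕ :=
  Nat.find (p := fun i => j ≤ i ∧ (s < i ∨ τ < E j i)) ⟨max j (s + 1), le_max_left _ _,
    Or.inl (lt_of_lt_of_le (Nat.lt_succ_self s) (le_max_right _ _))⟩

theorem Dual_g_le {s : ℕ} {E : ℕ → ℕ → ℕ} (hE : ∀ j i, j ≤ i → i < s → E j i ≤ E j (i + 1))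
    {τ j i : ℕ} (hji : j ≤ i) (his : i ≤ s) : Dual_g s E τ j ≤ i ↔ τ < E j i := by
  classical
  have hmono : ∀ a c, j ≤ a → a + c ≤ s → E j a ≤ E j (a + c) := by
    intro a c hja
    induction c with
    | zero => intro _; exact le_rfl
    | succ c ih =>
      intro hs
      exact (ih (by omega)).trans (hE j (a + c) (by omega) (by omega))
  constructor
  · intro hle
    have hspec := Nat.find_spec (p := fun i => j ≤ i ∧ (s < i ∨ τ < E j i))
      ⟨max j (s + 1), le_max_left _ _,
        Or.inl (lt_of_lt_of_le (Nat.lt_succ_self s) (le_max_right _ _))⟩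
    have hd : Dual_g s E τ j = Nat.find (p := fun i => j ≤ i ∧ (s < i ∨ τ < E j i))
      ⟨max j (s + 1), le_max_left _ _,
        Or.inl (lt_of_lt_of_le (Nat.lt_succ_self s) (le_max_right _ _))⟩ := rfl
    rw [← hd] at hspec
    obtain ⟨h1, h2⟩ := hspec
    rcases h2 with h2 | h2
    · omega
    · have h3 := hmono (Dual_g s E τ j) (i - Dual_g s E τ j) h1 (by omega)
      have h4 : Dual_g s E τ j + (i - Dual_g s E τ j) = i := by omega
      rw [h4] at h3
      exact lt_of_lt_of_le h2 h3
  · intro hlt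
    exact Nat.find_min' _ ⟨hji, Or.inr hlt⟩

theorem Dual_hole {s k : ℕ} {E : ℕ → ℕ → ℕ} (hE : ∀ j i, j ≤ i → i < s → E j i ≤ E j (i + 1))
    {τ j i : ℕ} (hjk : j < k) (hjs : j ≤ s) (his : i ≤ s) :
    ¬ Hole s k (Dual_g s E τ) i j ↔ τ < E j (max j i) := by
  rw [← Dual_g_le hE (le_max_left j i) (max_le hjs his)]
  unfold Hole
  constructor
  · intro h
    by_contra hcon
    push Not at hcon
    rw [max_lt_iff] at hcon
    exact h ⟨hjk, hjs, hcon.1, hcon.2⟩
  · intro h h2
    have := max_lt h2.2.2.1 h2.2.2.2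
    omega

theorem Dual_count (Q e : ℕ) (h : e ≤ Q) :
    (∑ τ ∈ Finset.range Q, if τ < e then (1 : ℝ) else 0) = e := by
  rw [← Finset.sum_filter]
  have : (Finset.range Q).filter (fun τ => τ < e) = Finset.range e := by
    ext x
    simp only [Finset.mem_filter, Finset.mem_range]
    omega
  rw [this]
  simp

theorem pr_Dual (hC : S_Cut) : S_Dual := by
  intro s D k ρ κ W G α h E B hE hB0 hB
  classical
  have hk := h.hk
  have hW := h.hW
  -- the height
  obtain ⟨Q, hQ⟩ : ∃ Q : ℕ, ∀ j ≤ s, ∀ i ≤ s, E j i ≤ Q := by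
    refine ⟨∑ j ∈ Finset.range (s + 1), ∑ i ∈ Finset.range (s + 1), E j i, ?_⟩
    intro j hj i hi
    refine le_trans ?_ (Finset.single_le_sum (f := fun j => ∑ i ∈ Finset.range (s + 1), E j i)
      (fun _ _ => Nat.zero_le _) (Finset.mem_range.2 (Nat.lt_succ_of_le hj)))
    exact Finset.single_le_sum (f := fun i => E j i)
      (fun _ _ => Nat.zero_le _) (Finset.mem_range.2 (Nat.lt_succ_of_le hi))
  have hcut : ∀ τ, ∑ i ∈ Finset.range (s + 1), W i * ww s D k ρ α (Dual_g s E τ) i ≤ 0 :=
    fun τ => hC s D k ρ κ W G α h (Dual_g s E τ)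
  -- pointwise bound
  have hpt : ∀ m ∈ Finset.range k, ∀ i ∈ Finset.range (s + 1), B m i ≤
      ∑ τ ∈ Finset.range Q, W i * (if ∀ m', Win s D k m m' → ¬ Hole s k (Dual_g s E τ) i m'
        then α m i else 0) := by
    intro m hm i hi
    rw [Finset.mem_range] at hm hi
    have hα := Dual_α_nonneg h m i
    by_cases hmD : m ≤ D + 2 * s
    · have hw0 : Win s D k m ((m - D + 1) / 2) := ⟨le_rfl, by omega, by omega, by omega⟩
      have hne : ((Finset.range (s + 1)).filter (fun j => Win s D k m j)).Nonempty :=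
        ⟨_, Finset.mem_filter.2 ⟨Finset.mem_range.2 (by have := hw0.2.2.2; omega), hw0⟩⟩
      obtain ⟨j0, hj0, hmin⟩ := Finset.exists_min_image _ (fun j => E j (max j i)) hne
      rw [Finset.mem_filter, Finset.mem_range] at hj0
      have hb := hB m i j0 hm (by omega) hj0.2
      have hEQ : E j0 (max j0 i) ≤ Q := hQ _ (by omega) _ (by omega)
      have hrew : ∑ τ ∈ Finset.range Q, W i * (if ∀ m', Win s D k m m' →
          ¬ Hole s k (Dual_g s E τ) i m' then α m i else 0) =
          W i * α m i * E j0 (max j0 i) := by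
        rw [← Dual_count Q _ hEQ, Finset.mul_sum]
        refine Finset.sum_congr rfl fun τ _ => ?_
        have hiff : (∀ m', Win s D k m m' → ¬ Hole s k (Dual_g s E τ) i m') ↔
            τ < E j0 (max j0 i) := by
          constructor
          · intro hall
            exact (Dual_hole hE hj0.2.2.2.1 hj0.2.2.2.2 (by omega)).1 (hall j0 hj0.2)
          · intro hlt m' hw
            rw [Dual_hole hE hw.2.2.1 hw.2.2.2 (by omega)]
            have := hmin m' (Finset.mem_filter.2 ⟨Finset.mem_range.2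
              (by have := hw.2.2.2; omega), hw⟩)
            exact lt_of_lt_of_le hlt this
        by_cases hc : τ < E j0 (max j0 i)
        · rw [if_pos (hiff.2 hc), if_pos hc, mul_one]
        · rw [if_neg (fun hcc => hc (hiff.1 hcc)), if_neg hc, mul_zero, mul_zero]
      rw [hrew]
      exact hb
    · have hz : α m i = 0 := by
        rcases Nat.eq_zero_or_pos i with h0 | h0
        · rw [h0]
          exact h.hα1 m (by omega)
        · rw [h.hα m i h0]
          apply h.G_neg
          omega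
      refine (hB0 m i hz).trans ?_
      refine Finset.sum_nonneg fun τ _ => mul_nonneg (hW i) ?_
      split_ifs
      · exact hα
      · exact le_rfl
  -- summation
  have h1 : ∑ m ∈ Finset.range k, ∑ i ∈ Finset.range (s + 1), B m i ≤
      ∑ τ ∈ Finset.range Q, ∑ i ∈ Finset.range (s + 1), W i *
        ∑ m ∈ (Finset.range k).filter
          (fun m => ∀ m', Win s D k m m' → ¬ Hole s k (Dual_g s E τ) i m'), α m i := by
    calc ∑ m ∈ Finset.range k, ∑ i ∈ Finset.range (s + 1), B m i
        ≤ ∑ m ∈ Finset.range k, ∑ i ∈ Finset.range (s + 1), ∑ τ ∈ Finset.range Q,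
          W i * (if ∀ m', Win s D k m m' → ¬ Hole s k (Dual_g s E τ) i m'
            then α m i else 0) :=
          Finset.sum_le_sum fun m hm => Finset.sum_le_sum fun i hi => hpt m hm i hi
      _ = ∑ τ ∈ Finset.range Q, ∑ i ∈ Finset.range (s + 1), W i *
        ∑ m ∈ (Finset.range k).filter
          (fun m => ∀ m', Win s D k m m' → ¬ Hole s k (Dual_g s E τ) i m'), α m i := by
          have e1 : ∀ m ∈ Finset.range k, ∑ i ∈ Finset.range (s + 1), ∑ τ ∈ Finset.range Q,
              W i * (if ∀ m', Win s D k m m' → ¬ Hole s k (Dual_g s E τ) i m'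
                then α m i else 0) = ∑ τ ∈ Finset.range Q, ∑ i ∈ Finset.range (s + 1),
              W i * (if ∀ m', Win s D k m m' → ¬ Hole s k (Dual_g s E τ) i m'
                then α m i else 0) := fun m _ => Finset.sum_comm
          rw [Finset.sum_congr rfl e1, Finset.sum_comm]
          refine Finset.sum_congr rfl fun τ _ => ?_
          rw [Finset.sum_comm]
          refine Finset.sum_congr rfl fun i _ => ?_
          rw [Finset.sum_filter, Finset.mul_sum]
  have h2 : ∀ τ, ∑ i ∈ Finset.range (s + 1), W i *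
        ∑ m ∈ (Finset.range k).filter
          (fun m => ∀ m', Win s D k m m' → ¬ Hole s k (Dual_g s E τ) i m'), α m i ≤
      ρ * ∑ i ∈ Finset.range (s + 1), W i *
        ((Finset.range (min i (min (k - 1) s) + 1)).filter
          (fun m' => ¬ Hole s k (Dual_g s E τ) i m')).card := by
    intro τ
    have h3 := hcut τ
    unfold ww at h3
    rw [Finset.mul_sum]
    have h4 : ∑ i ∈ Finset.range (s + 1), W i *
        (∑ m ∈ (Finset.range k).filter
          (fun m => ∀ m', Win s D k m m' → ¬ Hole s k (Dual_g s E τ) i m'), α m i -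
        ρ * ((Finset.range (min i (min (k - 1) s) + 1)).filter
          (fun m' => ¬ Hole s k (Dual_g s E τ) i m')).card) =
        ∑ i ∈ Finset.range (s + 1), W i *
        ∑ m ∈ (Finset.range k).filter
          (fun m => ∀ m', Win s D k m m' → ¬ Hole s k (Dual_g s E τ) i m'), α m i -
        ∑ i ∈ Finset.range (s + 1), ρ * (W i *
          ((Finset.range (min i (min (k - 1) s) + 1)).filter
          (fun m' => ¬ Hole s k (Dual_g s E τ) i m')).card) := by
      rw [← Finset.sum_sub_distrib]
      refine Finset.sum_congr rfl fun i _ => ?_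
      ring
    rw [h4] at h3
    linarith
  refine h1.trans ((Finset.sum_le_sum fun τ _ => h2 τ).trans ?_)
  rw [← Finset.mul_sum]
  apply le_of_eq
  congr 1
  rw [Finset.sum_comm]
  have h5 : ∀ i ∈ Finset.range (s + 1), ∑ τ ∈ Finset.range Q, W i *
        (((Finset.range (min i (min (k - 1) s) + 1)).filter
          (fun m' => ¬ Hole s k (Dual_g s E τ) i m')).card : ℝ) =
      ∑ j ∈ Finset.range (min k (s + 1)), if j ≤ i then W i * (E j i : ℝ) else 0 := by
    intro i hi
    rw [Finset.mem_range] at hi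
    rw [← Finset.mul_sum]
    have h6 : ∀ τ ∈ Finset.range Q, (((Finset.range (min i (min (k - 1) s) + 1)).filter
          (fun m' => ¬ Hole s k (Dual_g s E τ) i m')).card : ℝ) =
        ∑ j ∈ Finset.range (min i (min (k - 1) s) + 1), if τ < E j i then (1 : ℝ) else 0 := by
      intro τ _
      rw [Finset.card_filter]
      push_cast
      refine Finset.sum_congr rfl fun j hj => ?_
      rw [Finset.mem_range] at hj
      have hiff := Dual_hole (k := k) hE (τ := τ) (j := j) (i := i) (by omega) (by omega)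
        (by omega)
      have hmax : max j i = i := max_eq_right (by omega)
      rw [hmax] at hiff
      by_cases hc : τ < E j i
      · rw [if_pos (hiff.2 hc), if_pos hc]
      · rw [if_neg (fun hcc => hc (hiff.1 hcc)), if_neg hc]
    rw [Finset.sum_congr rfl h6, Finset.sum_comm]
    have h7 : ∀ j ∈ Finset.range (min i (min (k - 1) s) + 1),
        (∑ τ ∈ Finset.range Q, if τ < E j i then (1 : ℝ) else 0) = E j i := by
      intro j hj
      rw [Finset.mem_range] at hj
      exact Dual_count Q _ (hQ j (by omega) i (by omega))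
    rw [Finset.sum_congr rfl h7, Finset.mul_sum, ← Finset.sum_filter]
    refine Finset.sum_congr ?_ fun _ _ => rfl
    ext j
    simp only [Finset.mem_range, Finset.mem_filter]
    omega
  rw [Finset.sum_congr rfl h5, Finset.sum_comm]
  refine Finset.sum_congr rfl fun j hj => ?_
  rw [← Finset.sum_filter]
  refine Finset.sum_congr ?_ fun _ _ => rfl
  ext i
  simp only [Finset.mem_range, Finset.mem_filter, Finset.mem_Ico]
  omega

end Pool.Agent.Work.MP_2ad852_ag.GS

end

section

namespace Pool.Agent.Work.MP_2ad852_ag.GS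

open MvPolynomial Finset Pool.Agent.Work.MP_2ad852_ag.GF

theorem pr_ExtR2 : S_ExtR2 := by
  intro ι _ n z k e s d hR
  obtain ⟨a, ha⟩ := hR
  obtain ⟨φ, hφX, hφ⟩ : ∃ φ : Rg ι n →+* Rg (ι ⊕ Fin s) n,
      (∀ (l : ι) (b : Fin n →₀ ℕ), φ (X (l, b)) = X (Sum.inl l, b)) ∧ Function.Injective φ := by
    refine ⟨(rename (Prod.map Sum.inl id) : Rg ι n →ₐ[ℂ] Rg (ι ⊕ Fin s) n).toRingHom, ?_, ?_⟩
    · intro l b
      show rename (Prod.map Sum.inl id) (X (l, b)) = X (Sum.inl l, b)
      rw [rename_X]
      rfl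
    · exact rename_injective _ (Function.Injective.prodMap Sum.inl_injective
        Function.injective_id)
  have hg : ∀ l, gf (n := n) (Sum.elim d (fun _ : Fin s => e)) (Sum.inl l)
      = MvPolynomial.map φ (gf (n := n) d l) := by
    intro l
    ext1 p
    rw [coeff_map, coeff_gf, coeff_gf]
    by_cases h : ∑ i, p i = d l
    · rw [if_pos h, if_pos (show ∑ i, p i = Sum.elim d (fun _ : Fin s => e) (Sum.inl l) from h),
        hφX]
    · rw [if_neg h, if_neg (show ¬ ∑ i, p i = Sum.elim d (fun _ : Fin s => e) (Sum.inl l) from h),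
        map_zero]
  refine ⟨Sum.elim (fun l => MvPolynomial.map φ (a l)) (fun _ => 0), ?_, ?_, ?_, ?_⟩
  · rintro (l | j)
    · simp only [Sum.elim_inl]
      exact (ha.hom l).map φ
    · simp only [Sum.elim_inr]
      exact isHomogeneous_zero _ _ _
  · rintro (l | j) h
    · simp only [Sum.elim_inl] at h ⊢
      rw [ha.zero l h, map_zero]
    · simp only [Sum.elim_inr]
  · intro p hp
    rw [Fintype.sum_sum_type]
    simp only [Sum.elim_inl, Sum.elim_inr, mul_zero, Finset.sum_const_zero, add_zero]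
    have : ∑ l, gf (n := n) (Sum.elim d (fun _ : Fin s => e)) (Sum.inl l) * MvPolynomial.map φ (a l)
        = MvPolynomial.map φ (∑ l, gf d l * a l) := by
      rw [map_sum]
      refine Finset.sum_congr rfl fun l _ => ?_
      rw [hg l, map_mul]
    rw [this, coeff_map, ha.kill p hp, map_zero]
  · obtain ⟨l, p, hp, hne⟩ := ha.ne
    refine ⟨Sum.inl l, p, hp, ?_⟩
    simp only [Sum.elim_inl]
    rw [coeff_map]
    intro h0
    exact hne (hφ (by rw [h0, map_zero]))

end Pool.Agent.Work.MP_2ad852_ag.GS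

end

section

namespace Pool.Agent.Work.MP_2ad852_ag.GS

open MvPolynomial Finset Pool.Agent.Work.MP_2ad852_ag.GF

theorem qq_mono (N : ℕ) (x y : ℤ) (h : x ≤ y) : qq N x ≤ qq N y := by
  unfold qq
  refine Finset.sum_le_sum fun w _ => ?_
  by_cases h1 : (w : ℤ) ≤ x
  · rw [if_pos h1, if_pos (h1.trans h)]
  · rw [if_neg h1]
    exact Nat.zero_le _

theorem qq_le (N : ℕ) (x : ℤ) : qq N x ≤ 2 ^ N := by
  rw [← Nat.sum_range_choose N]
  unfold qq
  refine Finset.sum_le_sum fun w _ => ?_
  split_ifs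
  · exact le_rfl
  · exact Nat.zero_le _

theorem qq_neg (N : ℕ) (x : ℤ) (h : x < 0) : qq N x = 0 := by
  unfold qq
  refine Finset.sum_eq_zero fun w _ => ?_
  rw [if_neg]
  have : (0 : ℤ) ≤ w := Int.natCast_nonneg w
  omega

theorem pr_GG : S_GG := by
  intro N
  refine ⟨fun x y h => ?_, fun x => ?_, fun x h => ?_⟩
  · exact Nat.add_le_add (qq_mono N x y h) (qq_mono N _ _ (by omega))
  · have h1 := qq_le N x
    have h2 := qq_le N (x - 1)
    unfold GG
    rw [pow_succ]
    omega
  · unfold GG
    rw [qq_neg N x h, qq_neg N (x - 1) (by omega)]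

end Pool.Agent.Work.MP_2ad852_ag.GS

end

section

/-!
# Item `Ind2`
-/

namespace Pool.Agent.Work.MP_2ad852_ag.GS

open MvPolynomial Finset Pool.Agent.Work.MP_2ad852_ag.GF

theorem pr_Ind2 : S_Ind2 := by
  classical
  intro n R _ _ z y k e t F c _ h
  by_contra hcon
  push Not at hcon
  obtain ⟨q1, hq1, hc1⟩ := hcon
  obtain ⟨q0, hq0, hmax⟩ := Finset.exists_max_image
    ((Std z k t (IsLead2 z y k e F)).filter (fun q => c q ≠ 0)) (fun q => key2 z y q)
    ⟨q1, Finset.mem_filter.2 ⟨hq1, hc1⟩⟩
  rw [Finset.mem_filter] at hq0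
  obtain ⟨hq0S, hc0⟩ := hq0
  have hS : ∀ q, q ∈ Std z k t (IsLead2 z y k e F) ↔ q ∈ Mk z k t ∧ ¬ IsLead2 z y k e F q := by
    intro q
    unfold Std
    rw [Finset.mem_filter]
  have hcoeff : ∀ p, coeff p (∑ q ∈ Std z k t (IsLead2 z y k e F), monomial q (c q)) =
      if p ∈ Std z k t (IsLead2 z y k e F) then c p else 0 := by
    intro p
    rw [coeff_sum]
    split_ifs with hp
    · rw [Finset.sum_eq_single_of_mem p hp]
      · rw [coeff_monomial, if_pos rfl]
      · intro b _ hb
        rw [coeff_monomial, if_neg hb]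
    · refine Finset.sum_eq_zero fun b hb => ?_
      rw [coeff_monomial, if_neg]
      rintro rfl
      exact hp hb
  have hdeg : ∀ q ∈ Std z k t (IsLead2 z y k e F), ∑ i, q i = t := by
    intro q hq
    exact (mem_Mk.1 ((hS q).1 hq).1).1
  apply ((hS q0).1 hq0S).2
  refine ⟨∑ q ∈ Std z k t (IsLead2 z y k e F), monomial q (c q), ?_, h, ?_, ?_⟩
  · rw [isHomogeneous_iff_Mt]
    intro p hp
    rw [hcoeff] at hp
    have hpS : p ∈ Std z k t (IsLead2 z y k e F) := by
      by_contra hn
      rw [if_neg hn] at hp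
      exact hp rfl
    rw [hdeg p hpS, hdeg q0 hq0S]
  · rw [hcoeff, if_pos hq0S]
    exact hc0
  · intro p hp
    rw [hcoeff] at hp
    have hpS : p ∈ Std z k t (IsLead2 z y k e F) := by
      by_contra hn
      rw [if_neg hn] at hp
      exact hp rfl
    rw [if_pos hpS] at hp
    exact hmax p (Finset.mem_filter.2 ⟨hpS, hp⟩)

end Pool.Agent.Work.MP_2ad852_ag.GS

end
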