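import Mathlib
import Pool.Agent.Work.MP_2ad852_ag.GS.Stmts

/-! Bundle of small proof modules (one section per former module). -/

section

/-!
# K2: the key of the monomial order
-/

set_option autoImplicit false

namespace Pool.Agent.Work.MP_2ad852_ag.GS

open MvPolynomial Finset Pool.Agent.Work.MP_2ad852_ag.GF

theorem K2_sum {n : ℕ} (z y : Fin n) (hy : y ≠ z) (p : Fin n →₀ ℕ) :
    ∑ i, p i = p z + (p y + ∑ i, ((p.erase z).erase y) i) := by
  rw [sum_erase z p, sum_erase y (p.erase z), Finsupp.erase_ne hy]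

theorem K2_add {n : ℕ} (z y : Fin n) (p q : Fin n →₀ ℕ) :
    key2 z y (p + q) = key2 z y p + key2 z y q := by
  unfold key2
  rw [Finsupp.erase_add, Finsupp.erase_add, map_add]
  rw [← toLex_add, Prod.mk_add_mk]
  congr 2
  rw [← Finset.sum_add_distrib]
  exact Finset.sum_congr rfl fun i _ => Finsupp.add_apply _ _ _

theorem K2_inj {n : ℕ} (z y : Fin n) (p q : Fin n →₀ ℕ) (hy : y ≠ z)
    (h : ∑ i, p i = ∑ i, q i) (hk : key2 z y p = key2 z y q) : p = q := by
  unfold key2 at hk
  have h1 := toLex.injective hk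
  rw [Prod.mk.injEq] at h1
  obtain ⟨h1, h2⟩ := h1
  have he : (p.erase z).erase y = (q.erase z).erase y :=
    (MonomialOrder.degLex (σ := Fin n)).toSyn.injective h2
  have hp := K2_sum z y hy p
  have hq := K2_sum z y hy q
  have hp' := sum_erase z p
  have hq' := sum_erase z q
  rw [he] at hp
  have hz : p z = q z := by omega
  have hyy : p y = q y := by omega
  ext i
  by_cases hi : i = z
  · rw [hi, hz]
  · by_cases hi' : i = y
    · rw [hi', hyy]
    · rw [← Finsupp.erase_ne (f := p) hi, ← Finsupp.erase_ne (f := p.erase z) hi', he,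
        Finsupp.erase_ne hi', Finsupp.erase_ne hi]

theorem K2_le {n : ℕ} (z y : Fin n) (p q : Fin n →₀ ℕ) (hy : y ≠ z)
    (h : ∑ i, p i = ∑ i, q i) (hk : key2 z y p ≤ key2 z y q) :
    q z ≤ p z ∧ (q z = p z → q y ≤ p y) := by
  unfold key2 at hk
  rw [Prod.Lex.toLex_le_toLex] at hk
  have hp := K2_sum z y hy p
  have hq := K2_sum z y hy q
  have hp' := sum_erase z p
  have hq' := sum_erase z q
  rcases hk with hk | ⟨hk, hk'⟩
  · simp only at hk
    refine ⟨by omega, fun h3 => by omega⟩
  · simp only at hk hk'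
    refine ⟨by omega, fun h3 => ?_⟩
    rw [MonomialOrder.degLex_le_iff] at hk'
    have hd := Finsupp.DegLex.monotone_degree hk'
    simp only [ofDegLex_toDegLex] at hd
    rw [← sum_eq_degree, ← sum_eq_degree] at hd
    omega

theorem pr_K2 : S_K2 :=
  ⟨fun _ z y p q => K2_add z y p q, fun _ z y p q hy h hk => K2_inj z y p q hy h hk,
    fun _ z y p q hy h hk => K2_le z y p q hy h hk⟩

end Pool.Agent.Work.MP_2ad852_ag.GS

end

section

/-!
# Leading exponents: multiples of leading exponents are leading exponents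
-/

set_option autoImplicit false

namespace Pool.Agent.Work.MP_2ad852_ag.GS

open MvPolynomial Finset Pool.Agent.Work.MP_2ad852_ag.GF

theorem pr_LeadAdd2 (hK : S_K2) : S_LeadAdd2 := by
  intro n R _ _ z y k e F q r _ h
  obtain ⟨u, hu, hann, hq, hle⟩ := h
  have hco : ∀ p, coeff p (u * monomial r 1) = if r ≤ p then coeff (p - r) u else 0 := by
    intro p
    rw [coeff_mul_monomial']
    split_ifs
    · rw [mul_one]
    · rfl
  refine ⟨u * monomial r 1, ?_, IsAnn.mul z k e hann _, ?_, ?_⟩
  · rw [isHomogeneous_iff_Mt]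
    intro p hp
    rw [hco] at hp
    split_ifs at hp with hr
    · have h1 := (isHomogeneous_iff_Mt u _).1 hu _ hp
      have h2 : p = (p - r) + r := (tsub_add_cancel_of_le hr).symm
      rw [h2]
      simp only [Finsupp.coe_add, Pi.add_apply, Finset.sum_add_distrib]
      rw [h1]
    · exact absurd rfl hp
  · rw [hco, if_pos le_add_self, add_tsub_cancel_right]
    exact hq
  · intro p hp
    rw [hco] at hp
    split_ifs at hp with hr
    · have h2 : p = (p - r) + r := (tsub_add_cancel_of_le hr).symm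
      rw [h2, hK.1, hK.1]
      have h3 := hle _ hp
      exact add_le_add_left h3 _
    · exact absurd rfl hp

end Pool.Agent.Work.MP_2ad852_ag.GS

end

section

/-!
# Item LeadEx of the block GS: exchange of `y` for another variable in leading exponents
-/

namespace Pool.Agent.Work.MP_2ad852_ag.GS

open MvPolynomial Finset Pool.Agent.Work.MP_2ad852_ag.GF

namespace LeadEx

/-- apply a derivation to all coefficients -/
noncomputable def dC {n : ℕ} {R : Type} [CommRing R] (D : Derivation ℤ R R)
    (u : MvPolynomial (Fin n) R) : MvPolynomial (Fin n) R :=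
  ∑ a ∈ u.support, monomial a (D (coeff a u))

theorem coeff_dC {n : ℕ} {R : Type} [CommRing R] (D : Derivation ℤ R R)
    (u : MvPolynomial (Fin n) R) (a : Fin n →₀ ℕ) : coeff a (dC D u) = D (coeff a u) := by
  unfold dC
  rw [coeff_sum]
  by_cases h : a ∈ u.support
  · rw [Finset.sum_eq_single_of_mem a h]
    · rw [coeff_monomial, if_pos rfl]
    · intro b _ hb
      rw [coeff_monomial, if_neg hb]
  · rw [Finset.sum_eq_zero]
    · rw [notMem_support_iff.1 h, map_zero]
    · intro b hb
      rw [coeff_monomial, if_neg]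
      rintro rfl
      exact h hb

theorem dC_mul {n : ℕ} {R : Type} [CommRing R] (D : Derivation ℤ R R)
    (u v : MvPolynomial (Fin n) R) : dC D (u * v) = dC D u * v + u * dC D v := by
  ext p
  rw [coeff_dC, coeff_add, coeff_mul, coeff_mul, coeff_mul, map_sum, ← Finset.sum_add_distrib]
  refine Finset.sum_congr rfl fun x _ => ?_
  rw [coeff_dC, coeff_dC, Derivation.leibniz, smul_eq_mul, smul_eq_mul]
  ring

theorem D_fn {n : ℕ} {R : Type} [CommRing R] (D : Derivation ℤ R R) (z : Fin n) (k e : ℕ)
    (F : (Fin n →₀ ℕ) → R) (w : MvPolynomial (Fin n) R) :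
    D (fn z k e F w) = fn z k e (fun p => D (F p)) w + fn z k e F (dC D w) := by
  unfold fn
  rw [map_sum, ← Finset.sum_add_distrib]
  refine Finset.sum_congr rfl fun p _ => ?_
  rw [coeff_dC, Derivation.leibniz, smul_eq_mul, smul_eq_mul]
  ring

theorem sum_exch {n : ℕ} (y x : Fin n) (p : Fin n →₀ ℕ) (hp : 1 ≤ p y) :
    ∑ i, (p - Finsupp.single y 1 + Finsupp.single x 1 : Fin n →₀ ℕ) i = ∑ i, p i := by
  have h1 : p - Finsupp.single y 1 + Finsupp.single y 1 = p := by
    apply tsub_add_cancel_of_le
    rw [Finsupp.single_le_iff]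
    exact hp
  have h2 : ∑ i, (p - Finsupp.single y 1 + Finsupp.single y 1 : Fin n →₀ ℕ) i = ∑ i, p i := by
    rw [h1]
  rw [← h2]
  simp only [Finsupp.coe_add, Pi.add_apply, Finset.sum_add_distrib]
  congr 1
  rw [sum_eq_degree, sum_eq_degree, Finsupp.degree_single, Finsupp.degree_single]

theorem exch_z {n : ℕ} (z y x : Fin n) (hyz : y ≠ z) (hxz : x ≠ z) (p : Fin n →₀ ℕ) :
    (p - Finsupp.single y 1 + Finsupp.single x 1 : Fin n →₀ ℕ) z = p z := by
  rw [Finsupp.add_apply, Finsupp.tsub_apply, Finsupp.single_eq_of_ne' hyz,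
    Finsupp.single_eq_of_ne' hxz]
  omega

theorem exch_y {n : ℕ} (y x : Fin n) (hxy : x ≠ y) (p : Fin n →₀ ℕ) :
    (p - Finsupp.single y 1 + Finsupp.single x 1 : Fin n →₀ ℕ) y = p y - 1 := by
  rw [Finsupp.add_apply, Finsupp.tsub_apply, Finsupp.single_eq_same,
    Finsupp.single_eq_of_ne' hxy]
  omega

theorem xpd_monomial {n : ℕ} {R : Type} [CommRing R] (y x : Fin n) (p : Fin n →₀ ℕ) (c : R) :
    (X x * pderiv y (monomial p c) : MvPolynomial (Fin n) R) =
      monomial (p - Finsupp.single y 1 + Finsupp.single x 1) (c * (p y : R)) := by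
  rw [pderiv_monomial, X, monomial_mul, one_mul, add_comm]

theorem fn_xpd {n : ℕ} {R : Type} [CommRing R] (D : Derivation ℤ R R) (z y x : Fin n) (k e : ℕ)
    (F : (Fin n →₀ ℕ) → R) (hyz : y ≠ z) (hxz : x ≠ z)
    (hF : ∀ p ∈ Mk z k e, D (F p) = (p y : R) * F (p - Finsupp.single y 1 + Finsupp.single x 1))
    (w : MvPolynomial (Fin n) R) :
    fn z k e (fun p => D (F p)) w = fn z k e F (X x * pderiv y w) := by
  conv_lhs => rw [w.as_sum]
  conv_rhs => rw [w.as_sum]
  rw [map_sum, Finset.mul_sum, fn_sum, fn_sum]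
  refine Finset.sum_congr rfl fun p _ => ?_
  rw [xpd_monomial, fn_monomial, fn_monomial]
  by_cases hp : p ∈ Mk z k e
  · rw [if_pos hp, hF p hp]
    by_cases hy : 1 ≤ p y
    · rw [if_pos]
      · ring
      · rw [mem_Mk] at hp ⊢
        rw [sum_exch y x p hy, exch_z z y x hyz hxz]
        exact hp
    · have h0 : p y = 0 := by omega
      simp [h0]
  · rw [if_neg hp]
    by_cases hy : 1 ≤ p y
    · rw [if_neg]
      rw [mem_Mk, sum_exch y x p hy, exch_z z y x hyz hxz, ← mem_Mk]
      exact hp
    · have h0 : p y = 0 := by omega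
      simp [h0]

theorem coeff_xpd {n : ℕ} {R : Type} [CommRing R] (y x : Fin n) (u : MvPolynomial (Fin n) R)
    (m : Fin n →₀ ℕ) : coeff m (X x * pderiv y u) =
      ∑ p ∈ u.support, if p - Finsupp.single y 1 + Finsupp.single x 1 = m then
        coeff p u * (p y : R) else 0 := by
  conv_lhs => rw [u.as_sum]
  rw [map_sum, Finset.mul_sum, coeff_sum]
  refine Finset.sum_congr rfl fun p _ => ?_
  rw [xpd_monomial, coeff_monomial]

end LeadEx

open LeadEx

theorem pr_LeadEx (hK : S_K2) : S_LeadEx := by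
  intro n R _ _ _ z y x k e F D hyz hxy hxz hF q hq hqy
  obtain ⟨hKa, -, hKm⟩ := hK
  obtain ⟨u, hu, hann, hcq, hle⟩ := hq
  set q' : Fin n →₀ ℕ := q - Finsupp.single y 1 + Finsupp.single x 1 with hq'
  have hsum : ∑ i, q' i = ∑ i, q i := sum_exch y x q hqy
  have hq'z : q' z = q z := exch_z z y x hyz hxz q
  have hq'y : q' y = q y - 1 := exch_y y x hxy q
  have hnle : ¬ key2 z y q' ≤ key2 z y q := by
    intro h
    obtain ⟨h1, h2⟩ := hKm n z y q' q hyz hsum h
    have := h2 hq'z.symm
    omega
  have hsupp : ∀ p, coeff p (dC D u + X x * pderiv y u) ≠ 0 →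
      coeff p u ≠ 0 ∨ ∃ p0, coeff p0 u ≠ 0 ∧ 1 ≤ p0 y ∧
        p = p0 - Finsupp.single y 1 + Finsupp.single x 1 := by
    intro p hp
    by_cases h0 : coeff p u = 0
    · right
      rw [coeff_add, coeff_dC, h0, map_zero, zero_add, coeff_xpd] at hp
      obtain ⟨p0, hp0, hne⟩ := Finset.exists_ne_zero_of_sum_ne_zero hp
      split_ifs at hne with heq
      · refine ⟨p0, mem_support_iff.1 hp0, ?_, heq.symm⟩
        by_contra hlt
        have : p0 y = 0 := by omega
        rw [this, Nat.cast_zero, mul_zero] at hne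
        exact hne rfl
      · exact absurd rfl hne
    · exact Or.inl h0
  refine ⟨dC D u + X x * pderiv y u, ?_, ?_, ?_, ?_⟩
  · rw [isHomogeneous_iff_Mt]
    intro p hp
    rw [hsum]
    rcases hsupp p hp with h | ⟨p0, h, hy, rfl⟩
    · exact (isHomogeneous_iff_Mt u _).1 hu p h
    · rw [sum_exch y x p0 hy]
      exact (isHomogeneous_iff_Mt u _).1 hu p0 h
  · intro v
    have h1 : D (fn z k e F (u * v)) = 0 := by rw [hann v, map_zero]
    rw [D_fn, fn_xpd D z y x k e F hyz hxz hF, dC_mul, Derivation.leibniz, smul_eq_mul,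
      smul_eq_mul, ← fn_add] at h1
    have h2 : X x * (u * pderiv y v + v * pderiv y u) + (dC D u * v + u * dC D v) =
        (dC D u + X x * pderiv y u) * v + u * (X x * pderiv y v + dC D v) := by ring
    rw [h2, fn_add, hann, add_zero] at h1
    exact h1
  · rw [coeff_add, coeff_dC, coeff_xpd]
    have h0 : coeff q' u = 0 := by
      by_contra hne
      exact hnle (hle q' hne)
    rw [h0, map_zero, zero_add, Finset.sum_eq_single_of_mem q (mem_support_iff.2 hcq)]
    · rw [if_pos rfl]
      refine mul_ne_zero hcq ?_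
      exact_mod_cast (by omega : q y ≠ 0)
    · intro p hp hpq
      by_cases hy : 1 ≤ p y
      · rw [if_neg]
        intro heq
        apply hpq
        have h1 : p - Finsupp.single y 1 = q - Finsupp.single y 1 := by
          rw [hq'] at heq
          exact add_right_cancel heq
        have h2 : p - Finsupp.single y 1 + Finsupp.single y 1 = p :=
          tsub_add_cancel_of_le (by rw [Finsupp.single_le_iff]; exact hy)
        have h3 : q - Finsupp.single y 1 + Finsupp.single y 1 = q :=
          tsub_add_cancel_of_le (by rw [Finsupp.single_le_iff]; exact hqy)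
        rw [← h2, h1, h3]
      · have h0 : p y = 0 := by omega
        simp [h0]
  · have hqq : key2 z y q ≤ key2 z y q' := (not_le.1 hnle).le
    intro p hp
    rcases hsupp p hp with h | ⟨p0, h, hy, rfl⟩
    · exact (hle p h).trans hqq
    · have h1 := hle p0 h
      have h2 : p0 - Finsupp.single y 1 + Finsupp.single x 1 + Finsupp.single y 1 =
          p0 + Finsupp.single x 1 := by
        have h3 : p0 - Finsupp.single y 1 + Finsupp.single y 1 = p0 :=
          tsub_add_cancel_of_le (by rw [Finsupp.single_le_iff]; exact hy)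
        rw [add_right_comm, h3]
      have h4 : q' + Finsupp.single y 1 = q + Finsupp.single x 1 := by
        have h3 : q - Finsupp.single y 1 + Finsupp.single y 1 = q :=
          tsub_add_cancel_of_le (by rw [Finsupp.single_le_iff]; exact hqy)
        rw [hq', add_right_comm, h3]
      have h5 : key2 z y (p0 - Finsupp.single y 1 + Finsupp.single x 1) +
          key2 z y (Finsupp.single y 1) = key2 z y p0 + key2 z y (Finsupp.single x 1) := by
        rw [← hKa, ← hKa, h2]
      have h6 : key2 z y q' + key2 z y (Finsupp.single y 1) =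
          key2 z y q + key2 z y (Finsupp.single x 1) := by
        rw [← hKa, ← hKa, h4]
      have h7 : key2 z y (p0 - Finsupp.single y 1 + Finsupp.single x 1) +
          key2 z y (Finsupp.single y 1) ≤ key2 z y q' + key2 z y (Finsupp.single y 1) := by
        rw [h5, h6]
        exact add_le_add_left h1 _
      exact le_of_add_le_add_right h7

end Pool.Agent.Work.MP_2ad852_ag.GS

end

section

namespace Pool.Agent.Work.MP_2ad852_ag.GS

open MvPolynomial Finset Pool.Agent.Work.MP_2ad852_ag.GF

theorem ratio_choose (x u v a : ℕ) :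
    (x + u + v + a).choose a * (x + a).choose a ≤ (x + v + a).choose a * (x + u + a).choose a := by
  induction a with
  | zero => simp
  | succ a ih =>
    have h : ∀ y : ℕ, (y + (a + 1)).choose (a + 1) * (a + 1) = (y + a + 1) * (y + a).choose a := by
      intro y
      have := Nat.add_one_mul_choose_eq (y + a) a
      rw [← add_assoc]
      exact this.symm
    have h1 := h (x + u + v)
    have h2 := h x
    have h3 := h (x + v)
    have h4 := h (x + u)
    have hle : (x + u + v + a + 1) * (x + a + 1) ≤ (x + v + a + 1) * (x + u + a + 1) := by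
      nlinarith [Nat.zero_le (u * v)]
    have h5 : ((x + u + v + (a + 1)).choose (a + 1) * (x + (a + 1)).choose (a + 1)) *
        ((a + 1) * (a + 1)) ≤
        ((x + v + (a + 1)).choose (a + 1) * (x + u + (a + 1)).choose (a + 1)) *
        ((a + 1) * (a + 1)) := by
      calc ((x + u + v + (a + 1)).choose (a + 1) * (x + (a + 1)).choose (a + 1)) *
          ((a + 1) * (a + 1))
          = ((x + u + v + (a + 1)).choose (a + 1) * (a + 1)) *
            ((x + (a + 1)).choose (a + 1) * (a + 1)) := by ring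
        _ = ((x + u + v + a + 1) * (x + u + v + a).choose a) * ((x + a + 1) * (x + a).choose a) := by
            rw [h1, h2]
        _ = ((x + u + v + a + 1) * (x + a + 1)) *
            ((x + u + v + a).choose a * (x + a).choose a) := by ring
        _ ≤ ((x + v + a + 1) * (x + u + a + 1)) *
            ((x + v + a).choose a * (x + u + a).choose a) := Nat.mul_le_mul hle ih
        _ = ((x + v + a + 1) * (x + v + a).choose a) * ((x + u + a + 1) * (x + u + a).choose a) := by
            ring
        _ = ((x + v + (a + 1)).choose (a + 1) * (a + 1)) *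
            ((x + u + (a + 1)).choose (a + 1) * (a + 1)) := by rw [h3, h4]
        _ = _ := by ring
    exact Nat.le_of_mul_le_mul_right h5 (by positivity)

theorem ratio_sum (A B : ℕ → ℕ) (h : ∀ m m', m ≤ m' → A m * B m' ≤ A m' * B m) (j k : ℕ)
    (hjk : j ≤ k) :
    (∑ m ∈ range j, A m) * (∑ m ∈ range k, B m) ≤
      (∑ m ∈ range k, A m) * (∑ m ∈ range j, B m) := by
  induction k, hjk using Nat.le_induction with
  | base => exact le_rfl
  | succ k hjk ih =>
    rw [Finset.sum_range_succ, Finset.sum_range_succ, mul_add, add_mul]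
    refine Nat.add_le_add ih ?_
    rw [Finset.sum_mul, Finset.mul_sum]
    refine Finset.sum_le_sum fun m hm => ?_
    exact h m k (by have := Finset.mem_range.1 hm; omega)

theorem card_slice {n : ℕ} (hn : 2 ≤ n) (z : Fin n) (t m : ℕ) :
    ((Mt n t).filter (fun p => p z = m)).card =
      if m ≤ t then ((t - m) + (n - 2)).choose (n - 2) else 0 := by
  split_ifs with h
  · have h1 : ((Mt n t).filter (fun p => p z = m)).card =
        (Finset.finsuppAntidiag (Finset.univ.erase z) (t - m)).card := by
      refine Finset.card_bij' (fun p _ => p.erase z) (fun q _ => q + Finsupp.single z m)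
        ?_ ?_ ?_ ?_
      · intro p hp
        rw [Finset.mem_filter, mem_Mt] at hp
        rw [Finset.mem_finsuppAntidiag]
        obtain ⟨hp1, hp2⟩ := hp
        refine ⟨?_, ?_⟩
        · have h2 := GF.sum_erase z p
          have h3 : ∑ i ∈ Finset.univ.erase z, (p.erase z) i = ∑ i, (p.erase z) i := by
            rw [← Finset.add_sum_erase (Finset.univ) (fun i => (p.erase z) i) (Finset.mem_univ z)]
            simp
          have h4 : (Finset.univ.erase z).sum (⇑(p.erase z)) = ∑ i, (p.erase z) i := h3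
          rw [h4]
          omega
        · intro i hi
          rw [Finsupp.support_erase] at hi
          exact Finset.mem_erase.2 ⟨(Finset.mem_erase.1 hi).1, Finset.mem_univ _⟩
      · intro q hq
        rw [Finset.mem_finsuppAntidiag] at hq
        obtain ⟨hq1, hq2⟩ := hq
        have hqz : q z = 0 := by
          by_contra hne
          exact (Finset.notMem_erase z _) (hq2 (Finsupp.mem_support_iff.2 hne))
        rw [Finset.mem_filter, mem_Mt]
        refine ⟨?_, ?_⟩
        · rw [← Finset.add_sum_erase _ _ (Finset.mem_univ z)]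
          have h5 : ∑ x ∈ Finset.univ.erase z, (q + Finsupp.single z m) x =
              ∑ x ∈ Finset.univ.erase z, q x := by
            refine Finset.sum_congr rfl fun x hx => ?_
            rw [Finsupp.add_apply, Finsupp.single_eq_of_ne (Finset.ne_of_mem_erase hx), add_zero]
          rw [h5, hq1, Finsupp.add_apply, hqz, Finsupp.single_eq_same]
          omega
        · rw [Finsupp.add_apply, hqz, Finsupp.single_eq_same, zero_add]
      · intro p hp
        rw [Finset.mem_filter] at hp
        rw [← hp.2]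
        exact Finsupp.erase_add_single z p
      · intro q hq
        rw [Finset.mem_finsuppAntidiag] at hq
        obtain ⟨hq1, hq2⟩ := hq
        have hqz : q z = 0 := by
          by_contra hne
          exact (Finset.notMem_erase z _) (hq2 (Finsupp.mem_support_iff.2 hne))
        ext i
        by_cases hi : i = z
        · subst hi
          rw [Finsupp.erase_same, hqz]
        · rw [Finsupp.erase_ne hi, Finsupp.add_apply, Finsupp.single_eq_of_ne hi, add_zero]
    rw [h1, Finset.card_finsuppAntidiag_nat_eq_choose, Finset.card_erase_of_mem (Finset.mem_univ z),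
      Finset.card_univ, Fintype.card_fin]
    have h2 : n - 1 + (t - m) - 1 = (t - m) + (n - 2) := by omega
    rw [h2]
    rw [← Nat.choose_symm_of_eq_add (n := (t - m) + (n - 2)) (a := n - 2) (b := t - m) (by omega)]
  · rw [Finset.card_eq_zero, Finset.filter_eq_empty_iff]
    intro p hp hpz
    rw [mem_Mt] at hp
    have := Finset.single_le_sum (f := fun i => p i) (fun i _ => Nat.zero_le _) (Finset.mem_univ z)
    have h6 : p z ≤ ∑ i, p i := this
    omega

theorem card_Mk_sum {n : ℕ} (z : Fin n) (k t : ℕ) :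
    (Mk z k t).card = ∑ m ∈ range k, ((Mt n t).filter (fun p => p z = m)).card := by
  rw [Finset.card_eq_sum_card_fiberwise (f := fun p => p z) (t := range k)]
  · refine Finset.sum_congr rfl fun m hm => ?_
    congr 1
    ext p
    rw [Finset.mem_filter, Finset.mem_filter, Mk, Finset.mem_filter]
    constructor
    · rintro ⟨⟨h1, _⟩, h2⟩
      exact ⟨h1, h2⟩
    · rintro ⟨h1, h2⟩
      exact ⟨⟨h1, by rw [h2]; exact Finset.mem_range.1 hm⟩, h2⟩
  · intro p hp
    rw [Finset.mem_coe, mem_Mk] at hp
    simpa using hp.2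

theorem pr_Ratio : S_Ratio := by
  intro n z s e j k hn hse hjk
  rw [card_Mk_sum z j e, card_Mk_sum z k s, card_Mk_sum z k e, card_Mk_sum z j s]
  refine ratio_sum _ _ ?_ j k hjk
  intro m m' hmm
  rw [card_slice hn, card_slice hn, card_slice hn, card_slice hn]
  by_cases h : m' ≤ s
  · rw [if_pos (by omega), if_pos h, if_pos (by omega), if_pos (by omega)]
    have h1 := ratio_choose (s - m') (m' - m) (e - s) (n - 2)
    have e1 : s - m' + (m' - m) + (e - s) + (n - 2) = e - m + (n - 2) := by omega
    have e2 : s - m' + (e - s) + (n - 2) = e - m' + (n - 2) := by omega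
    have e3 : s - m' + (m' - m) + (n - 2) = s - m + (n - 2) := by omega
    rw [e1, e2, e3] at h1
    exact h1
  · rw [if_neg h, mul_zero]
    exact Nat.zero_le _

end Pool.Agent.Work.MP_2ad852_ag.GS

end

section

/-!
# Item RowMass0 of the block GS
-/

namespace Pool.Agent.Work.MP_2ad852_ag.GS

open MvPolynomial Finset Pool.Agent.Work.MP_2ad852_ag.GF

namespace RowMass0

theorem card_small (n : ℕ) (T : Finset (Fin n)) (x : ℤ) :
    (T.powerset.filter (fun ε => (ε.card : ℤ) ≤ x)).card = qq T.card x := by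
  unfold qq
  rw [Finset.card_eq_sum_card_fiberwise (f := fun ε : Finset (Fin n) => ε.card)
    (t := Finset.range (T.card + 1))]
  · refine Finset.sum_congr rfl fun w _ => ?_
    split_ifs with h
    · rw [← Finset.card_powersetCard]
      congr 1
      ext ε
      simp only [Finset.mem_filter, Finset.mem_powerset, Finset.mem_powersetCard]
      constructor
      · rintro ⟨⟨h1, -⟩, h3⟩
        exact ⟨h1, h3⟩
      · rintro ⟨h1, h3⟩
        exact ⟨⟨h1, by rw [h3]; exact h⟩, h3⟩
    · rw [Finset.card_eq_zero, Finset.eq_empty_iff_forall_notMem]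
      intro ε hε
      simp only [Finset.mem_filter] at hε
      exact h (by rw [← hε.2]; exact hε.1.2)
  · intro ε hε
    simp only [Finset.coe_filter, Finset.mem_powerset, Set.mem_setOf_eq] at hε
    simp only [Finset.coe_range, Set.mem_Iio]
    exact Nat.lt_succ_of_le (Finset.card_le_card hε.1)

/-- the exponent with the given parities -/
noncomputable def ff {n : ℕ} (z y x1 : Fin n) (D m : ℕ)
    (t : Σ _ : Bool, Finset (Fin n) × (Fin n →₀ ℕ)) : Fin n →₀ ℕ :=
  Finsupp.single z m + Finsupp.single y (D - t.1.toNat - m - t.2.1.card) + (t.2.2 + t.2.2) +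
    ∑ x ∈ t.2.1, Finsupp.single x 1 + Finsupp.single x1 t.1.toNat

theorem ff_apply {n : ℕ} (z y x1 : Fin n) (D m : ℕ)
    (t : Σ _ : Bool, Finset (Fin n) × (Fin n →₀ ℕ)) (i : Fin n) :
    ff z y x1 D m t i = (if z = i then m else 0) +
      (if y = i then (D - t.1.toNat - m - t.2.1.card) else 0) + (t.2.2 i + t.2.2 i) +
      (if i ∈ t.2.1 then 1 else 0) + (if x1 = i then t.1.toNat else 0) := by
  unfold ff
  simp only [Finsupp.add_apply, Finsupp.single_apply, Finsupp.finset_sum_apply]
  congr 2
  rw [Finset.sum_ite_eq']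

/-- the domain -/
noncomputable def dom {n : ℕ} (z y x1 : Fin n) (s D m : ℕ) :
    Finset (Σ _ : Bool, Finset (Fin n) × (Fin n →₀ ℕ)) :=
  (Finset.univ : Finset Bool).sigma (fun δ =>
    (((TT z y).erase x1).powerset.filter (fun ε => (ε.card : ℤ) ≤ (D : ℤ) - m - δ.toNat)) ×ˢ
      MT z y s)

theorem mem_dom {n : ℕ} {z y x1 : Fin n} {s D m : ℕ}
    {t : Σ _ : Bool, Finset (Fin n) × (Fin n →₀ ℕ)} : t ∈ dom z y x1 s D m ↔
      t.2.1 ⊆ (TT z y).erase x1 ∧ t.1.toNat + m + t.2.1.card ≤ D ∧
        (∑ i ∈ TT z y, t.2.2 i = s) ∧ t.2.2.support ⊆ TT z y := by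
  unfold dom MT
  simp only [Finset.mem_sigma, Finset.mem_univ, true_and, Finset.mem_product, Finset.mem_filter,
    Finset.mem_powerset, Finset.mem_finsuppAntidiag]
  constructor
  · rintro ⟨⟨h1, h2⟩, h3, h4⟩
    exact ⟨h1, by omega, h3, h4⟩
  · rintro ⟨h1, h2, h3, h4⟩
    exact ⟨⟨h1, by omega⟩, h3, h4⟩

end RowMass0

open RowMass0 in
theorem pr_RowMass0 : S_RowMass0 := by
  intro n z y x1 s D m hyz hxz hxy
  have hT : ((TT z y).erase x1).card = n - 3 := by
    unfold TT
    rw [Finset.card_erase_of_mem, Finset.card_erase_of_mem, Finset.card_erase_of_mem,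
      Finset.card_univ, Fintype.card_fin]
    · omega
    · exact Finset.mem_univ _
    · exact Finset.mem_erase.2 ⟨hyz, Finset.mem_univ _⟩
    · exact Finset.mem_erase.2 ⟨hxy, Finset.mem_erase.2 ⟨hxz, Finset.mem_univ _⟩⟩
  have hzT : z ∉ TT z y := by simp [TT]
  have hyT : y ∉ TT z y := by simp [TT]
  constructor
  · have hcard : (dom z y x1 s D m).card = GG (n - 3) ((D : ℤ) - m) * (MT z y s).card := by
      unfold dom GG
      rw [Finset.card_sigma, Fintype.sum_bool, Finset.card_product, Finset.card_product,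
        card_small, card_small, hT]
      simp only [Bool.toNat_true, Bool.toNat_false, Nat.cast_one, Nat.cast_zero, sub_zero]
      ring
    rw [← hcard]
    refine Finset.card_le_card_of_injOn (ff z y x1 D m) ?_ ?_
    · intro t ht
      rw [Finset.mem_coe, mem_dom] at ht
      obtain ⟨h1, h2, h3, h4⟩ := ht
      have hc0 : ∀ i, i ∉ TT z y → t.2.2 i = 0 := by
        intro i hi
        by_contra hne
        exact hi (h4 (Finsupp.mem_support_iff.2 hne))
      have hε0 : ∀ i, i ∉ (TT z y).erase x1 → i ∉ t.2.1 := fun i hi h => hi (h1 h)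
      have hz : ff z y x1 D m t z = m := by
        rw [ff_apply, if_pos rfl, if_neg hyz, if_neg hxz, hc0 z hzT, if_neg]
        · ring
        · exact hε0 z (fun h => hzT (Finset.mem_of_mem_erase h))
      have hy : ff z y x1 D m t y = D - t.1.toNat - m - t.2.1.card := by
        rw [ff_apply, if_pos rfl, if_neg hyz.symm, if_neg hxy, hc0 y hyT, if_neg]
        · ring
        · exact hε0 y (fun h => hyT (Finset.mem_of_mem_erase h))
      have hpar : ∑ x ∈ (TT z y).erase x1, ff z y x1 D m t x % 2 = t.2.1.card := by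
        have h5 : ∀ x ∈ (TT z y).erase x1, ff z y x1 D m t x % 2 = if x ∈ t.2.1 then 1 else 0 := by
          intro x hx
          have hx1 : x ≠ x1 := (Finset.mem_erase.1 hx).1
          have hx2 : x ∈ TT z y := (Finset.mem_erase.1 hx).2
          have hx3 : x ≠ z := fun h => hzT (h ▸ hx2)
          have hx4 : x ≠ y := fun h => hyT (h ▸ hx2)
          rw [ff_apply, if_neg hx3.symm, if_neg hx4.symm, if_neg hx1.symm]
          split_ifs <;> omega
        rw [Finset.sum_congr rfl h5, ← Finset.sum_filter, Finset.sum_const, smul_eq_mul, mul_one]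
        congr 1
        ext x
        simp only [Finset.mem_filter]
        exact ⟨fun h => h.2, fun h => ⟨h1 h, h⟩⟩
      have hsum : ∑ i, ff z y x1 D m t i = 2 * s + D := by
        simp only [ff_apply, Finset.sum_add_distrib, Finset.sum_ite_eq, Finset.mem_univ, if_true]
        have h6 : ∑ i, t.2.2 i = s := by
          rw [← h3]
          symm
          exact Finset.sum_subset (Finset.subset_univ _) (fun i _ hi => hc0 i hi)
        have h7 : (∑ i : Fin n, if i ∈ t.2.1 then 1 else 0) = t.2.1.card := by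
          rw [Finset.sum_boole]
          simp
        rw [h6, h7]
        omega
      unfold row
      rw [Finset.mem_coe, Finset.mem_filter, mem_Mt]
      refine ⟨hsum, hz, ?_⟩
      unfold lev Lw
      rw [hz, hy, hpar]
      omega
    · intro t ht t' ht' heq
      rw [Finset.mem_coe, mem_dom] at ht ht'
      obtain ⟨h1, h2, h3, h4⟩ := ht
      obtain ⟨h1', h2', h3', h4'⟩ := ht'
      have hc0 : ∀ i, i ∉ TT z y → t.2.2 i = 0 := by
        intro i hi
        by_contra hne
        exact hi (h4 (Finsupp.mem_support_iff.2 hne))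
      have hc0' : ∀ i, i ∉ TT z y → t'.2.2 i = 0 := by
        intro i hi
        by_contra hne
        exact hi (h4' (Finsupp.mem_support_iff.2 hne))
      have hx1ε : x1 ∉ t.2.1 := fun h => (Finset.mem_erase.1 (h1 h)).1 rfl
      have hx1ε' : x1 ∉ t'.2.1 := fun h => (Finset.mem_erase.1 (h1' h)).1 rfl
      have hx := congrArg (fun p : Fin n →₀ ℕ => p x1) heq
      simp only [ff_apply, if_neg hxz.symm, if_neg hxy.symm, if_true, if_neg hx1ε,
        if_neg hx1ε'] at hx
      have hb : t.1 = t'.1 := by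
        cases h : t.1 <;> cases h' : t'.1 <;> simp [h, h'] at hx ⊢ <;> omega
      have hε : t.2.1 = t'.2.1 := by
        ext i
        by_cases hi : i ∈ (TT z y).erase x1
        · have hi1 : i ≠ x1 := (Finset.mem_erase.1 hi).1
          have hi2 : i ∈ TT z y := (Finset.mem_erase.1 hi).2
          have hi3 : i ≠ z := fun h => hzT (h ▸ hi2)
          have hi4 : i ≠ y := fun h => hyT (h ▸ hi2)
          have hx := congrArg (fun p : Fin n →₀ ℕ => p i) heq
          simp only [ff_apply, if_neg hi3.symm, if_neg hi4.symm, if_neg hi1.symm] at hx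
          by_cases h5 : i ∈ t.2.1 <;> by_cases h6 : i ∈ t'.2.1 <;>
            simp only [h5, h6, if_true, if_false] at hx ⊢ <;> omega
        · exact ⟨fun h => absurd (h1 h) hi, fun h => absurd (h1' h) hi⟩
      have hc : t.2.2 = t'.2.2 := by
        ext i
        by_cases hi : i ∈ TT z y
        · have hi3 : i ≠ z := fun h => hzT (h ▸ hi)
          have hi4 : i ≠ y := fun h => hyT (h ▸ hi)
          have hx := congrArg (fun p : Fin n →₀ ℕ => p i) heq
          simp only [ff_apply, if_neg hi3.symm, if_neg hi4.symm, hε, hb] at hx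
          omega
        · rw [hc0 i hi, hc0' i hi]
      obtain ⟨b, ε, c⟩ := t
      obtain ⟨b', ε', c'⟩ := t'
      simp only at hb hε hc
      subst hb hε hc
      rfl
  · intro hDm
    rw [Finset.card_eq_zero, Finset.eq_empty_iff_forall_notMem]
    intro p hp
    unfold row lev Lw at hp
    rw [Finset.mem_filter] at hp
    obtain ⟨-, h1, h2⟩ := hp
    omega

end Pool.Agent.Work.MP_2ad852_ag.GS

end

section

namespace Pool.Agent.Work.MP_2ad852_ag.GS

open MvPolynomial Finset Pool.Agent.Work.MP_2ad852_ag.GF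

theorem RowSum_Lw_le {n : ℕ} (z y x1 : Fin n) (p : Fin n →₀ ℕ) (hyz : y ≠ z) :
    Lw z y x1 p ≤ ∑ i, p i := by
  classical
  have h1 : ∑ i, p i = p z + (p y + ∑ x ∈ TT z y, p x) := by
    rw [← Finset.add_sum_erase Finset.univ (fun i => p i) (Finset.mem_univ z)]
    congr 1
    rw [← Finset.add_sum_erase (Finset.univ.erase z) (fun i => p i)
      (Finset.mem_erase.mpr ⟨hyz, Finset.mem_univ y⟩)]
    rfl
  rw [h1, Lw]
  have h2 : ∑ x ∈ (TT z y).erase x1, p x % 2 ≤ ∑ x ∈ TT z y, p x :=
    le_trans (Finset.sum_le_sum (fun x _ => Nat.mod_le (p x) 2))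
      (Finset.sum_le_sum_of_subset (Finset.erase_subset x1 (TT z y)))
  omega

theorem pr_RowSum : S_RowSum := by
  classical
  intro n z y x1 s D β hyz _ _
  have hlev : ∀ p ∈ Mt n (2 * s + D), lev z y x1 D p ≤ s := by
    intro p hp
    have h := RowSum_Lw_le z y x1 p hyz
    rw [mem_Mt.mp hp] at h
    unfold lev
    omega
  have h1 : ∀ m, ∑ i ∈ Finset.range (s + 1), (row z y x1 (2 * s + D) D m i).card =
      ((Mt n (2 * s + D)).filter (fun p => p z = m)).card := by
    intro m
    rw [Finset.card_eq_sum_card_fiberwise (f := fun p => lev z y x1 D p)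
      (t := Finset.range (s + 1))]
    · apply Finset.sum_congr rfl
      intro i _
      congr 1
      ext p
      simp only [row, Finset.mem_filter]
      tauto
    · intro p hp
      have hp' : p ∈ Mt n (2 * s + D) := (Finset.mem_filter.mp (Finset.mem_coe.mp hp)).1
      simp only [Finset.coe_range, Set.mem_Iio]
      have := hlev p hp'
      omega
  rw [Finset.sum_congr rfl (fun m _ => h1 m)]
  rw [Mk, Finset.card_eq_sum_card_fiberwise (f := fun p : Fin n →₀ ℕ => p z)
      (t := Finset.range (β + 1))]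
  · apply Finset.sum_congr rfl
    intro m hm
    congr 1
    ext p
    simp only [Finset.mem_filter]
    have := Finset.mem_range.mp hm
    constructor
    · rintro ⟨h, h'⟩
      exact ⟨⟨h, by omega⟩, h'⟩
    · rintro ⟨⟨h, _⟩, h'⟩
      exact ⟨h, h'⟩
  · intro p hp
    have := (Finset.mem_filter.mp (Finset.mem_coe.mp hp)).2
    simp only [Finset.coe_range, Set.mem_Iio]
    exact this

end Pool.Agent.Work.MP_2ad852_ag.GS

end

section

/-!
# Monomials of the standard set sorted into cells
-/

set_option autoImplicit false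

namespace Pool.Agent.Work.MP_2ad852_ag.GS

open MvPolynomial Finset Pool.Agent.Work.MP_2ad852_ag.GF

theorem StdSum_mem_MT {n : ℕ} {z y : Fin n} {a : ℕ} {c : Fin n →₀ ℕ} (h : c ∈ MT z y a) :
    c z = 0 ∧ c y = 0 ∧ ∑ i, c i = a := by
  rw [MT, Finset.mem_finsuppAntidiag] at h
  obtain ⟨h1, h2⟩ := h
  have hz : c z = 0 := by
    by_contra h0
    have := h2 (Finsupp.mem_support_iff.2 h0)
    simp [TT] at this
  have hy : c y = 0 := by
    by_contra h0
    have := h2 (Finsupp.mem_support_iff.2 h0)
    simp [TT] at this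
  refine ⟨hz, hy, ?_⟩
  rw [← h1]
  symm
  apply Finset.sum_subset (Finset.subset_univ _)
  intro x _ hx
  by_contra h0
  exact hx (h2 (Finsupp.mem_support_iff.2 h0))

theorem StdSum_split {n : ℕ} {z y : Fin n} (hyz : y ≠ z) (q : Fin n →₀ ℕ) :
    Finsupp.single z (q z) + Finsupp.single y (q y) + (q.erase z).erase y = q := by
  ext x
  by_cases hxz : x = z
  · subst hxz
    simp [Finsupp.erase, hyz.symm]
  · by_cases hxy : x = y
    · subst hxy
      simp [Finsupp.erase, hxz]
    · simp [Finsupp.erase, hxz, hxy]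

theorem StdSum_sum {n : ℕ} (z y : Fin n) (j a : ℕ) (c : Fin n →₀ ℕ) :
    ∑ x, (Finsupp.single z j + Finsupp.single y a + c) x = j + a + ∑ x, c x := by
  simp only [Finsupp.add_apply, Finset.sum_add_distrib]
  congr 2
  · simp [Finsupp.single_apply]
  · simp [Finsupp.single_apply]

theorem pr_StdSum : S_StdSum := by
  intro n z y k s L hyz
  classical
  have hr : ∑ j ∈ Finset.range (min k (s + 1)), ∑ i ∈ Finset.Ico j (s + 1),
      (cell z y s L j i).card = ((Finset.range (min k (s + 1))).sigma
        (fun j => (Finset.Ico j (s + 1)).sigma (fun i => cell z y s L j i))).card := by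
    rw [Finset.card_sigma]
    refine Finset.sum_congr rfl fun j _ => ?_
    rw [Finset.card_sigma]
  rw [hr]
  symm
  refine Finset.card_bij (fun a _ => Finsupp.single z a.1 + Finsupp.single y (a.2.1 - a.1) + a.2.2)
    ?_ ?_ ?_
  · rintro ⟨j, i, c⟩ h
    simp only [Finset.mem_sigma, Finset.mem_range, Finset.mem_Ico, cell, Finset.mem_filter] at h
    obtain ⟨hj, ⟨hji, his⟩, hc, hL⟩ := h
    obtain ⟨hcz, hcy, hcs⟩ := StdSum_mem_MT hc
    show Finsupp.single z j + Finsupp.single y (i - j) + c ∈ Std z k s L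
    rw [Std, Finset.mem_filter, mem_Mk, StdSum_sum, hcs]
    refine ⟨⟨by omega, ?_⟩, hL⟩
    simp [hyz, hcz]
    omega
  · rintro ⟨j, i, c⟩ h ⟨j', i', c'⟩ h' he
    simp only [Finset.mem_sigma, Finset.mem_range, Finset.mem_Ico, cell, Finset.mem_filter] at h h'
    obtain ⟨hj, ⟨hji, his⟩, hc, hL⟩ := h
    obtain ⟨hj', ⟨hji', his'⟩, hc', hL'⟩ := h'
    obtain ⟨hcz, hcy, hcs⟩ := StdSum_mem_MT hc
    obtain ⟨hcz', hcy', hcs'⟩ := StdSum_mem_MT hc'
    simp only at he
    have h1 := DFunLike.congr_fun he z
    have h2 := DFunLike.congr_fun he y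
    simp [hyz, hcz, hcz'] at h1
    simp [hyz.symm, hcy, hcy'] at h2
    subst h1
    have h3 : i = i' := by omega
    subst h3
    have h4 : c = c' := add_left_cancel he
    subst h4
    rfl
  · intro q hq
    rw [Std, Finset.mem_filter, mem_Mk] at hq
    obtain ⟨⟨hs, hk⟩, hL⟩ := hq
    have hsum := StdSum_sum z y (q z) (q y) ((q.erase z).erase y)
    rw [StdSum_split hyz q, hs] at hsum
    refine ⟨⟨q z, q z + q y, (q.erase z).erase y⟩, ?_, ?_⟩
    · simp only [Finset.mem_sigma, Finset.mem_range, Finset.mem_Ico, cell, Finset.mem_filter]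
      refine ⟨by omega, ⟨by omega, by omega⟩, ?_, ?_⟩
      · rw [MT, Finset.mem_finsuppAntidiag]
        have hsub : ((q.erase z).erase y).support ⊆ TT z y := by
          intro x hx
          rw [Finsupp.support_erase, Finsupp.support_erase] at hx
          rw [TT]
          exact Finset.erase_subset_erase _
            (Finset.erase_subset_erase _ (Finset.subset_univ _)) hx
        refine ⟨?_, hsub⟩
        have h5 : (TT z y).sum ⇑((q.erase z).erase y) = ∑ x, ((q.erase z).erase y) x := by
          apply Finset.sum_subset (Finset.subset_univ _)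
          intro x _ hx
          by_contra h0
          exact hx (hsub (Finsupp.mem_support_iff.2 h0))
        rw [h5]
        omega
      · rw [Nat.add_sub_cancel_left, StdSum_split hyz q]
        exact hL
    · show Finsupp.single z (q z) + Finsupp.single y (q z + q y - q z) + (q.erase z).erase y = q
      rw [Nat.add_sub_cancel_left, StdSum_split hyz q]

end Pool.Agent.Work.MP_2ad852_ag.GS

end

section

/-!
# Item StepC
-/

namespace Pool.Agent.Work.MP_2ad852_ag.GS

theorem StepC_mono (D : ℕ → ℝ) (b β : ℕ) (h : ∀ i, b < i → i < β → D (i + 1) ≤ D i) :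
    ∀ j i, b < i → i + j ≤ β → D (i + j) ≤ D i := by
  intro j
  induction j with
  | zero => intro i _ _; exact le_refl _
  | succ j ih =>
    intro i hi hj
    have h1 := ih i hi (by omega)
    have h2 := h (i + j) (by omega) (by omega)
    exact le_trans (by rw [← add_assoc]; exact h2) h1

theorem pr_StepC (h3 : S_tt3) : S_StepC := by
  intro s D k ρ κ W G α hC i0 b i1 β hi0 hi1 hb hβ hs
  obtain hT := h3 s D k ρ κ W G α hC
  have hmono := StepC_mono (fun i => tt ρ α i β - tt ρ α i b) b β
    (fun i h1 h2 => (hT i b β hb).2.1 h1 h2)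
  have hsplit : ∀ c : ℕ, VV s ρ W α i0 c =
      ∑ i ∈ Finset.Ico i0 i1, W i * tt ρ α i c + VV s ρ W α i1 c := by
    intro c
    unfold VV
    exact (Finset.sum_Ico_consecutive _ (by omega) (by omega)).symm
  by_cases hcase : β < i1 ∨ tt ρ α i1 β - tt ρ α i1 b ≤ 0
  · refine le_trans ?_ (le_max_left _ _)
    rw [hsplit b]
    refine add_le_add le_rfl ?_
    unfold VV
    refine Finset.sum_le_sum (fun i hi => ?_)
    rw [Finset.mem_Ico] at hi
    refine mul_le_mul_of_nonneg_left ?_ (hC.hW i)
    by_cases hiβ : β < i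
    · exact (hT i b β hb).2.2 hiβ
    · have hiβ' : i ≤ β := not_lt.mp hiβ
      have hne : tt ρ α i1 β - tt ρ α i1 b ≤ 0 := by
        rcases hcase with h | h
        · omega
        · exact h
      have h4 := hmono (i - i1) i1 hi1 (by omega)
      have h5 : i1 + (i - i1) = i := by omega
      rw [h5] at h4
      linarith
  · push Not at hcase
    obtain ⟨hc1, hc2⟩ := hcase
    refine le_trans ?_ (le_max_right _ _)
    rw [hsplit β]
    refine add_le_add ?_ le_rfl
    refine Finset.sum_le_sum (fun i hi => ?_)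
    rw [Finset.mem_Ico] at hi
    refine mul_le_mul_of_nonneg_left ?_ (hC.hW i)
    by_cases hib : i ≤ b
    · exact (hT i b β hb).1 hib
    · have h4 := hmono (i1 - i) i (by omega) (by omega)
      have h5 : i + (i1 - i) = i1 := by omega
      rw [h5] at h4
      linarith

end Pool.Agent.Work.MP_2ad852_ag.GS

end

section

/-!
# Item Tan3: first order tangent condition for a derivation
-/

namespace Pool.Agent.Work.MP_2ad852_ag.GS

open MvPolynomial Finset Pool.Agent.Work.MP_2ad852_ag.GF

/-- apply a derivation to all coefficients -/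
noncomputable def Tan3_dc {n : ℕ} {R : Type} [CommRing R] (D : Derivation ℤ R R)
    (u : MvPolynomial (Fin n) R) : MvPolynomial (Fin n) R :=
  ∑ a ∈ u.support, monomial a (D (coeff a u))

theorem Tan3_coeff_dc {n : ℕ} {R : Type} [CommRing R] (D : Derivation ℤ R R)
    (u : MvPolynomial (Fin n) R) (a : Fin n →₀ ℕ) :
    coeff a (Tan3_dc D u) = D (coeff a u) := by
  unfold Tan3_dc
  rw [coeff_sum]
  by_cases h : a ∈ u.support
  · rw [Finset.sum_eq_single_of_mem a h]
    · rw [coeff_monomial, if_pos rfl]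
    · intro b _ hb
      rw [coeff_monomial, if_neg hb]
  · rw [Finset.sum_eq_zero]
    · rw [notMem_support_iff.1 h, map_zero]
    · intro b hb
      rw [coeff_monomial, if_neg]
      rintro rfl
      exact h hb

theorem Tan3_coeff_mul {n : ℕ} {R : Type} [CommRing R] (D : Derivation ℤ R R)
    (u v : MvPolynomial (Fin n) R) (p : Fin n →₀ ℕ) :
    coeff p (Tan3_dc D u * v + u * Tan3_dc D v) = D (coeff p (u * v)) := by
  rw [coeff_add, coeff_mul, coeff_mul, coeff_mul, map_sum, ← Finset.sum_add_distrib]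
  refine Finset.sum_congr rfl fun x _ => ?_
  rw [Tan3_coeff_dc, Tan3_coeff_dc, Derivation.leibniz, smul_eq_mul, smul_eq_mul]
  ring

theorem Tan3_fn {n : ℕ} {R : Type} [CommRing R] (z : Fin n) (k e : ℕ) (F : (Fin n →₀ ℕ) → R)
    (D : Derivation ℤ R R) (u v : MvPolynomial (Fin n) R) :
    D (fn z k e F (u * v)) = fn z k e (fun p => D (F p)) (u * v) +
      fn z k e F (Tan3_dc D u * v + u * Tan3_dc D v) := by
  unfold fn
  rw [map_sum, ← Finset.sum_add_distrib]
  refine Finset.sum_congr rfl fun p _ => ?_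
  rw [Tan3_coeff_mul, Derivation.leibniz, smul_eq_mul, smul_eq_mul]
  ring

theorem pr_Tan3 : S_Tan3 := by
  intro n R _ z k e F D f h w hf hh
  have h0 : Tan3_dc D f = h := by
    ext a
    rw [Tan3_coeff_dc, hh]
  have h4 := Tan3_fn z k e F D f w
  rw [hf w, map_zero, fn_add, hf, add_zero, h0] at h4
  exact eq_neg_of_add_eq_zero_left h4.symm

end Pool.Agent.Work.MP_2ad852_ag.GS

end

section

namespace Pool.Agent.Work.MP_2ad852_ag.GS

open MvPolynomial Finset Pool.Agent.Work.MP_2ad852_ag.GF

namespace TwDAux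

variable {σ : Type} {n : ℕ}

theorem kmul {i : σ} {u v : MvPolynomial (Fin n) (MvPolynomial σ ℂ)}
    (hu : ∀ p, pderiv i (coeff p u) = 0) (hv : ∀ p, pderiv i (coeff p v) = 0) :
    ∀ p, pderiv i (coeff p (u * v)) = 0 := by
  intro p
  rw [coeff_mul, map_sum]
  apply Finset.sum_eq_zero
  intro x _
  rw [Derivation.leibniz, hu, hv]
  simp

theorem kone {i : σ} : ∀ p, pderiv i (coeff p (1 : MvPolynomial (Fin n) (MvPolynomial σ ℂ))) = 0 := by
  intro p
  rw [coeff_one]
  split_ifs
  · exact Derivation.map_one_eq_zero _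
  · simp

theorem kpow {i : σ} {u : MvPolynomial (Fin n) (MvPolynomial σ ℂ)}
    (hu : ∀ p, pderiv i (coeff p u) = 0) (k : ℕ) :
    ∀ p, pderiv i (coeff p (u ^ k)) = 0 := by
  induction k with
  | zero => rw [pow_zero]; exact kone
  | succ k ih => rw [pow_succ]; exact kmul ih hu

theorem kprod {i : σ} {α : Type} (s : Finset α) (f : α → MvPolynomial (Fin n) (MvPolynomial σ ℂ))
    (h : ∀ a ∈ s, ∀ p, pderiv i (coeff p (f a)) = 0) :
    ∀ p, pderiv i (coeff p (∏ a ∈ s, f a)) = 0 := by
  classical
  induction s using Finset.induction_on with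
  | empty => rw [Finset.prod_empty]; exact kone
  | insert a s ha ih =>
    rw [Finset.prod_insert ha]
    exact kmul (h a (Finset.mem_insert_self a s))
      (ih (fun b hb => h b (Finset.mem_insert_of_mem hb)))

theorem kX {i : σ} (j : Fin n) :
    ∀ p, pderiv i (coeff p (X j : MvPolynomial (Fin n) (MvPolynomial σ ℂ))) = 0 := by
  intro p
  rw [coeff_X]
  split_ifs
  · exact Derivation.map_one_eq_zero _
  · simp

theorem kC {i : σ} (a : MvPolynomial σ ℂ) (ha : pderiv i a = 0) :
    ∀ p, pderiv i (coeff p (C a : MvPolynomial (Fin n) (MvPolynomial σ ℂ))) = 0 := by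
  intro p
  rw [coeff_C]
  split_ifs
  · exact ha
  · simp

theorem ktws {ι : Type} (z y : Fin n) (ε : ℂ) (lb : ι × (Fin n →₀ ℕ)) (b : Fin n →₀ ℕ) :
    ∀ p, pderiv (Sum.inl lb) (coeff p (tws (ι := ι) z y ε (monomial b 1))) = 0 := by
  intro p
  rw [tws, aeval_monomial, map_one, one_mul, Finsupp.prod]
  refine kprod _ _ ?_ p
  intro a _
  refine kpow ?_ _
  by_cases h : a = y
  · simp only [h, if_true]
    intro q
    rw [coeff_add, map_add, kX, zero_add, coeff_sum, map_sum]
    apply Finset.sum_eq_zero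
    intro x _
    refine kmul (kC _ ?_) (kX x) q
    rw [Derivation.leibniz, pderiv_X_of_ne (by simp), pderiv_C]
    simp
  · simp only [h, if_false]
    exact kX a

theorem twf_eq {ι : Type} (z y : Fin n) (d : ι → ℕ) (l : ι) :
    twf z y d l = ∑ b ∈ Mt n (d l), C (X (Sum.inl (l, b))) * twi (ι := ι) z y (monomial b 1) := by
  rw [twf, gf, map_sum, map_sum]
  apply Finset.sum_congr rfl
  intro b _
  rw [MvPolynomial.map_monomial]
  have h1 : (inj (ι := ι) (n := n)).toRingHom (X (l, b)) = X (Sum.inl (l, b)) := by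
    show inj (ι := ι) (n := n) (X (l, b)) = X (Sum.inl (l, b))
    rw [inj, rename_X]
  rw [h1]
  have h2 : (monomial b (X (Sum.inl (l, b)) : R2 ι n)) = C (X (Sum.inl (l, b))) * monomial b 1 := by
    rw [C_mul_monomial, mul_one]
  rw [h2, map_mul]
  congr 1
  rw [twi, tws]
  exact aeval_C _ _

end TwDAux

open TwDAux in
theorem pr_TwD : S_TwD := by
  classical
  intro ι n z y d l l' b p hb
  have hder : ∀ m : ι, pderiv (Sum.inl (l, b)) (coeff p (twf z y d m)) =
      ∑ b' ∈ Mt n (d m), pderiv (Sum.inl (l, b)) (X (Sum.inl (m, b')) : R2 ι n) *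
        coeff p (twi (ι := ι) z y (monomial b' 1)) := by
    intro m
    rw [twf_eq, coeff_sum, map_sum]
    apply Finset.sum_congr rfl
    intro b' _
    rw [coeff_C_mul, Derivation.leibniz, twi, ktws]
    simp only [smul_eq_mul, mul_zero, zero_add]
    ring
  constructor
  · rw [hder, Finset.sum_eq_single b]
    · rw [pderiv_X_self, one_mul]
    · intro b' _ hne
      rw [pderiv_X_of_ne, zero_mul]
      intro h
      apply hne
      simpa using h
    · intro h
      exact absurd hb h
  · intro hne
    rw [hder]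
    apply Finset.sum_eq_zero
    intro b' _
    rw [pderiv_X_of_ne, zero_mul]
    intro h
    apply hne
    have := Sum.inl.inj h
    exact (Prod.ext_iff.mp this).1

end Pool.Agent.Work.MP_2ad852_ag.GS

end

section

/-!
# Block GS: item TwFn
-/

namespace Pool.Agent.Work.MP_2ad852_ag.GS

open MvPolynomial Finset Pool.Agent.Work.MP_2ad852_ag.GF

theorem TwFn_C_mul {ι : Type} {n : ℕ} (z y : Fin n) (c : R2 ι n)
    (w : MvPolynomial (Fin n) (R2 ι n)) : tw z y (C c * w) = C c * tw z y w := by
  rw [map_mul]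
  congr 1
  exact (tw z y).commutes c

theorem TwFn_X {ι : Type} {n : ℕ} (z y : Fin n) (h : y ≠ z) :
    tw (ι := ι) z y (X z) = X z := by
  unfold tw tws
  rw [aeval_X, if_neg (Ne.symm h)]

theorem TwFn_out {ι : Type} {n : ℕ} (hH : S_TwHom) (z y : Fin n) (h : y ≠ z) (k e : ℕ)
    (p : Fin n →₀ ℕ) (hp : p ∉ Mk z k e) (G : (Fin n →₀ ℕ) → R2 ι n) :
    fn z k e G (tw z y (monomial p 1)) = 0 := by
  unfold fn
  refine Finset.sum_eq_zero fun p' hp' => ?_
  rw [mem_Mk] at hp hp'
  have h0 : coeff p' (tw (ι := ι) z y (monomial p 1)) = 0 := by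
    by_cases hd : ∑ i, p i = e
    · have hz : k ≤ p z := by
        by_contra hlt
        exact hp ⟨hd, not_le.1 hlt⟩
      have hm : (monomial p (1 : R2 ι n)) =
          monomial (Finsupp.single z (p z)) 1 * monomial (p.erase z) 1 := by
        rw [monomial_mul, Finsupp.single_add_erase, one_mul]
      have hX : (monomial (Finsupp.single z (p z)) (1 : R2 ι n)) = X z ^ (p z) := by
        rw [X_pow_eq_monomial]
      rw [hm, map_mul, hX, map_pow, TwFn_X z y h, ← hX, coeff_monomial_mul', if_neg]
      intro hle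
      have h1 := hle z
      rw [Finsupp.single_eq_same] at h1
      omega
    · have hh : (tws (ι := ι) z y 1 (monomial p 1)).IsHomogeneous (∑ i, p i) := by
        refine hH ι n z y 1 _ _ ?_
        rw [isHomogeneous_iff_Mt]
        intro q hq
        rw [coeff_monomial] at hq
        split_ifs at hq with hqp
        · rw [hqp]
        · exact absurd rfl hq
      by_contra hne
      exact hd (((isHomogeneous_iff_Mt _ _).1 hh p' hne).symm.trans hp'.1)
  rw [h0, zero_mul]

theorem pr_TwFn (hH : S_TwHom) : S_TwFn := by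
  intro ι n z y k e F w hyz
  have key : ∀ p : Fin n →₀ ℕ, fn z k e (twF z y k e F) (monomial p 1) =
      fn z k e (fun p => inj (F p)) (tw z y (monomial p 1)) := by
    intro p
    rw [fn_monomial]
    split_ifs with hp
    · rw [one_mul]
      rfl
    · rw [TwFn_out hH z y hyz k e p hp]
  have hm : ∀ q : Fin n →₀ ℕ, (monomial q (coeff q w) : MvPolynomial (Fin n) (R2 ι n)) =
      C (coeff q w) * monomial q 1 := by
    intro q
    rw [C_mul_monomial, mul_one]
  rw [w.as_sum, map_sum, fn_sum, fn_sum]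
  refine Finset.sum_congr rfl fun q _ => ?_
  rw [hm q, fn_C_mul, TwFn_C_mul, fn_C_mul, key q]

end Pool.Agent.Work.MP_2ad852_ag.GS

end

section

/-!
# The twist preserves homogeneity
-/

set_option autoImplicit false

namespace Pool.Agent.Work.MP_2ad852_ag.GS

open MvPolynomial Finset Pool.Agent.Work.MP_2ad852_ag.GF

theorem TwHom_lin {ι : Type} {n : ℕ} (z y : Fin n) (ε : ℂ) (i : Fin n) :
    (if i = y then
      X y + ∑ x ∈ Finset.univ.filter (fun x => x ≠ y ∧ x ≠ z), C (C ε * X (Sum.inr x)) * X x
      else X i : MvPolynomial (Fin n) (R2 ι n)).IsHomogeneous 1 := by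
  split_ifs
  · refine (isHomogeneous_X _ _).add (IsHomogeneous.sum _ _ _ fun x _ => ?_)
    exact (isHomogeneous_X _ _).C_mul _
  · exact isHomogeneous_X _ _

theorem pr_TwHom : S_TwHom := by
  intro ι n z y ε t w hw
  have h := hw.aeval (S := R2 ι n) _ (TwHom_lin z y ε)
  rw [Nat.one_mul] at h
  exact h

end Pool.Agent.Work.MP_2ad852_ag.GS

end

section

/-!
# TwInv: the twist is invertible
-/

set_option autoImplicit false

namespace Pool.Agent.Work.MP_2ad852_ag.GS

open MvPolynomial Finset Pool.Agent.Work.MP_2ad852_ag.GF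

theorem tws_X_ne {ι : Type} {n : ℕ} (z y : Fin n) (ε : ℂ) (i : Fin n) (hi : i ≠ y) :
    tws (ι := ι) z y ε (X i) = X i := by
  unfold tws
  rw [aeval_X, if_neg hi]

theorem tws_X_y {ι : Type} {n : ℕ} (z y : Fin n) (ε : ℂ) :
    tws (ι := ι) z y ε (X y) =
      X y + ∑ x ∈ Finset.univ.filter (fun x => x ≠ y ∧ x ≠ z), C (C ε * X (Sum.inr x)) * X x := by
  unfold tws
  rw [aeval_X, if_pos rfl]

theorem tws_C {ι : Type} {n : ℕ} (z y : Fin n) (ε : ℂ) (c : R2 ι n) :
    tws (ι := ι) z y ε (C c) = C c := by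
  unfold tws
  rw [aeval_C]
  rfl

theorem tws_comp {ι : Type} {n : ℕ} (z y : Fin n) (ε δ : ℂ) (h : ε + δ = 0) :
    (tws (ι := ι) z y ε).comp (tws z y δ) = AlgHom.id _ _ := by
  apply MvPolynomial.algHom_ext
  intro i
  rw [AlgHom.comp_apply, AlgHom.id_apply]
  by_cases hi : i = y
  · subst hi
    rw [tws_X_y, map_add, map_sum, tws_X_y]
    have h1 : ∀ x ∈ Finset.univ.filter (fun x => x ≠ i ∧ x ≠ z),
        tws (ι := ι) z i ε (C (C δ * X (Sum.inr x)) * X x) = C (C δ * X (Sum.inr x)) * X x := by
      intro x hx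
      rw [Finset.mem_filter] at hx
      rw [map_mul, tws_C, tws_X_ne _ _ _ _ hx.2.1]
    rw [Finset.sum_congr rfl h1, add_assoc, ← Finset.sum_add_distrib]
    have h2 : ∀ x ∈ Finset.univ.filter (fun x => x ≠ i ∧ x ≠ z),
        ((C (C ε * X (Sum.inr x)) * X x : MvPolynomial (Fin n) (R2 ι n)) +
          C (C δ * X (Sum.inr x)) * X x) = 0 := by
      intro x _
      rw [← add_mul, ← C_add, ← add_mul, ← C_add, h, C_0, zero_mul, C_0, zero_mul]
    rw [Finset.sum_congr rfl h2, Finset.sum_const_zero, add_zero]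
  · rw [tws_X_ne _ _ _ _ hi, tws_X_ne _ _ _ _ hi]

theorem pr_TwInv : S_TwInv := by
  intro ι n z y w _
  constructor
  · have h := tws_comp (ι := ι) z y 1 (-1) (by ring)
    have h2 := congrArg (fun f => f w) h
    exact h2
  · have h := tws_comp (ι := ι) z y (-1) 1 (by ring)
    have h2 := congrArg (fun f => f w) h
    exact h2

end Pool.Agent.Work.MP_2ad852_ag.GS

end

section

/-!
# Block GS: item TwKill
-/

namespace Pool.Agent.Work.MP_2ad852_ag.GS

open MvPolynomial Finset Pool.Agent.Work.MP_2ad852_ag.GF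

theorem TwKill_map {ι : Type} {n : ℕ} (z : Fin n) (k e : ℕ) (F : (Fin n →₀ ℕ) → Rg ι n)
    (u : MvPolynomial (Fin n) (Rg ι n)) :
    fn z k e (fun p => inj (F p)) (MvPolynomial.map (inj (ι := ι) (n := n)).toRingHom u) =
      inj (fn z k e F u) := by
  unfold fn
  rw [map_sum]
  refine Finset.sum_congr rfl fun p _ => ?_
  rw [coeff_map, map_mul]
  rfl

theorem pr_TwKill (hI : S_TwInv) (hF : S_TwFn) : S_TwKill := by
  intro ι n z y k e d F hyz hK l v
  rw [hF ι n z y k e F _ hyz, map_mul]
  unfold twf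
  rw [(hI ι n z y _ hyz).1]
  refine fn_mul_of_monomial z k e _ _ (fun q => ?_) _
  have h1 : (monomial q (1 : R2 ι n)) =
      MvPolynomial.map (inj (ι := ι) (n := n)).toRingHom (monomial q 1) := by
    have h2 : (inj (ι := ι) (n := n)).toRingHom 1 = 1 := map_one _
    rw [map_monomial, h2]
  rw [h1, ← map_mul, TwKill_map, hK.kill l, map_zero]

end Pool.Agent.Work.MP_2ad852_ag.GS

end

section

/-!
# TwNe: the twisted functional is nonzero
-/

namespace Pool.Agent.Work.MP_2ad852_ag.GS

open MvPolynomial Finset Pool.Agent.Work.MP_2ad852_ag.GF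

theorem pr_TwNe (hI : S_TwInv) (hF : S_TwFn) : S_TwNe := by
  intro ι n z y k e F hyz hne
  obtain ⟨p, hp, hFp⟩ := hne
  by_contra hcon
  have hall : ∀ q ∈ Mk z k e, twF z y k e F q = 0 := by
    intro q hq
    by_contra h
    exact hcon ⟨q, hq, h⟩
  have h0 : fn z k e (twF z y k e F) (twi z y (monomial p 1)) = 0 := by
    unfold fn
    refine Finset.sum_eq_zero fun q hq => ?_
    rw [hall q hq, mul_zero]
  have h1 := hF ι n z y k e F (twi z y (monomial p 1)) hyz
  rw [h0, (hI ι n z y (monomial p 1) hyz).1, fn_monomial, if_pos hp, one_mul] at h1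
  refine hFp ?_
  have hinj : Function.Injective (inj (ι := ι) (n := n)) :=
    rename_injective _ Sum.inl_injective
  refine hinj ?_
  rw [map_zero]
  exact h1.symm

end Pool.Agent.Work.MP_2ad852_ag.GS

end

section

namespace Pool.Agent.Work.MP_2ad852_ag.GS

open MvPolynomial Finset Pool.Agent.Work.MP_2ad852_ag.GF

/-- `u'` is the coefficientwise derivative of `u` -/
def Del {ι : Type} {n : ℕ} (D : Derivation ℂ (R2 ι n) (R2 ι n))
    (u u' : MvPolynomial (Fin n) (R2 ι n)) : Prop := ∀ p, D (coeff p u) = coeff p u'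

theorem Del.add {ι : Type} {n : ℕ} {D : Derivation ℂ (R2 ι n) (R2 ι n)}
    {u u' v v' : MvPolynomial (Fin n) (R2 ι n)} (hu : Del D u u') (hv : Del D v v') :
    Del D (u + v) (u' + v') := by
  intro p
  rw [coeff_add, map_add, hu p, hv p, coeff_add]

theorem Del.sum {ι : Type} {n : ℕ} {D : Derivation ℂ (R2 ι n) (R2 ι n)} {σ : Type}
    (s : Finset σ) (u u' : σ → MvPolynomial (Fin n) (R2 ι n)) (h : ∀ i ∈ s, Del D (u i) (u' i)) :
    Del D (∑ i ∈ s, u i) (∑ i ∈ s, u' i) := by
  intro p
  rw [coeff_sum, map_sum, coeff_sum]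
  exact Finset.sum_congr rfl fun i hi => h i hi p

theorem Del.mul {ι : Type} {n : ℕ} {D : Derivation ℂ (R2 ι n) (R2 ι n)}
    {u u' v v' : MvPolynomial (Fin n) (R2 ι n)} (hu : Del D u u') (hv : Del D v v') :
    Del D (u * v) (u' * v + u * v') := by
  intro p
  rw [coeff_mul, map_sum, coeff_add, coeff_mul, coeff_mul, ← Finset.sum_add_distrib]
  refine Finset.sum_congr rfl fun i _ => ?_
  rw [Derivation.leibniz, hu, hv, smul_eq_mul, smul_eq_mul]
  ring

theorem Del.monomial {ι : Type} {n : ℕ} (D : Derivation ℂ (R2 ι n) (R2 ι n))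
    (q : Fin n →₀ ℕ) : Del D (MvPolynomial.monomial q 1) 0 := by
  intro p
  rw [coeff_monomial, coeff_zero]
  split_ifs
  · exact D.map_one_eq_zero
  · exact map_zero D

theorem Del.pow {ι : Type} {n : ℕ} {D : Derivation ℂ (R2 ι n) (R2 ι n)}
    {u u' : MvPolynomial (Fin n) (R2 ι n)} (hu : Del D u u') (m : ℕ) :
    Del D (u ^ m) ((m : MvPolynomial (Fin n) (R2 ι n)) * u ^ (m - 1) * u') := by
  induction m with
  | zero =>
      simp only [pow_zero, Nat.cast_zero, zero_mul]
      exact Del.monomial D 0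
  | succ m ih =>
      have h := ih.mul hu
      have e : (m : MvPolynomial (Fin n) (R2 ι n)) * u ^ (m - 1) * u' * u + u ^ m * u' =
          ((m + 1 : ℕ) : MvPolynomial (Fin n) (R2 ι n)) * u ^ (m + 1 - 1) * u' := by
        rcases Nat.eq_zero_or_pos m with rfl | hm
        · simp
        · obtain ⟨j, rfl⟩ : ∃ j, m = j + 1 := ⟨m - 1, by omega⟩
          simp only [Nat.add_sub_cancel]
          push_cast
          ring
      rw [pow_succ, ← e]
      exact h

/-- the image of `X y` -/
noncomputable def fy {ι : Type} {n : ℕ} (z y : Fin n) : MvPolynomial (Fin n) (R2 ι n) :=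
  X y + ∑ x ∈ Finset.univ.filter (fun x => x ≠ y ∧ x ≠ z), C (C 1 * X (Sum.inr x)) * X x

theorem tw_monomial {ι : Type} {n : ℕ} (z y : Fin n) (p : Fin n →₀ ℕ) :
    tw (ι := ι) z y (monomial p 1) = monomial (p.erase y) 1 * fy z y ^ (p y) := by
  unfold tw tws fy
  rw [aeval_monomial, map_one, one_mul, Finsupp.prod_fintype _ _ (fun i => pow_zero _),
    ← Finset.prod_erase_mul _ _ (Finset.mem_univ y), if_pos rfl]
  congr 1
  have hC : (C (1 : R2 ι n) : MvPolynomial (Fin n) (R2 ι n)) = 1 := C_1
  rw [monomial_eq (s := p.erase y) (a := (1 : R2 ι n)), hC, one_mul,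
    Finsupp.prod_fintype _ _ (fun i => pow_zero _),
    ← Finset.prod_erase_mul _ _ (Finset.mem_univ y), Finsupp.erase_same, pow_zero, mul_one]
  refine Finset.prod_congr rfl fun i hi => ?_
  rw [if_neg (Finset.ne_of_mem_erase hi), Finsupp.erase_ne (Finset.ne_of_mem_erase hi)]

theorem Del_fy {ι : Type} {n : ℕ} (z y x : Fin n) (hxy : x ≠ y) (hxz : x ≠ z) :
    Del (ι := ι) (pderiv (Sum.inr x)) (fy z y) (X x) := by
  classical
  have h1 : Del (ι := ι) (pderiv (Sum.inr x)) (X y : MvPolynomial (Fin n) (R2 ι n)) 0 :=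
    Del.monomial _ _
  have h2 : ∀ x' ∈ Finset.univ.filter (fun x => x ≠ y ∧ x ≠ z),
      Del (ι := ι) (pderiv (Sum.inr x)) (C (C 1 * X (Sum.inr x')) * X x' :
        MvPolynomial (Fin n) (R2 ι n)) (if x' = x then X x else 0) := by
    intro x' _ p
    rw [coeff_C_mul, C_1, one_mul]
    by_cases h : x' = x
    · subst h
      rw [if_pos rfl, coeff_X]
      split_ifs
      · rw [mul_one, pderiv_X_self]
      · rw [mul_zero, map_zero]
    · rw [if_neg h, coeff_zero, coeff_X]
      split_ifs
      · have h' : (Sum.inr x' : (ι × (Fin n →₀ ℕ)) ⊕ Fin n) ≠ Sum.inr x := by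
          intro h'
          exact h (Sum.inr.inj h')
        rw [mul_one, pderiv_X_of_ne h']
      · rw [mul_zero, map_zero]
  have h3 := h1.add (Del.sum _ _ _ h2)
  rw [zero_add, Finset.sum_ite_eq' , if_pos (by simp [hxy, hxz])] at h3
  exact h3

theorem Del_tw {ι : Type} {n : ℕ} (z y x : Fin n) (hxy : x ≠ y) (hxz : x ≠ z)
    (p : Fin n →₀ ℕ) :
    Del (ι := ι) (pderiv (Sum.inr x)) (tw (ι := ι) z y (monomial p 1))
      (C (p y : R2 ι n) *
        tw (ι := ι) z y (monomial (p - Finsupp.single y 1 + Finsupp.single x 1) 1)) := by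
  rw [tw_monomial, tw_monomial]
  have h := (Del.monomial (ι := ι) (pderiv (Sum.inr x)) (p.erase y)).mul
    ((Del_fy (ι := ι) z y x hxy hxz).pow (p y))
  rw [zero_mul, zero_add] at h
  have e1 : (p - Finsupp.single y 1 + Finsupp.single x 1).erase y =
      p.erase y + Finsupp.single x 1 := by
    ext i
    by_cases hi : i = y
    · subst hi
      simp [hxy]
    · rw [Finsupp.erase_ne hi]
      simp [Finsupp.erase_ne hi, hi, Finsupp.single_apply]
  have e2 : (p - Finsupp.single y 1 + Finsupp.single x 1 : Fin n →₀ ℕ) y = p y - 1 := by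
    simp [hxy]
  rw [e1, e2]
  have e3 : (MvPolynomial.monomial (p.erase y + Finsupp.single x 1) (1 : R2 ι n)) =
      MvPolynomial.monomial (p.erase y) 1 * X x := by
    rw [X, monomial_mul, mul_one]
  have e : C (p y : R2 ι n) * (MvPolynomial.monomial (p.erase y + Finsupp.single x 1)
      (1 : R2 ι n) * fy z y ^ (p y - 1)) =
      MvPolynomial.monomial (p.erase y) 1 * (((p y : ℕ) : MvPolynomial (Fin n) (R2 ι n)) *
        fy z y ^ (p y - 1) * X x) := by
    rw [e3, map_natCast]
    ring
  rw [e]
  exact h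

theorem pderiv_inj {ι : Type} {n : ℕ} (x : Fin n) (c : Rg ι n) :
    pderiv (Sum.inr x) (inj c) = 0 := by
  unfold inj
  induction c using MvPolynomial.induction_on with
  | C a => rw [rename_C, pderiv_C]
  | add p q hp hq => rw [map_add, map_add, hp, hq, add_zero]
  | mul_X p i hp =>
      rw [map_mul, rename_X, Derivation.leibniz, hp, pderiv_X_of_ne (by simp), smul_zero,
        smul_zero, add_zero]

theorem pr_TwPDE : S_TwPDE := by
  intro ι n z y x k e F hyz hxy hxz p
  unfold twF fn
  rw [map_sum, Finset.mul_sum]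
  refine Finset.sum_congr rfl fun p' _ => ?_
  rw [Derivation.leibniz, pderiv_inj, smul_zero, zero_add]
  have h := Del_tw (ι := ι) z y x hxy hxz p p'
  rw [coeff_C_mul] at h
  rw [h, smul_eq_mul]
  ring

end Pool.Agent.Work.MP_2ad852_ag.GS

end
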