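import Mathlib
import Pool.Agent.Work.MP_2ad852_ag.GF.Stmts
import Pool.Agent.Work.MP_2ad852_ag.GX.Stmts
import Pool.Agent.Work.MP_2ad852_ag.GS.Hilb
import Pool.Agent.Work.MP_2ad852_ag.GS.Final

/-! Bundle of small proof modules (one section per former module). -/

section

set_option autoImplicit false

namespace Pool.Agent.Work.MP_2ad852_ag.GF

open Finset

theorem CombU1_Mk {n : ℕ} (z : Fin n) (t : ℕ) :
    Mk z 1 t = Finset.finsuppAntidiag (Finset.univ.erase z) t := by
  ext p
  rw [mem_Mk, Finset.mem_finsuppAntidiag']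
  constructor
  · rintro ⟨h1, h2⟩
    have hz : p z = 0 := by omega
    refine ⟨?_, ?_⟩
    · rw [← h1, Finsupp.sum_fintype _ _ (fun _ => rfl)]
    · intro i hi
      rw [Finset.mem_erase]
      refine ⟨?_, Finset.mem_univ i⟩
      rintro rfl
      exact (Finsupp.mem_support_iff.1 hi) hz
  · rintro ⟨h1, h2⟩
    have hz : p z = 0 := by
      by_contra h
      exact Finset.notMem_erase z _ (h2 (Finsupp.mem_support_iff.2 h))
    refine ⟨?_, by omega⟩
    rw [← h1, Finsupp.sum_fintype _ _ (fun _ => rfl)]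

theorem pr_CombU1 (hU : S_CombU) : S_CombU1 := by
  intro n z t e L h
  have hn : 0 < n := Fin.pos z
  have hc : (Finset.univ.erase z).card = n - 1 := by
    rw [Finset.card_erase_of_mem (Finset.mem_univ z), Finset.card_univ, Fintype.card_fin]
  have h1 := hU n (Finset.univ.erase z) t e L (by omega)
  unfold Bad Std
  rw [CombU1_Mk, CombU1_Mk]
  exact h1

end Pool.Agent.Work.MP_2ad852_ag.GF

end

section

/-!
# Block GX, item Cheb
-/

namespace Pool.Agent.Work.MP_2ad852_ag.GX

open MvPolynomial Finset Pool.Agent.Work.MP_2ad852_ag.GF Pool.Agent.Work.MP_2ad852_ag.GS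

namespace Cheb

theorem slice0 (N t β : ℕ) :
    ∑ m ∈ range (β + 1), (if m ≤ t then N.choose (t - m) else 0) = cnt N t β := by
  unfold cnt
  rw [← Finset.sum_filter, ← Finset.sum_filter]
  have h1 : ∑ m ∈ (range (β + 1)).filter (fun m => m ≤ t), N.choose (t - m) =
      ∑ m ∈ (range (β + 1)).filter (fun m => m ≤ t ∧ t - m ≤ N), N.choose (t - m) := by
    symm
    apply Finset.sum_subset
    · intro m hm
      simp only [mem_filter, mem_range] at hm ⊢
      exact ⟨hm.1, hm.2.1⟩
    · intro m hm hm'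
      simp only [mem_filter, mem_range] at hm hm'
      apply Nat.choose_eq_zero_of_lt
      by_contra hcon
      exact hm' ⟨hm.1, hm.2, not_lt.mp hcon⟩
  rw [h1]
  refine Finset.sum_nbij' (fun m => t - m) (fun w => t - w) ?_ ?_ ?_ ?_ ?_
  · intro m hm
    simp only [mem_filter, mem_range] at hm ⊢
    omega
  · intro w hw
    simp only [mem_filter, mem_range] at hw ⊢
    omega
  · intro m hm
    simp only [mem_filter, mem_range] at hm
    omega
  · intro w hw
    simp only [mem_filter, mem_range] at hw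
    omega
  · intro m hm
    rfl

theorem slice (N' : ℕ → ℕ) (n e β : ℕ) (P : ℕ → Prop) [DecidablePred P] :
    ∑ x ∈ (Src (β + 1) e).filter (fun x => P x.2), mass N' n e x =
      ∑ j ∈ (range (e + 1)).filter (fun j => 2 * j ≤ e ∧ P j), N' j * cnt (n - 1) (e - 2 * j) β := by
  unfold Src
  rw [Finset.filter_filter, Finset.sum_filter, Finset.sum_product_right, Finset.sum_filter]
  refine Finset.sum_congr rfl fun j _ => ?_
  split_ifs with h
  · rw [← slice0, Finset.mul_sum]
    refine Finset.sum_congr rfl fun m _ => ?_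
    obtain ⟨h1, h2⟩ := h
    by_cases h3 : m ≤ e - 2 * j
    · rw [if_pos h3, if_pos ⟨by simp only; omega, h2⟩]
      unfold mass
      simp only
      rw [mul_comm]
      congr 2
      omega
    · rw [if_neg h3, if_neg (by simp only; intro h4; omega)]
      simp
  · refine Finset.sum_eq_zero fun m _ => ?_
    rw [if_neg]
    rintro ⟨h1, h2⟩
    simp only at h1 h2
    exact h ⟨by omega, h2⟩

theorem antiR (hC : S_Cnt) (n D β : ℕ) (hn : n ≤ D + 2) (i j : ℕ) (hi : 1 ≤ i) (hij : i ≤ j) :
    cnt (n - 1) (D + 2 * j) β ≤ cnt (n - 1) (D + 2 * i) β := by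
  induction j, hij using Nat.le_induction with
  | base => exact le_rfl
  | succ j hij ih =>
    refine le_trans ?_ ih
    have h1 := hC.1 (n - 1) (D + 2 * j) β (by omega)
    have h2 := hC.1 (n - 1) (D + 2 * j + 1) β (by omega)
    have e : D + 2 * (j + 1) = D + 2 * j + 1 + 1 := by ring
    rw [e]
    exact h2.trans h1

end Cheb

open Cheb in
theorem pr_Cheb (hC : S_Cnt) : S_Cheb := by
  intro N' n s D β β' a hn hnD hD hmono hβ hβ' ha
  rcases Nat.eq_zero_or_pos a with rfl | ha1
  · have e1 : (Src (β' + 1) (2 * s + D)).filter (fun x => 0 ≤ s - x.2) =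
        Src (β' + 1) (2 * s + D) := by
      apply Finset.filter_true_of_mem
      intro x _
      exact Nat.zero_le _
    have e2 : Finset.Icc 0 β = Finset.range (β + 1) := by
      ext i
      simp only [mem_Icc, mem_range]
      omega
    rw [e1, e2]
  -- notation
  set R : ℕ → ℕ := fun i => cnt (n - 1) (D + 2 * i) β' with hR
  set f : ℕ → ℕ := fun i => N' (s - i) with hf
  -- the filtered mass
  have hA : ∑ x ∈ (Src (β' + 1) (2 * s + D)).filter (fun x => a ≤ s - x.2),
      mass N' n (2 * s + D) x = ∑ i ∈ Finset.Icc a β, f i * R i := by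
    rw [slice N' n (2 * s + D) β' (fun j => a ≤ s - j)]
    have h1 : ∑ i ∈ Finset.Icc a s, f i * R i = ∑ i ∈ Finset.Icc a β, f i * R i := by
      symm
      apply Finset.sum_subset
      · intro i hi
        simp only [mem_Icc] at hi ⊢
        omega
      · intro i hi hi'
        simp only [mem_Icc] at hi hi'
        have hR0 : R i = 0 := by
          simp only [hR]
          unfold cnt
          apply Finset.sum_eq_zero
          intro w hw
          simp only [mem_range] at hw
          rw [if_neg]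
          rintro ⟨h2, h3⟩
          rcases hβ' with h | h <;> omega
        rw [hR0, mul_zero]
    rw [← h1]
    refine Finset.sum_nbij' (fun j => s - j) (fun i => s - i) ?_ ?_ ?_ ?_ ?_
    · intro j hj
      simp only [mem_filter, mem_range] at hj
      simp only [mem_Icc]
      omega
    · intro i hi
      simp only [mem_Icc] at hi
      simp only [mem_filter, mem_range]
      omega
    · intro j hj
      simp only [mem_filter, mem_range] at hj
      omega
    · intro i hi
      simp only [mem_Icc] at hi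
      omega
    · intro j hj
      simp only [mem_filter, mem_range] at hj
      simp only [hf, hR]
      have e1 : s - (s - j) = j := by omega
      have e2 : D + 2 * (s - j) = 2 * s + D - 2 * j := by omega
      rw [e1, e2]
  -- the total mass
  have hT : f 0 * R 1 + ∑ i ∈ Finset.Ico 1 a, f i * R i + ∑ i ∈ Finset.Icc a β, f i * R i ≤
      ∑ x ∈ Src (β' + 1) (2 * s + D), mass N' n (2 * s + D) x := by
    have h0 : ∑ x ∈ Src (β' + 1) (2 * s + D), mass N' n (2 * s + D) x =
        ∑ j ∈ (range (2 * s + D + 1)).filter (fun j => 2 * j ≤ 2 * s + D ∧ True),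
          N' j * cnt (n - 1) (2 * s + D - 2 * j) β' := by
      rw [← slice N' n (2 * s + D) β' (fun _ => True)]
      congr 1
      symm
      exact Finset.filter_true_of_mem fun _ _ => trivial
    rw [h0]
    have h1 : ∑ j ∈ range (s + 2), N' j * cnt (n - 1) (2 * s + D - 2 * j) β' ≤
        ∑ j ∈ (range (2 * s + D + 1)).filter (fun j => 2 * j ≤ 2 * s + D ∧ True),
          N' j * cnt (n - 1) (2 * s + D - 2 * j) β' := by
      apply Finset.sum_le_sum_of_subset
      intro j hj
      simp only [mem_filter, mem_range] at hj ⊢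
      exact ⟨by omega, by omega, trivial⟩
    refine le_trans ?_ h1
    rw [Finset.sum_range_succ, Finset.sum_range_succ]
    have h2 : ∑ j ∈ range s, N' j * cnt (n - 1) (2 * s + D - 2 * j) β' =
        ∑ i ∈ Finset.Icc 1 s, f i * R i := by
      refine Finset.sum_nbij' (fun j => s - j) (fun i => s - i) ?_ ?_ ?_ ?_ ?_
      · intro j hj
        simp only [mem_range] at hj
        simp only [mem_Icc]
        omega
      · intro i hi
        simp only [mem_Icc] at hi
        simp only [mem_range]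
        omega
      · intro j hj
        simp only [mem_range] at hj
        omega
      · intro i hi
        simp only [mem_Icc] at hi
        omega
      · intro j hj
        simp only [mem_range] at hj
        simp only [hf, hR]
        have e1 : s - (s - j) = j := by omega
        have e2 : D + 2 * (s - j) = 2 * s + D - 2 * j := by omega
        rw [e1, e2]
    rw [h2]
    have h3 : ∑ i ∈ Finset.Ico 1 a, f i * R i + ∑ i ∈ Finset.Icc a β, f i * R i ≤
        ∑ i ∈ Finset.Icc 1 s, f i * R i := by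
      rw [← Finset.sum_union]
      · apply Finset.sum_le_sum_of_subset
        intro i hi
        simp only [mem_union, mem_Ico, mem_Icc] at hi ⊢
        omega
      · rw [Finset.disjoint_left]
        intro i hi hi'
        simp only [mem_Ico, mem_Icc] at hi hi'
        omega
    have h4 : f 0 * R 1 ≤ N' s * cnt (n - 1) (2 * s + D - 2 * s) β' +
        N' (s + 1) * cnt (n - 1) (2 * s + D - 2 * (s + 1)) β' := by
      have e1 : 2 * s + D - 2 * s = D := by omega
      have e2 : 2 * s + D - 2 * (s + 1) = D - 2 := by omega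
      rw [e1, e2]
      have h5 := hC.2 (n - 1) D β' (by omega) hD
      have h6 : N' s ≤ N' (s + 1) := hmono _ _ (Nat.le_succ s)
      calc f 0 * R 1 = N' s * cnt (n - 1) (D + 2) β' := rfl
        _ ≤ N' s * (cnt (n - 1) D β' + cnt (n - 1) (D - 2) β') := Nat.mul_le_mul_left _ h5
        _ = N' s * cnt (n - 1) D β' + N' s * cnt (n - 1) (D - 2) β' := by ring
        _ ≤ _ := Nat.add_le_add_left (Nat.mul_le_mul_right _ h6) _
    calc f 0 * R 1 + ∑ i ∈ Finset.Ico 1 a, f i * R i + ∑ i ∈ Finset.Icc a β, f i * R i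
        = (∑ i ∈ Finset.Ico 1 a, f i * R i + ∑ i ∈ Finset.Icc a β, f i * R i) + f 0 * R 1 := by
          ring
      _ ≤ ∑ i ∈ Finset.Icc 1 s, f i * R i + (N' s * cnt (n - 1) (2 * s + D - 2 * s) β' +
        N' (s + 1) * cnt (n - 1) (2 * s + D - 2 * (s + 1)) β') := Nat.add_le_add h3 h4
      _ = _ := by ring
  rw [hA]
  refine le_trans ?_ (Nat.mul_le_mul_right _ hT)
  -- Chebyshev
  set S1 := ∑ i ∈ Finset.Icc a β, f i with hS1
  set S0 := ∑ i ∈ Finset.range a, f i with hS0
  have hsum : ∑ i ∈ Finset.range (β + 1), N' (s - i) = S0 + S1 := by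
    have e1 : Finset.range (β + 1) = Finset.range a ∪ Finset.Icc a β := by
      ext i
      simp only [mem_union, mem_range, mem_Icc]
      omega
    rw [e1, Finset.sum_union]
    rw [Finset.disjoint_left]
    intro i hi hi'
    simp only [mem_range, mem_Icc] at hi hi'
    omega
  rw [hsum]
  set A := ∑ i ∈ Finset.Icc a β, f i * R i with hAd
  set B := f 0 * R 1 + ∑ i ∈ Finset.Ico 1 a, f i * R i with hB
  have hAle : A ≤ R a * S1 := by
    rw [hAd, hS1, Finset.mul_sum]
    refine Finset.sum_le_sum fun i hi => ?_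
    simp only [mem_Icc] at hi
    rw [mul_comm]
    exact Nat.mul_le_mul_right _ (antiR hC n D β' hnD a i ha1 hi.1)
  have hBge : R a * S0 ≤ B := by
    have e1 : Finset.range a = insert 0 (Finset.Ico 1 a) := by
      ext i
      simp only [mem_insert, mem_range, mem_Ico]
      omega
    rw [hS0, e1, Finset.sum_insert (by simp), mul_add, hB, Finset.mul_sum]
    refine Nat.add_le_add ?_ ?_
    · rw [mul_comm]
      exact Nat.mul_le_mul_left _ (antiR hC n D β' hnD 1 a le_rfl ha1)
    · refine Finset.sum_le_sum fun i hi => ?_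
      simp only [mem_Ico] at hi
      rw [mul_comm]
      exact Nat.mul_le_mul_left _ (antiR hC n D β' hnD i a hi.1 hi.2.le)
  calc A * (S0 + S1) = A * S0 + A * S1 := by ring
    _ ≤ (R a * S1) * S0 + A * S1 := Nat.add_le_add_right (Nat.mul_le_mul_right _ hAle) _
    _ = (R a * S0) * S1 + A * S1 := by ring
    _ ≤ B * S1 + A * S1 := Nat.add_le_add_right (Nat.mul_le_mul_right _ hBge) _
    _ = (B + A) * S1 := by ring

end Pool.Agent.Work.MP_2ad852_ag.GX

end

section

/-!
# Item Cnt
-/

namespace Pool.Agent.Work.MP_2ad852_ag.GX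

open MvPolynomial Finset Pool.Agent.Work.MP_2ad852_ag.GF Pool.Agent.Work.MP_2ad852_ag.GS

theorem Cnt_step {N j j' β : ℕ} (h : ∀ w ≤ N, (w ≤ j' ∧ j' ≤ w + β) → (w ≤ j ∧ j ≤ w + β)) :
    cnt N j' β ≤ cnt N j β := by
  refine Finset.sum_le_sum fun w hw => ?_
  have hw' : w ≤ N := by
    rw [Finset.mem_range] at hw
    omega
  by_cases h1 : w ≤ j' ∧ j' ≤ w + β
  · rw [if_pos h1, if_pos (h w hw' h1)]
  · rw [if_neg h1]
    exact Nat.zero_le _

theorem pr_Cnt : S_Cnt := by
  refine ⟨?_, ?_⟩
  · intro N j β hN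
    refine Cnt_step fun w hw h => ?_
    omega
  · intro N D β hN hD
    by_cases hND : N ≤ D
    · refine (Cnt_step fun w hw h => ?_).trans (Nat.le_add_right _ _)
      omega
    · obtain rfl : N = D + 1 := by omega
      by_cases hβ : β = 0
      · subst hβ
        have : cnt (D + 1) (D + 2) 0 = 0 := by
          refine Finset.sum_eq_zero fun w hw => if_neg ?_
          rw [Finset.mem_range] at hw
          omega
        rw [this]
        exact Nat.zero_le _
      have h1 : 1 ≤ cnt (D + 1) (D - 2) β := by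
        refine le_trans ?_ (Finset.single_le_sum
          (f := fun w => if w ≤ D - 2 ∧ D - 2 ≤ w + β then (D + 1).choose w else 0)
          (fun w _ => Nat.zero_le _) (Finset.mem_range.mpr (show D - 2 < D + 1 + 1 by omega)))
        rw [if_pos (by omega)]
        exact Nat.choose_pos (by omega)
      have h2 : cnt (D + 1) (D + 2) β ≤ cnt (D + 1) D β + 1 := by
        rw [cnt, cnt, Finset.sum_range_succ, Finset.sum_range_succ _ (D + 1)]
        have h3 : (if D + 1 ≤ D + 2 ∧ D + 2 ≤ D + 1 + β then (D + 1).choose (D + 1) else 0) ≤ 1 := by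
          split_ifs
          · simp
          · omega
        have h4 : (∑ x ∈ Finset.range (D + 1),
            if x ≤ D + 2 ∧ D + 2 ≤ x + β then (D + 1).choose x else 0) ≤
            ∑ x ∈ Finset.range (D + 1),
              if x ≤ D ∧ D ≤ x + β then (D + 1).choose x else 0 := by
          refine Finset.sum_le_sum fun w hw => ?_
          rw [Finset.mem_range] at hw
          by_cases h1 : w ≤ D + 2 ∧ D + 2 ≤ w + β
          · rw [if_pos h1, if_pos (by omega)]
          · rw [if_neg h1]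
            exact Nat.zero_le _
        omega
      omega

end Pool.Agent.Work.MP_2ad852_ag.GX

end

section

/-!
# Item Fib
-/

namespace Pool.Agent.Work.MP_2ad852_ag.GX

open MvPolynomial Finset Pool.Agent.Work.MP_2ad852_ag.GF Pool.Agent.Work.MP_2ad852_ag.GS

theorem Fib_hf {n : ℕ} (z : Fin n) (p : Fin n →₀ ℕ) (i : Fin n) :
    hf z p i = if i = z then 0 else p i / 2 := by
  classical
  rw [hf, Finsupp.erase_apply]
  simp

/-- the odd part -/
noncomputable def Fib_T {n : ℕ} (z : Fin n) (p : Fin n →₀ ℕ) : Finset (Fin n) :=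
  (Finset.univ.erase z).filter (fun i => p i % 2 = 1)

/-- the inverse map -/
noncomputable def Fib_inv {n : ℕ} (z : Fin n) (m : ℕ) (x : (Fin n →₀ ℕ) × Finset (Fin n)) :
    Fin n →₀ ℕ :=
  Finsupp.equivFunOnFinite.symm fun i =>
    if i = z then m else 2 * x.1 i + if i ∈ x.2 then 1 else 0

theorem Fib_inv_apply {n : ℕ} (z : Fin n) (m : ℕ) (x : (Fin n →₀ ℕ) × Finset (Fin n))
    (i : Fin n) : Fib_inv z m x i = if i = z then m else 2 * x.1 i + if i ∈ x.2 then 1 else 0 :=
  rfl

theorem pr_Fib : S_Fib := by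
  classical
  intro n z e m j H hH hmj
  have hcard : (H ×ˢ ((Finset.univ.erase z).powersetCard (e - m - 2 * j))).card =
      (n - 1).choose (e - m - 2 * j) * H.card := by
    rw [Finset.card_product, Finset.card_powersetCard, Finset.card_erase_of_mem (Finset.mem_univ z),
      Finset.card_univ, Fintype.card_fin, mul_comm]
  rw [← hcard]
  refine Finset.card_nbij' (fun p => (hf z p, Fib_T z p)) (Fib_inv z m) ?_ ?_ ?_ ?_
  · intro p hp
    rw [Finset.mem_coe, fib, Finset.mem_filter, mem_Mt] at hp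
    obtain ⟨h1, h2, h3⟩ := hp
    rw [Finset.mem_coe, Finset.mem_product, Finset.mem_powersetCard]
    refine ⟨h3, Finset.filter_subset _ _, ?_⟩
    have h4 := (mem_Mk.mp (hH h3)).1
    simp only
    rw [← Finset.add_sum_erase _ _ (Finset.mem_univ z)] at h1 h4
    rw [Fib_hf, if_pos rfl, zero_add] at h4
    have h5 : (Fib_T z p).card = ∑ i ∈ Finset.univ.erase z, p i % 2 := by
      rw [Fib_T, Finset.card_filter]
      refine Finset.sum_congr rfl fun i _ => ?_
      have := Nat.mod_two_eq_zero_or_one (p i)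
      split_ifs with h <;> omega
    have h6 : ∑ i ∈ Finset.univ.erase z, p i =
        2 * (∑ i ∈ Finset.univ.erase z, hf z p i) + ∑ i ∈ Finset.univ.erase z, p i % 2 := by
      rw [Finset.mul_sum, ← Finset.sum_add_distrib]
      refine Finset.sum_congr rfl fun i hi => ?_
      rw [Fib_hf, if_neg (Finset.ne_of_mem_erase hi)]
      omega
    omega
  · rintro ⟨c, T⟩ hx
    rw [Finset.mem_coe, Finset.mem_product, Finset.mem_powersetCard] at hx
    obtain ⟨hc, hT, hTc⟩ := hx
    simp only at hc hT hTc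
    obtain ⟨hc1, hc2⟩ := mem_Mk.mp (hH hc)
    rw [Finset.mem_coe, fib, Finset.mem_filter, mem_Mt]
    refine ⟨?_, ?_, ?_⟩
    · rw [← Finset.add_sum_erase _ _ (Finset.mem_univ z)] at hc1 ⊢
      rw [Fib_inv_apply, if_pos rfl]
      have h1 : ∑ i ∈ Finset.univ.erase z, Fib_inv z m (c, T) i =
          2 * (∑ i ∈ Finset.univ.erase z, c i) + T.card := by
        rw [Finset.mul_sum]
        have h2 : T.card = ∑ i ∈ Finset.univ.erase z, if i ∈ T then 1 else 0 := by
          rw [← Finset.card_filter]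
          congr 1
          ext i
          rw [Finset.mem_filter]
          exact ⟨fun h => ⟨hT h, h⟩, fun h => h.2⟩
        rw [h2, ← Finset.sum_add_distrib]
        refine Finset.sum_congr rfl fun i hi => ?_
        rw [Fib_inv_apply, if_neg (Finset.ne_of_mem_erase hi)]
      rw [h1, hTc]
      omega
    · rw [Fib_inv_apply, if_pos rfl]
    · have : hf z (Fib_inv z m (c, T)) = c := by
        ext i
        rw [Fib_hf, Fib_inv_apply]
        by_cases h : i = z
        · rw [if_pos h, h]
          omega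
        · rw [if_neg h, if_neg h]
          simp only
          split_ifs <;> omega
      rw [this]
      exact hc
  · intro p hp
    rw [Finset.mem_coe, fib, Finset.mem_filter, mem_Mt] at hp
    obtain ⟨h1, h2, h3⟩ := hp
    ext i
    rw [Fib_inv_apply]
    by_cases h : i = z
    · rw [if_pos h, h, h2]
    · rw [if_neg h]
      simp only
      rw [Fib_hf, if_neg h]
      have hT : i ∈ Fib_T z p ↔ p i % 2 = 1 := by
        rw [Fib_T, Finset.mem_filter]
        exact ⟨fun h => h.2, fun h' => ⟨Finset.mem_erase.mpr ⟨h, Finset.mem_univ _⟩, h'⟩⟩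
      by_cases h4 : p i % 2 = 1
      · rw [if_pos (hT.mpr h4)]
        omega
      · rw [if_neg (fun h5 => h4 (hT.mp h5))]
        omega
  · rintro ⟨c, T⟩ hx
    rw [Finset.mem_coe, Finset.mem_product, Finset.mem_powersetCard] at hx
    obtain ⟨hc, hT, hTc⟩ := hx
    simp only at hc hT hTc
    obtain ⟨hc1, hc2⟩ := mem_Mk.mp (hH hc)
    refine Prod.ext ?_ ?_
    · simp only
      ext i
      rw [Fib_hf, Fib_inv_apply]
      by_cases h : i = z
      · rw [if_pos h, h]
        omega
      · rw [if_neg h, if_neg h]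
        simp only
        split_ifs <;> omega
    · simp only
      ext i
      rw [Fib_T, Finset.mem_filter, Fib_inv_apply]
      constructor
      · rintro ⟨h1, h2⟩
        rw [if_neg (Finset.ne_of_mem_erase h1)] at h2
        by_contra h
        simp only [if_neg h] at h2
        omega
      · intro h
        refine ⟨hT h, ?_⟩
        rw [if_neg (Finset.ne_of_mem_erase (hT h))]
        simp only [if_pos h]
        omega

end Pool.Agent.Work.MP_2ad852_ag.GX

end

section

/-!
# Item FibSum: summation over the half exponents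
-/

namespace Pool.Agent.Work.MP_2ad852_ag.GX

open MvPolynomial Finset Pool.Agent.Work.MP_2ad852_ag.GF Pool.Agent.Work.MP_2ad852_ag.GS

theorem FibSum_hf_apply {n : ℕ} (z : Fin n) (p : Fin n →₀ ℕ) (i : Fin n) :
    hf z p i = if i = z then 0 else p i / 2 := by
  classical
  unfold hf
  rw [Finsupp.erase_apply]
  by_cases h : i = z
  · rw [if_pos h, if_pos h]
  · rw [if_neg h, if_neg h, Finsupp.mapRange_apply]

theorem FibSum_le {n : ℕ} (z : Fin n) (p : Fin n →₀ ℕ) :
    2 * ∑ i, hf z p i ≤ ∑ i, p i := by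
  rw [Finset.mul_sum]
  refine Finset.sum_le_sum fun i _ => ?_
  rw [FibSum_hf_apply]
  split_ifs <;> omega

theorem pr_FibSum (h : S_Fib) : S_FibSum := by
  intro n z t
  classical
  have h1 : ∀ j ∈ Finset.range (t / 2 + 1),
      ((Mk z 1 t).filter (fun p => ∑ i, hf z p i = j)).card =
        (n - 1).choose (t - 2 * j) * (Mk z 1 j).card := by
    intro j hj
    rw [Finset.mem_range] at hj
    have h2 := h n z t 0 j (Mk z 1 j) (Finset.Subset.refl _) (by omega)
    rw [Nat.sub_zero] at h2
    rw [← h2]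
    congr 1
    ext p
    unfold fib
    rw [Finset.mem_filter, Finset.mem_filter, mem_Mk, mem_Mk, mem_Mt, FibSum_hf_apply, if_pos rfl]
    constructor
    · rintro ⟨⟨h3, h4⟩, h5⟩
      exact ⟨h3, by omega, h5, by omega⟩
    · rintro ⟨h3, h4, h5, -⟩
      exact ⟨⟨h3, by omega⟩, h5⟩
  rw [← Finset.sum_congr rfl h1]
  refine Finset.card_eq_sum_card_fiberwise ?_
  intro p hp
  have hp' := mem_Mk.mp (Finset.mem_coe.mp hp)
  have h3 := FibSum_le z p
  rw [Finset.mem_coe, Finset.mem_range]
  show ∑ i, hf z p i < t / 2 + 1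
  omega

end Pool.Agent.Work.MP_2ad852_ag.GX

end

section

/-!
# Item Hall: the transport lemma for intervals
-/

namespace Pool.Agent.Work.MP_2ad852_ag.GX

open MvPolynomial Finset Pool.Agent.Work.MP_2ad852_ag.GF Pool.Agent.Work.MP_2ad852_ag.GS

theorem Hall_aux {ι : Type} (S : Finset ι) (J : ℕ) (lo hi : ι → ℕ) (M : ι → ℝ) (c : ℕ → ℝ)
    (hw : ∀ i ∈ S, lo i ≤ hi i ∧ hi i ≤ J)
    (hall : ∀ a b, a ≤ b → b ≤ J →
      ∑ i ∈ S.filter (fun i => a ≤ lo i ∧ hi i ≤ b), M i ≤ ∑ j ∈ Finset.Icc a b, c j) :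
    ∀ (len a b : ℕ), b - a = len → a ≤ b → b ≤ J + 1 → ∀ (f : ℕ → ℝ) (B : ι → ℝ),
      (∀ j, a ≤ j → j < b → 0 ≤ f j) →
      (∀ i ∈ S, a ≤ lo i → hi i < b → ∀ j, lo i ≤ j → j ≤ hi i → B i ≤ M i * f j) →
      ∑ i ∈ S.filter (fun i => a ≤ lo i ∧ hi i < b), B i ≤ ∑ j ∈ Finset.Ico a b, c j * f j := by
  intro len
  induction len using Nat.strong_induction_on with
  | _ len ih =>
  intro a b hlen hab hbJ f B hf hB
  by_cases hab' : a = b
  · subst hab'
    rw [Finset.Ico_self, Finset.sum_empty, Finset.filter_false_of_mem, Finset.sum_empty]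
    intro i hi h
    have := hw i hi
    omega
  have hlt : a < b := by omega
  obtain ⟨j0, hj0, hmin⟩ := Finset.exists_min_image (Finset.Ico a b) f
    ⟨a, Finset.mem_Ico.mpr ⟨le_rfl, hlt⟩⟩
  rw [Finset.mem_Ico] at hj0
  set v := f j0 with hv
  have hv0 : 0 ≤ v := hf j0 hj0.1 hj0.2
  have hfv : ∀ j, a ≤ j → j < b → 0 ≤ f j - v := fun j h1 h2 =>
    sub_nonneg.mpr (hmin j (Finset.mem_Ico.mpr ⟨h1, h2⟩))
  -- the two sides
  have hL := ih (j0 - a) (by omega) a j0 rfl hj0.1 (by omega) (fun j => f j - v)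
    (fun i => B i - v * M i) (fun j h1 h2 => hfv j h1 (by omega)) (by
      intro i hi h1 h2 j h3 h4
      have := hB i hi h1 (by omega) j h3 h4
      nlinarith)
  have hR := ih (b - (j0 + 1)) (by omega) (j0 + 1) b rfl (by omega) hbJ (fun j => f j - v)
    (fun i => B i - v * M i) (fun j h1 h2 => hfv j (by omega) h2) (by
      intro i hi h1 h2 j h3 h4
      have := hB i hi (by omega) h2 j h3 h4
      nlinarith)
  -- splitting of the sources
  have hsplit : ∑ i ∈ S.filter (fun i => a ≤ lo i ∧ hi i < b), (B i - v * M i) ≤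
      ∑ i ∈ S.filter (fun i => a ≤ lo i ∧ hi i < j0), (B i - v * M i) +
        ∑ i ∈ S.filter (fun i => j0 + 1 ≤ lo i ∧ hi i < b), (B i - v * M i) := by
    rw [Finset.sum_filter, Finset.sum_filter, Finset.sum_filter, ← Finset.sum_add_distrib]
    refine Finset.sum_le_sum fun i hiS => ?_
    have hwi := hw i hiS
    by_cases h1 : a ≤ lo i ∧ hi i < b
    · rw [if_pos h1]
      by_cases h2 : hi i < j0
      · rw [if_pos ⟨h1.1, h2⟩, if_neg (by omega), add_zero]
      · by_cases h3 : j0 + 1 ≤ lo i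
        · rw [if_neg (by omega), if_pos ⟨h3, h1.2⟩, zero_add]
        · rw [if_neg (by omega), if_neg (by omega), add_zero]
          have := hB i hiS h1.1 h1.2 j0 (by omega) (by omega)
          nlinarith
    · rw [if_neg h1, if_neg (by omega), if_neg (by omega), add_zero]
  have hM : ∑ i ∈ S.filter (fun i => a ≤ lo i ∧ hi i < b), M i ≤ ∑ j ∈ Finset.Ico a b, c j := by
    have h1 := hall a (b - 1) (by omega) (by omega)
    have e1 : Finset.Icc a (b - 1) = Finset.Ico a b := by
      ext j; simp only [Finset.mem_Icc, Finset.mem_Ico]; omega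
    have e2 : S.filter (fun i => a ≤ lo i ∧ hi i ≤ b - 1) =
        S.filter (fun i => a ≤ lo i ∧ hi i < b) := by
      refine Finset.filter_congr fun i _ => ?_
      omega
    rwa [e1, e2] at h1
  have hc : ∑ j ∈ Finset.Ico a b, c j * (f j - v) =
      ∑ j ∈ Finset.Ico a j0, c j * (f j - v) + ∑ j ∈ Finset.Ico (j0 + 1) b, c j * (f j - v) := by
    rw [← Finset.sum_Ico_consecutive _ hj0.1 hj0.2.le, Finset.sum_eq_sum_Ico_succ_bot hj0.2,
      ← hv, sub_self, mul_zero, zero_add]
  have e1 : ∑ i ∈ S.filter (fun i => a ≤ lo i ∧ hi i < b), B i =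
      v * (∑ i ∈ S.filter (fun i => a ≤ lo i ∧ hi i < b), M i) +
        ∑ i ∈ S.filter (fun i => a ≤ lo i ∧ hi i < b), (B i - v * M i) := by
    rw [Finset.mul_sum, ← Finset.sum_add_distrib]
    exact Finset.sum_congr rfl fun i _ => by ring
  have e2 : ∑ j ∈ Finset.Ico a b, c j * f j =
      v * (∑ j ∈ Finset.Ico a b, c j) + ∑ j ∈ Finset.Ico a b, c j * (f j - v) := by
    rw [Finset.mul_sum, ← Finset.sum_add_distrib]
    exact Finset.sum_congr rfl fun i _ => by ring
  rw [e1, e2, hc]
  have := mul_le_mul_of_nonneg_left hM hv0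
  linarith

theorem pr_Hall : S_Hall := by
  intro ι S J lo hi M B c f hw _ hf hall hB
  have h := Hall_aux S J lo hi M c hw hall (J + 1) 0 (J + 1) (by omega) (by omega) le_rfl f B
    (fun j _ _ => hf j) (fun i hi' _ _ j h1 h2 => hB i hi' j h1 h2)
  rw [Finset.filter_true_of_mem] at h
  · rwa [← Finset.range_eq_Ico] at h
  · intro i hi'
    have := hw i hi'
    omega

end Pool.Agent.Work.MP_2ad852_ag.GX

end

section

/-!
# The exact comparison
-/

namespace Pool.Agent.Work.MP_2ad852_ag.GX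

open MvPolynomial Finset Pool.Agent.Work.MP_2ad852_ag.GF Pool.Agent.Work.MP_2ad852_ag.GS

theorem hf_z {n : ℕ} (z : Fin n) (p : Fin n →₀ ℕ) : hf z p z = 0 := by
  unfold hf
  exact Finsupp.erase_same

theorem hf_ne {n : ℕ} {z i : Fin n} (h : i ≠ z) (p : Fin n →₀ ℕ) : hf z p i = p i / 2 := by
  unfold hf
  rw [Finsupp.erase_ne h, Finsupp.mapRange_apply]

theorem hf_sum {n : ℕ} (z : Fin n) (p : Fin n →₀ ℕ) :
    p z + 2 * ∑ i, hf z p i ≤ ∑ i, p i := by
  rw [← Finset.add_sum_erase _ _ (Finset.mem_univ z), ← Finset.add_sum_erase (s := Finset.univ)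
    (f := fun i => p i) (a := z) (Finset.mem_univ z), hf_z, zero_add, Finset.mul_sum]
  refine Nat.add_le_add_left (Finset.sum_le_sum fun i hi => ?_) _
  rw [hf_ne (Finset.ne_of_mem_erase hi)]
  omega

theorem sumSrc (hSum : S_FibSum) {n : ℕ} (hn : 2 ≤ n) (z : Fin n) (k e : ℕ) :
    ∑ x ∈ Src k e, mass (fun t => (Mk z 1 t).card) n e x = (Mk z k e).card := by
  rw [card_Mk_eq hn]
  rw [← Finset.sum_fiberwise_of_maps_to (s := Src k e) (t := Finset.range (min k (e + 1)))
    (g := fun x => x.1)]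
  · refine Finset.sum_congr rfl fun m hm => ?_
    rw [Finset.mem_range, lt_min_iff] at hm
    rw [← card_Mk_one hn z (e - m), hSum n z (e - m)]
    refine Finset.sum_nbij' (fun x => x.2) (fun j => (m, j)) ?_ ?_ ?_ ?_ ?_
    · intro x hx
      rw [Finset.mem_filter, Src, Finset.mem_filter, Finset.mem_product, Finset.mem_range,
        Finset.mem_range] at hx
      rw [Finset.mem_range]
      omega
    · intro j hj
      rw [Finset.mem_range] at hj
      rw [Finset.mem_filter, Src, Finset.mem_filter, Finset.mem_product, Finset.mem_range,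
        Finset.mem_range]
      have h7 : m + 2 * j ≤ e := by omega
      have h8 : j < e + 1 := by omega
      exact ⟨⟨⟨hm.1, h8⟩, h7⟩, rfl⟩
    · intro x hx
      rw [Finset.mem_filter] at hx
      rw [← hx.2]
    · intro j hj
      rfl
    · intro x hx
      rw [Finset.mem_filter] at hx
      unfold mass
      rw [hx.2]
  · intro x hx
    rw [Src, Finset.mem_filter, Finset.mem_product, Finset.mem_range,
      Finset.mem_range] at hx
    rw [Finset.mem_range, lt_min_iff]
    omega

theorem sumCol {n : ℕ} (hn : 2 ≤ n) (z : Fin n) (k s : ℕ) :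
    ∑ i ∈ Finset.range (min k (s + 1)), (Mk z 1 (s - i)).card = (Mk z k s).card := by
  rw [card_Mk_eq hn]
  exact Finset.sum_congr rfl fun i _ => card_Mk_one hn z (s - i)

theorem stdCol {n : ℕ} (z : Fin n) (k s : ℕ) (L : (Fin n →₀ ℕ) → Prop) :
    (Std z k s L).card = ∑ i ∈ Finset.range (min k (s + 1)), (col z s L i).card := by
  classical
  rw [Finset.card_eq_sum_card_fiberwise (f := fun p => p z) (t := Finset.range (min k (s + 1)))]
  · refine Finset.sum_congr rfl fun j hj => ?_
    rw [Finset.mem_range, lt_min_iff] at hj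
    refine Finset.card_bij (fun p _ => p - Finsupp.single z j) ?_ ?_ ?_
    · intro p hp
      rw [Finset.mem_filter, Std, Finset.mem_filter, mem_Mk] at hp
      obtain ⟨⟨⟨h1, _⟩, h2⟩, h3⟩ := hp
      have h4 : p - Finsupp.single z j + Finsupp.single z j = p :=
        tsub_add_cancel_of_le (Finsupp.single_le_iff.2 h3.ge)
      have h5 := MkNum_sum (p - Finsupp.single z j) z j
      rw [h4, h1] at h5
      rw [col, Finset.mem_filter, mem_Mk]
      refine ⟨⟨by omega, ?_⟩, ?_⟩
      · rw [Finsupp.tsub_apply, Finsupp.single_eq_same, h3]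
        omega
      · rw [add_comm, h4]
        exact h2
    · intro p hp q hq h
      rw [Finset.mem_filter] at hp hq
      have h4 : p - Finsupp.single z j + Finsupp.single z j = p :=
        tsub_add_cancel_of_le (Finsupp.single_le_iff.2 hp.2.ge)
      have h5 : q - Finsupp.single z j + Finsupp.single z j = q :=
        tsub_add_cancel_of_le (Finsupp.single_le_iff.2 hq.2.ge)
      rw [← h4, ← h5]
      exact congrArg (· + Finsupp.single z j) h
    · intro q hq
      rw [col, Finset.mem_filter, mem_Mk] at hq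
      refine ⟨q + Finsupp.single z j, ?_, ?_⟩
      · rw [Finset.mem_filter, Std, Finset.mem_filter, mem_Mk]
        refine ⟨⟨⟨?_, ?_⟩, ?_⟩, ?_⟩
        · rw [MkNum_sum, hq.1.1]
          omega
        · rw [Finsupp.add_apply, Finsupp.single_eq_same]
          omega
        · rw [add_comm]
          exact hq.2
        · rw [Finsupp.add_apply, Finsupp.single_eq_same]
          omega
      · exact add_tsub_cancel_right q _
  · intro p hp
    rw [Finset.mem_coe, Std, Finset.mem_filter, mem_Mk] at hp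
    rw [Finset.mem_coe, Finset.mem_range, lt_min_iff]
    have h2 : p z ≤ ∑ i, p i :=
      Finset.single_le_sum (f := fun i => p i) (fun i _ => Nat.zero_le _) (Finset.mem_univ z)
    refine ⟨hp.1.2, ?_⟩
    show p z < s + 1
    omega

/-- bad monomials of one source -/
noncomputable def bd {n : ℕ} (z : Fin n) (k e : ℕ) (L : (Fin n →₀ ℕ) → Prop) (x : ℕ × ℕ) :
    Finset (Fin n →₀ ℕ) :=
  (Bad2 z k e L).filter (fun p => p z = x.1 ∧ ∑ i, hf z p i = x.2)

theorem bdSum {n : ℕ} (z : Fin n) (k e : ℕ) (L : (Fin n →₀ ℕ) → Prop) :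
    (Bad2 z k e L).card = ∑ x ∈ Src k e, (bd z k e L x).card := by
  classical
  rw [Finset.card_eq_sum_card_fiberwise (f := fun p => (p z, ∑ i, hf z p i)) (t := Src k e)]
  · refine Finset.sum_congr rfl fun x _ => ?_
    congr 1
    unfold bd
    refine Finset.filter_congr fun p _ => ?_
    rw [Prod.ext_iff]
  · intro p hp
    rw [Finset.mem_coe, Bad2, Finset.mem_filter, mem_Mk] at hp
    have h1 := hf_sum z p
    rw [Finset.mem_coe, Src, Finset.mem_filter, Finset.mem_product, Finset.mem_range,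
      Finset.mem_range]
    simp only
    omega

theorem bd_le (hFib : S_Fib) (hN : GF.S_NMP) {n : ℕ} (z : Fin n) {k e s : ℕ}
    {L : (Fin n →₀ ℕ) → Prop} (hL : ∀ q r, L q → L (q + r)) {x : ℕ × ℕ} (hx : x ∈ Src k e)
    {m' : ℕ} (hm : m' ≤ x.1) (hj : s - m' ≤ x.2) :
    (bd z k e L x).card * (Mk z 1 (s - m')).card ≤
      mass (fun t => (Mk z 1 t).card) n e x * (col z s L m').card := by
  classical
  rw [Src, Finset.mem_filter, Finset.mem_product, Finset.mem_range, Finset.mem_range] at hx
  obtain ⟨⟨hx1, hx2⟩, hx3⟩ := hx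
  set C := (bd z k e L x).image (hf z) with hC
  have hCsub : C ⊆ Mk z 1 x.2 := by
    intro c hc
    rw [hC, Finset.mem_image] at hc
    obtain ⟨p, hp, rfl⟩ := hc
    rw [bd, Finset.mem_filter] at hp
    rw [mem_Mk, hf_z]
    exact ⟨hp.2.2, Nat.one_pos⟩
  have h1 : (bd z k e L x).card ≤ (n - 1).choose (e - x.1 - 2 * x.2) * C.card := by
    rw [← hFib n z e x.1 x.2 C hCsub hx3]
    refine Finset.card_le_card fun p hp => ?_
    have hp2 := hp
    rw [bd, Finset.mem_filter, Bad2, Finset.mem_filter, mem_Mk] at hp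
    rw [fib, Finset.mem_filter, mem_Mt]
    exact ⟨hp.1.1.1, hp.2.1, Finset.mem_image_of_mem _ hp2⟩
  have h2 := hN n (Finset.univ.erase z) (s - m') x.2 C hj (by rw [← CombU1_Mk]; exact hCsub)
  rw [← CombU1_Mk, ← CombU1_Mk] at h2
  have h3 : ((Mk z 1 (s - m')).filter (fun q => ∃ p ∈ C, q ≤ p)).card ≤ (col z s L m').card := by
    refine Finset.card_le_card fun c' hc' => ?_
    rw [Finset.mem_filter] at hc'
    obtain ⟨hc1, c, hc, hcc⟩ := hc'
    rw [col, Finset.mem_filter]
    refine ⟨hc1, fun hLc => ?_⟩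
    rw [hC, Finset.mem_image] at hc
    obtain ⟨p, hp, rfl⟩ := hc
    rw [bd, Finset.mem_filter, Bad2, Finset.mem_filter] at hp
    have hcz : c' z = 0 := by
      have := (mem_Mk.1 hc1).2
      omega
    have hq : L (Finsupp.single z x.1 + c') := by
      have h5 := hL _ (Finsupp.single z (x.1 - m')) hLc
      have h6 : Finsupp.single z m' + c' + Finsupp.single z (x.1 - m') =
          Finsupp.single z x.1 + c' := by
        rw [add_right_comm, ← Finsupp.single_add]
        congr 2
        omega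
      rw [← h6]
      exact h5
    refine hp.1.2 _ _ hq hq ?_ ?_ ?_
    · rw [Finsupp.add_apply, Finsupp.single_eq_same, hcz, hp.2.1, add_zero]
    · rw [Finsupp.add_apply, Finsupp.single_eq_same, hcz, hp.2.1, add_zero]
    · intro i
      rw [Finsupp.add_apply, Finsupp.add_apply, Finsupp.add_apply]
      by_cases hi : i = z
      · subst hi
        rw [Finsupp.single_eq_same, Finsupp.single_eq_same, hcz, hp.2.1]
        omega
      · rw [Finsupp.single_eq_of_ne hi, Finsupp.single_eq_of_ne hi]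
        have h7 := hcc i
        rw [hf_ne hi] at h7
        omega
  unfold mass
  calc (bd z k e L x).card * (Mk z 1 (s - m')).card
      ≤ (n - 1).choose (e - x.1 - 2 * x.2) * C.card * (Mk z 1 (s - m')).card :=
        Nat.mul_le_mul_right _ h1
    _ = (n - 1).choose (e - x.1 - 2 * x.2) * (C.card * (Mk z 1 (s - m')).card) := by ring
    _ ≤ (n - 1).choose (e - x.1 - 2 * x.2) * ((col z s L m').card * (Mk z 1 x.2).card) :=
        Nat.mul_le_mul_left _ (le_trans h2 (Nat.mul_le_mul_right _ h3))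
    _ = _ := by ring

theorem pr_CombX (hFib : S_Fib) (hSum : S_FibSum) (hHall : S_Hall) (hCheb : S_Cheb)
    (hN : GF.S_NMP) (hRat : GS.S_Ratio) (hNum : GS.S_MkNum) : S_CombX := by
  classical
  intro n z k s D L hn hk hL hD hD2
  have hn2 : 2 ≤ n := by omega
  set e := 2 * s + D with he
  set J := min (k - 1) s with hJ
  set N : ℕ → ℕ := fun t => (Mk z 1 t).card with hNdef
  have hNpos : ∀ t, 0 < N t := fun t => hNum.2.2.2 n z 1 t le_rfl hn2
  have hNposR : ∀ t, (0 : ℝ) < N t := fun t => by exact_mod_cast hNpos t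
  have hNmono : ∀ i j, i ≤ j → N i ≤ N j := fun i j hij => hNum.2.2.1 n z 1 i j hn2 hij
  have hKs : (0 : ℝ) < (Mk z k s).card := by exact_mod_cast hNum.2.2.2 n z k s hk hn2
  set ρ : ℝ := ((Mk z k e).card : ℝ) / (Mk z k s).card with hρ
  have hJ1 : J + 1 = min k (s + 1) := by omega
  -- the sources with nonzero mass
  set S := (Src k e).filter (fun x => e - x.1 - 2 * x.2 ≤ n - 1) with hS
  have hzero : ∀ x ∈ Src k e, x ∉ S → (bd z k e L x).card = 0 := by
    intro x hx hxS
    have h1 : ¬ (e - x.1 - 2 * x.2 ≤ n - 1) := fun h => hxS (Finset.mem_filter.2 ⟨hx, h⟩)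
    rw [Src, Finset.mem_filter, Finset.mem_product, Finset.mem_range, Finset.mem_range] at hx
    have h2 := hFib n z e x.1 x.2 (Mk z 1 x.2) (Finset.Subset.refl _) hx.2
    rw [Nat.choose_eq_zero_of_lt (by omega), zero_mul, Finset.card_eq_zero] at h2
    rw [Finset.card_eq_zero, Finset.eq_empty_iff_forall_notMem]
    intro p hp
    rw [bd, Finset.mem_filter, Bad2, Finset.mem_filter, mem_Mk] at hp
    have h3 : p ∈ fib z e x.1 (Mk z 1 x.2) := by
      rw [fib, Finset.mem_filter, mem_Mt]
      refine ⟨hp.1.1.1, hp.2.1, ?_⟩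
      rw [mem_Mk, hf_z]
      exact ⟨hp.2.2, Nat.one_pos⟩
    rw [h2] at h3
    exact absurd h3 (Finset.notMem_empty p)
  have hbad : ((Bad2 z k e L).card : ℝ) = ∑ x ∈ S, ((bd z k e L x).card : ℝ) := by
    rw [bdSum, Nat.cast_sum]
    refine (Finset.sum_subset (Finset.filter_subset _ _) ?_).symm
    intro x hx hxS
    rw [hzero x hx hxS, Nat.cast_zero]
  have hSmem : ∀ x ∈ S, x.1 < k ∧ x.1 + 2 * x.2 ≤ e ∧ e - x.1 - 2 * x.2 ≤ n - 1 ∧ x ∈ Src k e := by
    intro x hx
    have hx0 := (Finset.mem_filter.1 hx)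
    have hx1 := hx0.1
    rw [Src, Finset.mem_filter, Finset.mem_product, Finset.mem_range, Finset.mem_range] at hx1
    exact ⟨hx1.1.1, hx1.2, hx0.2, hx0.1⟩
  have key := hHall (ℕ × ℕ) S J (fun x => s - x.2) (fun x => min x.1 J)
    (fun x => (mass N n e x : ℝ)) (fun x => ((bd z k e L x).card : ℝ))
    (fun j => ρ * N (s - j)) (fun j => ((col z s L j).card : ℝ) / N (s - j)) ?_ ?_ ?_ ?_ ?_
  · -- conclusion
    have h1 : ∑ j ∈ Finset.range (J + 1), (ρ * N (s - j)) * (((col z s L j).card : ℝ) / N (s - j)) =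
        ρ * (Std z k s L).card := by
      rw [stdCol, Nat.cast_sum, Finset.mul_sum, hJ1]
      refine Finset.sum_congr rfl fun j _ => ?_
      have := (hNposR (s - j)).ne'
      field_simp
    rw [h1, ← hbad, hρ, div_mul_eq_mul_div, le_div_iff₀ hKs] at key
    have h2 : ((Bad2 z k e L).card * (Mk z k s).card : ℝ) ≤
        (Std z k s L).card * (Mk z k e).card := by linarith
    exact_mod_cast h2
  · intro x hx
    obtain ⟨h1, h2, h3, _⟩ := hSmem x hx
    show s - x.2 ≤ min x.1 J ∧ min x.1 J ≤ J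
    omega
  · intro x _
    exact Nat.cast_nonneg _
  · intro j
    exact div_nonneg (Nat.cast_nonneg _) (Nat.cast_nonneg _)
  · -- Hall condition
    intro a b hab hbJ
    have hcheb : ∀ β' : ℕ, (β' = b ∨ b = s) → 
        (∑ x ∈ (Src (β' + 1) e).filter (fun x => a ≤ s - x.2), (mass N n e x : ℝ)) *
          ((Mk z (b + 1) s).card : ℝ) ≤
        ((Mk z (β' + 1) e).card : ℝ) * ∑ j ∈ Finset.Icc a b, (N (s - j) : ℝ) := by
      intro β' hβ'
      have h1 := hCheb N n s D b β' a hn hD hD2 hNmono (by omega) hβ' hab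
      have h2 : ∑ x ∈ Src (β' + 1) (2 * s + D), mass N n (2 * s + D) x =
          (Mk z (β' + 1) e).card := sumSrc hSum hn2 z (β' + 1) e
      have h3 : ∑ i ∈ Finset.range (b + 1), N (s - i) = (Mk z (b + 1) s).card := by
        rw [← sumCol hn2 z (b + 1) s]
        congr 2
        omega
      rw [h2, h3] at h1
      exact_mod_cast h1
    have hnonneg : (0 : ℝ) ≤ ∑ j ∈ Finset.Icc a b, (N (s - j) : ℝ) :=
      Finset.sum_nonneg fun j _ => Nat.cast_nonneg _
    rw [← Finset.mul_sum]
    rcases Nat.lt_or_ge b J with hbJ' | hbJ'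
    · have h1 : ∑ x ∈ S.filter (fun x => a ≤ s - x.2 ∧ min x.1 J ≤ b), (mass N n e x : ℝ) ≤
          ∑ x ∈ (Src (b + 1) e).filter (fun x => a ≤ s - x.2), (mass N n e x : ℝ) := by
        refine Finset.sum_le_sum_of_subset_of_nonneg ?_ (fun x _ _ => Nat.cast_nonneg _)
        intro x hx
        rw [Finset.mem_filter] at hx
        obtain ⟨h1, h2, h3, h4⟩ := hSmem x hx.1
        rw [Finset.mem_filter, Src, Finset.mem_filter, Finset.mem_product, Finset.mem_range,
          Finset.mem_range]
        refine ⟨⟨⟨?_, ?_⟩, h2⟩, hx.2.1⟩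
        · have := hx.2.2
          omega
        · omega
      have h2 := hcheb b (Or.inl rfl)
      have h3 := hRat n z s e (b + 1) k hn2 (by omega) (by omega)
      have h3' : ((Mk z (b + 1) e).card : ℝ) * (Mk z k s).card ≤
          (Mk z k e).card * (Mk z (b + 1) s).card := by exact_mod_cast h3
      have hpos : (0 : ℝ) < (Mk z (b + 1) s).card := by
        exact_mod_cast hNum.2.2.2 n z (b + 1) s (by omega) hn2
      have h4 : ((Mk z (b + 1) e).card : ℝ) ≤ ρ * (Mk z (b + 1) s).card := by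
        rw [hρ, div_mul_eq_mul_div, le_div_iff₀ hKs]
        exact h3'
      refine le_trans h1 ?_
      refine le_of_mul_le_mul_right ?_ hpos
      calc _ ≤ ((Mk z (b + 1) e).card : ℝ) * ∑ j ∈ Finset.Icc a b, (N (s - j) : ℝ) := h2
        _ ≤ (ρ * (Mk z (b + 1) s).card) * ∑ j ∈ Finset.Icc a b, (N (s - j) : ℝ) :=
            mul_le_mul_of_nonneg_right h4 hnonneg
        _ = _ := by ring
    · have hbJ2 : b = J := le_antisymm hbJ hbJ'
      have h1 : ∑ x ∈ S.filter (fun x => a ≤ s - x.2 ∧ min x.1 J ≤ b), (mass N n e x : ℝ) ≤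
          ∑ x ∈ (Src k e).filter (fun x => a ≤ s - x.2), (mass N n e x : ℝ) := by
        refine Finset.sum_le_sum_of_subset_of_nonneg ?_ (fun x _ _ => Nat.cast_nonneg _)
        intro x hx
        rw [Finset.mem_filter] at hx
        exact Finset.mem_filter.2 ⟨(hSmem x hx.1).2.2.2, hx.2.1⟩
      have h2 := hcheb (k - 1) (by omega)
      rw [Nat.sub_add_cancel hk] at h2
      have h3 : (Mk z (b + 1) s).card = (Mk z k s).card := by
        rw [← sumCol hn2 z (b + 1) s, ← sumCol hn2 z k s]
        congr 2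
        omega
      rw [h3] at h2
      refine le_trans h1 ?_
      rw [hρ, div_mul_eq_mul_div, le_div_iff₀ hKs]
      exact h2
  · intro x hx j hj1 hj2
    obtain ⟨h1, h2, h3, h4⟩ := hSmem x hx
    change s - x.2 ≤ j at hj1
    change j ≤ min x.1 J at hj2
    have h5 := bd_le hFib hN z (s := s) hL h4 (m' := j) (by omega) (by omega)
    rw [← mul_div_assoc, le_div_iff₀ (hNposR (s - j))]
    exact_mod_cast h5

end Pool.Agent.Work.MP_2ad852_ag.GX

end

section

/-!
# Assembly of the range theorem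
-/

namespace Pool.Agent.Work.MP_2ad852_ag.GX

open MvPolynomial Finset Pool.Agent.Work.MP_2ad852_ag.GF Pool.Agent.Work.MP_2ad852_ag.GS

/-- comparison with degree zero -/
theorem comb0 {n : ℕ} (z y : Fin n) (k e : ℕ) {L : (Fin n →₀ ℕ) → Prop} (hL : Closed z y L)
    (_hk : 1 ≤ k) :
    (Bad2 z k e L).card * (Mk z k 0).card ≤ (Std z k 0 L).card * (Mk z k e).card := by
  classical
  by_cases h0 : L 0
  · have hall : ∀ q, L q := fun q => by
      have := hL.add 0 q h0
      rwa [zero_add] at this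
    have h1 : (Bad2 z k e L).card = 0 := by
      rw [Finset.card_eq_zero, Finset.eq_empty_iff_forall_notMem]
      intro p hp
      rw [Bad2, Finset.mem_filter] at hp
      refine hp.2 (Finsupp.single z (p z)) (Finsupp.single z (p z)) (hall _) (hall _)
        Finsupp.single_eq_same Finsupp.single_eq_same ?_
      refine add_le_add_left (Finsupp.single_le_iff.2 le_rfl) _
    rw [h1, zero_mul]
    exact Nat.zero_le _
  · have h1 : Std z k 0 L = Mk z k 0 := by
      rw [Std, Finset.filter_true_of_mem]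
      intro q hq
      rw [mem_Mk] at hq
      have : q = 0 := by
        ext i
        have h2 : q i ≤ ∑ i, q i :=
          Finset.single_le_sum (f := fun i => q i) (fun i _ => Nat.zero_le _) (Finset.mem_univ i)
        rw [hq.1] at h2
        simpa using h2
      rw [this]
      exact h0
    rw [h1, mul_comm]
    exact Nat.mul_le_mul_left _ (Finset.card_le_card (Finset.filter_subset _ _))

/-- comparison in all degrees needed -/
theorem combAll (hX : S_CombX) {n : ℕ} (hn : 3 ≤ n) {z y : Fin n} {ι : Type} {k e δ : ℕ}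
    {d : ι → ℕ} (hk : 1 ≤ k) (hd : ∀ l, δ ≤ d l) (he : e + max 2 (n - 2) ≤ 2 * δ) {t : ℕ}
    (ht : t = 0 ∨ (∃ l, d l ≤ e ∧ t = e - d l)) {L : (Fin n →₀ ℕ) → Prop} (hL : Closed z y L) :
    (Bad2 z k e L).card * (Mk z k t).card ≤ (Std z k t L).card * (Mk z k e).card := by
  rcases ht with rfl | ⟨l, hl, rfl⟩
  · exact comb0 z y k e hL hk
  · have h1 := hd l
    obtain ⟨D, hD⟩ : ∃ D, e = 2 * (e - d l) + D := ⟨e - 2 * (e - d l), by omega⟩
    have h2 := hX n z k (e - d l) D L hn hk hL.add (by omega) (by omega)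
    rw [← hD] at h2
    exact h2

theorem dichX (hX : S_CombX) {n : ℕ} (hn : 3 ≤ n) {ι : Type} [Fintype ι] {z y : Fin n}
    (hyz : y ≠ z) {k e δ : ℕ} {d : ι → ℕ} (hd : ∀ l, δ ≤ d l) (he : e + max 2 (n - 2) ≤ 2 * δ)
    (h1 : RK z k e d) (h2 : LK z k e d) : False := by
  have hk : 1 ≤ k := by
    obtain ⟨F, hF⟩ := h2
    exact hF.one_le
  exact dich_of core3 pr_MatL pr_MatR pr_CardCols pr_LASqB pr_ExtR2 pr_ExtC hyz
    (fun t ht L hL => combAll hX hn hk hd he ht hL) h1 h2

theorem card_Mt {n : ℕ} (hn : 1 ≤ n) (z : Fin n) {k t : ℕ} (h : t < k) :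
    (Mk z k t).card = (t + n - 1).choose (n - 1) := by
  rw [MkNum_eq z h, Mt, Finset.card_finsuppAntidiag_nat_eq_choose, Finset.card_univ,
    Fintype.card_fin]
  have h1 : n + t - 1 = t + n - 1 := by omega
  rw [h1]
  have h2 : t + n - 1 = t + (n - 1) := by omega
  rw [h2]
  exact (Nat.choose_symm_add (a := t) (b := n - 1))

/-- no left kernel in a small degree where the number of columns is at least the number of rows -/
theorem topX (hX : S_CombX) {n : ℕ} (hn : 3 ≤ n) {ι : Type} [Fintype ι] {z y : Fin n}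
    (hyz : y ≠ z) {e δ : ℕ} {d : ι → ℕ} (hd : ∀ l, δ ≤ d l) (he : e + max 2 (n - 2) ≤ 2 * δ)
    (hc : (e + n - 1).choose (n - 1) ≤
      ∑ l ∈ (Finset.univ : Finset ι).filter (fun l => d l ≤ e), (e - d l + n - 1).choose (n - 1))
    (h2 : LK z (e + 1) e d) : False := by
  refine noLK_card core3 hyz ?_ (fun l hl L hL => ?_) h2
  · rw [card_Mt (by omega) z (Nat.lt_succ_self e)]
    refine le_trans hc (le_of_eq ?_)
    unfold nC
    refine Finset.sum_congr rfl fun l _ => ?_
    rw [card_Mt (by omega) z (by omega)]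
  · exact combAll hX hn (by omega) hd he (Or.inr ⟨l, hl, rfl⟩) hL

/-- the pairs `(k, e)` covered by the range theorem -/
def Rng (n δ : ℕ) (z : Fin n) : Finset (ℕ × ℕ) :=
  ((Finset.range (2 * δ)) ×ˢ (Finset.range (2 * δ))).filter (fun ke =>
    ke.2 < δ ∨ ke.2 + max 2 (n - 2) ≤ 2 * δ ∨
      2 ^ (n - 1) * (Mk z ke.1 (ke.2 - δ)).card ≤ (Mk z ke.1 ke.2).card ∨
      (ke.1 = 1 ∧ 2 ^ (n - 2) * (Mk z ke.1 (ke.2 - δ)).card ≤ (Mk z ke.1 ke.2).card))

/-- range theorem, any number of forms -/
theorem thmX1 (hX : S_CombX) (n r δ : ℕ) (hn : 3 ≤ n) (z : Fin n) (d : Fin r → ℕ)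
    (hd : ∀ j, δ ≤ d j) :
    ∃ P : Rg (Fin r) n, P ≠ 0 ∧ ∀ c : Fin r × (Fin n →₀ ℕ) → ℂ, eval c P ≠ 0 →
      ∀ ke ∈ Rng n δ z, SurjAt z ke.1 ke.2 (sf d c) ∨ InjAt z ke.1 ke.2 d (sf d c) := by
  obtain ⟨y, hyz⟩ := MkNum_other (by omega) z
  refine prodP (σ := Fin r × (Fin n →₀ ℕ)) (Rng n δ z)
    (fun ke c => SurjAt z ke.1 ke.2 (sf d c) ∨ InjAt z ke.1 ke.2 d (sf d c)) ?_
  rintro ⟨k, e⟩ hke
  rw [Rng, Finset.mem_filter, Finset.mem_product, Finset.mem_range, Finset.mem_range] at hke
  obtain ⟨⟨hk, he⟩, hke⟩ := hke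
  refine open_of openL openR z k e d fun h1 h2 => ?_
  rcases hke with hke | hke | hke | ⟨hk1, hke⟩
  · exact noRK_low hd hke h1
  · exact dichX hX hn hyz hd hke h1 h2
  · exact dichS_range core3 pr_MatL pr_MatR pr_CardCols pr_LASqB pr_ExtR2 pr_ExtC combS
      pr_MkNumB hn hyz hd he hke h1 h2
  · simp only at hk1
    subst hk1
    exact dichW_range core3 pr_MatL pr_MatR pr_CardCols pr_LASqB pr_ExtR2 pr_ExtC combW
      pr_MkNumB hn hyz hd he hke h1 h2

theorem mem_Rng {n δ : ℕ} {z : Fin n} {i k : ℕ} (hik : i + k < 2 * δ)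
    (hc : i + k < δ ∨ i + k + max 2 (n - 2) ≤ 2 * δ ∨
      2 ^ (n - 1) * (Mk z k (i + k - δ)).card ≤ (Mk z k (i + k)).card ∨
      (k = 1 ∧ 2 ^ (n - 2) * (Mk z k (i + k - δ)).card ≤ (Mk z k (i + k)).card)) :
    (k, i + k) ∈ Rng n δ z := by
  rw [Rng, Finset.mem_filter, Finset.mem_product, Finset.mem_range, Finset.mem_range]
  exact ⟨⟨by simp only; omega, hik⟩, hc⟩

/-- range theorem, together with the full strong Lefschetz property when the number of columns
reaches the number of rows in the range -/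
theorem thmX (hX : S_CombX) (n r δ : ℕ) (hn : 3 ≤ n) (z : Fin n) (d : Fin r → ℕ)
    (hd : ∀ j, δ ≤ d j) :
    Generic (n := n) d (fun f => ∃ l : MvPolynomial (Fin n) ℂ, l.IsHomogeneous 1 ∧
      (∀ i k : ℕ, i + k < 2 * δ →
        (i + k < δ ∨ i + k + max 2 (n - 2) ≤ 2 * δ ∨
          2 ^ (n - 1) * (Mk z k (i + k - δ)).card ≤ (Mk z k (i + k)).card ∨
          (k = 1 ∧ 2 ^ (n - 2) * (Mk z k (i + k - δ)).card ≤ (Mk z k (i + k)).card)) →
        MaxRk (Ideal.span (Set.range f)) l i k) ∧
      ((∃ e, e + max 2 (n - 2) ≤ 2 * δ ∧ (e + n - 1).choose (n - 1) ≤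
          ∑ j ∈ (Finset.univ : Finset (Fin r)).filter (fun j => d j ≤ e),
            (e - d j + n - 1).choose (n - 1)) →
        ∀ i k : ℕ, MaxRk (Ideal.span (Set.range f)) l i k)) := by
  obtain ⟨y, hyz⟩ := MkNum_other (by omega) z
  obtain ⟨P1, hP1, hP1'⟩ := thmX1 hX n r δ hn z d hd
  by_cases hE : ∃ e, e + max 2 (n - 2) ≤ 2 * δ ∧ (e + n - 1).choose (n - 1) ≤
      ∑ j ∈ (Finset.univ : Finset (Fin r)).filter (fun j => d j ≤ e),
        (e - d j + n - 1).choose (n - 1)
  · obtain ⟨e, he, hc⟩ := hE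
    obtain ⟨P2, hP2, hP2'⟩ := openL (Fin r) n z (e + 1) e d (topX hX hn hyz hd he hc)
    refine (generic_of pr_Pull (Q := fun f => (∀ ke ∈ Rng n δ z,
      SurjAt z ke.1 ke.2 f ∨ InjAt z ke.1 ke.2 d f) ∧ SurjAt z (e + 1) e f)
      ⟨P1 * P2, mul_ne_zero hP1 hP2, fun c hc => ?_⟩).mono fun f hf h => ?_
    · rw [eval_mul] at hc
      exact ⟨hP1' c (left_ne_zero_of_mul hc), hP2' c (right_ne_zero_of_mul hc)⟩
    · have hsmall : ∀ i k : ℕ, i + k < 2 * δ →
          (i + k < δ ∨ i + k + max 2 (n - 2) ≤ 2 * δ ∨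
            2 ^ (n - 1) * (Mk z k (i + k - δ)).card ≤ (Mk z k (i + k)).card ∨
            (k = 1 ∧ 2 ^ (n - 2) * (Mk z k (i + k - δ)).card ≤ (Mk z k (i + k)).card)) →
          MaxRk (Ideal.span (Set.range f)) (X z) i k :=
        fun i k hik hc => maxRk_of pr_FinSurj pr_FinInj hf (h.1 (k, i + k) (mem_Rng hik hc))
      refine ⟨X z, isHomogeneous_X _ _, hsmall, fun _ i k => ?_⟩
      rcases Nat.lt_or_ge (i + k) e with hik | hik
      · exact hsmall i k (by omega) (Or.inr (Or.inl (by omega)))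
      · exact maxRk_of pr_FinSurj pr_FinInj hf
          (Or.inl (pr_Mono _ n z k _ _ f hik (pr_Full _ n z k _ d f hf h.2)))
  · refine (generic_of pr_Pull (Q := fun f => ∀ ke ∈ Rng n δ z,
      SurjAt z ke.1 ke.2 f ∨ InjAt z ke.1 ke.2 d f) ⟨P1, hP1, hP1'⟩).mono fun f hf h => ?_
    exact ⟨X z, isHomogeneous_X _ _, fun i k hik hc =>
      maxRk_of pr_FinSurj pr_FinInj hf (h (k, i + k) (mem_Rng hik hc)),
      fun hE' => absurd hE' hE⟩

end Pool.Agent.Work.MP_2ad852_ag.GX

end
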