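import Mathlib
import Pool.Agent.Work.MP_2ad852_ag.GS.Stmts
import Pool.Agent.Work.MP_2ad852_ag.GF.Fin
import Pool.Agent.Work.MP_2ad852_ag.Bd.B04
import Pool.Agent.Work.MP_2ad852_ag.Bd.B01

/-! Bundle of small proof modules (one section per former module). -/

section

namespace Pool.Agent.Work.MP_2ad852_ag.GS

open MvPolynomial Finset Pool.Agent.Work.MP_2ad852_ag.GF

theorem fn_eq_zero_of_hom {n : ℕ} {R : Type} [CommRing R] (z : Fin n) (k e : ℕ)
    (F : (Fin n →₀ ℕ) → R) (u : MvPolynomial (Fin n) R) (m : ℕ) (hu : u.IsHomogeneous m)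
    (hm : m ≠ e) : fn z k e F u = 0 := by
  unfold fn
  refine Finset.sum_eq_zero fun p hp => ?_
  have hp' := (mem_Mk.1 hp).1
  by_cases h : coeff p u = 0
  · rw [h, zero_mul]
  · exact absurd (((isHomogeneous_iff_Mt u m).1 hu p h).symm.trans hp') hm

theorem pr_TwSpan (hI : S_TwInv) (hH : S_TwHom) : S_TwSpan := by
  intro ι n z y k e t F w hyz hte hw hb v
  have hb' : ∀ b : Fin n →₀ ℕ, fn z k e F (twi z y (monomial b 1) * w) = 0 := by
    intro b
    by_cases hbt : ∑ i, b i = t
    · exact hb b (mem_Mt.2 hbt)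
    · have h1 : (monomial b (1 : R2 ι n)).IsHomogeneous (∑ i, b i) := by
        rw [isHomogeneous_iff_Mt]
        intro p hp
        rw [coeff_monomial] at hp
        by_cases h : b = p
        · rw [h]
        · rw [if_neg h] at hp
          exact absurd rfl hp
      have h2 : (twi z y (monomial b (1 : R2 ι n))).IsHomogeneous (∑ i, b i) :=
        hH ι n z y (-1) _ _ h1
      refine fn_eq_zero_of_hom z k e F _ _ (h2.mul hw) ?_
      omega
  have h3 : v = twi z y (tw z y v) := ((hI ι n z y v hyz).2).symm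
  rw [h3]
  have h4 : tw z y v = ∑ b ∈ (tw z y v).support, C (coeff b (tw z y v)) * monomial b 1 := by
    conv_lhs => rw [(tw z y v).as_sum]
    refine Finset.sum_congr rfl fun b _ => ?_
    rw [C_mul_monomial, mul_one]
  rw [h4, map_sum, Finset.mul_sum, fn_sum]
  refine Finset.sum_eq_zero fun b _ => ?_
  have h5 : w * twi z y (C (coeff b (tw z y v)) * monomial b 1) =
      C (coeff b (tw z y v)) * (twi z y (monomial b 1) * w) := by
    rw [map_mul]
    have : twi z y (C (coeff b (tw z y v))) = C (coeff b (tw z y v)) := by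
      rw [← algebraMap_eq]
      exact (twi (ι := ι) z y).commutes _
    rw [this]
    ring
  rw [h5, fn_C_mul, hb' b, mul_zero]

end Pool.Agent.Work.MP_2ad852_ag.GS

end

section

namespace Pool.Agent.Work.MP_2ad852_ag.GS

open MvPolynomial Finset Pool.Agent.Work.MP_2ad852_ag.GF

theorem VV_anti (h1 : S_tt1) {s D k : ℕ} {ρ κ : ℝ} {W : ℕ → ℝ} {G : ℤ → ℝ} {α : ℕ → ℕ → ℝ}
    (h : CutData s D k ρ κ W G α) (β i : ℕ) :
    ∀ j, i ≤ j → j ≤ β → tt ρ α j β ≤ tt ρ α i β := by
  intro j hij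
  induction j, hij using Nat.le_induction with
  | base => intro _; exact le_refl _
  | succ j _ ih =>
    intro hj
    exact (h1 s D k ρ κ W G α h j β (by omega)).trans (ih (by omega))

theorem pr_VV (h1 : S_tt1) (h2 : S_tt2) : S_VV := by
  intro s D k ρ κ W G α h i0 β hβ
  have hzero : VV s ρ W α 0 β ≤ 0 := by
    unfold VV tt
    have := h.hP β hβ
    rw [Nat.Ico_zero_eq_range]
    have e : ∑ i ∈ Finset.range (s + 1), W i * (∑ m ∈ Finset.range (β + 1), α m i -
        ρ * ((min i β : ℕ) + 1)) = ∑ i ∈ Finset.range (s + 1), W i *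
        ∑ m ∈ Finset.range (β + 1), α m i - ρ * ∑ i ∈ Finset.range (s + 1),
        W i * ((min i β : ℕ) + 1) := by
      rw [Finset.mul_sum, ← Finset.sum_sub_distrib]
      apply Finset.sum_congr rfl
      intro i _
      ring
    rw [e]
    linarith
  by_cases hcase : β < i0 ∨ tt ρ α i0 β ≤ 0
  · apply Finset.sum_nonpos
    intro i hi
    rw [Finset.mem_Ico] at hi
    apply mul_nonpos_of_nonneg_of_nonpos (h.hW i)
    rcases lt_or_ge β i with hb | hb
    · exact h2 s D k ρ κ W G α h i β hb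
    · rcases hcase with hc | hc
      · omega
      · exact (VV_anti h1 h β i0 i hi.1 hb).trans hc
  · push Not at hcase
    obtain ⟨hc1, hc2⟩ := hcase
    refine le_trans ?_ hzero
    unfold VV
    apply Finset.sum_le_sum_of_subset_of_nonneg
    · intro i hi
      rw [Finset.mem_Ico] at hi ⊢
      omega
    · intro i hi hi'
      rw [Finset.mem_Ico] at hi hi'
      apply mul_nonneg (h.hW i)
      have hlt : i ≤ i0 := by omega
      exact hc2.le.trans (VV_anti h1 h β i i0 hlt hc1)

end Pool.Agent.Work.MP_2ad852_ag.GS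

end

section

/-!
# Item Van2: a functional which kills the products of the annihilator and the bad monomials is zero
-/

namespace Pool.Agent.Work.MP_2ad852_ag.GS

open MvPolynomial Finset Pool.Agent.Work.MP_2ad852_ag.GF

theorem Van2_coeff_zero {n : ℕ} {R : Type} [CommRing R] (hK : S_K2) (z y : Fin n)
    (u v : MvPolynomial (Fin n) R) (q1 q2 r : Fin n →₀ ℕ)
    (hl : ∀ p, coeff p u ≠ 0 → key2 z y p ≤ key2 z y q1)
    (hl2 : ∀ p, coeff p v ≠ 0 → key2 z y p ≤ key2 z y q2) (p' : Fin n →₀ ℕ)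
    (h : coeff p' (u * (v * monomial r 1)) ≠ 0) : key2 z y p' ≤ key2 z y (q1 + q2 + r) := by
  have key_add := fun p q => hK.1 n z y p q
  rw [← mul_assoc, coeff_mul_monomial'] at h
  split_ifs at h with hr
  · rw [mul_one, coeff_mul] at h
    obtain ⟨x, hx, hne⟩ := Finset.exists_ne_zero_of_sum_ne_zero h
    rw [Finset.HasAntidiagonal.mem_antidiagonal] at hx
    have h1 : coeff x.1 u ≠ 0 := left_ne_zero_of_mul hne
    have h2 : coeff x.2 v ≠ 0 := right_ne_zero_of_mul hne
    have h3 : p' = x.1 + x.2 + r := by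
      rw [hx]
      exact (tsub_add_cancel_of_le hr).symm
    rw [h3, key_add, key_add, key_add, key_add]
    exact add_le_add (add_le_add (hl _ h1) (hl2 _ h2)) le_rfl
  · exact absurd rfl h

theorem Van2_coeff_top {n : ℕ} {R : Type} [CommRing R] (hK : S_K2) (z y : Fin n) (hyz : y ≠ z)
    (u v : MvPolynomial (Fin n) R) (q1 q2 r : Fin n →₀ ℕ) (hu : u.IsHomogeneous (∑ i, q1 i))
    (hl : ∀ p, coeff p u ≠ 0 → key2 z y p ≤ key2 z y q1)
    (hl2 : ∀ p, coeff p v ≠ 0 → key2 z y p ≤ key2 z y q2) :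
    coeff (q1 + q2 + r) (u * (v * monomial r 1)) = coeff q1 u * coeff q2 v := by
  have key_add := fun p q => hK.1 n z y p q
  rw [← mul_assoc, coeff_mul_monomial, mul_one, coeff_mul]
  rw [Finset.sum_eq_single (q1, q2)]
  · intro x hx hne
    rw [Finset.HasAntidiagonal.mem_antidiagonal] at hx
    by_contra hcon
    have h1 : coeff x.1 u ≠ 0 := left_ne_zero_of_mul hcon
    have h2 : coeff x.2 v ≠ 0 := right_ne_zero_of_mul hcon
    have k1 := hl _ h1
    have k2 := hl2 _ h2
    have hk : key2 z y x.1 + key2 z y x.2 = key2 z y q1 + key2 z y q2 := by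
      rw [← key_add, ← key_add, hx]
    have e1 : key2 z y x.1 = key2 z y q1 := by
      rcases lt_or_eq_of_le k1 with hlt | heq
      · exact absurd hk (ne_of_lt (add_lt_add_of_lt_of_le hlt k2))
      · exact heq
    have hom := (isHomogeneous_iff_Mt u _).1 hu
    have e2 : x.1 = q1 := hK.2.1 n z y _ _ hyz (hom _ h1) e1
    have e3 : x.2 = q2 := by
      rw [e2] at hx
      exact add_left_cancel hx
    exact hne (Prod.ext e2 e3)
  · intro h
    exfalso
    apply h
    rw [Finset.HasAntidiagonal.mem_antidiagonal]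

theorem Van2_div {n : ℕ} {R : Type} [CommRing R] (z : Fin n) (m : ℕ)
    (u : MvPolynomial (Fin n) R) (h : ∀ p, coeff p u ≠ 0 → m ≤ p z) :
    ∃ v : MvPolynomial (Fin n) R, u = X z ^ m * v := by
  refine ⟨u.divMonomial (Finsupp.single z m), ?_⟩
  have h1 := divMonomial_add_modMonomial u (Finsupp.single z m)
  have h2 : u.modMonomial (Finsupp.single z m) = 0 := by
    ext p
    rw [coeff_zero]
    by_cases hp : Finsupp.single z m ≤ p
    · exact coeff_modMonomial_of_le _ hp
    · rw [coeff_modMonomial_of_not_le _ hp]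
      by_contra hcon
      apply hp
      rw [Finsupp.single_le_iff]
      exact h p hcon
  rw [h2, add_zero] at h1
  rw [X_pow_eq_monomial]
  exact h1.symm

open Classical in
theorem pr_Van2 (hK : S_K2) : S_Van2 := by
  intro n R _ _ z y k e F G hyz hG hBad
  have hkz : ∀ (m : ℕ) (p : Fin n →₀ ℕ), key2 z y (p + Finsupp.single z m) = key2 z y p := by
    intro m p
    unfold key2
    rw [Finsupp.erase_add, Finsupp.erase_single, add_zero]
  have main : ∀ s : ℕ ×ₗ (MonomialOrder.degLex (σ := Fin n)).syn, ∀ p ∈ Mk z k e,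
      key2 z y p = s → G p = 0 := by
    intro s
    induction s using WellFoundedLT.induction with
    | ind s ih =>
      intro p hp hs
      by_cases hb : p ∈ Bad2 z k e (IsLead2 z y k e F)
      · exact hBad p hb
      · unfold Bad2 at hb
        rw [Finset.mem_filter] at hb
        unfold NoPair at hb
        push Not at hb
        obtain ⟨q1, q2, hq1, hq2, hz1, hz2, hqp⟩ := hb hp
        obtain ⟨u1, hu1, hann1, hq01, hl1⟩ := hq1
        obtain ⟨u2, hu2, hann2, hq02, hl2⟩ := hq2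
        have hd1 : ∀ p', coeff p' u1 ≠ 0 → p z ≤ p' z := by
          intro p' hp'
          have := (hK.2.2 n z y p' q1 hyz ((isHomogeneous_iff_Mt u1 _).1 hu1 p' hp')
            (hl1 p' hp')).1
          rwa [hz1] at this
        have hd2 : ∀ p', coeff p' u2 ≠ 0 → p z ≤ p' z := by
          intro p' hp'
          have := (hK.2.2 n z y p' q2 hyz ((isHomogeneous_iff_Mt u2 _).1 hu2 p' hp')
            (hl2 p' hp')).1
          rwa [hz2] at this
        obtain ⟨v1, hv1⟩ := Van2_div z (p z) u1 hd1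
        obtain ⟨v2, hv2⟩ := Van2_div z (p z) u2 hd2
        set r : Fin n →₀ ℕ := p + Finsupp.single z (p z) - (q1 + q2) with hrdef
        have hr : q1 + q2 + r = p + Finsupp.single z (p z) := add_tsub_cancel_of_le hqp
        have hw := hG (p z) v1 (v2 * monomial r 1) (by rw [← hv1]; exact hann1)
          (by rw [← mul_assoc, ← hv2]; exact hann2.mul z k e _)
        have hcoeff : ∀ p' : Fin n →₀ ℕ, coeff p' (X z ^ (p z) * (v1 * (v2 * monomial r 1))) =
            coeff (p' + Finsupp.single z (p z)) (u1 * (u2 * monomial r 1)) := by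
          intro p'
          have e1 : u1 * (u2 * monomial r 1) =
              (X z ^ (p z) * (v1 * (v2 * monomial r 1))) * monomial (Finsupp.single z (p z)) 1 := by
            rw [← X_pow_eq_monomial]
            conv_lhs => rw [hv1, hv2]
            ring
          rw [e1, coeff_mul_monomial, mul_one]
        unfold fn at hw
        rw [Finset.sum_eq_single_of_mem p hp] at hw
        · have ht := Van2_coeff_top hK z y hyz u1 u2 q1 q2 r hu1 hl1 hl2
          rw [hr, ← hcoeff] at ht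
          rw [ht] at hw
          rcases mul_eq_zero.1 hw with h | h
          · exact absurd h (mul_ne_zero hq01 hq02)
          · exact h
        · intro p' hp' hne
          by_cases hc : coeff p' (X z ^ (p z) * (v1 * (v2 * monomial r 1))) = 0
          · rw [hc, zero_mul]
          · have hle := Van2_coeff_zero hK z y u1 u2 q1 q2 r hl1 hl2 (p' + Finsupp.single z (p z))
              (by rw [← hcoeff]; exact hc)
            rw [hr, hkz, hkz] at hle
            have hlt : key2 z y p' < s := by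
              rw [← hs]
              refine lt_of_le_of_ne hle fun heq => hne (hK.2.1 n z y _ _ hyz ?_ heq)
              rw [(mem_Mk.1 hp').1, (mem_Mk.1 hp).1]
            rw [ih _ hlt p' hp' rfl, mul_zero]
  exact fun p hp => main _ p hp rfl

end Pool.Agent.Work.MP_2ad852_ag.GS

end

section

namespace Pool.Agent.Work.MP_2ad852_ag.GS

open MvPolynomial Finset Pool.Agent.Work.MP_2ad852_ag.GF

theorem tt1_tel (G : ℤ → ℝ) (A : ℤ) (β : ℕ) :
    ∑ m ∈ Finset.range (β + 1), (G (A + 2 - m) - G (A - m)) =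
      G (A + 2) + G (A + 1) - G (A - β + 1) - G (A - β) := by
  induction β with
  | zero => simp
  | succ b ih =>
    rw [Finset.sum_range_succ, ih]
    have e1 : A + 2 - ((b + 1 : ℕ) : ℤ) = A - b + 1 := by push_cast; ring
    have e2 : A - ((b + 1 : ℕ) : ℤ) + 1 = A - b := by push_cast; ring
    rw [e1, e2]
    ring

theorem tt1_nonneg {s D k : ℕ} {ρ κ : ℝ} {W : ℕ → ℝ} {G : ℤ → ℝ} {α : ℕ → ℕ → ℝ}
    (h : CutData s D k ρ κ W G α) (x : ℤ) : 0 ≤ G x := by
  rcases lt_or_ge x 0 with hx | hx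
  · rw [h.G_neg x hx]
  · rw [← h.G_neg (-1) (by norm_num)]
    exact h.G_mono _ _ (by omega)

theorem pr_tt1 : S_tt1 := by
  intro s D k ρ κ W G α h i β hi
  have hα : ∀ m : ℕ, G ((D : ℤ) + 2 * i - m) ≤ α m i := by
    intro m
    rcases Nat.eq_zero_or_pos i with h0 | h0
    · subst h0
      have := h.hα0 m
      simpa using this
    · exact (h.hα m i h0).ge
  have hα' : ∀ m : ℕ, α m (i + 1) = G ((D : ℤ) + 2 * i + 2 - m) := by
    intro m
    have e : (D : ℤ) + 2 * ((i + 1 : ℕ) : ℤ) - m = (D : ℤ) + 2 * i + 2 - m := by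
      push_cast
      ring
    rw [h.hα m (i + 1) (by omega), e]
  have hsum : ∑ m ∈ Finset.range (β + 1), α m (i + 1) - ∑ m ∈ Finset.range (β + 1), α m i ≤
      2 * κ := by
    rw [← Finset.sum_sub_distrib]
    calc ∑ m ∈ Finset.range (β + 1), (α m (i + 1) - α m i)
        ≤ ∑ m ∈ Finset.range (β + 1),
          (G ((D : ℤ) + 2 * i + 2 - m) - G ((D : ℤ) + 2 * i - m)) := by
          apply Finset.sum_le_sum
          intro m _
          rw [hα' m]
          linarith [hα m]
      _ = _ := tt1_tel G ((D : ℤ) + 2 * i) β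
      _ ≤ 2 * κ := by
          have h1 := h.G_le ((D : ℤ) + 2 * i + 2)
          have h2 := h.G_le ((D : ℤ) + 2 * i + 1)
          have h3 := tt1_nonneg h ((D : ℤ) + 2 * i - β + 1)
          have h4 := tt1_nonneg h ((D : ℤ) + 2 * i - β)
          linarith
  unfold tt
  have m1 : min (i + 1) β = i + 1 := by omega
  have m2 : min i β = i := by omega
  rw [m1, m2]
  push_cast
  have := h.hρ
  nlinarith

end Pool.Agent.Work.MP_2ad852_ag.GS

end

section

namespace Pool.Agent.Work.MP_2ad852_ag.GS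

theorem pr_tt2 : S_tt2 := by
  intro s D k ρ κ W G α h i β hi
  have hκ : 0 ≤ κ := by
    have h1 := h.G_neg (-1) (by norm_num)
    have h2 := h.G_le (-1)
    rw [h1] at h2
    exact h2
  have h2κ := h.hρ
  have h1 : ∑ m ∈ Finset.range (β + 1), α m i ≤ ((β : ℝ) + 1) * κ := by
    have := Finset.sum_le_card_nsmul (Finset.range (β + 1)) (fun m => α m i) κ (by
      intro m _
      rw [h.hα m i (by omega)]
      exact h.G_le _)
    simpa using this
  unfold tt
  rw [min_eq_right hi.le]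
  have hβ : (0 : ℝ) ≤ (β : ℝ) + 1 := by positivity
  nlinarith [mul_nonneg hβ hκ, mul_le_mul_of_nonneg_right h2κ hβ]

end Pool.Agent.Work.MP_2ad852_ag.GS

end

section

namespace Pool.Agent.Work.MP_2ad852_ag.GS

open Finset

theorem pr_tt3 : S_tt3 := by
  intro s D k ρ κ W G α h i b β hbβ
  have hG0 : ∀ x, 0 ≤ G x := by
    intro x
    rcases lt_or_ge x 0 with hx | hx
    · rw [h.G_neg x hx]
    · have h1 := h.G_mono (-1) x (by omega)
      rw [h.G_neg (-1) (by norm_num)] at h1
      exact h1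
  have hκ : 0 ≤ κ := (hG0 0).trans (h.G_le 0)
  have hρ := h.hρ
  have hα : ∀ m j, 0 ≤ α m j := by
    intro m j
    rcases Nat.eq_zero_or_pos j with rfl | hj
    · exact (hG0 _).trans (h.hα0 m)
    · rw [h.hα m j hj]
      exact hG0 _
  refine ⟨?_, ?_, ?_⟩
  · intro hib
    unfold tt
    have h1 : min i b = i := by omega
    have h2 : min i β = i := by omega
    rw [h1, h2]
    have h3 : ∑ m ∈ Finset.range (b + 1), α m i ≤ ∑ m ∈ Finset.range (β + 1), α m i := by
      refine Finset.sum_le_sum_of_subset_of_nonneg ?_ fun m _ _ => hα m i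
      intro m hm
      rw [Finset.mem_range] at hm ⊢
      omega
    linarith
  · intro hbi hiβ
    have htel : ∀ c, ∑ m ∈ Finset.range c, α m (i + 1) - ∑ m ∈ Finset.range c, α m i =
        (G ((D : ℤ) + 2 * i + 2 - (0 : ℕ)) + G ((D : ℤ) + 2 * i + 1 - (0 : ℕ))) -
        (G ((D : ℤ) + 2 * i + 2 - c) + G ((D : ℤ) + 2 * i + 1 - c)) := by
      intro c
      have h1 := Finset.sum_range_sub' (fun m : ℕ =>
        G ((D : ℤ) + 2 * i + 2 - m) + G ((D : ℤ) + 2 * i + 1 - m)) c
      rw [← h1, ← Finset.sum_sub_distrib]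
      refine Finset.sum_congr rfl fun m _ => ?_
      rw [h.hα m (i + 1) (by omega), h.hα m i (by omega)]
      have e1 : (D : ℤ) + 2 * ((i + 1 : ℕ) : ℤ) - m = (D : ℤ) + 2 * i + 2 - m := by
        push_cast; ring
      have e2 : (D : ℤ) + 2 * i + 2 - ((m + 1 : ℕ) : ℤ) = (D : ℤ) + 2 * i + 1 - m := by
        push_cast; ring
      have e3 : (D : ℤ) + 2 * i + 1 - ((m + 1 : ℕ) : ℤ) = (D : ℤ) + 2 * i - m := by
        push_cast; ring
      rw [e1, e2, e3]
      ring
    unfold tt
    have m1 : min (i + 1) β = i + 1 := by omega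
    have m2 : min (i + 1) b = b := by omega
    have m3 : min i β = i := by omega
    have m4 : min i b = b := by omega
    rw [m1, m2, m3, m4]
    have t1 := htel (β + 1)
    have t2 := htel (b + 1)
    have g1 := hG0 ((D : ℤ) + 2 * i + 2 - ((β + 1 : ℕ) : ℤ))
    have g2 := hG0 ((D : ℤ) + 2 * i + 1 - ((β + 1 : ℕ) : ℤ))
    have g3 := h.G_le ((D : ℤ) + 2 * i + 2 - ((b + 1 : ℕ) : ℤ))
    have g4 := h.G_le ((D : ℤ) + 2 * i + 1 - ((b + 1 : ℕ) : ℤ))
    push_cast at *
    nlinarith
  · intro hβi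
    unfold tt
    have m3 : min i β = β := by omega
    have m4 : min i b = b := by omega
    rw [m3, m4]
    have h1 : ∑ m ∈ Finset.Ico (b + 1) (β + 1), α m i =
        ∑ m ∈ Finset.range (β + 1), α m i - ∑ m ∈ Finset.range (b + 1), α m i :=
      Finset.sum_Ico_eq_sub _ (by omega)
    have h2 : ∑ m ∈ Finset.Ico (b + 1) (β + 1), α m i ≤
        (Finset.Ico (b + 1) (β + 1)).card • κ := by
      refine Finset.sum_le_card_nsmul _ _ _ fun m _ => ?_
      rw [h.hα m i (by omega)]
      exact h.G_le _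
    rw [Nat.card_Ico, nsmul_eq_mul] at h2
    have h3 : ((β + 1 - (b + 1) : ℕ) : ℝ) = (β : ℝ) - b := by
      rw [Nat.cast_sub (by omega)]
      push_cast
      ring
    rw [h3] at h2
    have h4 : (b : ℝ) < β := by exact_mod_cast hbβ
    nlinarith

end Pool.Agent.Work.MP_2ad852_ag.GS

end

section

/-!
# The excess of a level with a hole
-/

namespace Pool.Agent.Work.MP_2ad852_ag.GS

open Finset

theorem ww1_G_nonneg {s D k : ℕ} {ρ κ : ℝ} {W : ℕ → ℝ} {G : ℤ → ℝ} {α : ℕ → ℕ → ℝ}
    (h : CutData s D k ρ κ W G α) (x : ℤ) : 0 ≤ G x := by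
  have h1 := h.G_neg (min x (-1)) (lt_of_le_of_lt (min_le_right _ _) (by norm_num))
  rw [← h1]
  exact h.G_mono _ _ (min_le_left _ _)

theorem ww1_α_nonneg {s D k : ℕ} {ρ κ : ℝ} {W : ℕ → ℝ} {G : ℤ → ℝ} {α : ℕ → ℕ → ℝ}
    (h : CutData s D k ρ κ W G α) (m i : ℕ) : 0 ≤ α m i := by
  rcases Nat.eq_zero_or_pos i with hi | hi
  · rw [hi]
    exact (ww1_G_nonneg h _).trans (h.hα0 m)
  · rw [h.hα m i hi]
    exact ww1_G_nonneg h _

theorem ww1_κ_nonneg {s D k : ℕ} {ρ κ : ℝ} {W : ℕ → ℝ} {G : ℤ → ℝ} {α : ℕ → ℕ → ℝ}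
    (h : CutData s D k ρ κ W G α) : 0 ≤ κ := (ww1_G_nonneg h 0).trans (h.G_le 0)

theorem pr_ww1 : S_ww1 := by
  intro s D k ρ κ W G α h g i b his hbi hb hex
  classical
  have hκ := ww1_κ_nonneg h
  have hρ2 := h.hρ
  have hρ0 : 0 ≤ ρ := by linarith
  have hk := h.hk
  unfold ww
  rcases Nat.eq_zero_or_pos i with hi | hi
  · subst hi
    have hb0 : b = 0 := by omega
    subst hb0
    obtain ⟨m', hm', hH⟩ := hex
    have hm0 : m' = 0 := by omega
    subst hm0
    have h1 : ∑ m ∈ (Finset.range k).filter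
        (fun m => ∀ m', Win s D k m m' → ¬ Hole s k g 0 m'), α m 0 = 0 := by
      refine Finset.sum_eq_zero fun m hm => ?_
      rw [Finset.mem_filter] at hm
      apply h.hα1
      by_contra hcon
      refine hm.2 0 ⟨?_, Nat.zero_le _, by omega, Nat.zero_le _⟩ hH
      omega
    rw [h1]
    simp only [Finset.range_zero, Finset.sum_empty, Nat.cast_zero, mul_zero, sub_zero]
    have : 0 ≤ ρ * (((Finset.range (min 0 (min (k - 1) s) + 1)).filter
        (fun m' => ¬ Hole s k g 0 m')).card : ℝ) := mul_nonneg hρ0 (Nat.cast_nonneg _)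
    linarith
  · -- the largest hole
    have hne : ((Finset.range (i + 1)).filter (fun m' => Hole s k g i m')).Nonempty := by
      obtain ⟨m', hm', hH⟩ := hex
      exact ⟨m', Finset.mem_filter.2 ⟨Finset.mem_range.2 (by omega), hH⟩⟩
    obtain ⟨hh, hhm, hhmax⟩ := Finset.exists_max_image _ (fun x => x) hne
    rw [Finset.mem_filter, Finset.mem_range] at hhm
    obtain ⟨hhi, hH⟩ := hhm
    have hhk : hh < k := hH.1
    have hhs : hh ≤ s := hH.2.1
    have hbh : b ≤ hh := by
      by_contra hcon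
      exact hb hh (by omega) hH
    have hnh : ∀ m', hh < m' → m' ≤ i → ¬ Hole s k g i m' := by
      intro m' h1 h2 h3
      have := hhmax m' (Finset.mem_filter.2 ⟨Finset.mem_range.2 (by omega), h3⟩)
      omega
    set A := (Finset.Ico b hh).filter (fun m' => ¬ Hole s k g i m') with hA
    set C := Finset.Ico (D + 2 * hh + 1) (min (D + 2 * i) (k - 1) + 1) with hC
    have hsum : ∑ m ∈ (Finset.range k).filter
        (fun m => ∀ m', Win s D k m m' → ¬ Hole s k g i m'), α m i ≤
        ∑ m ∈ Finset.range b, α m i + κ * A.card + κ * C.card := by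
      rw [Finset.sum_filter]
      have h1 : ∀ m ∈ Finset.range k,
          (if ∀ m', Win s D k m m' → ¬ Hole s k g i m' then α m i else 0) ≤
          (if m ∈ Finset.range b then α m i else 0) + (if m ∈ A then κ else 0) +
            (if m ∈ C then κ else 0) := by
        intro m hm
        rw [Finset.mem_range] at hm
        have n1 : 0 ≤ (if m ∈ Finset.range b then α m i else 0) := by
          split_ifs
          · exact ww1_α_nonneg h m i
          · exact le_rfl
        have n2 : 0 ≤ (if m ∈ A then κ else 0) := by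
          split_ifs
          · exact hκ
          · exact le_rfl
        have n3 : 0 ≤ (if m ∈ C then κ else 0) := by
          split_ifs
          · exact hκ
          · exact le_rfl
        have hακ : α m i ≤ κ := by
          rw [h.hα m i hi]
          exact h.G_le _
        by_cases hP : ∀ m', Win s D k m m' → ¬ Hole s k g i m'
        · rw [if_pos hP]
          by_cases hm1 : m < b
          · rw [if_pos (Finset.mem_range.2 hm1)]
            linarith
          · by_cases hm2 : m < hh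
            · have hmA : m ∈ A := by
                rw [hA, Finset.mem_filter, Finset.mem_Ico]
                refine ⟨⟨by omega, hm2⟩, hP m ⟨by omega, le_rfl, hm, by omega⟩⟩
              rw [if_pos hmA]
              linarith
            · have hlt : hh < (m - D + 1) / 2 := by
                by_contra hcon
                exact hP hh ⟨by omega, by omega, hhk, hhs⟩ hH
              by_cases hm3 : m ≤ D + 2 * i
              · have hmC : m ∈ C := by
                  rw [hC, Finset.mem_Ico]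
                  omega
                rw [if_pos hmC]
                linarith
              · have : α m i = 0 := by
                  rw [h.hα m i hi]
                  apply h.G_neg
                  omega
                have e0 : α m i ≤ 0 := this.le
                linarith
        · rw [if_neg hP]
          linarith
      refine (Finset.sum_le_sum h1).trans ?_
      rw [Finset.sum_add_distrib, Finset.sum_add_distrib, Finset.sum_ite_mem, Finset.sum_ite_mem,
        Finset.sum_ite_mem]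
      have e1 : Finset.range k ∩ Finset.range b = Finset.range b := by
        apply Finset.inter_eq_right.2
        intro x hx
        rw [Finset.mem_range] at hx ⊢
        omega
      have e2 : Finset.range k ∩ A = A := by
        apply Finset.inter_eq_right.2
        intro x hx
        rw [hA, Finset.mem_filter, Finset.mem_Ico] at hx
        rw [Finset.mem_range]
        omega
      have e3 : Finset.range k ∩ C = C := by
        apply Finset.inter_eq_right.2
        intro x hx
        rw [hC, Finset.mem_Ico] at hx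
        rw [Finset.mem_range]
        omega
      rw [e1, e2, e3, Finset.sum_const, Finset.sum_const, nsmul_eq_mul, nsmul_eq_mul]
      apply le_of_eq
      ring
    have hcard : b + A.card + (min i (k - 1) - hh) ≤
        ((Finset.range (min i (min (k - 1) s) + 1)).filter (fun m' => ¬ Hole s k g i m')).card := by
      have hsub : (Finset.range b ∪ A) ∪ Finset.Ioc hh (min i (k - 1)) ⊆
          (Finset.range (min i (min (k - 1) s) + 1)).filter (fun m' => ¬ Hole s k g i m') := by
        intro x hx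
        rw [Finset.mem_union, Finset.mem_union, hA, Finset.mem_filter, Finset.mem_Ico,
          Finset.mem_Ioc, Finset.mem_range] at hx
        rw [Finset.mem_filter, Finset.mem_range]
        rcases hx with (hx | hx) | hx
        · exact ⟨by omega, hb x hx⟩
        · exact ⟨by omega, hx.2⟩
        · exact ⟨by omega, hnh x hx.1 (by omega)⟩
      have h1 := Finset.card_le_card hsub
      rw [Finset.card_union_of_disjoint, Finset.card_union_of_disjoint, Finset.card_range,
        Nat.card_Ioc] at h1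
      · exact h1
      · rw [Finset.disjoint_left]
        intro x hx hx2
        rw [hA, Finset.mem_filter, Finset.mem_Ico] at hx2
        rw [Finset.mem_range] at hx
        omega
      · rw [Finset.disjoint_left]
        intro x hx hx2
        rw [Finset.mem_union, hA, Finset.mem_filter, Finset.mem_Ico, Finset.mem_range] at hx
        rw [Finset.mem_Ioc] at hx2
        omega
    have hCc : C.card ≤ 2 * (min i (k - 1) - hh) := by
      rw [hC, Nat.card_Ico]
      omega
    have r1 : (b : ℝ) + A.card + ((min i (k - 1) - hh : ℕ) : ℝ) ≤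
        (((Finset.range (min i (min (k - 1) s) + 1)).filter
          (fun m' => ¬ Hole s k g i m')).card : ℝ) := by exact_mod_cast hcard
    have r2 : (C.card : ℝ) ≤ 2 * ((min i (k - 1) - hh : ℕ) : ℝ) := by exact_mod_cast hCc
    have r3 := mul_le_mul_of_nonneg_left r1 hρ0
    have r4 := mul_le_mul_of_nonneg_left r2 hκ
    have r5 : κ * (A.card : ℝ) ≤ ρ * A.card :=
      mul_le_mul_of_nonneg_right (by linarith) (Nat.cast_nonneg _)
    have r6 : κ * (2 * ((min i (k - 1) - hh : ℕ) : ℝ)) ≤ ρ * ((min i (k - 1) - hh : ℕ) : ℝ) := by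
      have := mul_le_mul_of_nonneg_right hρ2 (Nat.cast_nonneg (α := ℝ) (min i (k - 1) - hh))
      linarith
    have r7 : ρ * ((b : ℝ) + A.card + ((min i (k - 1) - hh : ℕ) : ℝ)) =
        ρ * b + ρ * A.card + ρ * ((min i (k - 1) - hh : ℕ) : ℝ) := by ring
    linarith

end Pool.Agent.Work.MP_2ad852_ag.GS

end

section

/-!
# Item ww2
-/

namespace Pool.Agent.Work.MP_2ad852_ag.GS

theorem ww2_G_nonneg {s D k : ℕ} {ρ κ : ℝ} {W : ℕ → ℝ} {G : ℤ → ℝ} {α : ℕ → ℕ → ℝ}
    (hC : CutData s D k ρ κ W G α) (x : ℤ) : 0 ≤ G x := by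
  by_cases hx : x < 0
  · rw [hC.G_neg x hx]
  · have h1 := hC.G_mono (-1) x (by omega)
    rw [hC.G_neg (-1) (by omega)] at h1
    exact h1

theorem ww2_alpha_nonneg {s D k : ℕ} {ρ κ : ℝ} {W : ℕ → ℝ} {G : ℤ → ℝ} {α : ℕ → ℕ → ℝ}
    (hC : CutData s D k ρ κ W G α) (m i : ℕ) : 0 ≤ α m i := by
  by_cases hi : 1 ≤ i
  · rw [hC.hα m i hi]
    exact ww2_G_nonneg hC _
  · have h0 : i = 0 := by omega
    subst h0
    exact le_trans (ww2_G_nonneg hC _) (hC.hα0 m)

theorem pr_ww2 : S_ww2 := by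
  classical
  intro s D k ρ κ W G α hC g i b hi hib hb hno
  obtain ⟨hb1, hb2, hb3, hb4⟩ := hb
  have hb : Hole s k g i b := ⟨hb1, hb2, hb3, hb4⟩
  have hcol : ((Finset.range (min i (min (k - 1) s) + 1)).filter
      (fun m' => ¬ Hole s k g i m')).card = i + 1 := by
    have hmin : min i (min (k - 1) s) = i := by omega
    rw [hmin, Finset.filter_true_of_mem, Finset.card_range]
    intro m' hm'
    rw [Finset.mem_range] at hm'
    exact hno m' (by omega)
  have hrow : ∑ m ∈ (Finset.range k).filter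
      (fun m => ∀ m', Win s D k m m' → ¬ Hole s k g i m'), α m i ≤
      ∑ m ∈ Finset.range b, α m i := by
    have hsub : ∑ m ∈ (Finset.range k).filter
        (fun m => ∀ m', Win s D k m m' → ¬ Hole s k g i m'), α m i =
        ∑ m ∈ ((Finset.range k).filter
        (fun m => ∀ m', Win s D k m m' → ¬ Hole s k g i m')).filter (fun m => m < b), α m i := by
      symm
      apply Finset.sum_subset (Finset.filter_subset _ _)
      intro m hm hm'
      rw [Finset.mem_filter, Finset.mem_range] at hm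
      have hmb : b ≤ m := by
        by_contra hcon
        apply hm'
        rw [Finset.mem_filter, Finset.mem_filter, Finset.mem_range]
        exact ⟨hm, by omega⟩
      have hW : ¬ Win s D k m b := fun h => hm.2 b h hb
      have hmD : D + 2 * b + 1 ≤ m := by
        by_contra hcon
        apply hW
        exact ⟨by omega, hmb, hb1, hb2⟩
      by_cases h1 : 1 ≤ i
      · rw [hC.hα m i h1]
        apply hC.G_neg
        omega
      · have h0 : i = 0 := by omega
        subst h0
        exact hC.hα1 m (by omega)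
    rw [hsub]
    apply Finset.sum_le_sum_of_subset_of_nonneg
    · intro m hm
      rw [Finset.mem_filter] at hm
      exact Finset.mem_range.mpr hm.2
    · intro m _ _
      exact ww2_alpha_nonneg hC m i
  unfold ww tt
  have hb' : b - 1 + 1 = b := by omega
  have hmin' : min i (b - 1) = i := by omega
  rw [hb', hmin']
  have hcol' := congrArg (fun x : ℕ => (x : ℝ)) hcol
  push_cast at hcol'
  have e1 : ((((Finset.range (min i (min (k - 1) s) + 1)).filter
      (fun m' => ¬ Hole s k g i m')).card : ℕ) : ℝ) = (i : ℝ) + 1 := by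
    rw [hcol]; push_cast; rfl
  have e2 : ρ * ((((Finset.range (min i (min (k - 1) s) + 1)).filter
      (fun m' => ¬ Hole s k g i m')).card : ℕ) : ℝ) = ρ * ((i : ℝ) + 1) := by
    rw [e1]
  have : (∑ m ∈ (Finset.range k).filter
      (fun m => ∀ m', Win s D k m m' → ¬ Hole s k g i m'), α m i) - ρ * ((((Finset.range (min i (min (k - 1) s) + 1)).filter
      (fun m' => ¬ Hole s k g i m')).card : ℕ) : ℝ) ≤ ∑ m ∈ Finset.range b, α m i - ρ * ((i : ℝ) + 1) := by
    rw [e2]
    linarith
  convert this using 2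

end Pool.Agent.Work.MP_2ad852_ag.GS

end

section

/-!
# Item ww3 of the block GS
-/

namespace Pool.Agent.Work.MP_2ad852_ag.GS

open MvPolynomial Finset Pool.Agent.Work.MP_2ad852_ag.GF

theorem pr_ww3 : S_ww3 := by
  classical
  intro s D k ρ κ W G α hC g i hi hno
  apply le_of_eq
  unfold ww tt
  have hk := hC.hk
  have h1 : (Finset.range k).filter (fun m => ∀ m', Win s D k m m' → ¬ Hole s k g i m') =
      Finset.range (k - 1 + 1) := by
    rw [Finset.filter_true_of_mem (fun m _ m' _ => hno m')]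
    congr 1
    omega
  have h2 : (Finset.range (min i (min (k - 1) s) + 1)).filter (fun m' => ¬ Hole s k g i m') =
      Finset.range (min i (k - 1) + 1) := by
    rw [Finset.filter_true_of_mem (fun m' _ => hno m')]
    congr 1
    omega
  have h3 : (Finset.filter (fun m => ∀ m', Win s D k m m' → ¬ Hole s k g i m') (Finset.range k)) =
      Finset.range (k - 1 + 1) := h1
  rw [h3]
  congr 1
  congr 1
  have h4 : (((Finset.range (min i (min (k - 1) s) + 1)).filter
      (fun m' => ¬ Hole s k g i m')).card : ℝ) = ((min i (k - 1) + 1 : ℕ) : ℝ) := by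
    rw [h2, Finset.card_range]
  push_cast at h4 ⊢
  convert h4 using 2

end Pool.Agent.Work.MP_2ad852_ag.GS

end

section

/-!
# Final assemblies of theorems A and B
-/

namespace Pool.Agent.Work.MP_2ad852_ag.GF

open MvPolynomial Finset

theorem finA (hCore : S_Core) (hZ : S_LeadZero) (hAdd : S_LeadAdd) (hT : S_Terra)
    (hLS : S_LeadSyz) (hML : S_MatL) (hMR : S_MatR) (hCC : S_CardCols) (hSq : S_LASq)
    (hLR : S_LALR)
    (hExtR : S_ExtR) (hExtC : S_ExtC) (hGA : S_GA) (hGB : S_GB) (hGC : S_GC)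
    (hOL : S_OpenL) (hOR : S_OpenR) (hComb : S_CombG) (hNum : S_Num) (hPull : S_Pull)
    (hMono : S_Mono) (hFull : S_Full) (hFS : S_FinSurj) (hFI : S_FinInj) (n : ℕ) :
    ∃ N ρ : ℕ, 2 ≤ ρ ∧ ∀ (r δ : ℕ) (d : Fin r → ℕ), 1 ≤ δ → (∀ j, δ ≤ d j) →
      Generic (n := n) d (fun f => ∃ l : MvPolynomial (Fin n) ℂ, l.IsHomogeneous 1 ∧
        ∀ i k : ℕ, i + k ≤ δ + δ / (ρ - 1) → MaxRk (Ideal.span (Set.range f)) l i k) ∧
      (N ≤ ((Finset.univ : Finset (Fin r)).filter (fun j => d j = δ)).card →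
        Generic (n := n) d (fun f => ∃ l : MvPolynomial (Fin n) ℂ, l.IsHomogeneous 1 ∧
          ∀ i k : ℕ, MaxRk (Ideal.span (Set.range f)) l i k)) := by
  rcases Nat.lt_or_ge n 2 with hn | hn2
  · refine ⟨0, 2, le_rfl, fun r δ d hδ hd => ⟨?_, fun _ => small (by omega) d⟩⟩
    refine (small (n := n) (by omega) d).mono fun f _ hf => ?_
    obtain ⟨l, hl, h⟩ := hf
    exact ⟨l, hl, fun i k _ => h i k⟩
  · obtain ⟨ρ, hρ2, hρ⟩ := hComb n hn2
    obtain ⟨N, hN⟩ := hNum n ρ (by omega) hρ2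
    refine ⟨N, ρ, hρ2, fun r δ d hδ hd => ?_⟩
    let z : Fin n := ⟨0, by omega⟩
    obtain ⟨P1, hP1, hP1'⟩ := rangeA hCore hZ hAdd hT hLS hML hMR hCC hSq hExtR hExtC hGA hGB hGC
      hOL hOR hn2 hρ2 hρ hd z
    refine ⟨?_, fun hNd => ?_⟩
    · refine (generic_of hPull (Q := fun f => ∀ k e : ℕ, k ≤ δ + δ / (ρ - 1) →
        e ≤ δ + δ / (ρ - 1) → SurjAt z k e f ∨ InjAt z k e d f) ⟨P1, hP1, hP1'⟩).mono
        fun f hf h => ?_
      refine ⟨X z, isHomogeneous_X _ _, fun i k hik => ?_⟩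
      exact maxRk_of hFS hFI hf (h k (i + k) (le_trans (Nat.le_add_left k i) hik) hik)
    · obtain ⟨P2, hP2, hP2'⟩ := topA hCore hZ hAdd hT hLS hML hMR hCC hSq hLR hExtR hExtC hGA hGB
        hGC hOL hn2 hρ2 hρ (hN δ hδ) hd hNd z
      refine (generic_of hPull (Q := fun f => (∀ k e : ℕ, k ≤ δ + δ / (ρ - 1) →
        e ≤ δ + δ / (ρ - 1) → SurjAt z k e f ∨ InjAt z k e d f) ∧
        SurjAt z ((δ + δ / (ρ - 1)) + 1) (δ + δ / (ρ - 1)) f)
        ⟨P1 * P2, mul_ne_zero hP1 hP2, fun c hc => ?_⟩).mono fun f hf h => ?_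
      · rw [eval_mul] at hc
        exact ⟨hP1' c (left_ne_zero_of_mul hc), hP2' c (right_ne_zero_of_mul hc)⟩
      · refine ⟨X z, isHomogeneous_X _ _, fun i k => ?_⟩
        refine maxRk_of hFS hFI hf ?_
        rcases Nat.le_total (i + k) (δ + δ / (ρ - 1)) with hik | hik
        · exact h.1 k (i + k) (le_trans (Nat.le_add_left k i) hik) hik
        · exact Or.inl (hMono _ n z k _ _ f hik (hFull _ n z k _ d f hf h.2))

theorem card_Mk_one {n : ℕ} (hn2 : 2 ≤ n) (z : Fin n) (t : ℕ) :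
    (Mk z 1 t).card = (t + n - 2).choose (n - 2) := by
  have h1 : Mk z 1 t = Finset.finsuppAntidiag (Finset.univ.erase z) t := by
    ext p
    rw [mem_Mk, Finset.mem_finsuppAntidiag]
    constructor
    · rintro ⟨h, hz⟩
      have hz' : p z = 0 := by omega
      refine ⟨?_, ?_⟩
      · rw [← h, ← Finset.add_sum_erase _ _ (Finset.mem_univ z), hz', zero_add]
      · intro i hi
        rw [Finset.mem_erase]
        refine ⟨?_, Finset.mem_univ i⟩
        rintro rfl
        exact (Finsupp.mem_support_iff.1 hi) hz'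
    · rintro ⟨h, hs⟩
      have hz' : p z = 0 := by
        by_contra hne
        have := hs (Finsupp.mem_support_iff.2 hne)
        exact (Finset.notMem_erase z _) this
      refine ⟨?_, by omega⟩
      rw [← Finset.add_sum_erase _ _ (Finset.mem_univ z), hz', zero_add, h]
  rw [h1, Finset.card_finsuppAntidiag_nat_eq_choose, Finset.card_erase_of_mem (Finset.mem_univ z),
    Finset.card_univ, Fintype.card_fin]
  have h2 : n - 1 + t - 1 = t + n - 2 := by omega
  rw [h2]
  rw [← Nat.choose_symm_of_eq_add (n := t + n - 2) (a := n - 2) (b := t) (by omega)]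

theorem finB (hCore : S_Core) (hML : S_MatL) (hMR : S_MatR) (hCC : S_CardCols) (hSq : S_LASq)
    (hLR : S_LALR) (hExtR : S_ExtR) (hExtC : S_ExtC) (hU : S_CombU1)
    (hOL : S_OpenL) (hOR : S_OpenR) (hPull : S_Pull)
    (hMono : S_Mono) (hFS : S_FinSurj) (hFI : S_FinInj) (n : ℕ) (hn2 : 2 ≤ n)
    (r δ : ℕ) (d : Fin r → ℕ) (hd : ∀ j, δ ≤ d j) :
      Generic (n := n) d (fun f => ∃ l : MvPolynomial (Fin n) ℂ, l.IsHomogeneous 1 ∧
        ∀ i : ℕ, i + n ≤ 2 * δ + 1 → MaxRk (Ideal.span (Set.range f)) l i 1) ∧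
      (n ≤ δ + 2 → (2 * δ).choose (n - 2) ≤
          ((Finset.univ : Finset (Fin r)).filter (fun j => d j = δ)).card * δ.choose (n - 2) →
        Generic (n := n) d (fun f => ∃ l : MvPolynomial (Fin n) ℂ, l.IsHomogeneous 1 ∧
          ∀ i : ℕ, MaxRk (Ideal.span (Set.range f)) l i 1)) := by
  let z : Fin n := ⟨0, by omega⟩
  have hcond : ∀ e : ℕ, e + n ≤ 2 * δ + 2 → ∀ l, d l ≤ e → 2 * (e - d l) + n ≤ e + 2 := by
    intro e he l hl
    have := hd l
    omega
  obtain ⟨P1, hP1, hP1'⟩ := prodP (σ := Fin r × (Fin n →₀ ℕ))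
    ((Finset.range (2 * δ + 3)).filter (fun e => e + n ≤ 2 * δ + 2))
    (fun e c => SurjAt z 1 e (sf d c) ∨ InjAt z 1 e d (sf d c)) (by
      intro e he
      rw [Finset.mem_filter, Finset.mem_range] at he
      exact open_of hOL hOR z 1 e d
        (dich1 hCore hML hMR hCC hSq hExtR hExtC hU e (hcond e he.2)))
  have hP1'' : ∀ c, eval c P1 ≠ 0 → ∀ e : ℕ, e + n ≤ 2 * δ + 2 →
      SurjAt z 1 e (sf d c) ∨ InjAt z 1 e d (sf d c) := by
    intro c hc e he
    exact hP1' c hc e (Finset.mem_filter.2 ⟨Finset.mem_range.2 (by omega), he⟩)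
  refine ⟨?_, fun hnδ hch => ?_⟩
  · refine (generic_of hPull (Q := fun f => ∀ e : ℕ, e + n ≤ 2 * δ + 2 →
      SurjAt z 1 e f ∨ InjAt z 1 e d f) ⟨P1, hP1, hP1''⟩).mono fun f hf h => ?_
    exact ⟨X z, isHomogeneous_X _ _, fun i hi => maxRk_of hFS hFI hf (h (i + 1) (by omega))⟩
  · obtain ⟨E, hE⟩ : ∃ E, E = 2 * δ + 2 - n := ⟨_, rfl⟩
    have hLK : ¬ LK z 1 E d := by
      intro hLK
      have hcard : (Mk z 1 E).card ≤ nC z 1 E d := by
        rw [card_Mk_one hn2]
        have h1 : E + n - 2 = 2 * δ := by omega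
        rw [h1]
        refine le_trans hch ?_
        unfold nC
        have h2 : ∑ l ∈ (Finset.univ : Finset (Fin r)).filter (fun j => d j = δ),
            (Mk z 1 (E - d l)).card =
            ((Finset.univ : Finset (Fin r)).filter (fun j => d j = δ)).card *
              δ.choose (n - 2) := by
          rw [Finset.sum_congr rfl (g := fun _ => δ.choose (n - 2)), Finset.sum_const,
            smul_eq_mul]
          intro l hl
          rw [(Finset.mem_filter.1 hl).2, card_Mk_one hn2]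
          congr 1
          omega
        rw [← h2]
        refine Finset.sum_le_sum_of_subset ?_
        intro l hl
        rw [Finset.mem_filter] at hl ⊢
        exact ⟨hl.1, by omega⟩
      have hRK : RK z 1 E d := RK_of_LK hML hMR hCC hLR hcard hLK
      exact dich1 hCore hML hMR hCC hSq hExtR hExtC hU E (hcond E (by omega)) hRK hLK
    obtain ⟨P2, hP2, hP2'⟩ := hOL (Fin r) n z 1 E d hLK
    refine (generic_of hPull (Q := fun f => (∀ e : ℕ, e + n ≤ 2 * δ + 2 →
      SurjAt z 1 e f ∨ InjAt z 1 e d f) ∧ SurjAt z 1 E f)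
      ⟨P1 * P2, mul_ne_zero hP1 hP2, fun c hc => ?_⟩).mono fun f hf h => ?_
    · rw [eval_mul] at hc
      exact ⟨hP1'' c (left_ne_zero_of_mul hc), hP2' c (right_ne_zero_of_mul hc)⟩
    · refine ⟨X z, isHomogeneous_X _ _, fun i => ?_⟩
      refine maxRk_of hFS hFI hf ?_
      rcases Nat.le_total (i + 1) E with hik | hik
      · exact h.1 (i + 1) (by omega)
      · exact Or.inl (hMono _ n z 1 _ _ f hik h.2)

end Pool.Agent.Work.MP_2ad852_ag.GF

end

section

/-!
# Item Tan4: second order tangent condition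
-/

namespace Pool.Agent.Work.MP_2ad852_ag.GS

open MvPolynomial Finset Pool.Agent.Work.MP_2ad852_ag.GF

theorem pr_Tan4B : S_Tan4 := by
  intro n R _ z k e F D m u v hu hv
  have h1 : ∀ w, fn z k e F (X z ^ m * u * w) = 0 := hu
  have h2 : ∀ w, fn z k e F (X z ^ m * v * w) = 0 := hv
  have h4 := Tan3_fn z k e F D u (X z ^ m * v)
  have h5 : Tan3_dc D (X z ^ m * v) = X z ^ m * Tan3_dc D v := by
    ext a
    rw [Tan3_coeff_dc]
    have h6 : coeff a (Tan3_dc D (X z ^ m) * v + X z ^ m * Tan3_dc D v) =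
      D (coeff a (X z ^ m * v)) := Tan3_coeff_mul D (X z ^ m) v a
    have h7 : Tan3_dc D (X z ^ m : MvPolynomial (Fin n) R) = 0 := by
      ext b
      rw [Tan3_coeff_dc, coeff_X_pow, coeff_zero]
      split_ifs
      · exact D.map_one_eq_zero
      · exact map_zero D
    rw [h7, zero_mul, zero_add] at h6
    exact h6.symm
  have h8 : fn z k e F (u * (X z ^ m * v)) = 0 := by
    rw [show u * (X z ^ m * v) = X z ^ m * v * u by ring]
    exact h2 u
  have h9 : fn z k e F (Tan3_dc D u * (X z ^ m * v)) = 0 := by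
    rw [mul_comm]
    exact h2 _
  have h10 : fn z k e F (u * (X z ^ m * Tan3_dc D v)) = 0 := by
    rw [show u * (X z ^ m * Tan3_dc D v) = X z ^ m * u * Tan3_dc D v by ring]
    exact h1 _
  rw [h8, map_zero, fn_add, h9, h5, h10, add_zero, add_zero] at h4
  rw [show X z ^ m * (u * v) = u * (X z ^ m * v) by ring]
  exact h4.symm

end Pool.Agent.Work.MP_2ad852_ag.GS

end

section

/-!
# Item MkNum: numerical facts on the sets of exponents
-/

namespace Pool.Agent.Work.MP_2ad852_ag.GS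

open MvPolynomial Finset Pool.Agent.Work.MP_2ad852_ag.GF

theorem MkNum_eq {n : ℕ} (z : Fin n) {k t : ℕ} (h : t < k) : Mk z k t = Mt n t := by
  ext p
  rw [mem_Mk, mem_Mt]
  refine ⟨fun h => h.1, fun h1 => ⟨h1, ?_⟩⟩
  have h2 : p z ≤ ∑ i, p i :=
    Finset.single_le_sum (f := fun i => p i) (fun i _ => Nat.zero_le _) (Finset.mem_univ z)
  omega

theorem MkNum_other {n : ℕ} (hn : 2 ≤ n) (z : Fin n) : ∃ y : Fin n, y ≠ z := by
  have : Nontrivial (Fin n) := Fin.nontrivial_iff_two_le.2 hn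
  exact exists_ne z

theorem MkNum_sum {n : ℕ} (p : Fin n →₀ ℕ) (y : Fin n) (a : ℕ) :
    ∑ i, (p + Finsupp.single y a) i = ∑ i, p i + a := by
  simp only [Finsupp.add_apply]
  rw [Finset.sum_add_distrib]
  congr 1
  rw [Finset.sum_eq_single y]
  · exact Finsupp.single_eq_same
  · intro b _ hb
    exact Finsupp.single_eq_of_ne hb
  · intro h
    exact absurd (Finset.mem_univ y) h

theorem pr_MkNumB : S_MkNum := by
  refine ⟨?_, ?_, ?_, ?_⟩
  · intro n z d hn hd
    obtain ⟨m, rfl⟩ : ∃ m, n = m + 1 := ⟨n - 1, by omega⟩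
    rw [MkNum_eq z (by omega), MkNum_eq z (by omega), Num.card_Mt, Num.card_Mt]
    exact Num.choose_le (2 * d - 1) (d - 1) 2 (by omega) (by omega) m
  · intro n z d hn hd
    obtain ⟨m, rfl⟩ : ∃ m, n = m + 2 := ⟨n - 2, by omega⟩
    rw [card_Mk_one (by omega), card_Mk_one (by omega)]
    exact Num.choose_le (2 * d - 1) (d - 1) 2 (by omega) (by omega) m
  · intro n z k s t hn hst
    obtain ⟨y, hy⟩ := MkNum_other hn z
    refine Finset.card_le_card_of_injOn (fun p => p + Finsupp.single y (t - s)) ?_ ?_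
    · intro p hp
      rw [Finset.mem_coe, mem_Mk] at hp ⊢
      refine ⟨?_, ?_⟩
      · rw [MkNum_sum, hp.1]
        omega
      · rw [Finsupp.add_apply, Finsupp.single_eq_of_ne (Ne.symm hy), add_zero]
        exact hp.2
    · intro p _ q _ h
      exact add_right_cancel h
  · intro n z k t hk hn
    obtain ⟨y, hy⟩ := MkNum_other hn z
    refine Finset.card_pos.2 ⟨Finsupp.single y t, ?_⟩
    rw [mem_Mk]
    refine ⟨?_, ?_⟩
    · simp
    · rw [Finsupp.single_eq_of_ne (Ne.symm hy)]
      omega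

end Pool.Agent.Work.MP_2ad852_ag.GS

end

section

/-!
# The dichotomy for at least `2 ^ (n - 1)` forms of minimal degree
-/

namespace Pool.Agent.Work.MP_2ad852_ag.GS

open MvPolynomial Finset Pool.Agent.Work.MP_2ad852_ag.GF

/-- combination of the core inequality with the comparison of one degree: enough minimal forms -/
theorem noLK_many (hCore : S_Core3) {n : ℕ} {ι : Type} [Fintype ι] {z y : Fin n} (hyz : y ≠ z)
    {k e δ q : ℕ} {d : ι → ℕ} (hδe : δ ≤ e)
    (hq : q ≤ ((Finset.univ : Finset ι).filter (fun l => d l = δ)).card)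
    (hc : ∀ L : (Fin n →₀ ℕ) → Prop, Closed z y L →
      (Bad2 z k e L).card ≤ q * (Std z k (e - δ) L).card)
    (h2 : LK z k e d) : False := by
  obtain ⟨F, hF⟩ := h2
  obtain ⟨L, hL, hcore⟩ := hCore ι n z y k e d F hyz hF
  have h1 : q * (Std z k (e - δ) L).card ≤
      ∑ l ∈ (Finset.univ : Finset ι).filter (fun l => d l ≤ e), (Std z k (e - d l) L).card := by
    have h3 : ∑ l ∈ (Finset.univ : Finset ι).filter (fun l => d l = δ),
        (Std z k (e - d l) L).card =
        ((Finset.univ : Finset ι).filter (fun l => d l = δ)).card *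
          (Std z k (e - δ) L).card := by
      rw [Finset.sum_congr rfl (g := fun _ => (Std z k (e - δ) L).card), Finset.sum_const,
        smul_eq_mul]
      intro l hl
      rw [(Finset.mem_filter.1 hl).2]
    refine le_trans (Nat.mul_le_mul_right _ hq) ?_
    rw [← h3]
    refine Finset.sum_le_sum_of_subset ?_
    intro l hl
    rw [Finset.mem_filter] at hl ⊢
    exact ⟨hl.1, by omega⟩
  have h4 := hc L hL
  omega

/-- enough columns and exact comparison in all degrees -/
theorem noLK_card (hCore : S_Core3) {n : ℕ} {ι : Type} [Fintype ι] {z y : Fin n} (hyz : y ≠ z)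
    {k e : ℕ} {d : ι → ℕ} (hn : (Mk z k e).card ≤ nC z k e d)
    (hc : ∀ l, d l ≤ e → ∀ L : (Fin n →₀ ℕ) → Prop, Closed z y L →
      (Bad2 z k e L).card * (Mk z k (e - d l)).card ≤
        (Std z k (e - d l) L).card * (Mk z k e).card)
    (h2 : LK z k e d) : False := by
  obtain ⟨F, hF⟩ := h2
  obtain ⟨L, hL, h1⟩ := hCore ι n z y k e d F hyz hF
  have h2 : (Bad2 z k e L).card * nC z k e d ≤
      (∑ l ∈ (Finset.univ : Finset ι).filter (fun l => d l ≤ e),
        (Std z k (e - d l) L).card) * (Mk z k e).card := by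
    unfold nC
    rw [Finset.mul_sum, Finset.sum_mul]
    exact Finset.sum_le_sum fun l hl => hc l (Finset.mem_filter.1 hl).2 L hL
  have h3 : 0 < (Mk z k e).card := by
    obtain ⟨p, hp, _⟩ := hF.ne
    exact Finset.card_pos.2 ⟨p, hp⟩
  have h4 := le_trans (Nat.mul_le_mul_left _ hn) h2
  have h5 := Nat.le_of_mul_le_mul_right h4 h3
  omega

/-- the dichotomy, given the comparison in all degrees -/
theorem dich_of (hCore : S_Core3) (hML : S_MatL) (hMR : S_MatR) (hCC : S_CardCols)
    (hSq : S_LASq) (hExtR : S_ExtR2) (hExtC : S_ExtC)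
    {n : ℕ} {ι : Type} [Fintype ι] {z y : Fin n} (hyz : y ≠ z)
    {k e : ℕ} {d : ι → ℕ}
    (hc : ∀ t, t = 0 ∨ (∃ l, d l ≤ e ∧ t = e - d l) → ∀ L : (Fin n →₀ ℕ) → Prop, Closed z y L →
      (Bad2 z k e L).card * (Mk z k t).card ≤ (Std z k t L).card * (Mk z k e).card)
    (h1 : RK z k e d) (h2 : LK z k e d) : False := by
  by_cases hn : (Mk z k e).card ≤ nC z k e d
  · exact noLK_card hCore hyz hn (fun l hl => hc _ (Or.inr ⟨l, hl, rfl⟩)) h2
  · have hk : 1 ≤ k := by
      obtain ⟨F, hF⟩ := h2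
      exact hF.one_le
    set s := (Mk z k e).card - nC z k e d with hs
    have h3 : RK z k e (Sum.elim d (fun _ : Fin s => e)) := hExtR ι n z k e s d h1
    have h4 : nC z k e (Sum.elim d (fun _ : Fin s => e)) = (Mk z k e).card := by
      rw [hExtC ι n z k e s d hk]
      omega
    have h5 : LK z k e (Sum.elim d (fun _ : Fin s => e)) := LK_of_RK hML hMR hCC hSq h4 h3
    refine noLK_card hCore hyz h4.ge (fun l hl => ?_) h5
    rcases l with l | j
    · exact hc _ (Or.inr ⟨l, hl, rfl⟩)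
    · simp only [Sum.elim_inr, Nat.sub_self]
      exact hc 0 (Or.inl rfl)

/-- natural number form of `S_CombS` -/
theorem comb_exact (hS : S_CombS) (hNum : S_MkNum) {n : ℕ} (hn : 3 ≤ n) {z y : Fin n}
    (hyz : y ≠ z) {k e t : ℕ} (hk : 1 ≤ k) (hte : 2 * t ≤ e)
    (hr : 2 ^ (n - 1) * (Mk z k t).card ≤ (Mk z k e).card) {L : (Fin n →₀ ℕ) → Prop}
    (hL : Closed z y L) :
    (Bad2 z k e L).card * (Mk z k t).card ≤ (Std z k t L).card * (Mk z k e).card := by
  obtain ⟨D, rfl⟩ : ∃ D, e = 2 * t + D := ⟨e - 2 * t, by omega⟩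
  have hpos : (0 : ℝ) < (Mk z k t).card := by
    exact_mod_cast hNum.2.2.2 n z k t hk (by omega)
  have h1 := hS n z y k t D (((Mk z k (2 * t + D)).card : ℝ) / (Mk z k t).card) L hn hyz hk hL
    (by
      rw [le_div_iff₀ hpos]
      exact_mod_cast hr)
    (by rw [div_mul_cancel₀ _ hpos.ne'])
  have h2 : ((Bad2 z k (2 * t + D) L).card : ℝ) * (Mk z k t).card ≤
      (Std z k t L).card * (Mk z k (2 * t + D)).card := by
    rw [div_mul_eq_mul_div, le_div_iff₀ hpos] at h1
    linarith
  exact_mod_cast h2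

theorem comb_exact1 (hW : S_CombW) (hNum : S_MkNum) {n : ℕ} (hn : 3 ≤ n) {z y : Fin n}
    (hyz : y ≠ z) {e t : ℕ} (hte : 2 * t ≤ e)
    (hr : 2 ^ (n - 2) * (Mk z 1 t).card ≤ (Mk z 1 e).card) {L : (Fin n →₀ ℕ) → Prop}
    (hL : Closed z y L) :
    (Bad2 z 1 e L).card * (Mk z 1 t).card ≤ (Std z 1 t L).card * (Mk z 1 e).card := by
  obtain ⟨D, rfl⟩ : ∃ D, e = 2 * t + D := ⟨e - 2 * t, by omega⟩
  have hpos : (0 : ℝ) < (Mk z 1 t).card := by
    exact_mod_cast hNum.2.2.2 n z 1 t le_rfl (by omega)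
  have h1 := hW n z y t D (((Mk z 1 (2 * t + D)).card : ℝ) / (Mk z 1 t).card) L hn hyz hL
    (by
      rw [le_div_iff₀ hpos]
      exact_mod_cast hr)
    (by rw [div_mul_cancel₀ _ hpos.ne'])
  have h2 : ((Bad2 z 1 (2 * t + D) L).card : ℝ) * (Mk z 1 t).card ≤
      (Std z 1 t L).card * (Mk z 1 (2 * t + D)).card := by
    rw [div_mul_eq_mul_div, le_div_iff₀ hpos] at h1
    linarith
  exact_mod_cast h2

theorem comb_many (hS : S_CombS) {n : ℕ} (hn : 3 ≤ n) {z y : Fin n}
    (hyz : y ≠ z) {k e t : ℕ} (hk : 1 ≤ k) (hte : 2 * t ≤ e)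
    (hr : (Mk z k e).card ≤ 2 ^ (n - 1) * (Mk z k t).card) {L : (Fin n →₀ ℕ) → Prop}
    (hL : Closed z y L) :
    (Bad2 z k e L).card ≤ 2 ^ (n - 1) * (Std z k t L).card := by
  obtain ⟨D, rfl⟩ : ∃ D, e = 2 * t + D := ⟨e - 2 * t, by omega⟩
  have h1 := hS n z y k t D ((2 : ℝ) ^ (n - 1)) L hn hyz hk hL le_rfl (by exact_mod_cast hr)
  exact_mod_cast h1

theorem comb_many1 (hW : S_CombW) {n : ℕ} (hn : 3 ≤ n) {z y : Fin n}
    (hyz : y ≠ z) {e t : ℕ} (hte : 2 * t ≤ e)
    (hr : (Mk z 1 e).card ≤ 2 ^ (n - 2) * (Mk z 1 t).card) {L : (Fin n →₀ ℕ) → Prop}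
    (hL : Closed z y L) :
    (Bad2 z 1 e L).card ≤ 2 ^ (n - 2) * (Std z 1 t L).card := by
  obtain ⟨D, rfl⟩ : ∃ D, e = 2 * t + D := ⟨e - 2 * t, by omega⟩
  have h1 := hW n z y t D ((2 : ℝ) ^ (n - 2)) L hn hyz hL le_rfl (by exact_mod_cast hr)
  exact_mod_cast h1

/-- range version: the dichotomy for any number of forms when the ratio is large -/
theorem dichS_range (hCore : S_Core3) (hML : S_MatL) (hMR : S_MatR) (hCC : S_CardCols)
    (hSq : S_LASq) (hExtR : S_ExtR2) (hExtC : S_ExtC) (hS : S_CombS) (hNum : S_MkNum)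
    {n : ℕ} (hn : 3 ≤ n) {ι : Type} [Fintype ι] {z y : Fin n} (hyz : y ≠ z)
    {k e δ : ℕ} {d : ι → ℕ} (hd : ∀ l, δ ≤ d l) (he : e < 2 * δ)
    (hr : 2 ^ (n - 1) * (Mk z k (e - δ)).card ≤ (Mk z k e).card)
    (h1 : RK z k e d) (h2 : LK z k e d) : False := by
  have hk : 1 ≤ k := by
    obtain ⟨F, hF⟩ := h2
    exact hF.one_le
  refine dich_of hCore hML hMR hCC hSq hExtR hExtC hyz (fun t ht L hL => ?_) h1 h2
  have ht' : t ≤ e - δ ∧ 2 * t ≤ e := by
    rcases ht with rfl | ⟨l, hl, rfl⟩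
    · omega
    · have := hd l
      omega
  refine comb_exact hS hNum hn hyz hk ht'.2 ?_ hL
  exact le_trans (Nat.mul_le_mul_left _ (hNum.2.2.1 n z k t (e - δ) (by omega) ht'.1)) hr

/-- the dichotomy for at least `2 ^ (n - 1)` minimal forms -/
theorem dichS (hCore : S_Core3) (hML : S_MatL) (hMR : S_MatR) (hCC : S_CardCols)
    (hSq : S_LASq) (hExtR : S_ExtR2) (hExtC : S_ExtC) (hS : S_CombS) (hNum : S_MkNum)
    {n : ℕ} (hn : 3 ≤ n) {ι : Type} [Fintype ι] {z y : Fin n} (hyz : y ≠ z)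
    {k e δ : ℕ} {d : ι → ℕ} (hd : ∀ l, δ ≤ d l) (he : e < 2 * δ)
    (hm : 2 ^ (n - 1) ≤ ((Finset.univ : Finset ι).filter (fun l => d l = δ)).card)
    (h1 : RK z k e d) (h2 : LK z k e d) : False := by
  by_cases hr : 2 ^ (n - 1) * (Mk z k (e - δ)).card ≤ (Mk z k e).card
  · exact dichS_range hCore hML hMR hCC hSq hExtR hExtC hS hNum hn hyz hd he hr h1 h2
  · have hk : 1 ≤ k := by
      obtain ⟨F, hF⟩ := h2
      exact hF.one_le
    have hδe : δ ≤ e := by
      obtain ⟨a, ha⟩ := h1
      obtain ⟨l, p, _, hp⟩ := ha.ne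
      by_contra hcon
      rw [ha.zero l (lt_of_not_ge fun h => hcon (le_trans (hd l) h))] at hp
      exact hp (coeff_zero _)
    refine noLK_many hCore hyz hδe hm (fun L hL => ?_) h2
    exact comb_many hS hn hyz hk (by omega) (le_of_lt (lt_of_not_ge hr)) hL

/-- no left kernel in degree `2 δ - 1` -/
theorem topS (hCore : S_Core3) (hS : S_CombS) (hNum : S_MkNum)
    {n : ℕ} (hn : 3 ≤ n) {ι : Type} [Fintype ι] {z y : Fin n} (hyz : y ≠ z)
    {δ : ℕ} {d : ι → ℕ} (hδ : 1 ≤ δ)
    (hm : 2 ^ (n - 1) ≤ ((Finset.univ : Finset ι).filter (fun l => d l = δ)).card)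
    (h2 : LK z (2 * δ) (2 * δ - 1) d) : False := by
  refine noLK_many hCore hyz (by omega) hm (fun L hL => ?_) h2
  have h3 : 2 * δ - 1 - δ = δ - 1 := by omega
  rw [h3]
  exact comb_many hS hn hyz (by omega) (by omega) (hNum.1 n z δ (by omega) hδ) hL

/-- `k = 1`, range version -/
theorem dichW_range (hCore : S_Core3) (hML : S_MatL) (hMR : S_MatR) (hCC : S_CardCols)
    (hSq : S_LASq) (hExtR : S_ExtR2) (hExtC : S_ExtC) (hW : S_CombW) (hNum : S_MkNum)
    {n : ℕ} (hn : 3 ≤ n) {ι : Type} [Fintype ι] {z y : Fin n} (hyz : y ≠ z)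
    {e δ : ℕ} {d : ι → ℕ} (hd : ∀ l, δ ≤ d l) (he : e < 2 * δ)
    (hr : 2 ^ (n - 2) * (Mk z 1 (e - δ)).card ≤ (Mk z 1 e).card)
    (h1 : RK z 1 e d) (h2 : LK z 1 e d) : False := by
  refine dich_of hCore hML hMR hCC hSq hExtR hExtC hyz (fun t ht L hL => ?_) h1 h2
  have ht' : t ≤ e - δ ∧ 2 * t ≤ e := by
    rcases ht with rfl | ⟨l, hl, rfl⟩
    · omega
    · have := hd l
      omega
  refine comb_exact1 hW hNum hn hyz ht'.2 ?_ hL
  exact le_trans (Nat.mul_le_mul_left _ (hNum.2.2.1 n z 1 t (e - δ) (by omega) ht'.1)) hr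

theorem dichW (hCore : S_Core3) (hML : S_MatL) (hMR : S_MatR) (hCC : S_CardCols)
    (hSq : S_LASq) (hExtR : S_ExtR2) (hExtC : S_ExtC) (hW : S_CombW) (hNum : S_MkNum)
    {n : ℕ} (hn : 3 ≤ n) {ι : Type} [Fintype ι] {z y : Fin n} (hyz : y ≠ z)
    {e δ : ℕ} {d : ι → ℕ} (hd : ∀ l, δ ≤ d l) (he : e < 2 * δ)
    (hm : 2 ^ (n - 2) ≤ ((Finset.univ : Finset ι).filter (fun l => d l = δ)).card)
    (h1 : RK z 1 e d) (h2 : LK z 1 e d) : False := by
  by_cases hr : 2 ^ (n - 2) * (Mk z 1 (e - δ)).card ≤ (Mk z 1 e).card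
  · exact dichW_range hCore hML hMR hCC hSq hExtR hExtC hW hNum hn hyz hd he hr h1 h2
  · have hδe : δ ≤ e := by
      obtain ⟨a, ha⟩ := h1
      obtain ⟨l, p, _, hp⟩ := ha.ne
      by_contra hcon
      rw [ha.zero l (lt_of_not_ge fun h => hcon (le_trans (hd l) h))] at hp
      exact hp (coeff_zero _)
    refine noLK_many hCore hyz hδe hm (fun L hL => ?_) h2
    exact comb_many1 hW hn hyz (by omega) (le_of_lt (lt_of_not_ge hr)) hL

theorem topW (hCore : S_Core3) (hW : S_CombW) (hNum : S_MkNum)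
    {n : ℕ} (hn : 3 ≤ n) {ι : Type} [Fintype ι] {z y : Fin n} (hyz : y ≠ z)
    {δ : ℕ} {d : ι → ℕ} (hδ : 1 ≤ δ)
    (hm : 2 ^ (n - 2) ≤ ((Finset.univ : Finset ι).filter (fun l => d l = δ)).card)
    (h2 : LK z 1 (2 * δ - 1) d) : False := by
  refine noLK_many hCore hyz (by omega) hm (fun L hL => ?_) h2
  have h3 : 2 * δ - 1 - δ = δ - 1 := by omega
  rw [h3]
  exact comb_many1 hW hn hyz (by omega) (hNum.2.1 n z δ (by omega) hδ) hL

end Pool.Agent.Work.MP_2ad852_ag.GS

end

section

/-!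
# Final assemblies of theorems S and W
-/

namespace Pool.Agent.Work.MP_2ad852_ag.GS

open MvPolynomial Finset Pool.Agent.Work.MP_2ad852_ag.GF

/-- no form of degree at most `e`: no right kernel -/
theorem noRK_low {n : ℕ} {ι : Type} [Fintype ι] {z : Fin n} {k e δ : ℕ} {d : ι → ℕ}
    (hd : ∀ l, δ ≤ d l) (he : e < δ) (h : RK z k e d) : False := by
  obtain ⟨a, ha⟩ := h
  obtain ⟨l, p, _, hp⟩ := ha.ne
  rw [ha.zero l (lt_of_lt_of_le he (hd l))] at hp
  exact hp (coeff_zero _)

theorem ratio_k (hRat : S_Ratio) (hNum : S_MkNum) {n : ℕ} (hn : 3 ≤ n) (z : Fin n) {k e δ : ℕ}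
    (hk : 1 ≤ k)
    (hr : 2 ^ (n - 1) * (e - δ + n - 2).choose (n - 2) ≤ (e + n - 2).choose (n - 2)) :
    2 ^ (n - 1) * (Mk z k (e - δ)).card ≤ (Mk z k e).card := by
  have h1 := hRat n z (e - δ) e 1 k (by omega) (Nat.sub_le _ _) hk
  rw [card_Mk_one (by omega), card_Mk_one (by omega)] at h1
  have hpos : 0 < (e - δ + n - 2).choose (n - 2) := Nat.choose_pos (by omega)
  refine Nat.le_of_mul_le_mul_right ?_ hpos
  calc 2 ^ (n - 1) * (Mk z k (e - δ)).card * (e - δ + n - 2).choose (n - 2)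
      = (2 ^ (n - 1) * (e - δ + n - 2).choose (n - 2)) * (Mk z k (e - δ)).card := by ring
    _ ≤ (e + n - 2).choose (n - 2) * (Mk z k (e - δ)).card := Nat.mul_le_mul_right _ hr
    _ ≤ (Mk z k e).card * (e - δ + n - 2).choose (n - 2) := h1

theorem finS (hCore : S_Core3) (hML : S_MatL) (hMR : S_MatR) (hCC : S_CardCols)
    (hSq : S_LASq) (hExtR : S_ExtR2) (hExtC : S_ExtC) (hS : S_CombS) (hNum : S_MkNum)
    (hRat : S_Ratio) (hOL : S_OpenL) (hOR : S_OpenR) (hPull : S_Pull)
    (hMono : S_Mono) (hFull : S_Full) (hFS : S_FinSurj) (hFI : S_FinInj)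
    (n r δ : ℕ) (hn : 3 ≤ n) (hδ : 1 ≤ δ) (d : Fin r → ℕ) (hd : ∀ j, δ ≤ d j) :
    Generic (n := n) d (fun f => ∃ l : MvPolynomial (Fin n) ℂ, l.IsHomogeneous 1 ∧
      ∀ i k : ℕ, i + k < 2 * δ →
        (i + k < δ ∨ 2 ^ (n - 1) * (i + k - δ + n - 2).choose (n - 2) ≤
          (i + k + n - 2).choose (n - 2)) →
        MaxRk (Ideal.span (Set.range f)) l i k) ∧
    (2 ^ (n - 1) ≤ ((Finset.univ : Finset (Fin r)).filter (fun j => d j = δ)).card →
      Generic (n := n) d (fun f => ∃ l : MvPolynomial (Fin n) ℂ, l.IsHomogeneous 1 ∧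
        ∀ i k : ℕ, MaxRk (Ideal.span (Set.range f)) l i k)) := by
  let z : Fin n := ⟨0, by omega⟩
  let y : Fin n := ⟨1, by omega⟩
  have hyz : y ≠ z := by
    intro h
    have := congrArg Fin.val h
    simp [y, z] at this
  constructor
  · obtain ⟨P1, hP1, hP1'⟩ := prodP (σ := Fin r × (Fin n →₀ ℕ))
      (((Finset.range (2 * δ)) ×ˢ (Finset.range (2 * δ))).filter (fun ke => 
        ke.2 < δ ∨ 2 ^ (n - 1) * (ke.2 - δ + n - 2).choose (n - 2) ≤
          (ke.2 + n - 2).choose (n - 2)))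
      (fun ke c => SurjAt z ke.1 ke.2 (sf d c) ∨ InjAt z ke.1 ke.2 d (sf d c)) (by
        rintro ⟨k, e⟩ hke
        rw [Finset.mem_filter, Finset.mem_product, Finset.mem_range, Finset.mem_range] at hke
        obtain ⟨⟨hk, he⟩, hke⟩ := hke
        refine open_of hOL hOR z k e d fun h1 h2 => ?_
        rcases hke with hke | hke
        · exact noRK_low hd hke h1
        · have hk1 : 1 ≤ k := by
            obtain ⟨F, hF⟩ := h2
            exact hF.one_le
          exact dichS_range hCore hML hMR hCC hSq hExtR hExtC hS hNum hn hyz hd he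
            (ratio_k hRat hNum hn z hk1 hke) h1 h2)
    refine (generic_of hPull (Q := fun f => ∀ ke ∈ (((Finset.range (2 * δ)) ×ˢ
      (Finset.range (2 * δ))).filter (fun ke => 
        ke.2 < δ ∨ 2 ^ (n - 1) * (ke.2 - δ + n - 2).choose (n - 2) ≤
          (ke.2 + n - 2).choose (n - 2))),
        SurjAt z ke.1 ke.2 f ∨ InjAt z ke.1 ke.2 d f) ⟨P1, hP1, hP1'⟩).mono fun f hf h => ?_
    refine ⟨X z, isHomogeneous_X _ _, fun i k hik hc => ?_⟩
    refine maxRk_of hFS hFI hf (h (k, i + k) ?_)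
    rw [Finset.mem_filter, Finset.mem_product, Finset.mem_range, Finset.mem_range]
    exact ⟨⟨by simp only; omega, hik⟩, hc⟩
  · intro hm
    obtain ⟨P1, hP1, hP1'⟩ := prodP (σ := Fin r × (Fin n →₀ ℕ))
      ((Finset.range (2 * δ)) ×ˢ (Finset.range (2 * δ)))
      (fun ke c => SurjAt z ke.1 ke.2 (sf d c) ∨ InjAt z ke.1 ke.2 d (sf d c)) (by
        rintro ⟨k, e⟩ hke
        rw [Finset.mem_product, Finset.mem_range, Finset.mem_range] at hke
        exact open_of hOL hOR z k e d
          (dichS hCore hML hMR hCC hSq hExtR hExtC hS hNum hn hyz hd hke.2 hm))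
    obtain ⟨P2, hP2, hP2'⟩ := hOL (Fin r) n z (2 * δ) (2 * δ - 1) d
      (topS hCore hS hNum hn hyz hδ hm)
    have hE : 2 * δ - 1 + 1 = 2 * δ := by omega
    refine (generic_of hPull (Q := fun f => (∀ ke ∈ ((Finset.range (2 * δ)) ×ˢ
      (Finset.range (2 * δ))), SurjAt z ke.1 ke.2 f ∨ InjAt z ke.1 ke.2 d f) ∧
      SurjAt z (2 * δ - 1 + 1) (2 * δ - 1) f)
      ⟨P1 * P2, mul_ne_zero hP1 hP2, fun c hc => ?_⟩).mono fun f hf h => ?_
    · rw [eval_mul] at hc
      rw [hE]
      exact ⟨hP1' c (left_ne_zero_of_mul hc), hP2' c (right_ne_zero_of_mul hc)⟩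
    · refine ⟨X z, isHomogeneous_X _ _, fun i k => ?_⟩
      refine maxRk_of hFS hFI hf ?_
      rcases Nat.lt_or_ge (i + k) (2 * δ) with hik | hik
      · refine h.1 (k, i + k) ?_
        rw [Finset.mem_product, Finset.mem_range, Finset.mem_range]
        exact ⟨by simp only; omega, hik⟩
      · exact Or.inl (hMono _ n z k _ _ f (by omega) (hFull _ n z k _ d f hf h.2))

theorem finW (hCore : S_Core3) (hML : S_MatL) (hMR : S_MatR) (hCC : S_CardCols)
    (hSq : S_LASq) (hExtR : S_ExtR2) (hExtC : S_ExtC) (hW : S_CombW) (hNum : S_MkNum)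
    (hOL : S_OpenL) (hOR : S_OpenR) (hPull : S_Pull)
    (hMono : S_Mono) (hFS : S_FinSurj) (hFI : S_FinInj)
    (n r δ : ℕ) (hn : 3 ≤ n) (hδ : 1 ≤ δ) (d : Fin r → ℕ) (hd : ∀ j, δ ≤ d j) :
    Generic (n := n) d (fun f => ∃ l : MvPolynomial (Fin n) ℂ, l.IsHomogeneous 1 ∧
      ∀ i : ℕ, i + 1 < 2 * δ →
        (i + 1 < δ ∨ 2 ^ (n - 2) * (i + 1 - δ + n - 2).choose (n - 2) ≤
          (i + 1 + n - 2).choose (n - 2)) →
        MaxRk (Ideal.span (Set.range f)) l i 1) ∧
    (2 ^ (n - 2) ≤ ((Finset.univ : Finset (Fin r)).filter (fun j => d j = δ)).card →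
      Generic (n := n) d (fun f => ∃ l : MvPolynomial (Fin n) ℂ, l.IsHomogeneous 1 ∧
        ∀ i : ℕ, MaxRk (Ideal.span (Set.range f)) l i 1)) := by
  let z : Fin n := ⟨0, by omega⟩
  let y : Fin n := ⟨1, by omega⟩
  have hyz : y ≠ z := by
    intro h
    have := congrArg Fin.val h
    simp [y, z] at this
  constructor
  · obtain ⟨P1, hP1, hP1'⟩ := prodP (σ := Fin r × (Fin n →₀ ℕ))
      ((Finset.range (2 * δ)).filter (fun e => 
        e < δ ∨ 2 ^ (n - 2) * (e - δ + n - 2).choose (n - 2) ≤ (e + n - 2).choose (n - 2)))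
      (fun e c => SurjAt z 1 e (sf d c) ∨ InjAt z 1 e d (sf d c)) (by
        intro e he
        rw [Finset.mem_filter, Finset.mem_range] at he
        obtain ⟨he, hke⟩ := he
        refine open_of hOL hOR z 1 e d fun h1 h2 => ?_
        rcases hke with hke | hke
        · exact noRK_low hd hke h1
        · exact dichW_range hCore hML hMR hCC hSq hExtR hExtC hW hNum hn hyz hd he
            (by rw [card_Mk_one (by omega), card_Mk_one (by omega)]; exact hke) h1 h2)
    refine (generic_of hPull (Q := fun f => ∀ e ∈ ((Finset.range (2 * δ)).filter (fun e => 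
        e < δ ∨ 2 ^ (n - 2) * (e - δ + n - 2).choose (n - 2) ≤ (e + n - 2).choose (n - 2))),
        SurjAt z 1 e f ∨ InjAt z 1 e d f) ⟨P1, hP1, hP1'⟩).mono fun f hf h => ?_
    refine ⟨X z, isHomogeneous_X _ _, fun i hik hc => ?_⟩
    refine maxRk_of hFS hFI hf (h (i + 1) ?_)
    rw [Finset.mem_filter, Finset.mem_range]
    exact ⟨hik, hc⟩
  · intro hm
    obtain ⟨P1, hP1, hP1'⟩ := prodP (σ := Fin r × (Fin n →₀ ℕ)) (Finset.range (2 * δ))
      (fun e c => SurjAt z 1 e (sf d c) ∨ InjAt z 1 e d (sf d c)) (by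
        intro e he
        rw [Finset.mem_range] at he
        exact open_of hOL hOR z 1 e d
          (dichW hCore hML hMR hCC hSq hExtR hExtC hW hNum hn hyz hd he hm))
    obtain ⟨P2, hP2, hP2'⟩ := hOL (Fin r) n z 1 (2 * δ - 1) d
      (topW hCore hW hNum hn hyz hδ hm)
    refine (generic_of hPull (Q := fun f => (∀ e ∈ (Finset.range (2 * δ)),
      SurjAt z 1 e f ∨ InjAt z 1 e d f) ∧ SurjAt z 1 (2 * δ - 1) f)
      ⟨P1 * P2, mul_ne_zero hP1 hP2, fun c hc => ?_⟩).mono fun f hf h => ?_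
    · rw [eval_mul] at hc
      exact ⟨hP1' c (left_ne_zero_of_mul hc), hP2' c (right_ne_zero_of_mul hc)⟩
    · refine ⟨X z, isHomogeneous_X _ _, fun i => ?_⟩
      refine maxRk_of hFS hFI hf ?_
      rcases Nat.lt_or_ge (i + 1) (2 * δ) with hik | hik
      · exact h.1 (i + 1) (Finset.mem_range.2 hik)
      · exact Or.inl (hMono _ n z 1 _ _ f (by omega) h.2)

end Pool.Agent.Work.MP_2ad852_ag.GS

end
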