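import Mathlib
import Pool.Agent.Work.MP_2ad852_ag.G3.Stmts
import Pool.Agent.Work.MP_2ad852_ag.Bd.B03
import Pool.Agent.Work.MP_2ad852_ag.GF.Basics
import Pool.Agent.Work.MP_2ad852_ag.Bd.B01
import Pool.Agent.Work.MP_2ad852_ag.Bd.B04

/-! Bundle of small proof modules (one section per former module). -/

section

/-!
# B4: four forms
-/

namespace Pool.Agent.Work.MP_2ad852_ag.G3

open MvPolynomial Finset Pool.Agent.Work.MP_2ad852_ag.GF Pool.Agent.Work.MP_2ad852_ag.GS

theorem B4_step (hR : S_R1) {ι : Type} [Fintype ι] [DecidableEq ι] (z : Fin 3) (k e : ℕ)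
    (ih : ∀ (d : ι → ℕ) (i j l m : ι), i ≠ j → i ≠ l → i ≠ m → j ≠ l → j ≠ m → l ≠ m →
      d i + d j + d l + d m ≤ 2 * e + 3 → ¬ LK z k e d)
    (d : ι → ℕ) (i j l m : ι) (h1 : i ≠ j) (h2 : i ≠ l) (h3 : i ≠ m) (h4 : j ≠ l) (h5 : j ≠ m)
    (h6 : l ≠ m) (hs : d i + d j + d l + d m ≤ 2 * (e + 1) + 3) (hpos : ∀ a, 1 ≤ d a)
    (hle : d i + d j ≤ d l + d m) : ¬ LK z (k + 1) (e + 1) d := by
  apply hR ι z k e d i j h1 (by omega) (fun a _ _ => hpos a)
  apply ih _ i j l m h1 h2 h3 h4 h5 h6
  have p1 := hpos l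
  have p2 := hpos m
  have e1 : low d i j i = d i := by simp [low]
  have e2 : low d i j j = d j := by simp [low]
  have e3 : low d i j l = d l - 1 := by simp [low, h2.symm, h4.symm]
  have e4 : low d i j m = d m - 1 := by simp [low, h3.symm, h5.symm]
  rw [e1, e2, e3, e4]
  omega

theorem pr_B4 (hZ : S_ZeroLK) (hR : S_R1) : S_B4 := by
  intro ι _ _ z k e
  induction e generalizing k with
  | zero =>
    intro d i j l m _ _ _ _ _ _ hs
    have : d i = 0 ∨ d j = 0 ∨ d l = 0 ∨ d m = 0 := by omega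
    rcases this with h | h | h | h
    · exact hZ ι 3 z k 0 d i h
    · exact hZ ι 3 z k 0 d j h
    · exact hZ ι 3 z k 0 d l h
    · exact hZ ι 3 z k 0 d m h
  | succ e ih =>
    intro d i j l m h1 h2 h3 h4 h5 h6 hs
    by_cases h0 : ∃ a, d a = 0
    · obtain ⟨a, ha⟩ := h0
      exact hZ ι 3 z k (e + 1) d a ha
    · push Not at h0
      have hpos : ∀ a, 1 ≤ d a := fun a => Nat.one_le_iff_ne_zero.mpr (h0 a)
      cases k with
      | zero =>
        rintro ⟨F, hF⟩
        obtain ⟨p, hp, _⟩ := hF.ne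
        rw [mem_Mk] at hp
        exact absurd hp.2 (Nat.not_lt_zero _)
      | succ k =>
        rcases le_total (d i + d j) (d l + d m) with h | h
        · exact B4_step hR z k e (fun d' i' j' l' m' a1 a2 a3 a4 a5 a6 =>
            ih k d' i' j' l' m' a1 a2 a3 a4 a5 a6) d i j l m h1 h2 h3 h4 h5 h6 hs hpos h
        · exact B4_step hR z k e (fun d' i' j' l' m' a1 a2 a3 a4 a5 a6 =>
            ih k d' i' j' l' m' a1 a2 a3 a4 a5 a6) d l m i j h6 h2.symm h4.symm h3.symm h5.symm h1
            (by omega) hpos h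

end Pool.Agent.Work.MP_2ad852_ag.G3

end

section

/-!
# Block G3, item BinGen
-/

namespace Pool.Agent.Work.MP_2ad852_ag.G3

open MvPolynomial Finset Pool.Agent.Work.MP_2ad852_ag.GF Pool.Agent.Work.MP_2ad852_ag.GS

theorem pr_BinGen (hB : S_BinLK) (hO : S_OpenL) : S_BinGen := by
  classical
  intro ι _ z e d i j hij hde
  let φ : Bool → ι := fun b => if b then i else j
  have hφt : φ true = i := rfl
  have hφf : φ false = j := rfl
  have hφ : Function.Injective φ := by
    intro a b hab
    cases a <;> cases b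
    · rfl
    · exact absurd hab.symm hij
    · exact absurd hab hij
    · rfl
  obtain ⟨P', hP'0, hP'⟩ := hO Bool 3 z 1 e (fun b => d (φ b))
    (hB Bool z e (fun b => d (φ b)) true false (by decide) hde)
  let ψ : Bool × (Fin 3 →₀ ℕ) → ι × (Fin 3 →₀ ℕ) := fun q => (φ q.1, q.2)
  have hψ : Function.Injective ψ := by
    rintro ⟨a, p⟩ ⟨b, q⟩ h
    have h1 : φ a = φ b := congrArg Prod.fst h
    have h2 : p = q := congrArg Prod.snd h
    rw [hφ h1, h2]
  refine ⟨rename ψ P', ?_, ?_⟩
  · intro h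
    apply hP'0
    apply rename_injective ψ hψ
    rw [h, map_zero]
  · intro c hc h hh
    rw [eval_rename] at hc
    obtain ⟨w, hw, hdvd⟩ := hP' (c ∘ ψ) hc h hh
    have hrange : Set.range (sf (fun b => d (φ b)) (c ∘ ψ)) = {sf d c i, sf d c j} := by
      ext u
      constructor
      · rintro ⟨b, rfl⟩
        cases b
        · exact Or.inr rfl
        · exact Or.inl rfl
      · rintro (rfl | rfl)
        · exact ⟨true, rfl⟩
        · exact ⟨false, rfl⟩
    rw [hrange, Ideal.mem_span_pair] at hw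
    obtain ⟨a, b, rfl⟩ := hw
    refine ⟨a, b, ?_⟩
    rw [pow_one] at hdvd
    rw [mul_comm (sf d c i) a, mul_comm (sf d c j) b]
    exact hdvd

end Pool.Agent.Work.MP_2ad852_ag.G3

end

section

/-!
# Two forms in two variables
-/

namespace Pool.Agent.Work.MP_2ad852_ag.G3

open MvPolynomial Finset Pool.Agent.Work.MP_2ad852_ag.GF Pool.Agent.Work.MP_2ad852_ag.GS

theorem three_vars (z : Fin 3) : ∃ x y : Fin 3, x ≠ y ∧ x ≠ z ∧ y ≠ z ∧
    ∀ p : Fin 3 →₀ ℕ, ∑ i, p i = p z + p x + p y := by
  fin_cases z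
  · refine ⟨1, 2, by decide, by decide, by decide, fun p => ?_⟩
    rw [Fin.sum_univ_three]
    rfl
  · refine ⟨0, 2, by decide, by decide, by decide, fun p => ?_⟩
    rw [Fin.sum_univ_three]
    change p 0 + p 1 + p 2 = p 1 + p 0 + p 2
    ring
  · refine ⟨0, 1, by decide, by decide, by decide, fun p => ?_⟩
    rw [Fin.sum_univ_three]
    change p 0 + p 1 + p 2 = p 2 + p 0 + p 1
    ring

theorem pr_BinLK (hS : S_Spec) : S_BinLK := by
  classical
  intro ι _ z e d i j hij hde
  obtain ⟨x, y, hxy, hxz, hyz, hsum⟩ := three_vars z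
  let f : ι → MvPolynomial (Fin 3) ℂ := fun l =>
    if l = i then X x ^ d i else if l = j then X y ^ d j else 0
  have hfi : f i = X x ^ d i := by simp [f]
  have hfj : f j = X y ^ d j := by simp [f, Ne.symm hij]
  have hf : ∀ l, (f l).IsHomogeneous (d l) := by
    intro l
    by_cases h1 : l = i
    · rw [h1, hfi]
      exact isHomogeneous_X_pow x (d i)
    · by_cases h2 : l = j
      · rw [h2, hfj]
        exact isHomogeneous_X_pow y (d j)
      · have : f l = 0 := by simp [f, h1, h2]
        rw [this]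
        exact isHomogeneous_zero _ _ _
  refine hS ι 3 z 1 e d f hf ?_
  intro h hh
  have key : ∀ p : Fin 3 →₀ ℕ,
      ∃ w ∈ Ideal.span (Set.range f), X z ^ 1 ∣ monomial p (coeff p h) - w := by
    intro p
    by_cases hp : coeff p h = 0
    · exact ⟨0, Ideal.zero_mem _, by rw [hp]; simp⟩
    have hs := (isHomogeneous_iff_Mt h e).1 hh p hp
    rw [hsum] at hs
    by_cases hz : 1 ≤ p z
    · refine ⟨0, Ideal.zero_mem _, ?_⟩
      rw [sub_zero, pow_one]
      rw [X_dvd_monomial]
      right
      omega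
    · have hab : d i ≤ p x ∨ d j ≤ p y := by omega
      have gen : ∀ (l : ι) (v : Fin 3), f l = X v ^ d l → d l ≤ p v →
          monomial p (coeff p h) ∈ Ideal.span (Set.range f) := by
        intro l v hfl hle
        have h1 : (X v ^ d l : MvPolynomial (Fin 3) ℂ) ∣ monomial p (coeff p h) := by
          refine ⟨monomial (p - Finsupp.single v (d l)) (coeff p h), ?_⟩
          rw [X_pow_eq_monomial, monomial_mul, one_mul, add_tsub_cancel_of_le]
          exact Finsupp.single_le_iff.2 hle
        rw [← hfl] at h1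
        exact Ideal.mem_of_dvd _ h1 (Ideal.subset_span ⟨l, rfl⟩)
      rcases hab with h1 | h1
      · exact ⟨_, gen i x hfi h1, by rw [sub_self]; exact dvd_zero _⟩
      · exact ⟨_, gen j y hfj h1, by rw [sub_self]; exact dvd_zero _⟩
  choose W hW1 hW2 using key
  refine ⟨∑ p ∈ h.support, W p, Ideal.sum_mem _ fun p _ => hW1 p, ?_⟩
  have : h - ∑ p ∈ h.support, W p = ∑ p ∈ h.support, (monomial p (coeff p h) - W p) := by
    rw [Finset.sum_sub_distrib, ← h.as_sum]
  rw [this]
  exact Finset.dvd_sum fun p _ => hW2 p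

end Pool.Agent.Work.MP_2ad852_ag.G3

end

section

/-!
# Block G3, item ChiT
-/

set_option autoImplicit false

namespace Pool.Agent.Work.MP_2ad852_ag.G3

open MvPolynomial Finset Pool.Agent.Work.MP_2ad852_ag.GF Pool.Agent.Work.MP_2ad852_ag.GS

theorem ChiT_step {ι : Type} [Fintype ι] (d : ι → ℕ) (e : ℕ) (h : chi d e ≤ 0) :
    chi d (e + 1) ≤ 0 := by
  unfold chi at h ⊢
  have hpos : 0 < ∑ l, ((e + 1 - d l : ℕ) : ℤ) := by
    have : (0 : ℤ) < (e : ℤ) + 1 := by positivity
    linarith
  obtain ⟨l, -, hl⟩ := Finset.exists_ne_zero_of_sum_ne_zero hpos.ne'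
  have hl' : 0 < e + 1 - d l := by
    rcases Nat.eq_zero_or_pos (e + 1 - d l) with h0 | h0
    · rw [h0] at hl
      exact absurd rfl hl
    · exact h0
  have h1 : (1 : ℤ) ≤ ∑ l, (((e + 1 + 1 - d l : ℕ) : ℤ) - ((e + 1 - d l : ℕ) : ℤ)) := by
    have h2 : ∀ l ∈ (Finset.univ : Finset ι),
        (0 : ℤ) ≤ ((e + 1 + 1 - d l : ℕ) : ℤ) - ((e + 1 - d l : ℕ) : ℤ) := by
      intro l _
      omega
    refine le_trans ?_ (Finset.single_le_sum h2 (Finset.mem_univ l))
    omega
  rw [Finset.sum_sub_distrib] at h1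
  push_cast
  linarith

theorem ChiT_mono {ι : Type} [Fintype ι] (d : ι → ℕ) {e e' : ℕ} (hle : e ≤ e')
    (h : chi d e ≤ 0) : chi d e' ≤ 0 := by
  induction hle with
  | refl => exact h
  | step _ ih => exact ChiT_step d _ ih

theorem pr_ChiT : S_ChiT := by
  intro ι _ d e M Y _ hY hM
  induction M with
  | zero =>
    have : Y = 0 := by omega
    subst this
    simp
  | succ M ih =>
    rcases Nat.lt_or_ge M Y with h | h
    · have : Y = M + 1 := by omega
      subst this
      exact le_max_right _ _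
    · have ih' := ih h (by omega)
      rw [Finset.sum_range_succ _ M]
      rcases le_total 0 (chi d (e - M)) with h0 | h0
      · refine ih'.trans (max_le_max le_rfl ?_)
        linarith
      · refine le_trans ?_ (le_max_left _ _)
        apply Finset.sum_nonpos
        intro m hm
        rw [Finset.mem_range] at hm
        exact ChiT_mono d (by omega) h0

end Pool.Agent.Work.MP_2ad852_ag.G3

end

section

/-!
# Block G3, item ChiW: sum of the weights
-/

namespace Pool.Agent.Work.MP_2ad852_ag.G3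

open MvPolynomial Finset Pool.Agent.Work.MP_2ad852_ag.GF Pool.Agent.Work.MP_2ad852_ag.GS

theorem ChiW_single (δ b : ℕ) (hb : b < δ) (v : ℤ) (p : ℕ → Prop) [DecidablePred p]
    (hp : ∀ t, p t ↔ t = b) :
    ∑ t ∈ range δ, ((t : ℤ) + 1) * (if p t then v else 0) = ((b : ℤ) + 1) * v := by
  rw [Finset.sum_eq_single b]
  · rw [if_pos ((hp b).2 rfl)]
  · intro t _ ht
    rw [if_neg (fun h => ht ((hp t).1 h)), mul_zero]
  · intro h
    exact absurd (Finset.mem_range.2 hb) h

theorem ChiW_none (δ : ℕ) (v : ℤ) (p : ℕ → Prop) [DecidablePred p] (hp : ∀ t, ¬ p t) :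
    ∑ t ∈ range δ, ((t : ℤ) + 1) * (if p t then v else 0) = 0 := by
  refine Finset.sum_eq_zero fun t _ => ?_
  rw [if_neg (hp t), mul_zero]

theorem ChiW_src (δ e' : ℕ) (hδ : 1 ≤ δ) :
    ∑ t ∈ range δ, ((t : ℤ) + 1) * src δ t e' =
      (e' : ℤ) + 1 - (if 2 * δ ≤ e' then ((e' - δ : ℕ) : ℤ) + 1 else 0) := by
  by_cases h : e' < 2 * δ
  · rw [if_neg (by omega), sub_zero]
    have h1 : ∀ t ∈ range δ, ((t : ℤ) + 1) * src δ t e' =
        ((t : ℤ) + 1) * (if e' = 2 * t then 1 else 0) +
          ((t : ℤ) + 1) * (if e' = 2 * t + 1 then 2 else 0) +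
            ((t : ℤ) + 1) * (if e' = 2 * t + 2 then 1 else 0) := by
      intro t _
      unfold src
      rw [if_pos h]
      ring
    rw [Finset.sum_congr rfl h1, Finset.sum_add_distrib, Finset.sum_add_distrib]
    obtain ⟨b, hb⟩ : ∃ b, e' = 2 * b ∨ e' = 2 * b + 1 := ⟨e' / 2, by omega⟩
    rcases hb with hb | hb
    · rw [ChiW_single δ b (by omega) 1 (fun t => e' = 2 * t) (fun t => by omega),
        ChiW_none δ 2 (fun t => e' = 2 * t + 1) (fun t => by omega)]
      rcases Nat.eq_zero_or_pos b with h0 | h0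
      · rw [ChiW_none δ 1 (fun t => e' = 2 * t + 2) (fun t => by omega)]
        subst h0
        rw [hb]
        norm_num
      · rw [ChiW_single δ (b - 1) (by omega) 1 (fun t => e' = 2 * t + 2) (fun t => by omega), hb]
        push_cast [Nat.cast_sub h0]
        ring
    · rw [ChiW_none δ 1 (fun t => e' = 2 * t) (fun t => by omega),
        ChiW_single δ b (by omega) 2 (fun t => e' = 2 * t + 1) (fun t => by omega),
        ChiW_none δ 1 (fun t => e' = 2 * t + 2) (fun t => by omega), hb]
      push_cast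
      ring
  · rw [if_pos (by omega)]
    have h1 : ∀ t ∈ range δ, ((t : ℤ) + 1) * src δ t e' =
        ((t : ℤ) + 1) * (if t + 1 = δ then 1 else 0) := by
      intro t _
      unfold src
      rw [if_neg h]
    rw [Finset.sum_congr rfl h1,
      ChiW_single δ (δ - 1) (by omega) 1 (fun t => t + 1 = δ) (fun t => by omega)]
    rw [Nat.cast_sub (show δ ≤ e' by omega), Nat.cast_sub hδ]
    push_cast
    ring

theorem pr_ChiW (hB : S_CostB) : S_ChiW := by
  intro ι _ _ d l1 e hl h1 e' he'
  have hb := hB ι d l1 e (fun t => (t : ℤ) + 1) hl h1 e' he'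
  have h2 : ∀ l, ((e' + 1 - d l : ℕ) : ℤ) =
      if d l ≤ e' then ((e' - d l : ℕ) : ℤ) + 1 else 0 := by
    intro l
    by_cases h : d l ≤ e'
    · rw [if_pos h, Nat.cast_sub h, Nat.cast_sub (by omega)]
      push_cast
      ring
    · rw [if_neg h, Nat.sub_eq_zero_of_le (by omega)]
      rfl
  have h3 : ∀ t ∈ range (d l1), ((t : ℤ) + 1) * om d l1 t e' =
      ((t : ℤ) + 1) * src (d l1) t e' - snk d l1 t e' * ((t : ℤ) + 1) := by
    intro t _
    unfold om
    ring
  rw [Finset.sum_congr rfl h3, Finset.sum_sub_distrib, ChiW_src _ _ h1]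
  unfold chi
  rw [Finset.sum_congr rfl fun l _ => h2 l]
  linarith

end Pool.Agent.Work.MP_2ad852_ag.G3

end

section

/-!
# Composition: surjectivity modulo `z ^ k` in degree `e` and modulo `z` in degree `e + 1`
-/

namespace Pool.Agent.Work.MP_2ad852_ag.G3

open MvPolynomial Finset Pool.Agent.Work.MP_2ad852_ag.GF Pool.Agent.Work.MP_2ad852_ag.GS

theorem pr_CompLK (hS : S_Spec) (hO : S_OpenL) : S_CompLK := by
  intro ι _ n z k e d h1 h2
  obtain ⟨P1, hP1, hc1⟩ := hO ι n z k e d h1
  obtain ⟨P2, hP2, hc2⟩ := hO ι n z 1 (e + 1) d h2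
  have hex : ∃ c : ι × (Fin n →₀ ℕ) → ℂ, eval c (P1 * P2) ≠ 0 := by
    by_contra hcon
    push Not at hcon
    exact mul_ne_zero hP1 hP2 (MvPolynomial.funext fun c => by rw [hcon c, map_zero])
  obtain ⟨c, hc⟩ := hex
  rw [map_mul] at hc
  have hs1 := hc1 c (left_ne_zero_of_mul hc)
  have hs2 := hc2 c (right_ne_zero_of_mul hc)
  refine hS ι n z (k + 1) (e + 1) d (sf d c) (sf_hom d c) ?_
  intro h hh
  obtain ⟨g, hg, hmem⟩ := pr_FinSurj ι n z 1 e d (sf d c) (sf_hom d c) hs2 h hh
  obtain ⟨w, hw, u, hu⟩ := hs1 g hg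
  refine ⟨(h - X z ^ 1 * g) + X z * w, Ideal.add_mem _ hmem (Ideal.mul_mem_left _ _ hw), u, ?_⟩
  have : h - ((h - X z ^ 1 * g) + X z * w) = X z * (g - w) := by ring
  rw [this, hu]
  ring

end Pool.Agent.Work.MP_2ad852_ag.G3

end

section

/-!
# Item Core3L of the block G3
-/

namespace Pool.Agent.Work.MP_2ad852_ag.G3

open MvPolynomial Finset Pool.Agent.Work.MP_2ad852_ag.GF Pool.Agent.Work.MP_2ad852_ag.GS

theorem pr_Core3L (hCore2 : S_Core2) (hAdd : S_LeadAdd2) (hEx : S_LeadEx) (hKill : S_TwKill)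
    (hNe : S_TwNe) (hD : S_TwD) (hSpan : S_TwSpan) (hPDE : S_TwPDE) (hHom : S_TwHom)
    (hL : S_LeadSyz2) (hN : S_TwfNe) : S_Core3L := by
  intro ι _ n z y k e d F hyz hF
  refine ⟨IsLead2 z y k e (twF z y k e F), ⟨?_, ?_⟩, ?_, ?_⟩
  · intro q r hq
    exact hAdd n (R2 ι n) z y k e (twF z y k e F) q r hyz hq
  · intro q x hq hxy hxz hqy
    refine hEx n (R2 ι n) z y x k e (twF z y k e F)
      ((pderiv (R := ℂ) (σ := (ι × (Fin n →₀ ℕ)) ⊕ Fin n) (Sum.inr x)).restrictScalars ℤ)
      hyz hxy hxz ?_ q hq hqy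
    intro p _
    exact hPDE ι n z y x k e F hyz hxy hxz p
  · intro l
    refine hL n (R2 ι n) z y k e (d l) (twF z y k e F) (twf z y d l) hyz ?_
      (fun v => hKill ι n z y k e d F hyz hF l v) (hN ι n z y d l hyz)
    exact hHom ι n z y (-1) (d l) _ ((gf_hom d l).map _)
  · refine hCore2 (R2 ι n) ι n z y k e d (twF z y k e F) (twf z y d)
      (fun l b => (pderiv (R := ℂ) (σ := (ι × (Fin n →₀ ℕ)) ⊕ Fin n)
        (Sum.inl (l, b))).restrictScalars ℤ)
      (fun b => twi (ι := ι) z y (monomial b 1)) hyz (hNe ι n z y k e F hyz hF.ne)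
      (hKill ι n z y k e d F hyz hF) ?_ ?_ ?_
    · intro l b hb p
      exact (hD ι n z y d l l b p hb).1
    · intro l l' b hb hne p
      exact (hD ι n z y d l l' b p hb).2 hne
    · intro l hle w hw h
      exact hSpan ι n z y k e (d l) (twF z y k e F) w hyz hle hw h

end Pool.Agent.Work.MP_2ad852_ag.G3

end

section

namespace Pool.Agent.Work.MP_2ad852_ag.G3

open MvPolynomial Finset Pool.Agent.Work.MP_2ad852_ag.GF Pool.Agent.Work.MP_2ad852_ag.GS

theorem pr_CostA (hG : S_gg) (hL : S_Lev) : S_CostA := by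
  intro z y x k e δ m L hyz hxz hxy hcl hδ hμ hme
  obtain ⟨μ, hμz, hμs, hLμ⟩ := hμ
  have hg := hG z y x L hyz hxz hxy hcl m
  set g : ℕ → ℕ := fun t => gg z y x L m t with hgdef
  have h1 : ∀ t, g t ≤ t + 1 := fun t => (hg t).1
  have h3 : ∀ t, g t ≤ t → g (t + 1) ≤ g t := fun t => (hg t).2.2.1
  have h4 : ∀ t, δ ≤ t → g t ≤ t := fun t ht => (hg t).2.2.2 μ hLμ hμz (by omega)
  have hLv := fun t1 t2 h => hL z y x k e m t1 t2 L hyz hxz hxy hcl h
  obtain ⟨e', rfl⟩ : ∃ e', e = m + e' := ⟨e - m, by omega⟩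
  have he' : m + e' - m = e' := by omega
  rw [he']
  set c := ((Bad2 z k (m + e') L).filter (fun p => p z = m)).card with hc
  by_cases hlt : e' < 2 * δ
  · rw [if_neg (by omega), zero_add]
    rcases Nat.even_or_odd' e' with ⟨b, hb | hb⟩
    · -- even
      subst hb
      have hbδ : b < δ := by omega
      have hsum : ∑ t ∈ range δ, src δ t (2 * b) * (gg z y x L m t : ℤ)
          = (g b : ℤ) + (if 1 ≤ b then (g (b - 1) : ℤ) else 0) := by
        have e1 : ∀ t ∈ range δ, src δ t (2 * b) * (gg z y x L m t : ℤ)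
            = (if t = b then (g b : ℤ) else 0) + (if t = b - 1 then
                (if 1 ≤ b then (g (b - 1) : ℤ) else 0) else 0) := by
          intro t ht
          rw [mem_range] at ht
          have hs : src δ t (2 * b) = (if t = b then 1 else 0) +
              (if t + 1 = b then 1 else 0) := by
            unfold src
            rw [if_pos hlt, if_neg (by omega : ¬ (2 * b = 2 * t + 1))]
            congr 1
            · simp only [add_zero]
              by_cases h : t = b
              · rw [if_pos h, if_pos (by omega)]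
              · rw [if_neg h, if_neg (by omega)]
            · by_cases h : t + 1 = b
              · rw [if_pos h, if_pos (by omega)]
              · rw [if_neg h, if_neg (by omega)]
          rw [hs]
          by_cases hb : t = b
          · subst hb
            rw [if_pos rfl, if_neg (by omega), if_pos rfl]
            by_cases h0 : t = t - 1
            · rw [if_pos h0, if_neg (by omega)]; simp [hgdef]
            · rw [if_neg h0]; simp [hgdef]
          · by_cases hb1 : t + 1 = b
            · rw [if_neg hb, if_pos hb1, if_neg hb, if_pos (by omega), if_pos (by omega)]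
              have : b - 1 = t := by omega
              rw [this]; simp [hgdef]
            · rw [if_neg hb, if_neg hb1, if_neg hb]
              by_cases h0 : t = b - 1
              · rw [if_pos h0, if_neg (by omega)]; simp
              · rw [if_neg h0]; simp
        rw [sum_congr rfl e1, sum_add_distrib, sum_ite_eq' (range δ) b, sum_ite_eq' (range δ) (b - 1)]
        rw [if_pos (mem_range.2 hbδ), if_pos (mem_range.2 (by omega))]
      rw [hsum]
      obtain ⟨hl1, hl2⟩ := hLv b b (by omega)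
      rcases Nat.lt_or_ge b (g b) with hgb | hgb
      · -- g b = b + 1
        have hgb' : g b = b + 1 := le_antisymm (h1 b) hgb
        have hcc : c ≤ 2 * b + 1 := by rw [hc]; omega
        rcases Nat.eq_zero_or_pos b with hb0 | hb0
        · subst hb0
          rw [if_neg (by omega)]
          omega
        · have hgb1 : g (b - 1) = b := by
            by_contra hne
            have hle : g (b - 1) ≤ b - 1 := by
              have := h1 (b - 1)
              omega
            have := h3 (b - 1) hle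
            rw [Nat.sub_add_cancel hb0] at this
            omega
          rw [if_pos (show 1 ≤ b from hb0)]
          omega
      · have hc2 : c ≤ g b + g b := by rw [hc]; exact hl2 hgb hgb
        rcases Nat.eq_zero_or_pos b with hb0 | hb0
        · subst hb0
          rw [if_neg (by omega)]
          omega
        · rw [if_pos (show 1 ≤ b from hb0)]
          have : g b ≤ g (b - 1) := by
            rcases Nat.lt_or_ge (b - 1) (g (b - 1)) with h | h
            · omega
            · have := h3 (b - 1) h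
              rw [Nat.sub_add_cancel hb0] at this
              exact this
          omega
    · -- odd
      subst hb
      have hbδ : b < δ := by omega
      have hsum : ∑ t ∈ range δ, src δ t (2 * b + 1) * (gg z y x L m t : ℤ)
          = 2 * (g b : ℤ) := by
        have e1 : ∀ t ∈ range δ, src δ t (2 * b + 1) * (gg z y x L m t : ℤ)
            = (if t = b then 2 * (g b : ℤ) else 0) := by
          intro t ht
          have hs : src δ t (2 * b + 1) = (if t = b then 2 else 0) := by
            unfold src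
            rw [if_pos hlt, if_neg (by omega : ¬ (2 * b + 1 = 2 * t)),
              if_neg (by omega : ¬ (2 * b + 1 = 2 * t + 2))]
            simp only [zero_add, add_zero]
            by_cases h : t = b
            · rw [if_pos h, if_pos (by omega)]
            · rw [if_neg h, if_neg (by omega)]
          rw [hs]
          by_cases h : t = b
          · rw [if_pos h, if_pos h, h]
          · rw [if_neg h, if_neg h, zero_mul]
        rw [sum_congr rfl e1, sum_ite_eq' (range δ) b, if_pos (mem_range.2 hbδ)]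
      rw [hsum]
      obtain ⟨hl1, hl2⟩ := hLv b (b + 1) (by omega)
      rcases Nat.lt_or_ge b (g b) with hgb | hgb
      · have hgb' : g b = b + 1 := le_antisymm (h1 b) hgb
        have hcc : c ≤ 2 * b + 2 := by rw [hc]; omega
        omega
      · have h5 := h3 b hgb
        have hc2 : c ≤ g b + g (b + 1) := by
          rw [hc]; exact hl2 hgb (show g (b + 1) ≤ b + 1 by omega)
        omega
  · rw [if_pos (by omega)]
    have hsum : ∑ t ∈ range δ, src δ t e' * (gg z y x L m t : ℤ) = (g (δ - 1) : ℤ) := by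
      have e1 : ∀ t ∈ range δ, src δ t e' * (gg z y x L m t : ℤ)
          = (if t = δ - 1 then (g (δ - 1) : ℤ) else 0) := by
        intro t ht
        unfold src
        rw [if_neg hlt]
        by_cases h : t = δ - 1
        · rw [if_pos (by omega), if_pos h, one_mul, h]
        · rw [if_neg (by omega), if_neg h, zero_mul]
      rw [sum_congr rfl e1, sum_ite_eq' (range δ) (δ - 1), if_pos (mem_range.2 (by omega))]
    rw [hsum]
    obtain ⟨hl1, hl2⟩ := hLv δ (e' - δ) (by omega)
    have hc2 : c ≤ g δ + g (e' - δ) := by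
      rw [hc]; exact hl2 (h4 δ le_rfl) (h4 (e' - δ) (by omega))
    have : g δ ≤ g (δ - 1) := by
      rcases Nat.lt_or_ge (δ - 1) (g (δ - 1)) with h | h
      · have := h4 δ le_rfl
        omega
      · have := h3 (δ - 1) h
        rw [Nat.sub_add_cancel hδ] at this
        exact this
    show (c : ℤ) ≤ (g (e' - δ) : ℤ) + (g (δ - 1) : ℤ)
    omega

end Pool.Agent.Work.MP_2ad852_ag.G3

end

section

/-! Item CostB: reindexing of the second sum. -/

namespace Pool.Agent.Work.MP_2ad852_ag.G3

open MvPolynomial Finset Pool.Agent.Work.MP_2ad852_ag.GF Pool.Agent.Work.MP_2ad852_ag.GS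

theorem CostB_snk {ι : Type} [Fintype ι] [DecidableEq ι] (d : ι → ℕ) (l1 : ι) (e' : ℕ) (g : ℕ → ℤ) :
    ∑ t ∈ range (d l1), snk d l1 t e' * g t =
      ∑ l, ∑ t ∈ range (d l1), if d l + t = e' ∧ ¬ (l = l1 ∧ 2 * d l1 ≤ e') then g t else 0 := by
  rw [Finset.sum_comm]
  refine Finset.sum_congr rfl fun t _ => ?_
  rw [snk, Finset.card_filter]
  push_cast
  rw [Finset.sum_mul]
  refine Finset.sum_congr rfl fun l _ => ?_
  split_ifs <;> simp

theorem CostB_in (a δ e' : ℕ) (P : Prop) [Decidable P] (g : ℕ → ℤ) :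
    (∑ t ∈ range δ, if a + t = e' ∧ P then g t else 0) =
      if P ∧ a ≤ e' ∧ e' < a + δ then g (e' - a) else 0 := by
  by_cases h : P ∧ a ≤ e' ∧ e' < a + δ
  · obtain ⟨hP, h1, h2⟩ := h
    rw [if_pos ⟨hP, h1, h2⟩, Finset.sum_eq_single (e' - a)]
    · rw [if_pos ⟨by omega, hP⟩]
    · intro t _ ht
      rw [if_neg]
      rintro ⟨h3, -⟩
      omega
    · intro h3
      exfalso
      apply h3
      rw [mem_range]
      omega
  · rw [if_neg h]
    refine Finset.sum_eq_zero fun t ht => ?_
    rw [if_neg]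
    rintro ⟨h3, hP⟩
    rw [mem_range] at ht
    exact h ⟨hP, by omega, by omega⟩

theorem pr_CostB : S_CostB := by
  intro ι _ _ d l1 e g h1 h2 e' he
  rw [CostB_snk]
  have hA : (if 2 * d l1 ≤ e' then g (e' - d l1) else 0) =
      ∑ l, if l = l1 then (if 2 * d l1 ≤ e' then g (e' - d l1) else 0) else (0 : ℤ) := by
    rw [Finset.sum_ite_eq' univ l1 (fun _ => if 2 * d l1 ≤ e' then g (e' - d l1) else 0)]
    simp
  rw [hA, ← Finset.sum_add_distrib]
  refine Finset.sum_congr rfl fun l _ => ?_
  rw [CostB_in]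
  by_cases hl : l = l1
  · subst hl
    by_cases h3 : 2 * d l ≤ e'
    · rw [if_pos (by omega), if_pos rfl, if_pos h3, if_neg, add_zero]
      rintro ⟨h4, -⟩
      exact h4 ⟨rfl, h3⟩
    · rw [if_pos rfl, if_neg h3, zero_add]
      by_cases h4 : d l ≤ e'
      · rw [if_pos h4, if_pos ⟨fun h => h3 h.2, h4, by omega⟩]
      · rw [if_neg h4, if_neg (fun h => h4 h.2.1)]
  · rw [if_neg hl, zero_add]
    have h3 := h1 l hl
    by_cases h4 : d l ≤ e'
    · rw [if_pos h4, if_pos ⟨fun h => hl h.1, h4, by omega⟩]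
    · rw [if_neg h4, if_neg (fun h => h4 h.2.1)]

end Pool.Agent.Work.MP_2ad852_ag.G3

end

section

/-!
# Surjectivity in degree `e` without powers of `z` gives it modulo all powers
-/

namespace Pool.Agent.Work.MP_2ad852_ag.G3

open MvPolynomial Finset Pool.Agent.Work.MP_2ad852_ag.GF Pool.Agent.Work.MP_2ad852_ag.GS

/-- a nonzero polynomial over `ℂ` has a nonzero value -/
theorem exists_eval_ne {σ : Type} (P : MvPolynomial σ ℂ) (hP : P ≠ 0) :
    ∃ c : σ → ℂ, eval c P ≠ 0 := by
  by_contra hcon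
  push Not at hcon
  exact hP (MvPolynomial.funext fun c => by rw [hcon c, map_zero])

theorem pr_FullLK (hS : S_Spec) (hO : S_OpenL) : S_FullLK := by
  intro ι _ n z k e d h
  obtain ⟨P, hP, hc⟩ := hO ι n z (e + 1) e d h
  obtain ⟨c, hcP⟩ := exists_eval_ne P hP
  exact hS ι n z k e d (sf d c) (sf_hom d c)
    (pr_Full ι n z k e d (sf d c) (sf_hom d c) (hc c hcP))

end Pool.Agent.Work.MP_2ad852_ag.G3

end

section

/-!
# The Hilbert function of a complete intersection
-/

namespace Pool.Agent.Work.MP_2ad852_ag.G3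

open MvPolynomial Finset Pool.Agent.Work.MP_2ad852_ag.GF Pool.Agent.Work.MP_2ad852_ag.GS

theorem Hc_sum (a c t : ℕ) : Hc a c t = ∑ q ∈ range c, min a (t + 1 - q) := by
  unfold Hc
  rw [Finset.card_filter, Finset.sum_product_right]
  refine Finset.sum_congr rfl fun q _ => ?_
  rw [← Finset.card_filter]
  have h : (range a).filter (fun p => p + q ≤ t) = range (min a (t + 1 - q)) := by
    ext p
    simp only [mem_filter, mem_range]
    omega
  rw [h, card_range]

theorem pr_Hc : S_Hc := by
  refine ⟨fun a c t h => ?_, fun a c t => ?_, fun a c t h => ?_, fun a c t => ?_,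
    fun a c h1 h2 => ?_⟩
  · unfold Hc
    rw [Finset.filter_true_of_mem, card_product, card_range, card_range]
    rintro ⟨p, q⟩ hpq
    simp only [mem_product, mem_range] at hpq
    simp only
    omega
  · rw [Hc_sum, Hc_sum, Finset.sum_range_succ']
    congr 1
    refine Finset.sum_congr rfl fun q _ => ?_
    congr 1
    omega
  · rw [Hc_sum, Hc_sum, Finset.sum_range_succ]
    have : t + 1 - c = 0 := by omega
    rw [this, Nat.min_zero, add_zero]
  · unfold Hc
    refine Finset.card_bij (fun x _ => (x.2, x.1)) ?_ ?_ ?_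
    · rintro ⟨p, q⟩ h
      simp only [mem_filter, mem_product, mem_range] at h ⊢
      omega
    · rintro ⟨p, q⟩ _ ⟨p', q'⟩ _ h
      simp only [Prod.mk.injEq] at h ⊢
      exact ⟨h.2, h.1⟩
    · rintro ⟨p, q⟩ h
      refine ⟨(q, p), ?_, rfl⟩
      simp only [mem_filter, mem_product, mem_range] at h ⊢
      omega
  · unfold Hc
    rw [Finset.card_eq_one]
    refine ⟨(0, 0), ?_⟩
    ext ⟨p, q⟩
    simp only [mem_filter, mem_product, mem_range, mem_singleton, Prod.mk.injEq]
    omega

end Pool.Agent.Work.MP_2ad852_ag.G3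

end

section

namespace Pool.Agent.Work.MP_2ad852_ag.G3

open MvPolynomial Finset Pool.Agent.Work.MP_2ad852_ag.GF Pool.Agent.Work.MP_2ad852_ag.GS

theorem InjCount_fd (t : ℕ) : FiniteDimensional ℂ (VV3 t) := by
  have hle : VV3 t ≤ Submodule.span ℂ
      (((Mt 3 t).image fun p => (monomial p (1 : ℂ) : MvPolynomial (Fin 3) ℂ) :
        Finset (MvPolynomial (Fin 3) ℂ)) : Set (MvPolynomial (Fin 3) ℂ)) := by
    intro u hu
    have hu' : u.IsHomogeneous t := (mem_homogeneousSubmodule _ _).1 hu
    rw [u.as_sum]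
    refine Submodule.sum_mem _ fun p hp => ?_
    have hp' : p ∈ Mt 3 t := by
      rw [isHomogeneous_iff_Mt] at hu'
      exact mem_Mt.mpr (hu' p (by simpa using hp))
    have : (monomial p (coeff p u) : MvPolynomial (Fin 3) ℂ) = coeff p u • monomial p (1 : ℂ) := by
      rw [smul_monomial, smul_eq_mul, mul_one]
    rw [this]
    refine Submodule.smul_mem _ _ (Submodule.subset_span ?_)
    rw [Finset.coe_image]
    exact ⟨p, hp', rfl⟩
  exact Submodule.finiteDimensional_of_le hle

/-- each summand adds at most the relative dimension -/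
theorem InjCount_add {E E' : Type*} [AddCommGroup E] [Module ℂ E] [AddCommGroup E'] [Module ℂ E']
    (φ : E →ₗ[ℂ] E') (V N : Submodule ℂ E) (W : Submodule ℂ E') [FiniteDimensional ℂ V]
    [FiniteDimensional ℂ W] (hNV : N ≤ V) (hNW : N.map φ ≤ W) :
    Module.finrank ℂ ↥(W ⊔ V.map φ) + Module.finrank ℂ N ≤
      Module.finrank ℂ W + Module.finrank ℂ V := by
  obtain ⟨C0, hC0⟩ := Submodule.exists_isCompl N
  set C := C0 ⊓ V with hC
  have h1 : N ⊔ C = V := by
    rw [hC, ← sup_inf_assoc_of_le _ hNV, hC0.sup_eq_top, top_inf_eq]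
  have h2 : N ⊓ C = ⊥ := by
    rw [hC, ← inf_assoc, hC0.inf_eq_bot, bot_inf_eq]
  haveI : FiniteDimensional ℂ N := Submodule.finiteDimensional_of_le hNV
  haveI : FiniteDimensional ℂ C := Submodule.finiteDimensional_of_le (inf_le_right : C0 ⊓ V ≤ V)
  have h3 := Submodule.finrank_sup_add_finrank_inf_eq N C
  rw [h1, h2, finrank_bot, add_zero] at h3
  have h4 : W ⊔ V.map φ = W ⊔ C.map φ := by
    rw [← h1, Submodule.map_sup, ← sup_assoc, sup_eq_left.mpr hNW]
  have h5 : Module.finrank ℂ ↥(W ⊔ C.map φ) ≤ Module.finrank ℂ W + Module.finrank ℂ (C.map φ) :=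
    Submodule.finrank_add_le_finrank_add_finrank W (C.map φ)
  have h6 : Module.finrank ℂ (C.map φ) ≤ Module.finrank ℂ C := Submodule.finrank_map_le φ C
  rw [h4]
  omega

/-- components of elements of the ideal -/
theorem InjCount_comp {κ : Type} (D : κ → ℕ) (F : κ → MvPolynomial (Fin 3) ℂ)
    (hF : ∀ l, (F l).IsHomogeneous (D l)) (t : ℕ) (W : Submodule ℂ (MvPolynomial (Fin 3) ℂ))
    (hW : ∀ l, D l ≤ t → ∀ a : MvPolynomial (Fin 3) ℂ, a.IsHomogeneous (t - D l) → F l * a ∈ W)
    (h : MvPolynomial (Fin 3) ℂ) (hh : h ∈ Ideal.span (Set.range F)) :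
    homogeneousComponent t h ∈ W := by
  have key : ∀ r : MvPolynomial (Fin 3) ℂ, homogeneousComponent t (r * h) ∈ W := by
    refine Submodule.span_induction (p := fun x _ => ∀ r : MvPolynomial (Fin 3) ℂ,
      homogeneousComponent t (r * x) ∈ W) ?_ ?_ ?_ ?_ hh
    · rintro x ⟨l, rfl⟩ r
      rw [mul_comm]
      by_cases hl : D l ≤ t
      · have h1 := hc_mul (D l) (t - D l) (F l) r (hF l)
        rw [Nat.sub_add_cancel hl] at h1
        rw [h1]
        exact hW l hl _ (homogeneousComponent_isHomogeneous _ _)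
      · rw [hc_mul_lt (D l) t (F l) r (hF l) (by omega)]
        exact Submodule.zero_mem _
    · intro r
      rw [mul_zero, map_zero]
      exact Submodule.zero_mem _
    · intro x y _ _ hx hy r
      rw [mul_add, map_add]
      exact Submodule.add_mem _ (hx r) (hy r)
    · intro a x _ hx r
      rw [smul_eq_mul, ← mul_assoc]
      exact hx (r * a)
  have := key 1
  rwa [one_mul] at this

theorem pr_InjCount : S_InjCount := by
  intro ι _ _ z k b v d i j f B hij hf hB hsurj h1 h2 h3 hnum g hg hgz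
  by_contra hcon
  set e := b + k with he
  set M : Finset ι := Finset.univ.filter (fun m => m ≠ i ∧ m ≠ j ∧ d m ≤ e) with hM
  haveI hfd : ∀ t, FiniteDimensional ℂ (VV3 t) := InjCount_fd
  have hUV : ∀ t, UU3 (f i) (f j) t ≤ VV3 t := fun t => inf_le_left
  haveI hfdU : ∀ t, FiniteDimensional ℂ (UU3 (f i) (f j) t) := fun t =>
    Submodule.finiteDimensional_of_le (hUV t)
  -- the pieces
  let A : ι → Submodule ℂ (MvPolynomial (Fin 3) ℂ) := fun m =>
    (VV3 (e - d m)).map (LinearMap.mulLeft ℂ (f m))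
  have hUmul : ∀ (p : MvPolynomial (Fin 3) ℂ) (s t : ℕ), p.IsHomogeneous s →
      (UU3 (f i) (f j) t).map (LinearMap.mulLeft ℂ p) ≤ UU3 (f i) (f j) (t + s) := by
    rintro p s t hp x ⟨y, hy, rfl⟩
    refine ⟨?_, ?_⟩
    · have hy1 : y.IsHomogeneous t := (mem_homogeneousSubmodule _ _).1 hy.1
      have := hp.mul hy1
      rw [add_comm] at this
      exact (mem_homogeneousSubmodule _ _).2 this
    · exact Ideal.mul_mem_left _ _ hy.2
  have hstep : ∀ s : Finset ι, s ⊆ M →
      FiniteDimensional ℂ ↥(UU3 (f i) (f j) e ⊔ s.sup A) ∧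
      Module.finrank ℂ ↥(UU3 (f i) (f j) e ⊔ s.sup A) ≤
        Module.finrank ℂ (UU3 (f i) (f j) e) + ∑ m ∈ s, Hc (d i) (d j) (e - d m) := by
    intro s
    induction s using Finset.induction_on with
    | empty =>
      intro _
      rw [Finset.sup_empty, sup_bot_eq, Finset.sum_empty, add_zero]
      exact ⟨hfdU e, le_rfl⟩
    | insert m s hms ih =>
      intro hsub
      obtain ⟨ih1, ih2⟩ := ih (fun x hx => hsub (Finset.mem_insert_of_mem hx))
      have hmM : m ∈ M := hsub (Finset.mem_insert_self m s)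
      obtain ⟨-, hm1, hm2, hm3⟩ := Finset.mem_filter.mp hmM
      have e1 : UU3 (f i) (f j) e ⊔ (insert m s).sup A =
          (UU3 (f i) (f j) e ⊔ s.sup A) ⊔ A m := by
        rw [Finset.sup_insert, sup_comm (A m), sup_assoc]
      have e2 := InjCount_add (LinearMap.mulLeft ℂ (f m)) (VV3 (e - d m))
        (UU3 (f i) (f j) (e - d m)) (UU3 (f i) (f j) e ⊔ s.sup A) (hUV _) (by
          refine le_trans (hUmul (f m) (d m) (e - d m) (hf m)) ?_
          rw [Nat.sub_add_cancel hm3]
          exact le_sup_left)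
      have e3 := h3 m hm1 hm2 hm3
      rw [e1, Finset.sum_insert hms]
      refine ⟨?_, ?_⟩
      · haveI : FiniteDimensional ℂ (A m) := inferInstance
        infer_instance
      · show Module.finrank ℂ ↥((UU3 (f i) (f j) e ⊔ s.sup A) ⊔
          (VV3 (e - d m)).map (LinearMap.mulLeft ℂ (f m))) ≤ _
        omega
  obtain ⟨hW1fd, hW1⟩ := hstep M le_rfl
  set W1 := UU3 (f i) (f j) e ⊔ M.sup A with hW1d
  have hcnt : cnt d i j e = ∑ m ∈ M, Hc (d i) (d j) (e - d m) := by
    rw [hM, Finset.sum_filter]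
    rfl
  -- products of the forms
  have hprod : ∀ l, d l ≤ e → ∀ a : MvPolynomial (Fin 3) ℂ, a.IsHomogeneous (e - d l) →
      f l * a ∈ W1 := by
    intro l hl a ha
    have hhom : (f l * a).IsHomogeneous e := by
      have := (hf l).mul ha
      rwa [Nat.add_sub_cancel' hl] at this
    by_cases hli : l = i
    · refine Submodule.mem_sup_left ⟨(mem_homogeneousSubmodule _ _).2 hhom, ?_⟩
      subst hli
      exact Ideal.mul_mem_right _ _ (Ideal.subset_span (by simp))
    by_cases hlj : l = j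
    · refine Submodule.mem_sup_left ⟨(mem_homogeneousSubmodule _ _).2 hhom, ?_⟩
      subst hlj
      exact Ideal.mul_mem_right _ _ (Ideal.subset_span (by simp))
    refine Submodule.mem_sup_right ?_
    have hlM : l ∈ M := Finset.mem_filter.mpr ⟨Finset.mem_univ _, hli, hlj, hl⟩
    exact (Finset.le_sup (f := A) hlM) ⟨a, (mem_homogeneousSubmodule _ _).2 ha, rfl⟩
  have hzg : X z ^ k * g ∈ W1 := by
    have e4 : homogeneousComponent e (X z ^ k * g) = X z ^ k * g := by
      have h5 : ((X z : MvPolynomial (Fin 3) ℂ) ^ k * g).IsHomogeneous e := by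
        have := (X_pow_hom (R := ℂ) z k).mul hg
        rwa [add_comm k b] at this
      rw [homogeneousComponent_of_mem ((mem_homogeneousSubmodule _ _).2 h5), if_pos rfl]
    rw [← e4]
    exact InjCount_comp d f hf e W1 hprod _ hgz
  -- the powers of z
  have hgU : g ∉ UU3 (f i) (f j) b := by
    intro h
    refine hcon (Ideal.span_mono ?_ h.2)
    rintro x (rfl | rfl)
    · exact ⟨i, rfl⟩
    · exact ⟨j, rfl⟩
  set N2 := UU3 (f i) (f j) b ⊔ Submodule.span ℂ {g} with hN2
  have hN2V : N2 ≤ VV3 b := by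
    refine sup_le (hUV b) ?_
    rw [Submodule.span_le]
    rintro x rfl
    exact (mem_homogeneousSubmodule _ _).2 hg
  haveI hN2fd : FiniteDimensional ℂ N2 := Submodule.finiteDimensional_of_le hN2V
  have hN2r : Module.finrank ℂ (UU3 (f i) (f j) b) + 1 ≤ Module.finrank ℂ N2 := by
    refine Submodule.finrank_lt_finrank_of_lt (lt_of_le_of_ne le_sup_left ?_)
    intro h
    apply hgU
    rw [h]
    exact Submodule.mem_sup_right (Submodule.mem_span_singleton_self g)
  have e5 := InjCount_add (LinearMap.mulLeft ℂ ((X z : MvPolynomial (Fin 3) ℂ) ^ k)) (VV3 b) N2 W1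
    hN2V (by
      rw [hN2, Submodule.map_sup]
      refine sup_le (le_trans (hUmul _ k b (X_pow_hom z k)) le_sup_left) ?_
      rw [Submodule.map_span, Submodule.span_le]
      rintro x ⟨y, rfl, rfl⟩
      exact hzg)
  set W2 := W1 ⊔ (VV3 b).map (LinearMap.mulLeft ℂ ((X z : MvPolynomial (Fin 3) ℂ) ^ k)) with hW2
  haveI hW2fd : FiniteDimensional ℂ W2 := by
    rw [hW2]
    infer_instance
  set W3 := W2 ⊔ Submodule.span ℂ (Set.range B) with hW3
  haveI hBfd : FiniteDimensional ℂ (Submodule.span ℂ (Set.range B)) :=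
    FiniteDimensional.span_of_finite ℂ (Set.finite_range B)
  haveI hW3fd : FiniteDimensional ℂ W3 := by
    rw [hW3]
    infer_instance
  have e6 : Module.finrank ℂ W3 ≤ Module.finrank ℂ W2 + v := by
    refine le_trans (Submodule.finrank_add_le_finrank_add_finrank W2 _) ?_
    have := finrank_range_le_card (R := ℂ) B
    rw [Fintype.card_fin] at this
    exact Nat.add_le_add_left this _
  have e7 : VV3 e ≤ W3 := by
    intro h hh
    have hh' : h.IsHomogeneous e := (mem_homogeneousSubmodule _ _).1 hh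
    obtain ⟨w, hw, q, hq⟩ := hsurj h hh'
    have e8 : homogeneousComponent e w ∈ W3 := by
      refine InjCount_comp (Sum.elim d fun _ => e) (Sum.elim f B) ?_ e W3 ?_ w hw
      · rintro (l | l)
        · exact hf l
        · exact hB l
      · rintro (l | l) hl a ha
        · exact Submodule.mem_sup_left (Submodule.mem_sup_left (hprod l hl a ha))
        · refine Submodule.mem_sup_right ?_
          have ha' : a.IsHomogeneous 0 := by
            have : e - Sum.elim d (fun _ : Fin v => e) (Sum.inr l) = 0 := Nat.sub_self e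
            rwa [this] at ha
          have ha2 := (totalDegree_eq_zero_iff_eq_C (p := a)).mp
            (Nat.le_zero.mp ha'.totalDegree_le)
          rw [ha2]
          show B l * C _ ∈ _
          rw [mul_comm, ← smul_eq_C_mul]
          exact Submodule.smul_mem _ _ (Submodule.subset_span ⟨l, rfl⟩)
    have e9 : h = homogeneousComponent e w + X z ^ k * homogeneousComponent b q := by
      have h5 : h = w + X z ^ k * q := by
        rw [← hq]
        ring
      have h6 : homogeneousComponent e h = h := by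
        rw [homogeneousComponent_of_mem hh, if_pos rfl]
      rw [← h6]
      conv_lhs => rw [h5]
      rw [map_add, he, hc_mul k b _ q (X_pow_hom z k)]
    rw [e9]
    refine Submodule.add_mem _ e8 (Submodule.mem_sup_left (Submodule.mem_sup_right ?_))
    exact ⟨_, homogeneousComponent_mem b q, rfl⟩
  have e10 : Module.finrank ℂ (VV3 e) ≤ Module.finrank ℂ W3 := Submodule.finrank_mono e7
  rw [hcnt] at hnum
  omega

end Pool.Agent.Work.MP_2ad852_ag.G3

end

section

/-!
# Block G3, item Koszul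
-/

namespace Pool.Agent.Work.MP_2ad852_ag.G3

open MvPolynomial Finset Pool.Agent.Work.MP_2ad852_ag.GF Pool.Agent.Work.MP_2ad852_ag.GS

/-- number of monomials of degree `t - a` -/
def Kz_N (t a : ℕ) : ℕ :=
  ((range (t + 1) ×ˢ range (t + 1)).filter (fun pq => a + pq.1 + pq.2 ≤ t)).card

theorem Kz_N_Mt (t a s : ℕ) (h : s + a = t) : (Mt 3 s).card = Kz_N t a := by
  unfold Kz_N
  apply Finset.card_nbij' (fun p => (p 0, p 1))
    (fun pq => Finsupp.single 0 pq.1 + Finsupp.single 1 pq.2 +
      Finsupp.single 2 (s - pq.1 - pq.2))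
  · intro p hp
    have hp' := (mem_Mt.1 (by simpa using hp) : ∑ i, p i = s)
    rw [Fin.sum_univ_three] at hp'
    simp only [Finset.coe_filter, Finset.mem_product, Finset.mem_range, Set.mem_ofPred_eq]
    refine ⟨⟨?_, ?_⟩, ?_⟩ <;> omega
  · rintro ⟨p, q⟩ hpq
    simp only [Finset.coe_filter, Finset.mem_product, Finset.mem_range, Set.mem_ofPred_eq] at hpq
    obtain ⟨-, hpq⟩ := hpq
    have : (Finsupp.single (0 : Fin 3) p + Finsupp.single 1 q +
        Finsupp.single 2 (s - p - q)) ∈ Mt 3 s := by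
      rw [mem_Mt, Fin.sum_univ_three]
      simp
      omega
    simpa using this
  · intro p hp
    have hp' := (mem_Mt.1 (by simpa using hp) : ∑ i, p i = s)
    rw [Fin.sum_univ_three] at hp'
    ext i
    fin_cases i
    · simp
    · simp
    · simp
      omega
  · rintro ⟨p, q⟩ hpq
    simp

theorem Kz_fd (s : ℕ) : FiniteDimensional ℂ (VV3 s) := by
  have h := MvPolynomial.homogeneousSubmodule_fg (σ := Fin 3) (R := ℂ) s
  exact Module.Finite.iff_fg.2 h

theorem Kz_finrank (s : ℕ) : Module.finrank ℂ (VV3 s) = (Mt 3 s).card := by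
  have h1 : VV3 s = AddMonoidAlgebra.supported ℂ ℂ ((Mt 3 s : Finset (Fin 3 →₀ ℕ)) :
      Set (Fin 3 →₀ ℕ)) := by
    unfold VV3
    rw [homogeneousSubmodule_eq_finsupp_supported]
    congr 1
    ext p
    simp [mem_Mt, sum_eq_degree]
  have e := (LinearEquiv.ofEq _ _ h1).trans (AddMonoidAlgebra.supportedEquivFinsupp
    (R := ℂ) (S := ℂ) ((Mt 3 s : Finset (Fin 3 →₀ ℕ)) : Set (Fin 3 →₀ ℕ)))
  rw [e.finrank_eq, Module.finrank_finsupp_self]
  simp

/-- forms of degree `t - a` -/
noncomputable def Kz_V (t a : ℕ) : Submodule ℂ (MvPolynomial (Fin 3) ℂ) :=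
  if a ≤ t then VV3 (t - a) else ⊥

theorem Kz_V_pos {t a : ℕ} (h : a ≤ t) : Kz_V t a = VV3 (t - a) := by
  simp [Kz_V, h]

theorem Kz_V_neg {t a : ℕ} (h : ¬ a ≤ t) : Kz_V t a = ⊥ := by
  simp [Kz_V, h]

instance Kz_V_fd (t a : ℕ) : FiniteDimensional ℂ (Kz_V t a) := by
  by_cases h : a ≤ t
  · rw [Kz_V_pos h]
    exact Kz_fd _
  · rw [Kz_V_neg h]
    infer_instance

theorem Kz_V_finrank (t a : ℕ) : Module.finrank ℂ (Kz_V t a) = Kz_N t a := by
  by_cases h : a ≤ t
  · rw [Kz_V_pos h, Kz_finrank, Kz_N_Mt t a (t - a) (by omega)]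
  · rw [Kz_V_neg h, finrank_bot]
    symm
    unfold Kz_N
    rw [Finset.card_eq_zero, Finset.filter_eq_empty_iff]
    rintro ⟨p, q⟩ -
    simp only
    omega

theorem Kz_V_mem {t a : ℕ} (h : a ≤ t) (p : MvPolynomial (Fin 3) ℂ) :
    p ∈ Kz_V t a ↔ p.IsHomogeneous (t - a) := by
  simp [Kz_V, h, VV3]

theorem Kz_V_zero {t a : ℕ} (h : ¬ a ≤ t) (p : MvPolynomial (Fin 3) ℂ) :
    p ∈ Kz_V t a ↔ p = 0 := by
  simp [Kz_V, h]

theorem Kz_mul {t a c : ℕ} (g p : MvPolynomial (Fin 3) ℂ) (hg : g.IsHomogeneous c)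
    (hp : p ∈ Kz_V t (a + c)) : g * p ∈ Kz_V t a := by
  by_cases h : a + c ≤ t
  · rw [Kz_V_mem h] at hp
    rw [Kz_V_mem (by omega)]
    have := hg.mul hp
    rwa [show c + (t - (a + c)) = t - a by omega] at this
  · rw [Kz_V_zero h] at hp
    rw [hp, mul_zero]
    exact Submodule.zero_mem _

theorem Kz_count (a c t : ℕ) :
    Kz_N t a + Kz_N t c + Hc a c t = Kz_N t 0 + Kz_N t (a + c) := by
  classical
  set T : Finset (ℕ × ℕ) := (range (t + 1) ×ˢ range (t + 1)).filter
    (fun pq => 0 + pq.1 + pq.2 ≤ t) with hT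
  have memT : ∀ pq : ℕ × ℕ, pq ∈ T ↔ pq.1 + pq.2 ≤ t := by
    rintro ⟨p, q⟩
    rw [hT]
    simp only [Finset.mem_filter, Finset.mem_product, Finset.mem_range]
    constructor
    · rintro ⟨_, h⟩; omega
    · intro h; refine ⟨⟨?_, ?_⟩, ?_⟩ <;> omega
  have hA : Kz_N t a = (T.filter (fun pq => a ≤ pq.1)).card := by
    unfold Kz_N
    apply Finset.card_nbij' (fun pq => (pq.1 + a, pq.2)) (fun pq => (pq.1 - a, pq.2))
    · rintro ⟨p, q⟩ h
      simp only [Finset.coe_filter, Finset.mem_product, Finset.mem_range, Set.mem_ofPred_eq,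
        memT] at h ⊢
      omega
    · rintro ⟨p, q⟩ h
      simp only [Finset.coe_filter, Finset.mem_product, Finset.mem_range, Set.mem_ofPred_eq,
        memT] at h ⊢
      omega
    · rintro ⟨p, q⟩ h
      simp
    · rintro ⟨p, q⟩ h
      simp only [Finset.coe_filter, Set.mem_ofPred_eq, memT] at h
      simp only [Prod.mk.injEq, and_true]
      omega
  have hB : Kz_N t c = (T.filter (fun pq => c ≤ pq.2)).card := by
    unfold Kz_N
    apply Finset.card_nbij' (fun pq => (pq.1, pq.2 + c)) (fun pq => (pq.1, pq.2 - c))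
    · rintro ⟨p, q⟩ h
      simp only [Finset.coe_filter, Finset.mem_product, Finset.mem_range, Set.mem_ofPred_eq,
        memT] at h ⊢
      omega
    · rintro ⟨p, q⟩ h
      simp only [Finset.coe_filter, Finset.mem_product, Finset.mem_range, Set.mem_ofPred_eq,
        memT] at h ⊢
      omega
    · rintro ⟨p, q⟩ h
      simp
    · rintro ⟨p, q⟩ h
      simp only [Finset.coe_filter, Set.mem_ofPred_eq, memT] at h
      simp only [Prod.mk.injEq, true_and]
      omega
  have hAB : Kz_N t (a + c) =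
      (T.filter (fun pq => a ≤ pq.1) ∩ T.filter (fun pq => c ≤ pq.2)).card := by
    unfold Kz_N
    apply Finset.card_nbij' (fun pq => (pq.1 + a, pq.2 + c)) (fun pq => (pq.1 - a, pq.2 - c))
    · rintro ⟨p, q⟩ h
      simp only [Finset.coe_filter, Finset.mem_product, Finset.mem_range, Set.mem_ofPred_eq,
        memT, Finset.coe_inter, Set.mem_inter_iff] at h ⊢
      omega
    · rintro ⟨p, q⟩ h
      simp only [Finset.coe_filter, Finset.mem_product, Finset.mem_range, Set.mem_ofPred_eq,
        memT, Finset.coe_inter, Set.mem_inter_iff] at h ⊢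
      omega
    · rintro ⟨p, q⟩ h
      simp
    · rintro ⟨p, q⟩ h
      simp only [Finset.coe_filter, Finset.coe_inter, Set.mem_inter_iff, Set.mem_ofPred_eq,
        memT] at h
      simp only [Prod.mk.injEq]
      omega
  have hH : Hc a c t = (T \ (T.filter (fun pq => a ≤ pq.1) ∪
      T.filter (fun pq => c ≤ pq.2))).card := by
    unfold Hc
    congr 1
    ext ⟨p, q⟩
    simp only [Finset.mem_filter, Finset.mem_product, Finset.mem_range, Finset.mem_sdiff,
      Finset.mem_union, memT]
    omega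
  have hsub : T.filter (fun pq => a ≤ pq.1) ∪ T.filter (fun pq => c ≤ pq.2) ⊆ T :=
    Finset.union_subset (Finset.filter_subset _ _) (Finset.filter_subset _ _)
  have h0 : Kz_N t 0 = T.card := rfl
  have e1 := Finset.card_union_add_card_inter (T.filter (fun pq => a ≤ pq.1))
    (T.filter (fun pq => c ≤ pq.2))
  have e2 := Finset.card_sdiff_add_card_eq_card hsub
  omega

/-- the multiplication map -/
noncomputable def Kz_Phi (f g : MvPolynomial (Fin 3) ℂ) (a c t : ℕ) :
    (Kz_V t a × Kz_V t c) →ₗ[ℂ] MvPolynomial (Fin 3) ℂ :=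
  (LinearMap.mulLeft ℂ f ∘ₗ (Kz_V t a).subtype ∘ₗ LinearMap.fst ℂ _ _) +
    (LinearMap.mulLeft ℂ g ∘ₗ (Kz_V t c).subtype ∘ₗ LinearMap.snd ℂ _ _)

theorem Kz_Phi_apply (f g : MvPolynomial (Fin 3) ℂ) (a c t : ℕ) (x : Kz_V t a × Kz_V t c) :
    Kz_Phi f g a c t x = f * (x.1 : MvPolynomial (Fin 3) ℂ) + g * (x.2 : MvPolynomial (Fin 3) ℂ) :=
  rfl

theorem Kz_comp (f u : MvPolynomial (Fin 3) ℂ) (a t : ℕ) (hf : f.IsHomogeneous a) :
    ∃ u' ∈ Kz_V t a, homogeneousComponent t (f * u) = f * u' := by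
  by_cases h : a ≤ t
  · refine ⟨homogeneousComponent (t - a) u, ?_, ?_⟩
    · rw [Kz_V_mem h]
      exact homogeneousComponent_isHomogeneous _ _
    · have := hc_mul a (t - a) f u hf
      rwa [show t - a + a = t by omega] at this
  · refine ⟨0, Submodule.zero_mem _, ?_⟩
    rw [hc_mul_lt a t f u hf (by omega), mul_zero]

theorem pr_Koszul : S_Koszul := by
  intro a c t f g hf hg hf0 hg0
  have hle : UU3 f g t ≤ LinearMap.range (Kz_Phi f g a c t) := by
    intro h hh
    obtain ⟨h1, h2⟩ := Submodule.mem_inf.1 hh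
    have h2' : h ∈ Ideal.span ({f, g} : Set (MvPolynomial (Fin 3) ℂ)) := h2
    obtain ⟨u, w, huw⟩ := Ideal.mem_span_pair.1 h2'
    obtain ⟨u', hu', eu⟩ := Kz_comp f u a t hf
    obtain ⟨w', hw', ew⟩ := Kz_comp g w c t hg
    refine ⟨(⟨u', hu'⟩, ⟨w', hw'⟩), ?_⟩
    rw [Kz_Phi_apply]
    simp only
    rw [← eu, ← ew, ← map_add, mul_comm f u, mul_comm g w, huw]
    rw [homogeneousComponent_of_mem h1, if_pos rfl]
  have hker : Module.finrank ℂ (Kz_V t (a + c)) ≤
      Module.finrank ℂ (LinearMap.ker (Kz_Phi f g a c t)) := by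
    have m1 : ∀ p : Kz_V t (a + c), g * (p : MvPolynomial (Fin 3) ℂ) ∈ Kz_V t a :=
      fun p => Kz_mul g p hg p.2
    have m2 : ∀ p : Kz_V t (a + c), -f * (p : MvPolynomial (Fin 3) ℂ) ∈ Kz_V t c := by
      intro p
      apply Kz_mul (-f) p hf.neg
      rw [add_comm c a]
      exact p.2
    let P1 : Kz_V t (a + c) →ₗ[ℂ] Kz_V t a :=
      LinearMap.codRestrict (Kz_V t a) (LinearMap.mulLeft ℂ g ∘ₗ (Kz_V t (a + c)).subtype) m1
    let P2 : Kz_V t (a + c) →ₗ[ℂ] Kz_V t c :=
      LinearMap.codRestrict (Kz_V t c) (LinearMap.mulLeft ℂ (-f) ∘ₗ (Kz_V t (a + c)).subtype) m2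
    have m3 : ∀ p, (P1.prod P2) p ∈ LinearMap.ker (Kz_Phi f g a c t) := by
      intro p
      rw [LinearMap.mem_ker, Kz_Phi_apply]
      change f * (g * (p : MvPolynomial (Fin 3) ℂ)) + g * (-f * (p : MvPolynomial (Fin 3) ℂ)) = 0
      ring
    let P3 := LinearMap.codRestrict (LinearMap.ker (Kz_Phi f g a c t)) (P1.prod P2) m3
    have inj : Function.Injective P3 := by
      rw [injective_iff_map_eq_zero]
      intro p hp
      have h1 : (P1.prod P2) p = 0 := congrArg Subtype.val hp
      have h2 : P1 p = 0 := congrArg Prod.fst h1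
      have h3 : g * (p : MvPolynomial (Fin 3) ℂ) = 0 := congrArg Subtype.val h2
      rcases mul_eq_zero.1 h3 with h | h
      · exact absurd h hg0
      · exact Subtype.ext h
    exact LinearMap.finrank_le_finrank_of_injective inj
  have hrk := LinearMap.finrank_range_add_finrank_ker (Kz_Phi f g a c t)
  rw [Module.finrank_prod, Kz_V_finrank, Kz_V_finrank] at hrk
  rw [Kz_V_finrank] at hker
  have hUU : Module.finrank ℂ (UU3 f g t) ≤
      Module.finrank ℂ (LinearMap.range (Kz_Phi f g a c t)) := Submodule.finrank_mono hle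
  have hcount := Kz_count a c t
  have hV : Module.finrank ℂ (VV3 t) = Kz_N t 0 := by
    rw [Kz_finrank, Kz_N_Mt t 0 t (by omega)]
  rw [hV]
  omega

end Pool.Agent.Work.MP_2ad852_ag.G3

end

section

/-!
# Layer: layer cake
-/

namespace Pool.Agent.Work.MP_2ad852_ag.G3

open Finset

theorem Layer_range (S : Finset ℕ) (h : ∀ m ∈ S, ∀ m' ≤ m, m' ∈ S) : S = range S.card := by
  apply Finset.eq_of_subset_of_card_le
  · intro m hm
    have : range (m + 1) ⊆ S := by
      intro m' hm'
      rw [Finset.mem_range] at hm'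
      exact h m hm m' (by omega)
    have := Finset.card_le_card this
    rw [Finset.card_range] at this
    rw [Finset.mem_range]
    omega
  · rw [Finset.card_range]

theorem Layer_point (N R : ℕ) (w : ℤ) (hR : R ≤ N) :
    w * R = ∑ θ ∈ range N, if θ < R then w else 0 := by
  rw [← Finset.sum_filter, Finset.sum_const]
  have : (range N).filter (fun θ => θ < R) = range R := by
    ext θ
    simp only [mem_filter, mem_range]
    omega
  rw [this, Finset.card_range, nsmul_eq_mul]
  ring

theorem pr_Layer : S_Layer := by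
  intro T M N w R B h1 h2 h3 h4
  classical
  let X : ℕ → ℕ → ℕ := fun θ t =>
    if t < T then ((range M).filter (fun m => θ < R t m)).card else 0
  have hset : ∀ θ t, t < T → (range M).filter (fun m => θ < R t m) = range (X θ t) := by
    intro θ t ht
    have := Layer_range ((range M).filter (fun m => θ < R t m)) (by
      intro m hm m' hm'
      rw [mem_filter, mem_range] at hm ⊢
      exact ⟨lt_of_le_of_lt hm' hm.1, lt_of_lt_of_le hm.2 (h3 t m' m ht hm' hm.1)⟩)
    simp only [X, if_pos ht]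
    exact this
  have hle : ∀ θ, ∑ t ∈ range T, ∑ m ∈ range (X θ t), w t m ≤ B := by
    intro θ
    apply h4
    · intro t
      simp only [X]
      split_ifs
      · exact (Finset.card_filter_le _ _).trans (by rw [card_range])
      · exact Nat.zero_le _
    · intro t t' htt' ht'
      have ht : t < T := lt_of_le_of_lt htt' ht'
      simp only [X, if_pos ht, if_pos ht']
      apply Finset.card_le_card
      intro m hm
      rw [mem_filter, mem_range] at hm ⊢
      exact ⟨hm.1, lt_of_lt_of_le hm.2 (h2 t t' m htt' ht' hm.1)⟩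
  calc ∑ t ∈ range T, ∑ m ∈ range M, w t m * R t m
      = ∑ t ∈ range T, ∑ m ∈ range M, ∑ θ ∈ range N, (if θ < R t m then w t m else 0) := by
        refine Finset.sum_congr rfl fun t ht => Finset.sum_congr rfl fun m hm => ?_
        exact Layer_point N _ _ (h1 t m (mem_range.mp ht) (mem_range.mp hm))
    _ = ∑ t ∈ range T, ∑ θ ∈ range N, ∑ m ∈ range M, (if θ < R t m then w t m else 0) :=
        Finset.sum_congr rfl fun t _ => Finset.sum_comm
    _ = ∑ θ ∈ range N, ∑ t ∈ range T, ∑ m ∈ range M, (if θ < R t m then w t m else 0) :=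
        Finset.sum_comm
    _ = ∑ θ ∈ range N, ∑ t ∈ range T, ∑ m ∈ range (X θ t), w t m := by
        refine Finset.sum_congr rfl fun θ _ => Finset.sum_congr rfl fun t ht => ?_
        rw [← Finset.sum_filter, hset θ t (mem_range.mp ht)]
    _ ≤ ∑ θ ∈ range N, B := Finset.sum_le_sum fun θ _ => hle θ
    _ = N * B := by
        rw [Finset.sum_const, Finset.card_range, nsmul_eq_mul]

end Pool.Agent.Work.MP_2ad852_ag.G3

end

section

/-!
# LeadSyz2: a homogeneous annihilator with a monomial without `z` has a leading exponent without `z`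
-/

namespace Pool.Agent.Work.MP_2ad852_ag.G3

open MvPolynomial Finset Pool.Agent.Work.MP_2ad852_ag.GF Pool.Agent.Work.MP_2ad852_ag.GS

theorem pr_LeadSyz2 : S_LeadSyz2 := by
  intro n R _ _ z y k e m F u hy hu hann hex
  obtain ⟨p, hpz, hp⟩ := hex
  have hne : u.support.Nonempty := ⟨p, mem_support_iff.2 hp⟩
  obtain ⟨μ, hμ, hmax⟩ := Finset.exists_max_image u.support (fun q => key2 z y q) hne
  have hdeg := (isHomogeneous_iff_Mt u m).1 hu
  have hμc : coeff μ u ≠ 0 := mem_support_iff.1 hμ
  have hμm := hdeg μ hμc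
  have hpm := hdeg p hp
  have hle : key2 z y p ≤ key2 z y μ := hmax p (mem_support_iff.2 hp)
  have hμz : μ z = 0 := by
    have := (K2_le z y p μ hy (hpm.trans hμm.symm) hle).1
    omega
  refine ⟨μ, hμz, hμm, u, ?_, hann, hμc, ?_⟩
  · rw [hμm]; exact hu
  · intro q hq
    exact hmax q (mem_support_iff.2 hq)

end Pool.Agent.Work.MP_2ad852_ag.G3

end

section

namespace Pool.Agent.Work.MP_2ad852_ag.G3

open MvPolynomial Finset Pool.Agent.Work.MP_2ad852_ag.GF Pool.Agent.Work.MP_2ad852_ag.GS

namespace LevAux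

theorem sum3 {z y x : Fin 3} (h1 : y ≠ z) (h2 : x ≠ z) (h3 : x ≠ y) (f : Fin 3 → ℕ) :
    ∑ i, f i = f z + f y + f x := by
  rw [Fin.sum_univ_three]
  fin_cases z <;> fin_cases y <;> fin_cases x <;> simp_all <;> omega

theorem cases3 {z y x : Fin 3} (h1 : y ≠ z) (h2 : x ≠ z) (h3 : x ≠ y) (i : Fin 3) :
    i = z ∨ i = y ∨ i = x := by
  fin_cases z <;> fin_cases y <;> fin_cases x <;> fin_cases i <;> simp_all

theorem mo_z {z y x : Fin 3} (h1 : y ≠ z) (h2 : x ≠ z) (m i j : ℕ) : mo z y x m i j z = m := by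
  simp [mo, h1, h2]

theorem mo_y {z y x : Fin 3} (h1 : y ≠ z) (h3 : x ≠ y) (m i j : ℕ) : mo z y x m i j y = i := by
  simp [mo, h1.symm, h3]

theorem mo_x {z y x : Fin 3} (h2 : x ≠ z) (h3 : x ≠ y) (m i j : ℕ) : mo z y x m i j x = j := by
  simp [mo, h2.symm, h3.symm]

end LevAux

open LevAux in
theorem pr_Lev (hT : S_Thr) : S_Lev := by
  intro z y x k e m t1 t2 L h1 h2 h3 hC he
  classical
  have hmem : ∀ p ∈ (Bad2 z k e L).filter (fun p => p z = m),
      p z = m ∧ p y + p x = t1 + t2 ∧ NoPair z L p := by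
    intro p hp
    rw [Finset.mem_filter] at hp
    have hb := hp.1
    unfold Bad2 at hb
    rw [Finset.mem_filter, mem_Mk, sum3 h1 h2 h3] at hb
    refine ⟨hp.2, ?_, hb.2⟩
    have := hb.1.1
    omega
  have hinj : Set.InjOn (fun p : Fin 3 →₀ ℕ => p y)
      ((Bad2 z k e L).filter (fun p => p z = m) : Finset (Fin 3 →₀ ℕ)) := by
    intro p hp q hq hpq
    have hp' := hmem p hp
    have hq' := hmem q hq
    change p y = q y at hpq
    ext i
    rcases cases3 h1 h2 h3 i with rfl | rfl | rfl
    · rw [hp'.1, hq'.1]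
    · exact hpq
    · omega
  refine ⟨?_, fun hg1 hg2 => ?_⟩
  · have h := Finset.card_le_card_of_injOn (t := range (t1 + t2 + 1)) (fun p : Fin 3 →₀ ℕ => p y)
      (fun p hp => by
        have hp' := hmem p hp
        have : p y < t1 + t2 + 1 := by omega
        exact Finset.mem_coe.2 (Finset.mem_range.2 this)) hinj
    rwa [Finset.card_range] at h
  · have h := Finset.card_le_card_of_injOn
      (t := Finset.Ioc (t1 + t2 - (gg z y x L m t1 + gg z y x L m t2)) (t1 + t2))
      (fun p : Fin 3 →₀ ℕ => p y)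
      (fun p hp => by
        have hp' := hmem p hp
        refine Finset.mem_coe.2 (Finset.mem_Ioc.2 ⟨?_, by change p y ≤ _; omega⟩)
        change _ < p y
        by_contra hlt
        rw [not_lt] at hlt
        obtain ⟨i1, i2, hi, hi1, hi2⟩ : ∃ i1 i2, i1 + i2 = p y ∧ i1 + gg z y x L m t1 ≤ t1 ∧
            i2 + gg z y x L m t2 ≤ t2 := by
          refine ⟨min (p y) (t1 - gg z y x L m t1), p y - min (p y) (t1 - gg z y x L m t1),
            ?_, ?_, ?_⟩ <;> omega
        have hL1 := (hT z y x L h1 h2 h3 hC m t1 i1 (by omega)).2 hi1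
        have hL2 := (hT z y x L h1 h2 h3 hC m t2 i2 (by omega)).2 hi2
        refine hp'.2.2 _ _ hL1 hL2 (by rw [mo_z h1 h2, hp'.1]) (by rw [mo_z h1 h2, hp'.1]) ?_
        intro i
        rcases cases3 h1 h2 h3 i with rfl | rfl | rfl
        · rw [Finsupp.add_apply, Finsupp.add_apply, mo_z h1 h2, mo_z h1 h2,
            Finsupp.single_eq_same, hp'.1]
        · rw [Finsupp.add_apply, Finsupp.add_apply, mo_y h1 h3, mo_y h1 h3,
            Finsupp.single_eq_of_ne h1]
          omega
        · rw [Finsupp.add_apply, Finsupp.add_apply, mo_x h2 h3, mo_x h2 h3,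
            Finsupp.single_eq_of_ne h2]
          omega) hinj
    rw [Nat.card_Ioc] at h
    omega

end Pool.Agent.Work.MP_2ad852_ag.G3

end
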