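import Mathlib
import Pool.Agent.Work.MP_2ad852_ag.G3.Stmts
import Pool.Agent.Work.MP_2ad852_ag.Bd.B01
import Pool.Agent.Work.MP_2ad852_ag.GF.Basics

/-! Bundle of small proof modules (one section per former module). -/

section

/-!
# Item N1
-/

namespace Pool.Agent.Work.MP_2ad852_ag.G3

open MvPolynomial Finset Pool.Agent.Work.MP_2ad852_ag.GF Pool.Agent.Work.MP_2ad852_ag.GS

theorem noLK_zero {ι : Type} {n : ℕ} {z : Fin n} {e : ℕ} {d : ι → ℕ} : ¬ LK z 0 e d := by
  rintro ⟨F, hF⟩
  obtain ⟨p, hp, _⟩ := hF.ne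
  rw [mem_Mk] at hp
  exact absurd hp.2 (Nat.not_lt_zero _)

theorem pr_N1 (hT : S_TP) (hNum : S_N1Num) (hC : S_CompLK) (hB : S_BinLK) : S_N1 := by
  intro ι _ _ z k b d i j l hij hli hlj hd hmin hk hl
  have chain : ∀ n, ¬ LK z n (b + n) d → d i + d j ≤ b + n + 2 →
      ∀ s, ¬ LK z (n + s) (b + (n + s)) d := by
    intro n hn hdn s
    induction s with
    | zero => exact hn
    | succ s ih =>
      have h1 : ¬ LK z 1 (b + (n + s) + 1) d := hB ι z _ d i j hij (by omega)
      exact hC ι 3 z (n + s) (b + (n + s)) d ih h1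
  rcases Nat.lt_or_ge (b + 2) (d i + d j) with h | h
  · obtain ⟨n, hn⟩ : ∃ n, b + n + 2 = d i + d j := ⟨d i + d j - 2 - b, by omega⟩
    have h1 : ¬ LK z n (b + n) d := by
      refine hT ι z n (b + n) d hd ?_ (hNum ι z n b d i j l hij hli hlj hn
        (hmin l hli hlj).1 (hmin l hli hlj).2 hl)
      intro a c hac
      by_cases h1 : a = i
      · subst h1
        by_cases h2 : c = j
        · subst h2; omega
        · have := hmin c (Ne.symm hac) h2
          omega
      · by_cases h2 : a = j
        · subst h2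
          by_cases h3 : c = i
          · subst h3; omega
          · have := hmin c h3 (Ne.symm hac)
            omega
        · have h5 := hmin a h1 h2
          by_cases h3 : c = i
          · subst h3; omega
          · by_cases h4 : c = j
            · subst h4; omega
            · have := hmin c h3 h4
              omega
    have h2 := chain n h1 (by omega) (k - n)
    have h3 : n + (k - n) = k := by omega
    rwa [h3] at h2
  · have h2 := chain 0 noLK_zero (by omega) k
    rwa [Nat.zero_add] at h2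

end Pool.Agent.Work.MP_2ad852_ag.G3

end

section

/-!
# Block G3, item N2: degrees above `d_1 + d_2 - 1`, `b ≤ d_3 - 2`
-/

namespace Pool.Agent.Work.MP_2ad852_ag.G3

open MvPolynomial Finset Pool.Agent.Work.MP_2ad852_ag.GF Pool.Agent.Work.MP_2ad852_ag.GS

theorem N2_not_LK_zero {ι : Type} {n : ℕ} (z : Fin n) (e : ℕ) (d : ι → ℕ) : ¬ LK z 0 e d := by
  rintro ⟨F, hF⟩
  obtain ⟨p, hp, -⟩ := hF.ne
  rw [mem_Mk] at hp
  omega

theorem N2_low_i {ι : Type} [DecidableEq ι] (d : ι → ℕ) (i j : ι) : low d i j i = d i := by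
  simp [low]

theorem N2_low_j {ι : Type} [DecidableEq ι] (d : ι → ℕ) (i j : ι) : low d i j j = d j := by
  simp [low]

theorem N2_low_o {ι : Type} [DecidableEq ι] (d : ι → ℕ) (i j m : ι) (h1 : m ≠ i) (h2 : m ≠ j) :
    low d i j m = d m - 1 := by
  simp [low, h1, h2]

theorem N2_low_dv {ι : Type} [DecidableEq ι] (d : ι → ℕ) (i j : ι) (v e : ℕ) :
    low (dv d v (e + 1)) (Sum.inl i) (Sum.inl j) = dv (low d i j) v e := by
  funext l
  rcases l with l | l
  · simp [low, dv]
  · simp [low, dv]

theorem N2_cnt_symm {ι : Type} [Fintype ι] [DecidableEq ι] (hH : S_Hc) (d : ι → ℕ) (i j : ι)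
    (e : ℕ) : cnt d i j e = cnt d j i e := by
  unfold cnt
  apply Finset.sum_congr rfl
  intro m _
  rw [hH.2.2.2.1 (d i) (d j) (e - d m)]
  by_cases h1 : m = i <;> by_cases h2 : m = j <;> simp [h1, h2]

/-- reduction of one step -/
theorem N2_red (hR : S_R1) {ι : Type} [Fintype ι] [DecidableEq ι] (z : Fin 3) (k e v : ℕ)
    (d : ι → ℕ) (i j : ι) (hij : i ≠ j) (hpos : ∀ m, 1 ≤ d m) (hd : d i + d j ≤ e + 2)
    (h : ¬ LK z k e (dv (low d i j) v e)) : ¬ LK z (k + 1) (e + 1) (dv d v (e + 1)) := by
  apply hR (ι ⊕ Fin v) z k e (dv d v (e + 1)) (Sum.inl i) (Sum.inl j)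
  · intro h'
    exact hij (Sum.inl_injective h')
  · exact hd
  · intro l _ _
    rcases l with l | l
    · exact hpos l
    · simp [dv]
  · rw [N2_low_dv]
    exact h

theorem N2_sub (hSub : S_SubLK) {ι : Type} [Fintype ι] (z : Fin 3) (k e v : ℕ)
    (d : ι → ℕ) (h : ¬ LK z k e d) : ¬ LK z k e (dv d v e) := by
  apply hSub (ι ⊕ Fin v) ι 3 z k e (dv d v e) Sum.inl Sum.inl_injective
  exact h

/-- the induction hypothesis / the statement for a fixed `k` -/
def N2_P {ι : Type} [Fintype ι] [DecidableEq ι] (z : Fin 3) (k b v : ℕ) (d : ι → ℕ)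
    (i j : ι) : Prop :=
    i ≠ j → (∀ m, 1 ≤ d m) →
    (∀ m, m ≠ i → m ≠ j → d i ≤ d m ∧ d j ≤ d m ∧ b + 2 ≤ d m) → d i + d j ≤ b + k + 1 →
    (∀ l m, l ≠ i → l ≠ j → m ≠ i → m ≠ j → l ≠ m →
      2 * (b + k) + 4 ≤ d i + d j + d l + d m) →
    Hc (d i) (d j) (b + k) ≤ cnt d i j (b + k) + Hc (d i) (d j) b + v →
    ¬ LK z k (b + k) (dv d v (b + k))

/-- case B -/
theorem N2_caseB (hR : S_R1) (hN1 : S_N1) (hB4 : S_B4) (hSub : S_SubLK)
    (hB : S_N2B) {ι : Type} [Fintype ι] [DecidableEq ι] (z : Fin 3) (k b v : ℕ)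
    (IH : ∀ (d : ι → ℕ) (i j : ι), N2_P z k b v d i j)
    (d : ι → ℕ) (i j l : ι) (hij : i ≠ j) (hli : l ≠ i) (hlj : l ≠ j) (hpos : ∀ m, 1 ≤ d m)
    (hm : ∀ m, m ≠ i → m ≠ j → d i ≤ d m ∧ d j ≤ d m ∧ b + 2 ≤ d m)
    (h1 : d i + d j ≤ b + k + 2)
    (h4 : ∀ l m, l ≠ i → l ≠ j → m ≠ i → m ≠ j → l ≠ m →
      2 * (b + k + 1) + 4 ≤ d i + d j + d l + d m)
    (hc : Hc (d i) (d j) (b + k + 1) ≤ cnt d i j (b + k + 1) + Hc (d i) (d j) b + v)
    (hle : d i ≤ d j) (hl : d l = d j) :
    ¬ LK z (k + 1) (b + k + 1) (dv d v (b + k + 1)) := by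
  apply N2_red hR z k (b + k) v d i j hij hpos h1
  have hbl : b + 2 ≤ d l := (hm l hli hlj).2.2
  have hbj : b + 2 ≤ d j := by omega
  have ei : low d i j i = d i := N2_low_i d i j
  have ej : low d i j j = d j := N2_low_j d i j
  have el : low d i j l = d j - 1 := by rw [N2_low_o d i j l hli hlj, hl]
  have eo : ∀ m, m ≠ i → m ≠ j → low d i j m = d m - 1 := fun m a c => N2_low_o d i j m a c
  have hpos' : ∀ m, 1 ≤ low d i j m := by
    intro m
    by_cases hmi : m = i
    · subst hmi; rw [ei]; exact hpos m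
    by_cases hmj : m = j
    · subst hmj; rw [ej]; exact hpos m
    rw [eo m hmi hmj]
    have := (hm m hmi hmj).2.2
    omega
  have hlm : ∀ m, m ≠ i → m ≠ j → m ≠ l → b + k + 4 ≤ d l + d m := by
    intro m a1 a2 a3
    have := h4 l m hli hlj a1 a2 (Ne.symm a3)
    omega
  have hmin : ∀ m, m ≠ i → m ≠ l → low d i j i ≤ low d i j m ∧ low d i j l ≤ low d i j m := by
    intro m hmi hml
    rw [ei, el]
    by_cases hmj : m = j
    · subst hmj; rw [ej]; omega
    rw [eo m hmi hmj]
    have a1 := hm m hmi hmj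
    have a2 := hlm m hmi hmj hml
    omega
  have hsum : low d i j i + low d i j l ≤ b + k + 1 := by rw [ei, el]; omega
  by_cases hx : ∃ m, m ≠ i ∧ m ≠ l ∧ low d i j m ≤ b + 1
  · obtain ⟨m, hmi, hml, hmb⟩ := hx
    apply N2_sub hSub
    exact hN1 ι z k b (low d i j) i l m (Ne.symm hli) hmi hml hpos' hmin hsum hmb
  push Not at hx
  by_cases hy : ∃ m m', m ≠ i ∧ m ≠ l ∧ m' ≠ i ∧ m' ≠ l ∧ m ≠ m' ∧
      low d i j i + low d i j l + low d i j m + low d i j m' ≤ 2 * (b + k) + 3
  · obtain ⟨m, m', hmi, hml, hmi', hml', hmm, hs⟩ := hy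
    apply N2_sub hSub
    exact hB4 ι z k (b + k) (low d i j) i l m m' (Ne.symm hli) (Ne.symm hmi) (Ne.symm hmi')
      (Ne.symm hml) (Ne.symm hml') hmm hs
  push Not at hy
  apply IH (low d i j) i l (Ne.symm hli) hpos'
  · intro m hmi hml
    refine ⟨(hmin m hmi hml).1, (hmin m hmi hml).2, ?_⟩
    have := hx m hmi hml
    omega
  · exact hsum
  · intro m m' hmi hml hmi' hml' hmm
    have := hy m m' hmi hml hmi' hml' hmm
    omega
  · rw [ei, el]
    exact hB ι b (b + k) v d i j l hij hli hlj hpos hle hl hbj h1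
      (fun m a1 a2 a3 => by have := hlm m a1 a2 a3; omega) hc

theorem pr_N2 (hR : S_R1) (hTS : S_TS) (hN1 : S_N1) (hB4 : S_B4) (hSub : S_SubLK) (hA : S_N2A)
    (hB : S_N2B) (hM : S_HcMk) (hH : S_Hc) : S_N2 := by
  intro ι _ _ z k b v d i j
  change N2_P z k b v d i j
  induction k generalizing d i j with
  | zero =>
    intro _ _ _ _ _ _
    exact N2_not_LK_zero z _ _
  | succ k IH =>
    intro hij hpos hm h1 h4 hc
    rw [show b + (k + 1) = b + k + 1 from rfl] at h1 h4 hc ⊢
    by_cases hcase : ∀ m, m ≠ i → m ≠ j → d i + 1 ≤ d m ∧ d j + 1 ≤ d m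
    · -- case A
      apply N2_red hR z k (b + k) v d i j hij hpos (by omega)
      have ei : low d i j i = d i := N2_low_i d i j
      have ej : low d i j j = d j := N2_low_j d i j
      have eo : ∀ m, m ≠ i → m ≠ j → low d i j m = d m - 1 :=
        fun m a c => N2_low_o d i j m a c
      have hpos' : ∀ m, 1 ≤ low d i j m := by
        intro m
        by_cases hmi : m = i
        · subst hmi; rw [ei]; exact hpos m
        by_cases hmj : m = j
        · subst hmj; rw [ej]; exact hpos m
        rw [eo m hmi hmj]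
        have := (hm m hmi hmj).2.2
        omega
      have hmin : ∀ m, m ≠ i → m ≠ j →
          low d i j i ≤ low d i j m ∧ low d i j j ≤ low d i j m := by
        intro m hmi hmj
        rw [ei, ej, eo m hmi hmj]
        have := hcase m hmi hmj
        omega
      have hcount := hA ι b (b + k) v d i j hij hpos (by omega) hc
      by_cases hterm : d i + d j = b + k + 2
      · -- terminal
        apply hTS ι z k (b + k) v (low d i j) hpos'
        · intro l l' hll
          have key : ∀ m, m ≠ i → m ≠ j → d i ≤ low d i j m ∧ d j ≤ low d i j m := by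
            intro m a c
            have := hmin m a c
            rw [ei, ej] at this
            exact this
          by_cases a1 : l = i
          · subst a1
            by_cases a2 : l' = j
            · subst a2
              rw [ei, ej]; omega
            · have := key l' (Ne.symm hll) a2
              rw [ei]; omega
          by_cases a2 : l = j
          · subst a2
            by_cases a3 : l' = i
            · subst a3
              rw [ei, ej]; omega
            · have := key l' a3 (Ne.symm hll)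
              rw [ej]; omega
          have k1 := key l a1 a2
          by_cases a3 : l' = i
          · subst a3
            rw [ei]; omega
          by_cases a4 : l' = j
          · subst a4
            rw [ej]; omega
          have k2 := key l' a3 a4
          omega
        · have hmk := hM ι z k b (low d i j) i j hij (by rw [ei, ej]; omega) (by
            intro m a c
            have q1 := hmin m a c
            refine ⟨?_, q1.1, q1.2⟩
            rw [eo m a c]
            have := (hm m a c).2.2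
            omega)
          rw [ei, ej] at hmk
          omega
      · by_cases hx : ∃ m, m ≠ i ∧ m ≠ j ∧ low d i j m ≤ b + 1
        · obtain ⟨m, hmi, hmj, hmb⟩ := hx
          apply N2_sub hSub
          exact hN1 ι z k b (low d i j) i j m hij hmi hmj hpos' hmin
            (by rw [ei, ej]; omega) hmb
        push Not at hx
        apply IH (low d i j) i j hij hpos'
        · intro m hmi hmj
          refine ⟨(hmin m hmi hmj).1, (hmin m hmi hmj).2, ?_⟩
          have := hx m hmi hmj
          omega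
        · rw [ei, ej]; omega
        · intro l m a1 a2 a3 a4 a5
          rw [ei, ej, eo l a1 a2, eo m a3 a4]
          have := h4 l m a1 a2 a3 a4 a5
          have q1 := hpos l
          have q2 := hpos m
          omega
        · rw [ei, ej]
          exact hcount
    · -- case B
      push Not at hcase
      obtain ⟨l, hli, hlj, hl⟩ := hcase
      have hml := hm l hli hlj
      rcases le_total (d i) (d j) with hle | hle
      · have hl' : d l = d j := by
          by_cases q : d i + 1 ≤ d l
          · have := hl q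
            omega
          · omega
        exact N2_caseB hR hN1 hB4 hSub hB z k b v IH d i j l hij hli hlj hpos hm (by omega) h4 hc
          hle hl'
      · have hl' : d l = d i := by
          by_cases q : d i + 1 ≤ d l
          · have := hl q
            omega
          · omega
        have hc' : Hc (d j) (d i) (b + k + 1) ≤
            cnt d j i (b + k + 1) + Hc (d j) (d i) b + v := by
          rw [N2_cnt_symm hH d j i, hH.2.2.2.1 (d j) (d i), hH.2.2.2.1 (d j) (d i)]
          exact hc
        exact N2_caseB hR hN1 hB4 hSub hB z k b v IH d j i l (Ne.symm hij) hlj hli hpos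
          (fun m a1 a2 => ⟨(hm m a2 a1).2.1, (hm m a2 a1).1, (hm m a2 a1).2.2⟩) (by omega)
          (fun p q a1 a2 a3 a4 a5 => by
            have := h4 p q a2 a1 a4 a3 a5
            omega) hc' hle hl'

end Pool.Agent.Work.MP_2ad852_ag.G3

end

section

/-!
# Item N2A
-/

namespace Pool.Agent.Work.MP_2ad852_ag.G3

open MvPolynomial Finset Pool.Agent.Work.MP_2ad852_ag.GF Pool.Agent.Work.MP_2ad852_ag.GS

theorem N2A_cnt {ι : Type} [Fintype ι] [DecidableEq ι] (d : ι → ℕ) (i j : ι) (e : ℕ)
    (hd : ∀ m, 1 ≤ d m) : cnt (low d i j) i j e = cnt d i j (e + 1) := by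
  unfold cnt
  have hi : low d i j i = d i := by simp [low]
  have hj : low d i j j = d j := by simp [low]
  rw [hi, hj]
  refine Finset.sum_congr rfl (fun m _ => ?_)
  by_cases hm : m = i ∨ m = j
  · have h1 : ¬ (m ≠ i ∧ m ≠ j ∧ low d i j m ≤ e) := by tauto
    have h2 : ¬ (m ≠ i ∧ m ≠ j ∧ d m ≤ e + 1) := by tauto
    rw [if_neg h1, if_neg h2]
  · have hl : low d i j m = d m - 1 := by simp only [low, if_neg hm]
    have h1 := hd m
    rw [hl]
    have h2 : (m ≠ i ∧ m ≠ j ∧ d m - 1 ≤ e) ↔ (m ≠ i ∧ m ≠ j ∧ d m ≤ e + 1) := by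
      constructor
      · rintro ⟨a, b, c⟩
        exact ⟨a, b, by omega⟩
      · rintro ⟨a, b, c⟩
        exact ⟨a, b, by omega⟩
    have h3 : e - (d m - 1) = e + 1 - d m := by omega
    rw [h3]
    by_cases h : m ≠ i ∧ m ≠ j ∧ d m ≤ e + 1
    · rw [if_pos h, if_pos (h2.2 h)]
    · rw [if_neg h, if_neg (fun h' => h (h2.1 h'))]

theorem pr_N2A (hH : S_Hc) : S_N2A := by
  intro ι _ _ b e v d i j hij hd hs h
  rw [N2A_cnt d i j e hd]
  have h1 := hH.1 (d i) (d j) e hs
  have h2 := hH.1 (d i) (d j) (e + 1) (by omega)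
  rw [h2] at h
  rw [h1]
  exact h

end Pool.Agent.Work.MP_2ad852_ag.G3

end

section

namespace Pool.Agent.Work.MP_2ad852_ag.G3

open MvPolynomial Finset Pool.Agent.Work.MP_2ad852_ag.GF Pool.Agent.Work.MP_2ad852_ag.GS

theorem pr_N2B (hH : S_Hc) : S_N2B := by
  obtain ⟨H1, H2, H3, H4, H5⟩ := hH
  intro ι _ _ b e v d i j l hij hli hlj hd hdij hdl hb he hother hmain
  obtain ⟨c', hc'⟩ : ∃ c', d j = c' + 1 := ⟨d j - 1, by have := hd j; omega⟩
  have ha : 1 ≤ d i := hd i
  have hlowi : low d i j i = d i := by simp [low]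
  have hlowj : low d i j j = d j := by simp [low]
  have hlowl : low d i j l = c' := by
    simp [low, hli, hlj]
    omega
  set r : ι → ℕ := fun m =>
    if m ≠ i ∧ m ≠ j ∧ m ≠ l ∧ d m ≤ e + 1 then Hc (d i) c' (e + 1 - d m) else 0 with hr
  have e1 : cnt d i j (e + 1) = Hc (d i) (d j) (e + 1 - d j) + ∑ m, r m := by
    have : ∀ m, (if m ≠ i ∧ m ≠ j ∧ d m ≤ e + 1 then Hc (d i) (d j) (e + 1 - d m) else 0) =
        (if m = l then Hc (d i) (d j) (e + 1 - d j) else 0) + r m := by
      intro m
      by_cases hml : m = l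
      · subst hml
        have h1 : d m ≤ e + 1 := by omega
        have hrm : r m = 0 := if_neg (by simp)
        rw [if_pos ⟨hli, hlj, h1⟩, if_pos rfl, hrm, hdl, add_zero]
      · rw [if_neg hml, zero_add]
        simp only [hr]
        by_cases hm : m ≠ i ∧ m ≠ j ∧ d m ≤ e + 1
        · rw [if_pos hm, if_pos ⟨hm.1, hm.2.1, hml, hm.2.2⟩]
          have h2 := hother m hm.1 hm.2.1 hml
          rw [hc']
          exact H3 _ _ _ (by have := hm.2.2; omega)
        · rw [if_neg hm, if_neg (fun h => hm ⟨h.1, h.2.1, h.2.2.2⟩)]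
    unfold cnt
    rw [Finset.sum_congr rfl fun m _ => this m, Finset.sum_add_distrib,
      Finset.sum_ite_eq' Finset.univ l]
    simp
  have e2 : cnt (low d i j) i l e =
      (if d j ≤ e then Hc (d i) c' (e - d j) else 0) + ∑ m, r m := by
    have : ∀ m, (if m ≠ i ∧ m ≠ l ∧ low d i j m ≤ e then
        Hc (low d i j i) (low d i j l) (e - low d i j m) else 0) =
        (if m = j then (if d j ≤ e then Hc (d i) c' (e - d j) else 0) else 0) + r m := by
      intro m
      rw [hlowi, hlowl]
      by_cases hmj : m = j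
      · subst hmj
        rw [if_pos rfl, hlowj]
        have hrm : r m = 0 := if_neg (by simp)
        rw [hrm, add_zero]
        by_cases h1 : d m ≤ e
        · rw [if_pos ⟨fun h => hij h.symm, fun h => hlj h.symm, h1⟩, if_pos h1]
        · rw [if_neg (fun h => h1 h.2.2), if_neg h1]
      · rw [if_neg hmj, zero_add]
        simp only [hr]
        by_cases hm : m ≠ i ∧ m ≠ j ∧ m ≠ l ∧ d m ≤ e + 1
        · have hlm : low d i j m = d m - 1 := by simp [low, hm.1, hm.2.1]
          have h3 := hd m
          rw [if_pos hm, hlm, if_pos ⟨hm.1, hm.2.2.1, by have := hm.2.2.2; omega⟩]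
          congr 1
          omega
        · rw [if_neg hm, if_neg]
          rintro ⟨h1, h2, h3⟩
          have hlm : low d i j m = d m - 1 := by simp [low, h1, hmj]
          rw [hlm] at h3
          exact hm ⟨h1, hmj, h2, by have := hd m; omega⟩
    unfold cnt
    rw [Finset.sum_congr rfl fun m _ => this m, Finset.sum_add_distrib,
      Finset.sum_ite_eq' Finset.univ j]
    simp
  have e3 : Hc (d i) (d j) (e + 1 - d j) =
      (if d j ≤ e then Hc (d i) c' (e - d j) else 0) + d i := by
    by_cases h : d j ≤ e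
    · rw [if_pos h]
      have : e + 1 - d j = (e - d j) + 1 := by omega
      rw [this]
      conv_lhs => rw [hc']
      have h4 := H2 (d i) c' (e - d j)
      rw [hc'] at h4 ⊢
      rw [h4, min_eq_left (by omega)]
    · rw [if_neg h]
      have h5 : d j = e + 1 := by omega
      have h6 : d i = 1 := by omega
      rw [h6, h5, Nat.sub_self, zero_add]
      exact H5 1 (e + 1) le_rfl (by omega)
  have e4 : Hc (d i) (d j) (e + 1) = d i * (c' + 1) := by
    rw [H1 _ _ _ (by omega), hc']
  have e5 : Hc (d i) (d j - 1) e = d i * c' := by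
    rw [show d j - 1 = c' by omega]
    exact H1 _ _ _ (by omega)
  have e6 : Hc (d i) (d j - 1) b = Hc (d i) (d j) b := by
    rw [show d j - 1 = c' by omega, hc']
    exact (H3 _ _ _ (by omega)).symm
  rw [e4, e1, e3] at hmain
  rw [e5, e2, e6]
  have : d i * (c' + 1) = d i * c' + d i := by ring
  omega

end Pool.Agent.Work.MP_2ad852_ag.G3

end

section

/-!
# At most one form of degree at most `e`
-/

namespace Pool.Agent.Work.MP_2ad852_ag.G3

open MvPolynomial Finset Pool.Agent.Work.MP_2ad852_ag.GF Pool.Agent.Work.MP_2ad852_ag.GS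

theorem One_fill (hS : S_Spec) {ι : Type} [Fintype ι] {n : ℕ} (z : Fin n) (k e v : ℕ) (d : ι → ℕ)
    (f0 : ι → MvPolynomial (Fin n) ℂ) (hf0 : ∀ l, (f0 l).IsHomogeneous (d l))
    (S : Finset (Fin n →₀ ℕ)) (hSv : S.card ≤ v) (hSM : ∀ p ∈ S, ∑ i, p i = e)
    (hcov : ∀ p ∈ Mk z k e, p ∉ S → monomial p (1 : ℂ) ∈ Ideal.span (Set.range f0)) :
    ¬ LK z k e (dv d v e) := by
  classical
  set B : Fin v → MvPolynomial (Fin n) ℂ := fun j =>
    if h : j.val < S.card then monomial (S.equivFin.symm ⟨j, h⟩ : Fin n →₀ ℕ) 1 else 0 with hB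
  refine hS (ι ⊕ Fin v) n z k e (dv d v e) (Sum.elim f0 B) ?_ ?_
  · rintro (l | j)
    · exact hf0 l
    · show (B j).IsHomogeneous e
      simp only [hB]
      split_ifs with h
      · apply isHomogeneous_monomial
        rw [← sum_eq_degree]
        exact hSM _ (S.equivFin.symm ⟨j, h⟩).2
      · exact isHomogeneous_zero _ _ _
  · intro h hh
    refine ⟨∑ p ∈ Mk z k e, monomial p (coeff p h), ?_, ?_⟩
    · refine Ideal.sum_mem _ fun p hp => ?_
      have h1 : monomial p (1 : ℂ) ∈ Ideal.span (Set.range (Sum.elim f0 B)) := by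
        by_cases hpS : p ∈ S
        · apply Ideal.subset_span
          refine ⟨Sum.inr ⟨(S.equivFin ⟨p, hpS⟩).val,
            lt_of_lt_of_le (S.equivFin ⟨p, hpS⟩).2 hSv⟩, ?_⟩
          simp [hB]
        · have h2 := hcov p hp hpS
          refine Ideal.span_mono ?_ h2
          rintro _ ⟨l, rfl⟩
          exact ⟨Sum.inl l, rfl⟩
      have h3 : monomial p (coeff p h) = C (coeff p h) * monomial p (1 : ℂ) := by
        rw [C_mul_monomial, mul_one]
      rw [h3]
      exact Ideal.mul_mem_left _ _ h1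
    · apply Xpow_dvd_of_exps
      intro p hp
      by_contra hlt
      rw [not_le] at hlt
      apply hp
      rw [coeff_sub, coeff_sum]
      simp only [coeff_monomial]
      rw [Finset.sum_ite_eq' (Mk z k e) p]
      split_ifs with hM
      · rw [sub_self]
      · rw [sub_zero]
        by_contra h0
        apply hM
        rw [mem_Mk]
        refine ⟨?_, hlt⟩
        exact (isHomogeneous_iff_Mt h e).1 hh p h0

theorem One_card {n : ℕ} (z x : Fin n) (hx : x ≠ z) (k e D : ℕ) (hD : D ≤ e) :
    ((Mk z k e).filter (fun p => ¬ p x < D)).card = (Mk z k (e - D)).card := by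
  classical
  refine Finset.card_nbij' (fun p => p - Finsupp.single x D) (fun p => p + Finsupp.single x D)
    ?_ ?_ ?_ ?_
  · intro p hp
    rw [Finset.mem_coe, Finset.mem_filter, mem_Mk] at hp
    rw [Finset.mem_coe, mem_Mk]
    obtain ⟨⟨h1, h2⟩, h3⟩ := hp
    rw [not_lt] at h3
    refine ⟨?_, ?_⟩
    · have h4 : p = (p - Finsupp.single x D) + Finsupp.single x D :=
        (tsub_add_cancel_of_le (Finsupp.single_le_iff.2 h3)).symm
      have h5 : ∑ i, p i = ∑ i, (p - Finsupp.single x D) i + D := by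
        conv_lhs => rw [h4]
        rw [sum_eq_degree, sum_eq_degree, map_add, Finsupp.degree_single]
      show ∑ i, (p - Finsupp.single x D) i = e - D
      omega
    · simp only [Finsupp.coe_tsub, Pi.sub_apply]
      omega
  · intro p hp
    rw [Finset.mem_coe, mem_Mk] at hp
    rw [Finset.mem_coe, Finset.mem_filter, mem_Mk]
    obtain ⟨h1, h2⟩ := hp
    refine ⟨⟨?_, ?_⟩, ?_⟩
    · rw [sum_eq_degree, map_add, Finsupp.degree_single, ← sum_eq_degree, h1]
      omega
    · rw [Finsupp.add_apply, Finsupp.single_eq_of_ne hx.symm, add_zero]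
      exact h2
    · rw [Finsupp.add_apply, Finsupp.single_eq_same]
      omega
  · intro p hp
    rw [Finset.mem_coe, Finset.mem_filter, mem_Mk] at hp
    exact tsub_add_cancel_of_le (Finsupp.single_le_iff.2 (not_lt.1 hp.2))
  · intro p hp
    exact add_tsub_cancel_right _ _

theorem pr_One (hS : S_Spec) : S_One := by
  intro ι _ z k e v d huniq hcard
  classical
  by_cases hex : ∃ l0, d l0 ≤ e
  · obtain ⟨l0, hl0⟩ := hex
    obtain ⟨x, hx⟩ : ∃ x : Fin 3, x ≠ z := exists_ne z
    have hnC : nC z k e d = (Mk z k (e - d l0)).card := by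
      unfold nC
      have : (Finset.univ : Finset ι).filter (fun l => d l ≤ e) = {l0} := by
        ext l
        simp only [Finset.mem_filter, Finset.mem_univ, true_and, Finset.mem_singleton]
        constructor
        · intro hl
          exact huniq l l0 hl hl0
        · rintro rfl
          exact hl0
      rw [this, Finset.sum_singleton]
    have hfc := Finset.card_filter_add_card_filter_not (s := Mk z k e) (fun p => p x < d l0)
    rw [One_card z x hx k e (d l0) hl0] at hfc
    refine One_fill hS z k e v d (fun l => if l = l0 then X x ^ (d l0) else 0) ?_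
      ((Mk z k e).filter (fun p => p x < d l0)) (by omega) ?_ ?_
    · intro l
      by_cases hl : l = l0
      · subst hl
        rw [if_pos rfl]
        exact isHomogeneous_X_pow x _
      · rw [if_neg hl]
        exact isHomogeneous_zero _ _ _
    · intro p hp
      exact (mem_Mk.1 (Finset.mem_filter.1 hp).1).1
    · intro p hp hpS
      have hpx : d l0 ≤ p x := by
        by_contra h
        exact hpS (Finset.mem_filter.2 ⟨hp, not_le.1 h⟩)
      have h1 : monomial p (1 : ℂ) =
          monomial (p - Finsupp.single x (d l0)) (1 : ℂ) * X x ^ (d l0) := by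
        rw [X_pow_eq_monomial, monomial_mul, one_mul,
          tsub_add_cancel_of_le (Finsupp.single_le_iff.2 hpx)]
      rw [h1]
      apply Ideal.mul_mem_left
      apply Ideal.subset_span
      exact ⟨l0, by simp⟩
  · have hnC : nC z k e d = 0 := by
      unfold nC
      rw [Finset.filter_false_of_mem, Finset.sum_empty]
      intro l _ hl
      exact hex ⟨l, hl⟩
    refine One_fill hS z k e v d (fun _ => 0) (fun _ => isHomogeneous_zero _ _ _) (Mk z k e)
      (by omega) (fun p hp => (mem_Mk.1 hp).1) (fun p hp hpS => absurd hp hpS)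

end Pool.Agent.Work.MP_2ad852_ag.G3

end

section

/-!
# Item Pool: pooling of antitone cuts
-/

namespace Pool.Agent.Work.MP_2ad852_ag.G3

open Finset

theorem pr_Pool : S_Pool := by
  intro T M w hw X hXM hX
  have key : ∀ p, p ≤ T → ∃ Y ≤ M, (∀ t, t < T → p ≤ t + 1 → X t ≤ Y) ∧
      ∑ t ∈ range p, ∑ m ∈ range (X t), w t m ≤ ∑ t ∈ range p, ∑ m ∈ range Y, w t m := by
    intro p
    induction p with
    | zero => intro _; exact ⟨M, le_rfl, fun t _ _ => hXM t, by simp⟩
    | succ p ih =>
      intro hp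
      obtain ⟨Y, hYM, hY, hsum⟩ := ih (by omega)
      have hV : X p ≤ Y := hY p (by omega) (by omega)
      have hG : ∀ t, ∑ m ∈ range Y, w t m =
          ∑ m ∈ range (X p), w t m + ∑ m ∈ Ico (X p) Y, w t m := fun t =>
        (Finset.sum_range_add_sum_Ico _ hV).symm
      by_cases hs : ∑ t ∈ range p, ∑ m ∈ Ico (X p) Y, w t m ≤ 0
      · refine ⟨X p, hXM p, fun t ht hpt => hX p t (by omega) ht, ?_⟩
        rw [Finset.sum_range_succ, Finset.sum_range_succ]
        have h1 : ∑ t ∈ range p, ∑ m ∈ range Y, w t m =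
            ∑ t ∈ range p, ∑ m ∈ range (X p), w t m +
              ∑ t ∈ range p, ∑ m ∈ Ico (X p) Y, w t m := by
          rw [← Finset.sum_add_distrib]
          exact Finset.sum_congr rfl fun t _ => hG t
        omega
      · refine ⟨Y, hYM, fun t ht hpt => hY t ht (by omega), ?_⟩
        rw [Finset.sum_range_succ, Finset.sum_range_succ, hG p]
        obtain ⟨t, ht, htpos⟩ : ∃ t ∈ range p, 0 < ∑ m ∈ Ico (X p) Y, w t m := by
          by_contra hcon
          push Not at hcon
          exact hs (Finset.sum_nonpos hcon)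
        rw [Finset.mem_range] at ht
        have hlt : X p < Y := by
          by_contra hcon
          rw [Finset.Ico_eq_empty (by omega), Finset.sum_empty] at htpos
          exact lt_irrefl _ htpos
        have h2 := hw t p (X p) Y ht (by omega) hlt hYM htpos
        omega
  obtain ⟨Y, hYM, -, h⟩ := key T le_rfl
  exact ⟨Y, hYM, h⟩

end Pool.Agent.Work.MP_2ad852_ag.G3

end

section

/-!
# Item R1: from degree `e` to degree `e + 1`
-/

namespace Pool.Agent.Work.MP_2ad852_ag.G3

open MvPolynomial Finset Pool.Agent.Work.MP_2ad852_ag.GF Pool.Agent.Work.MP_2ad852_ag.GS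

theorem pr_R1 (hS : S_Spec) (hO : S_OpenL) (hBG : S_BinGen) : S_R1 := by
  intro ι _ _ z k e d i j hij hdij hd hLK
  set d' := low d i j with hd'
  have hi : d' i = d i := by rw [hd', low, if_pos (Or.inl rfl)]
  have hj : d' j = d j := by rw [hd', low, if_pos (Or.inr rfl)]
  have hl : ∀ l, ¬ (l = i ∨ l = j) → d' l + 1 = d l := by
    intro l h
    have h1 := hd l (fun h' => h (Or.inl h')) (fun h' => h (Or.inr h'))
    have : d' l = d l - 1 := by rw [hd', low, if_neg h]
    omega
  obtain ⟨P1, hP1, hc1⟩ := hO ι 3 z k e d' hLK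
  obtain ⟨P2, hP2, hc2⟩ := hBG ι z (e + 1) d' i j hij (by rw [hi, hj]; omega)
  have hne : P1 * P2 ≠ 0 := mul_ne_zero hP1 hP2
  obtain ⟨c, hc⟩ : ∃ c, eval c (P1 * P2) ≠ 0 := by
    by_contra hcon
    push Not at hcon
    exact hne (MvPolynomial.funext fun c => by rw [hcon c, map_zero])
  rw [map_mul] at hc
  have hsurj := hc1 c (left_ne_zero_of_mul hc)
  have hbin := hc2 c (right_ne_zero_of_mul hc)
  -- the special forms
  let f : ι → MvPolynomial (Fin 3) ℂ := fun l =>
    if l = i ∨ l = j then sf d' c l else X z * sf d' c l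
  have hfi : f i = sf d' c i := if_pos (Or.inl rfl)
  have hfj : f j = sf d' c j := if_pos (Or.inr rfl)
  have hfh : ∀ l, (f l).IsHomogeneous (d l) := by
    intro l
    by_cases h : l = i ∨ l = j
    · have e1 : f l = sf d' c l := if_pos h
      have e2 : d' l = d l := by rw [hd', low, if_pos h]
      rw [e1, ← e2]
      exact sf_hom d' c l
    · have e1 : f l = X z * sf d' c l := if_neg h
      rw [e1, ← hl l h, add_comm]
      exact (isHomogeneous_X ℂ z).mul (sf_hom d' c l)
  have hmul : ∀ w ∈ Ideal.span (Set.range (sf d' c)), X z * w ∈ Ideal.span (Set.range f) := by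
    intro w hw
    refine Submodule.span_induction (p := fun w _ => X z * w ∈ Ideal.span (Set.range f))
      ?_ ?_ ?_ ?_ hw
    · rintro _ ⟨l, rfl⟩
      by_cases h : l = i ∨ l = j
      · have e1 : f l = sf d' c l := if_pos h
        rw [← e1]
        exact Ideal.mul_mem_left _ _ (Ideal.subset_span ⟨l, rfl⟩)
      · have e1 : f l = X z * sf d' c l := if_neg h
        rw [← e1]
        exact Ideal.subset_span ⟨l, rfl⟩
    · rw [mul_zero]; exact Ideal.zero_mem _
    · intro x y _ _ hx hy
      rw [mul_add]; exact Ideal.add_mem _ hx hy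
    · intro a x _ hx
      have : X z * (a • x) = a * (X z * x) := by
        rw [smul_eq_mul]; ring
      rw [this]
      exact Ideal.mul_mem_left _ _ hx
  refine hS ι 3 z (k + 1) (e + 1) d f hfh ?_
  intro h hh
  obtain ⟨u, v, h0', hh0⟩ := hbin h hh
  have h1 := congrArg (homogeneousComponent (e + 1)) hh0
  rw [map_sub, homogeneousComponent_eq_self hh,
    hc_mul 1 e (X z) h0' (isHomogeneous_X ℂ z)] at h1
  have hw1 : homogeneousComponent (e + 1) (sf d' c i * u + sf d' c j * v) ∈
      Ideal.span (Set.range f) := by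
    refine hc_mem d f hfh _ ?_ _
    refine Ideal.add_mem _ ?_ ?_
    · rw [← hfi, mul_comm]; exact Ideal.mul_mem_left _ _ (Ideal.subset_span ⟨i, rfl⟩)
    · rw [← hfj, mul_comm]; exact Ideal.mul_mem_left _ _ (Ideal.subset_span ⟨j, rfl⟩)
  obtain ⟨w, hw, g, hg⟩ := hsurj (homogeneousComponent e h0')
    (homogeneousComponent_isHomogeneous e h0')
  refine ⟨homogeneousComponent (e + 1) (sf d' c i * u + sf d' c j * v) + X z * w,
    Ideal.add_mem _ hw1 (hmul w hw), g, ?_⟩
  have h2 : h = homogeneousComponent (e + 1) (sf d' c i * u + sf d' c j * v) +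
      X z * homogeneousComponent e h0' := by
    rw [← h1]; ring
  have h3 : homogeneousComponent e h0' = w + X z ^ k * g := by
    rw [← hg]; ring
  rw [h2, h3]
  ring

end Pool.Agent.Work.MP_2ad852_ag.G3

end

section

/-!
# Block G3, item Spec (helper31)
-/

namespace Pool.Agent.Work.MP_2ad852_ag.G3

open MvPolynomial Finset Pool.Agent.Work.MP_2ad852_ag.GF Pool.Agent.Work.MP_2ad852_ag.GS

theorem Spec_supp {n : ℕ} (z : Fin n) (k e D : ℕ) (g : MvPolynomial (Fin n) ℂ)
    (hg : g.IsHomogeneous D) (p : Fin n →₀ ℕ) (hp : p ∈ Mk z k e) (q : Fin n →₀ ℕ)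
    (h : coeff p (g * monomial q 1) ≠ 0) : D ≤ e ∧ q ∈ Mk z k (e - D) := by
  rw [coeff_mul_monomial'] at h
  by_cases hle : q ≤ p
  · rw [if_pos hle, mul_one] at h
    have h1 := (isHomogeneous_iff_Mt g D).1 hg _ h
    rw [mem_Mk] at hp
    have h2 : ∑ i, p i = ∑ i, (p - q) i + ∑ i, q i := by
      rw [← Finset.sum_add_distrib]
      refine Finset.sum_congr rfl fun i _ => ?_
      rw [Finsupp.tsub_apply]
      have := hle i
      omega
    have h3 : q z ≤ p z := hle z
    rw [mem_Mk]
    omega
  · rw [if_neg hle] at h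
    exact absurd rfl h

theorem Spec_coeff {n : ℕ} (z : Fin n) (k e D : ℕ) (g a : MvPolynomial (Fin n) ℂ)
    (hg : g.IsHomogeneous D) (p : Fin n →₀ ℕ) (hp : p ∈ Mk z k e) :
    coeff p (g * a) =
      ∑ q ∈ (if D ≤ e then Mk z k (e - D) else ∅), coeff p (g * monomial q 1) * coeff q a := by
  classical
  have h1 : coeff p (g * a) = ∑ q ∈ a.support, coeff p (g * monomial q 1) * coeff q a := by
    conv_lhs => rw [a.as_sum, Finset.mul_sum, coeff_sum]
    refine Finset.sum_congr rfl fun q _ => ?_
    have h2 : (monomial q (coeff q a) : MvPolynomial (Fin n) ℂ) =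
        C (coeff q a) * monomial q 1 := by
      rw [C_mul_monomial, mul_one]
    rw [h2, mul_left_comm, coeff_C_mul, mul_comm]
  set T : Finset (Fin n →₀ ℕ) := if D ≤ e then Mk z k (e - D) else ∅ with hT
  have h2 : ∑ q ∈ a.support, coeff p (g * monomial q 1) * coeff q a =
      ∑ q ∈ a.support ∪ T, coeff p (g * monomial q 1) * coeff q a := by
    refine Finset.sum_subset Finset.subset_union_left fun q _ hq => ?_
    rw [notMem_support_iff.1 hq, mul_zero]
  have h3 : ∑ q ∈ T, coeff p (g * monomial q 1) * coeff q a =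
      ∑ q ∈ a.support ∪ T, coeff p (g * monomial q 1) * coeff q a := by
    refine Finset.sum_subset Finset.subset_union_right fun q _ hq => ?_
    by_cases h0 : coeff p (g * monomial q 1) = 0
    · rw [h0, zero_mul]
    · obtain ⟨h4, h5⟩ := Spec_supp z k e D g hg p hp q h0
      exfalso
      apply hq
      rw [hT, if_pos h4]
      exact h5
  rw [h1, h2, h3]

theorem pr_Spec : S_Spec := by
  classical
  intro ι _ n z k e d f hf hS hLK
  obtain ⟨v, hv, hvA⟩ := (pr_MatL ι n z k e d).2 hLK
  -- `f` as a specialisation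
  let c : ι × (Fin n →₀ ℕ) → ℂ := fun lp => coeff lp.2 (f lp.1)
  have hfc : ∀ l, sf d c l = f l := by
    intro l
    ext p
    rw [coeff_sf]
    split_ifs with h
    · rfl
    · by_contra h0
      exact h ((isHomogeneous_iff_Mt (f l) (d l)).1 (hf l) p (fun h1 => h0 h1.symm))
  -- surjectivity
  have hsurj : ∀ p0 : Rows z k e, ∃ x : Cols z k e d → ℂ,
      Matrix.mulVec (mat z k e d (sf d c)) x = fun p => if p = p0 then 1 else 0 := by
    intro p0
    have hh : (monomial p0.1 (1 : ℂ)).IsHomogeneous e := by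
      rw [isHomogeneous_iff_Mt]
      intro p hp
      rw [coeff_monomial] at hp
      by_cases hqp : p0.1 = p
      · rw [← hqp]
        exact (mem_Mk.1 p0.2).1
      · rw [if_neg hqp] at hp
        exact absurd rfl hp
    obtain ⟨w, hw, hdvd⟩ := hS _ hh
    obtain ⟨a, ha⟩ := (Ideal.mem_span_range_iff_exists_fun).1 hw
    refine ⟨fun q => coeff q.2.1 (a q.1.1), ?_⟩
    funext p
    have h1 := coeff_eq_zero_of_Xpow_dvd z k _ hdvd p.1 (mem_Mk.1 p.2).2
    rw [coeff_sub, sub_eq_zero, coeff_monomial] at h1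
    have h2 : (if p = p0 then (1 : ℂ) else 0) = coeff p.1 w := by
      rw [← h1]
      by_cases h : p = p0
      · rw [if_pos h, if_pos (by rw [h])]
      · rw [if_neg h, if_neg (fun h' => h (Subtype.ext h'.symm))]
    rw [h2, ← ha, coeff_sum, Matrix.mulVec, dotProduct]
    rw [Fintype.sum_sigma]
    have h3 : ∀ l, coeff p.1 (a l * f l) =
        ∑ q ∈ (if d l ≤ e then Mk z k (e - d l) else ∅),
          coeff p.1 (sf d c l * monomial q 1) * coeff q (a l) := by
      intro l
      rw [mul_comm, hfc l]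
      exact Spec_coeff z k e (d l) (f l) (a l) (hf l) p.1 p.2
    simp_rw [h3]
    have h4 : ∑ l, ∑ q ∈ (if d l ≤ e then Mk z k (e - d l) else ∅),
        coeff p.1 (sf d c l * monomial q 1) * coeff q (a l) =
        ∑ l ∈ Finset.univ.filter (fun l => d l ≤ e), ∑ q ∈ Mk z k (e - d l),
        coeff p.1 (sf d c l * monomial q 1) * coeff q (a l) := by
      rw [Finset.sum_filter]
      refine Finset.sum_congr rfl fun l _ => ?_
      split_ifs <;> simp
    rw [h4, ← Finset.sum_subtype_of_mem (p := fun l => d l ≤ e)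
      (fun l => ∑ q ∈ Mk z k (e - d l), coeff p.1 (sf d c l * monomial q 1) * coeff q (a l))
      (fun l hl => (Finset.mem_filter.1 hl).2)]
    have h5 : Finset.subtype (fun l => d l ≤ e) (Finset.univ.filter (fun l => d l ≤ e)) =
        Finset.univ := by
      ext l
      simp [l.2]
    rw [h5]
    refine Finset.sum_congr rfl fun l _ => ?_
    rw [← Finset.sum_coe_sort (Mk z k (e - d l.1))]
    rfl
  choose x hx using hsurj
  set G := mat z k e d (gf (n := n) d) with hG
  let B : Matrix (Cols z k e d) (Rows z k e) ℂ := fun q p => x p q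
  have hAB : (G.map (eval c)) * B = 1 := by
    rw [hG, mat_sf]
    ext p p0
    have h1 := congrFun (hx p0) p
    rw [Matrix.mul_apply]
    rw [Matrix.mulVec, dotProduct] at h1
    rw [Matrix.one_apply]
    exact h1
  let B' : Matrix (Cols z k e d) (Rows z k e) (Rg ι n) := B.map (C : ℂ →+* Rg ι n)
  have hdet : (G * B').det ≠ 0 := by
    intro h0
    have h1 : (eval c) (G * B').det = 0 := by rw [h0, map_zero]
    rw [RingHom.map_det, RingHom.mapMatrix_apply, Matrix.map_mul] at h1
    have h2 : B'.map (eval c) = B := by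
      ext q p
      simp [B']
    rw [h2, hAB, Matrix.det_one] at h1
    exact one_ne_zero h1
  have h3 : Matrix.vecMul v (G * B') = 0 := by
    rw [← Matrix.vecMul_vecMul, hvA, Matrix.zero_vecMul]
  exact hv (Matrix.eq_zero_of_vecMul_eq_zero hdet h3)

end Pool.Agent.Work.MP_2ad852_ag.G3

end

section

/-!
# S_StdG
-/

namespace Pool.Agent.Work.MP_2ad852_ag.G3

open MvPolynomial Finset Pool.Agent.Work.MP_2ad852_ag.GF Pool.Agent.Work.MP_2ad852_ag.GS

theorem StdG_cases (z y x : Fin 3) (h1 : y ≠ z) (h2 : x ≠ z) (h3 : x ≠ y) (i : Fin 3) :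
    i = z ∨ i = y ∨ i = x := by
  revert z y x i
  decide

theorem StdG_univ (z y x : Fin 3) (h1 : y ≠ z) (h2 : x ≠ z) (h3 : x ≠ y) :
    (univ : Finset (Fin 3)) = {z, y, x} := by
  ext i
  simp only [mem_univ, mem_insert, mem_singleton, true_iff]
  exact StdG_cases z y x h1 h2 h3 i

theorem StdG_sum (z y x : Fin 3) (h1 : y ≠ z) (h2 : x ≠ z) (h3 : x ≠ y) (f : Fin 3 → ℕ) :
    ∑ i, f i = f z + f y + f x := by
  rw [StdG_univ z y x h1 h2 h3, sum_insert, sum_insert, sum_singleton]
  · ring
  · simp [h3.symm]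
  · simp [h1.symm, h2.symm]

theorem StdG_mo (z y x : Fin 3) (h1 : y ≠ z) (h2 : x ≠ z) (h3 : x ≠ y) (m i j : ℕ) :
    mo z y x m i j z = m ∧ mo z y x m i j y = i ∧ mo z y x m i j x = j := by
  unfold mo
  refine ⟨?_, ?_, ?_⟩
  · simp [h1, h2]
  · simp [h1.symm, h3]
  · simp [h2.symm, h3.symm]

theorem pr_StdG : S_StdG := by
  classical
  intro z y x k s L h1 h2 h3
  rw [Finset.card_eq_sum_card_fiberwise (f := fun p => p z)
    (t := Finset.range (min k (s + 1)))]
  · refine Finset.sum_congr rfl fun m hm => ?_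
    rw [Finset.mem_range, lt_min_iff] at hm
    unfold gg
    symm
    refine Finset.card_bij (fun i _ => mo z y x m i (s - m - i)) ?_ ?_ ?_
    · intro i hi
      rw [Finset.mem_filter, Finset.mem_range] at hi
      obtain ⟨e1, e2, e3⟩ := StdG_mo z y x h1 h2 h3 m i (s - m - i)
      rw [Finset.mem_filter, Std, Finset.mem_filter, mem_Mk, StdG_sum z y x h1 h2 h3, e1, e2, e3]
      refine ⟨⟨⟨by omega, hm.1⟩, hi.2⟩, rfl⟩
    · intro i hi j hj hij
      obtain ⟨-, e2, -⟩ := StdG_mo z y x h1 h2 h3 m i (s - m - i)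
      obtain ⟨-, e2', -⟩ := StdG_mo z y x h1 h2 h3 m j (s - m - j)
      rw [← e2, ← e2', hij]
    · intro p hp
      rw [Finset.mem_filter, Std, Finset.mem_filter, mem_Mk, StdG_sum z y x h1 h2 h3] at hp
      obtain ⟨⟨⟨e1, e2⟩, e3⟩, e4⟩ := hp
      have hpe : mo z y x m (p y) (s - m - p y) = p := by
        obtain ⟨f1, f2, f3⟩ := StdG_mo z y x h1 h2 h3 m (p y) (s - m - p y)
        ext i
        rcases StdG_cases z y x h1 h2 h3 i with rfl | rfl | rfl
        · rw [f1, e4]
        · rw [f2]
        · rw [f3]; omega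
      refine ⟨p y, ?_, hpe⟩
      rw [Finset.mem_filter, Finset.mem_range]
      refine ⟨by omega, ?_⟩
      rw [hpe]
      exact e3
  · intro p hp
    rw [Finset.mem_coe, Std, Finset.mem_filter, mem_Mk] at hp
    rw [Finset.mem_coe, Finset.mem_range, lt_min_iff]
    have h4 : p z ≤ ∑ i, p i :=
      Finset.single_le_sum (f := fun i => p i) (fun i _ => Nat.zero_le _) (Finset.mem_univ z)
    refine ⟨hp.1.2, ?_⟩
    show p z < s + 1
    have := hp.1.1
    omega

end Pool.Agent.Work.MP_2ad852_ag.G3

end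

section

/-!
# Block G3, item SubLK (helper31)
-/

namespace Pool.Agent.Work.MP_2ad852_ag.G3

open MvPolynomial Finset Pool.Agent.Work.MP_2ad852_ag.GF Pool.Agent.Work.MP_2ad852_ag.GS

theorem pr_SubLK (hS : S_Spec) (hO : S_OpenL) : S_SubLK := by
  classical
  intro ι ι' _ _ n z k e d φ hφ hLK
  obtain ⟨P, hP, hc⟩ := hO ι' n z k e (fun l => d (φ l)) hLK
  obtain ⟨c, hcP⟩ : ∃ c : ι' × (Fin n →₀ ℕ) → ℂ, eval c P ≠ 0 := by
    by_contra hcon
    push Not at hcon
    exact hP (MvPolynomial.funext fun x => by rw [hcon x, map_zero])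
  have hsurj := hc c hcP
  let f : ι → MvPolynomial (Fin n) ℂ := fun l =>
    if h : ∃ l', φ l' = l then sf (fun l => d (φ l)) c h.choose else 0
  have hfφ : ∀ l', f (φ l') = sf (fun l => d (φ l)) c l' := by
    intro l'
    have h : ∃ l'', φ l'' = φ l' := ⟨l', rfl⟩
    have h1 : h.choose = l' := hφ h.choose_spec
    simp only [f, dif_pos h, h1]
  refine hS ι n z k e d f (fun l => ?_) (fun h hh => ?_)
  · by_cases h : ∃ l', φ l' = l
    · obtain ⟨l', rfl⟩ := h
      rw [hfφ]
      exact sf_hom (fun l => d (φ l)) c l'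
    · simp only [f, dif_neg h]
      exact isHomogeneous_zero _ _ _
  · obtain ⟨w, hw, hdvd⟩ := hsurj h hh
    refine ⟨w, ?_, hdvd⟩
    refine Ideal.span_mono ?_ hw
    rintro _ ⟨l', rfl⟩
    exact ⟨φ l', hfφ l'⟩

end Pool.Agent.Work.MP_2ad852_ag.G3

end

section

/-!
# Item TComb
-/

namespace Pool.Agent.Work.MP_2ad852_ag.G3

open MvPolynomial Finset Pool.Agent.Work.MP_2ad852_ag.GF Pool.Agent.Work.MP_2ad852_ag.GS

theorem tcomb_card_split (z : Fin 3) (k e : ℕ) (L : (Fin 3 →₀ ℕ) → Prop) :
    (Bad2 z k e L).card =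
      ∑ m ∈ range (min k (e + 1)), ((Bad2 z k e L).filter (fun p => p z = m)).card := by
  classical
  apply Finset.card_eq_sum_card_fiberwise
  intro p hp
  have hp' : p ∈ Mk z k e := by
    have := (Finset.mem_filter.1 (by simpa [Bad2] using hp)).1
    exact this
  rw [mem_Mk] at hp'
  have h1 : p z ≤ e := by
    rw [← hp'.1]
    exact Finset.single_le_sum (f := fun i => p i) (fun i _ => Nat.zero_le _) (Finset.mem_univ z)
  simp only [Finset.coe_range, Set.mem_Iio]
  exact lt_min hp'.2 (by omega)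

theorem tcomb_std (ι : Type) [Fintype ι] (g : ℕ → ℕ → ℤ) (k e : ℕ) (d : ι → ℕ) :
    ∑ m ∈ range (min k (e + 1)), ∑ l, (if d l ≤ e - m then g m (e - m - d l) else 0) =
      ∑ l ∈ (Finset.univ : Finset ι).filter (fun l => d l ≤ e),
        ∑ m ∈ range (min k (e - d l + 1)), g m (e - d l - m) := by
  rw [Finset.sum_comm, Finset.sum_filter]
  refine Finset.sum_congr rfl (fun l _ => ?_)
  split_ifs with h
  · rw [← Finset.sum_filter]
    have : (range (min k (e + 1))).filter (fun m => d l ≤ e - m) ⊇ range (min k (e - d l + 1)) := by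
      intro m hm
      simp only [Finset.mem_range, Finset.mem_filter, lt_min_iff] at hm ⊢
      omega
    rw [← Finset.sum_subset this]
    · refine Finset.sum_congr rfl (fun m hm => ?_)
      congr 1
      omega
    · intro m hm hm'
      exfalso
      simp only [Finset.mem_range, Finset.mem_filter, lt_min_iff] at hm hm'
      omega
  · refine Finset.sum_eq_zero (fun m hm => ?_)
    rw [if_neg]
    omega

theorem pr_TComb (h1 : S_gg) (h2 : S_StdG) (h3 : S_CostA) (h4 : S_CostB) (h5 : S_Layer)
    (h6 : S_Pool) (h7 : S_Cross) (h8 : S_ChiW) (h9 : S_ChiT) (h10 : S_MkChi) : S_TComb := by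
  intro ι _ _ z y x k e d l1 L hyz hxz hxy hL hd1 hmin hsum hμ
  classical
  set M : ℕ := min k (e + 1) with hM
  have hMe : M ≤ e + 1 := min_le_right _ _
  set g : ℕ → ℕ → ℕ := fun m t => gg z y x L m t with hg
  -- step 1: costs
  have hcost : ∀ m ∈ range M, (((Bad2 z k e L).filter (fun p => p z = m)).card : ℤ) ≤
      ∑ l, (if d l ≤ e - m then (g m (e - m - d l) : ℤ) else 0) +
        ∑ t ∈ range (d l1), om d l1 t (e - m) * (g m t : ℤ) := by
    intro m hm
    rw [Finset.mem_range] at hm
    have hA := h3 z y x k e (d l1) m L hyz hxz hxy hL (hd1 l1) hμ (by omega)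
    have hB := h4 ι d l1 e (fun s => (g m s : ℤ)) hsum (hd1 l1) (e - m) (Nat.sub_le _ _)
    rw [hB]
    refine hA.trans (le_of_eq ?_)
    rw [add_assoc, ← Finset.sum_add_distrib]
    congr 1
    refine Finset.sum_congr rfl (fun t _ => ?_)
    simp only [om, hg]
    ring
  have hV : ((Bad2 z k e L).card : ℤ) ≤
      ∑ l ∈ (Finset.univ : Finset ι).filter (fun l => d l ≤ e), ((Std z k (e - d l) L).card : ℤ) +
        ∑ t ∈ range (d l1), ∑ m ∈ range M, om d l1 t (e - m) * (g m t : ℤ) := by
    rw [tcomb_card_split z k e L, Nat.cast_sum]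
    refine (Finset.sum_le_sum hcost).trans (le_of_eq ?_)
    rw [Finset.sum_add_distrib]
    congr 1
    · rw [tcomb_std ι (fun m t => (g m t : ℤ)) k e d]
      refine Finset.sum_congr rfl (fun l _ => ?_)
      rw [h2 z y x k (e - d l) L hyz hxz hxy]
      push_cast
      rfl
    · rw [Finset.sum_comm]
  refine hV.trans ?_
  gcongr
  -- step 2: V ≤ B
  set B : ℤ := max 0 (((Mk z k e).card : ℤ) - nC z k e d) with hB
  set N : ℕ := (d l1).factorial with hN
  have hNpos : 0 < N := Nat.factorial_pos _
  have hdvd : ∀ t < d l1, (t + 1) * (N / (t + 1)) = N := fun t ht =>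
    Nat.mul_div_cancel' (Nat.dvd_factorial (Nat.succ_pos t) (by omega))
  set R : ℕ → ℕ → ℕ := fun t m => (N / (t + 1)) * g m t with hR
  have key := h5 (d l1) M N (fun t m => ((t : ℤ) + 1) * om d l1 t (e - m)) R B
    (by
      intro t m ht hm
      have := (h1 z y x L hyz hxz hxy hL m t).1
      calc R t m ≤ (N / (t + 1)) * (t + 1) := Nat.mul_le_mul_left _ this
        _ = N := by rw [mul_comm]; exact hdvd t ht)
    (by
      intro t t' m htt' ht' hm
      -- antitone in t
      induction t', htt' using Nat.le_induction with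
      | base => exact le_rfl
      | succ s hs ih =>
        refine le_trans ?_ (ih (by omega))
        obtain ⟨ha, -, hc, -⟩ := h1 z y x L hyz hxz hxy hL m s
        have ha' := (h1 z y x L hyz hxz hxy hL m (s + 1)).1
        have e1 := hdvd s (by omega)
        have e2 := hdvd (s + 1) (by omega)
        -- (s+1) (s+2) R (s+1) m <= (s+1)(s+2) R s m
        have hkey : (s + 1) * g m (s + 1) ≤ (s + 2) * g m s := by
          by_cases hle : g m s ≤ s
          · have h' : g m (s + 1) ≤ g m s := hc hle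
            exact Nat.mul_le_mul (by omega) h'
          · have h' : g m s = s + 1 := by
              have : g m s ≤ s + 1 := ha
              omega
            have h'' : g m (s + 1) ≤ s + 2 := ha'
            rw [h', mul_comm (s + 2)]
            exact Nat.mul_le_mul_left _ h''
        show (N / (s + 1 + 1)) * g m (s + 1) ≤ (N / (s + 1)) * g m s
        refine Nat.le_of_mul_le_mul_left ?_ (show 0 < (s + 1) * (s + 2) by positivity)
        calc (s + 1) * (s + 2) * (N / (s + 1 + 1) * g m (s + 1))
            = ((s + 1 + 1) * (N / (s + 1 + 1))) * ((s + 1) * g m (s + 1)) := by ring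
          _ = N * ((s + 1) * g m (s + 1)) := by rw [e2]
          _ ≤ N * ((s + 2) * g m s) := Nat.mul_le_mul_left _ hkey
          _ = ((s + 1) * (N / (s + 1))) * ((s + 2) * g m s) := by rw [e1]
          _ = (s + 1) * (s + 2) * (N / (s + 1) * g m s) := by ring)
    (by
      intro t m m' ht hmm' hm'
      show (N / (t + 1)) * g m' t ≤ (N / (t + 1)) * g m t
      refine Nat.mul_le_mul_left _ ?_
      have hanti : Antitone (fun m => g m t) :=
        antitone_nat_of_succ_le (fun m => (h1 z y x L hyz hxz hxy hL m t).2.1)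
      exact hanti hmm')
    (by
      intro X hX hXanti
      obtain ⟨Y, hYM, hY⟩ := h6 (d l1) M (fun t m => ((t : ℤ) + 1) * om d l1 t (e - m))
        (by
          intro t t' X' Y' htt' ht' hXY hYM' hpos
          exact h7 ι d l1 e hmin hsum t t' X' Y' htt' ht' hXY (hYM'.trans hMe) hpos) X hX hXanti
      refine hY.trans ?_
      rw [Finset.sum_comm]
      have : ∑ m ∈ range Y, ∑ t ∈ range (d l1), ((t : ℤ) + 1) * om d l1 t (e - m) =
          ∑ m ∈ range Y, chi d (e - m) :=
        Finset.sum_congr rfl (fun m _ => h8 ι d l1 e hsum (hd1 l1) (e - m) (Nat.sub_le _ _))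
      rw [this]
      have h9' := h9 ι d e M Y hd1 hYM hMe
      rw [h10 ι z k e d] at h9'
      exact h9')
  -- conclude
  have heq : ∑ t ∈ range (d l1), ∑ m ∈ range M,
      ((t : ℤ) + 1) * om d l1 t (e - m) * ((R t m : ℕ) : ℤ) =
      (N : ℤ) * ∑ t ∈ range (d l1), ∑ m ∈ range M, om d l1 t (e - m) * (g m t : ℤ) := by
    rw [Finset.mul_sum]
    refine Finset.sum_congr rfl (fun t ht => ?_)
    rw [Finset.mul_sum]
    refine Finset.sum_congr rfl (fun m _ => ?_)
    have e1 := hdvd t (Finset.mem_range.1 ht)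
    have e1' : ((t : ℤ) + 1) * ((N / (t + 1) : ℕ) : ℤ) = N := by
      have := congrArg (fun n : ℕ => (n : ℤ)) e1
      simpa only [Nat.cast_mul, Nat.cast_add, Nat.cast_one] using this
    simp only [hR]
    rw [Nat.cast_mul]
    calc ((t : ℤ) + 1) * om d l1 t (e - m) * (((N / (t + 1) : ℕ) : ℤ) * (g m t : ℤ))
        = (((t : ℤ) + 1) * ((N / (t + 1) : ℕ) : ℤ)) * (om d l1 t (e - m) * (g m t : ℤ)) := by ring
      _ = (N : ℤ) * (om d l1 t (e - m) * (g m t : ℤ)) := by rw [e1']
  have key' : (N : ℤ) * ∑ t ∈ range (d l1), ∑ m ∈ range M, om d l1 t (e - m) * (g m t : ℤ) ≤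
      (N : ℤ) * B := by
    rw [← heq]
    exact key
  exact le_of_mul_le_mul_left key' (by exact_mod_cast hNpos)

end Pool.Agent.Work.MP_2ad852_ag.G3

end

section

/-!
# Block G3, item TP
-/

namespace Pool.Agent.Work.MP_2ad852_ag.G3

open MvPolynomial Finset Pool.Agent.Work.MP_2ad852_ag.GF Pool.Agent.Work.MP_2ad852_ag.GS

theorem pr_TP (hC : S_Core3L) (hT : S_TComb) : S_TP := by
  classical
  intro ι _ z k e d hd1 hd2 hcard hLK
  obtain ⟨F, hF⟩ := hLK
  rcases isEmpty_or_nonempty ι with hι | hι
  · have h0 : nC z k e d = 0 := by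
      unfold nC
      rw [Finset.univ_eq_empty, Finset.filter_empty, Finset.sum_empty]
    rw [h0] at hcard
    obtain ⟨p, hp, -⟩ := hF.ne
    have : (Mk z k e) = ∅ := Finset.card_eq_zero.1 (Nat.le_zero.1 hcard)
    rw [this] at hp
    exact absurd hp (Finset.notMem_empty p)
  · obtain ⟨l1, hl1⟩ := Finite.exists_min d
    obtain ⟨y, x, hy, hx, hxy⟩ : ∃ y x : Fin 3, y ≠ z ∧ x ≠ z ∧ x ≠ y :=
      (by decide : ∀ z : Fin 3, ∃ y x : Fin 3, y ≠ z ∧ x ≠ z ∧ x ≠ y) z
    obtain ⟨L, hL, hlead, hle⟩ := hC ι 3 z y k e d F hy hF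
    have h1 := hT ι z y x k e d l1 L hy hx hxy hL hd1 hl1
      (fun l hl => hd2 l1 l (Ne.symm hl)) (hlead l1)
    have h2 : max 0 (((Mk z k e).card : ℤ) - nC z k e d) = 0 := by
      apply max_eq_left
      have : ((Mk z k e).card : ℤ) ≤ nC z k e d := by exact_mod_cast hcard
      linarith
    rw [h2, add_zero] at h1
    have h3 : ((∑ l ∈ (Finset.univ : Finset ι).filter (fun l => d l ≤ e),
        (Std z k (e - d l) L).card : ℕ) : ℤ) + 1 ≤ ((Bad2 z k e L).card : ℤ) := by
      exact_mod_cast hle
    push_cast at h3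
    linarith

end Pool.Agent.Work.MP_2ad852_ag.G3

end

section

/-!
# Item TS
-/

namespace Pool.Agent.Work.MP_2ad852_ag.G3

open MvPolynomial Finset Pool.Agent.Work.MP_2ad852_ag.GF Pool.Agent.Work.MP_2ad852_ag.GS

theorem pr_TS (hP : S_TP) (h1 : S_One) (hE : S_ExtC) : S_TS := by
  intro ι _ z k e v d hd hs hv
  rcases Nat.eq_zero_or_pos k with rfl | hk
  · rintro ⟨F, hF⟩
    obtain ⟨p, hp, _⟩ := hF.ne
    rw [mem_Mk] at hp
    exact absurd hp.2 (Nat.not_lt_zero _)
  by_cases hone : ∀ l l', d l ≤ e → d l' ≤ e → l = l'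
  · exact h1 ι z k e v d hone hv
  push Not at hone
  obtain ⟨a, c, ha, hc, hac⟩ := hone
  have hac2 := hs a c hac
  have h2 : ∀ m, 2 ≤ d m := by
    intro m
    by_cases hm : m = a
    · subst hm; omega
    · have := hs m a hm
      omega
  refine hP (ι ⊕ Fin v) z k e (dv d v e) ?_ ?_ ?_
  · rintro (l | l)
    · exact hd l
    · show 1 ≤ e
      omega
  · rintro (l | l) (l' | l') hll
    · exact hs l l' fun h => hll (by rw [h])
    · show e + 2 ≤ d l + e
      have := h2 l
      omega
    · show e + 2 ≤ e + d l'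
      have := h2 l'
      omega
    · show e + 2 ≤ e + e
      omega
  · have h3 := hE ι 3 z k e v d hk
    show (Mk z k e).card ≤ nC z k e (Sum.elim d (fun _ : Fin v => e))
    rw [h3]
    exact hv

end Pool.Agent.Work.MP_2ad852_ag.G3

end

section

/-!
# Thr: initial segments
-/

namespace Pool.Agent.Work.MP_2ad852_ag.G3

open MvPolynomial Finset Pool.Agent.Work.MP_2ad852_ag.GF Pool.Agent.Work.MP_2ad852_ag.GS

theorem Thr_range (S : Finset ℕ) (h : ∀ m ∈ S, ∀ m' ≤ m, m' ∈ S) : S = range S.card := by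
  apply Finset.eq_of_subset_of_card_le
  · intro m hm
    have : range (m + 1) ⊆ S := by
      intro m' hm'
      rw [Finset.mem_range] at hm'
      exact h m hm m' (by omega)
    have := Finset.card_le_card this
    rw [Finset.card_range] at this
    rw [Finset.mem_range]
    omega
  · rw [Finset.card_range]

theorem Thr_mo (z y x : Fin 3) (m i j : ℕ) :
    mo z y x m (i + 1) j - Finsupp.single y 1 + Finsupp.single x 1 = mo z y x m i (j + 1) := by
  unfold mo
  have h1 : Finsupp.single z m + Finsupp.single y (i + 1) + Finsupp.single x j =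
      Finsupp.single z m + Finsupp.single y i + Finsupp.single x j + Finsupp.single y 1 := by
    rw [Finsupp.single_add y i 1]
    abel
  rw [h1, add_tsub_cancel_right, Finsupp.single_add x j 1]
  abel

theorem pr_Thr : S_Thr := by
  classical
  intro z y x L hyz hxz hxy hL m t i hi
  have step : ∀ i, i + 1 ≤ t → L (mo z y x m (i + 1) (t - (i + 1))) →
      L (mo z y x m i (t - i)) := by
    intro i hi h
    have h2 := hL.ex _ x h hxy hxz (by
      unfold mo
      simp only [Finsupp.add_apply, Finsupp.single_eq_same]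
      omega)
    rw [Thr_mo] at h2
    have e : t - (i + 1) + 1 = t - i := by omega
    rwa [e] at h2
  have down : ∀ j i, i + j ≤ t → L (mo z y x m (i + j) (t - (i + j))) →
      L (mo z y x m i (t - i)) := by
    intro j
    induction j with
    | zero => intro i _ h; exact h
    | succ j ih =>
      intro i hij h
      exact ih i (by omega) (step (i + j) (by omega) h)
  set S : Finset ℕ := (range (t + 1)).filter (fun i => L (mo z y x m i (t - i))) with hS
  have hSr : S = range S.card := by
    apply Thr_range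
    intro a ha b hb
    rw [hS, mem_filter, mem_range] at ha ⊢
    refine ⟨by omega, down (a - b) b (by omega) ?_⟩
    have : b + (a - b) = a := by omega
    rw [this]
    exact ha.2
  have hgg : S.card + gg z y x L m t = t + 1 := by
    unfold gg
    rw [hS, Finset.card_filter_add_card_filter_not, card_range]
  have hmem : i ∈ S ↔ i < S.card := by
    conv_lhs => rw [hSr]
    exact mem_range
  rw [hS, mem_filter, mem_range] at hmem
  constructor
  · intro h
    have := hmem.mp ⟨by omega, h⟩
    rw [← hS] at this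
    omega
  · intro h
    refine (hmem.mpr ?_).2
    rw [← hS]
    omega

end Pool.Agent.Work.MP_2ad852_ag.G3

end

section

/-!
# Item TwfNe: the twisted forms are not divisible by `z`
-/

namespace Pool.Agent.Work.MP_2ad852_ag.G3

open MvPolynomial Finset Pool.Agent.Work.MP_2ad852_ag.GF Pool.Agent.Work.MP_2ad852_ag.GS

theorem TwfNe_dvd {n : ℕ} {R : Type} [CommRing R] (z : Fin n) (w : MvPolynomial (Fin n) R)
    (h : ∀ p : Fin n →₀ ℕ, p z = 0 → coeff p w = 0) : X z ∣ w := by
  rw [w.as_sum]
  refine Finset.dvd_sum fun p hp => ?_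
  rw [mem_support_iff] at hp
  have hz : p z ≠ 0 := fun hz => hp (h p hz)
  refine ⟨monomial (p - Finsupp.single z 1) (coeff p w), ?_⟩
  have e : Finsupp.single z 1 + (p - Finsupp.single z 1) = p := by
    ext i
    rw [Finsupp.add_apply, Finsupp.tsub_apply, Finsupp.single_apply]
    split_ifs with hi
    · subst hi; omega
    · omega
  rw [X, monomial_mul, one_mul, e]

theorem pr_TwfNe (hI : S_TwInv) : S_TwfNe := by
  intro ι n z y d l hyz
  by_contra hcon
  push Not at hcon
  obtain ⟨g, hg⟩ := TwfNe_dvd z (twf z y d l) hcon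
  have h1 := congrArg (tw z y) hg
  rw [twf, (hI ι n z y _ hyz).1, map_mul] at h1
  have h2 : tw (ι := ι) z y (X z) = X z := by
    rw [tw, tws, aeval_X, if_neg (Ne.symm hyz)]
  rw [h2] at h1
  have h3 := congrArg (coeff (Finsupp.single y (d l))) h1
  rw [coeff_X_mul', if_neg, coeff_map] at h3
  · have h4 : coeff (Finsupp.single y (d l)) (gf d l : MvPolynomial (Fin n) (Rg ι n)) =
        X (l, Finsupp.single y (d l)) := by
      rw [coeff_gf, if_pos]
      simp [Finsupp.single_apply]
    rw [h4] at h3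
    have h5 : (inj (ι := ι) (n := n)).toRingHom (X (l, Finsupp.single y (d l))) =
        X (Sum.inl (l, Finsupp.single y (d l))) := by
      show rename Sum.inl _ = _
      rw [rename_X]
    rw [h5] at h3
    exact X_ne_zero _ h3
  · rw [Finsupp.mem_support_iff, Finsupp.single_apply, if_neg hyz]
    simp

end Pool.Agent.Work.MP_2ad852_ag.G3

end

section

/-!
# A form of degree zero kills every functional
-/

namespace Pool.Agent.Work.MP_2ad852_ag.G3

open MvPolynomial Finset Pool.Agent.Work.MP_2ad852_ag.GF Pool.Agent.Work.MP_2ad852_ag.GS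

theorem pr_ZeroLK : S_ZeroLK := by
  intro ι _ n z k e d l hl hLK
  obtain ⟨F, hF⟩ := hLK
  obtain ⟨p, hp, hne⟩ := hF.ne
  have h1 := hF.kill l (monomial p 1)
  have h2 : (gf (n := n) d l) = C (X (l, 0)) := by
    ext q
    rw [coeff_gf, coeff_C, hl]
    by_cases hq : ∑ i, q i = 0
    · have hq0 : q = 0 := by
        ext i
        have := (Finset.sum_eq_zero_iff.1 hq) i (Finset.mem_univ i)
        simpa using this
      subst hq0
      simp
    · rw [if_neg hq, if_neg]
      rintro rfl
      exact hq (by simp)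
  rw [h2, fn_C_mul, fn_monomial, if_pos hp, one_mul] at h1
  rcases mul_eq_zero.1 h1 with h | h
  · exact X_ne_zero _ h
  · exact hne h

end Pool.Agent.Work.MP_2ad852_ag.G3

end
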