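import Pool.Agent.Work.MP_2ad852_ag.G3.Stmts
import Pool.Agent.Work.MP_2ad852_ag.Bd.B05
import Pool.Agent.Work.MP_2ad852_ag.GS.Hilb

/-! Bundle of small proof modules (one section per former module). -/

section

/-!
# Block G3, item gg
-/

namespace Pool.Agent.Work.MP_2ad852_ag.G3

open MvPolynomial Finset Pool.Agent.Work.MP_2ad852_ag.GF Pool.Agent.Work.MP_2ad852_ag.GS

theorem gg_three (z y x : Fin 3) (hy : y ≠ z) (hx : x ≠ z) (hxy : x ≠ y) (k : Fin 3) :
    k = z ∨ k = y ∨ k = x :=
  (by decide : ∀ z y x k : Fin 3, y ≠ z → x ≠ z → x ≠ y → k = z ∨ k = y ∨ k = x)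
    z y x k hy hx hxy

theorem gg_sum (z y x : Fin 3) (hy : y ≠ z) (hx : x ≠ z) (hxy : x ≠ y) (μ : Fin 3 →₀ ℕ) :
    ∑ i, μ i = μ z + μ y + μ x := by
  have h : (Finset.univ : Finset (Fin 3)) = {z, y, x} := by
    ext k
    simp only [Finset.mem_univ, Finset.mem_insert, Finset.mem_singleton, true_iff]
    exact gg_three z y x hy hx hxy k
  rw [h, Finset.sum_insert, Finset.sum_insert, Finset.sum_singleton]
  · ring
  · simpa using Ne.symm hxy
  · simp [Ne.symm hy, Ne.symm hx]

theorem gg_mo_z (z y x : Fin 3) (m i j : ℕ) :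
    mo z y x (m + 1) i j = mo z y x m i j + Finsupp.single z 1 := by
  unfold mo
  rw [Finsupp.single_add]
  abel

theorem gg_mo_y (z y x : Fin 3) (m i j : ℕ) :
    mo z y x m (i + 1) j = mo z y x m i j + Finsupp.single y 1 := by
  unfold mo
  rw [Finsupp.single_add]
  abel

theorem pr_gg (hT : S_Thr) : S_gg := by
  classical
  intro z y x L hy hx hxy hL m t
  refine ⟨?_, ?_, ?_, ?_⟩
  · unfold gg
    refine (Finset.card_filter_le _ _).trans ?_
    rw [Finset.card_range]
  · unfold gg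
    refine Finset.card_le_card ?_
    intro i hi
    rw [Finset.mem_filter] at hi ⊢
    refine ⟨hi.1, fun h => hi.2 ?_⟩
    rw [gg_mo_z]
    exact hL.add _ _ h
  · intro hg
    have h1 := (hT z y x L hy hx hxy hL m t (t - gg z y x L m t) (Nat.sub_le _ _)).2 (by omega)
    have h2 : L (mo z y x m (t - gg z y x L m t + 1) (t - (t - gg z y x L m t))) := by
      rw [gg_mo_y]
      exact hL.add _ _ h1
    have h3 := (hT z y x L hy hx hxy hL m (t + 1) (t - gg z y x L m t + 1) (by omega)).1 (by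
      have e : t + 1 - (t - gg z y x L m t + 1) = t - (t - gg z y x L m t) := by omega
      rw [e]
      exact h2)
    omega
  · intro μ hμ hμz hμt
    rw [gg_sum z y x hy hx hxy, hμz, zero_add] at hμt
    have h1 : mo z y x m (μ y) (t - μ y) =
        μ + (Finsupp.single z m + Finsupp.single x (t - μ y - μ x)) := by
      ext k
      unfold mo
      simp only [Finsupp.add_apply]
      rcases gg_three z y x hy hx hxy k with rfl | rfl | rfl
      · rw [Finsupp.single_eq_same, Finsupp.single_eq_of_ne (Ne.symm hy),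
          Finsupp.single_eq_of_ne (Ne.symm hx), Finsupp.single_eq_of_ne (Ne.symm hx), hμz]
        omega
      · rw [Finsupp.single_eq_same, Finsupp.single_eq_of_ne hy,
          Finsupp.single_eq_of_ne (Ne.symm hxy), Finsupp.single_eq_of_ne (Ne.symm hxy)]
        omega
      · rw [Finsupp.single_eq_same, Finsupp.single_eq_same, Finsupp.single_eq_of_ne hx,
          Finsupp.single_eq_of_ne hxy]
        omega
    have h2 : L (mo z y x m (μ y) (t - μ y)) := by
      rw [h1]
      exact hL.add _ _ hμ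
    have h3 := (hT z y x L hy hx hxy hL m t (μ y) (by omega)).1 h2
    omega

end Pool.Agent.Work.MP_2ad852_ag.G3

end

section

/-!
# Block G3: final assembly
-/

namespace Pool.Agent.Work.MP_2ad852_ag.G3

open MvPolynomial Finset Pool.Agent.Work.MP_2ad852_ag.GF Pool.Agent.Work.MP_2ad852_ag.GS

/-- two indices of smallest degrees -/
theorem exists_pair {ι : Type} [Fintype ι] [DecidableEq ι] [Nontrivial ι] (d : ι → ℕ) :
    ∃ i j : ι, i ≠ j ∧ ∀ m, m ≠ i → m ≠ j → d i ≤ d m ∧ d j ≤ d m := by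
  obtain ⟨i, hi⟩ := Finite.exists_min d
  have : Nonempty {m : ι // m ≠ i} := by
    obtain ⟨m, hm⟩ := exists_ne i
    exact ⟨⟨m, hm⟩⟩
  obtain ⟨j, hj⟩ := Finite.exists_min (fun m : {m : ι // m ≠ i} => d m.1)
  exact ⟨i, j.1, j.2.symm, fun m h1 _ => ⟨hi m, hj ⟨m, h1⟩⟩⟩

/-- one nonzero form -/
theorem sf_ne {r : ℕ} (d : Fin r → ℕ) (i : Fin r) :
    ∃ P : Rg (Fin r) 3, P ≠ 0 ∧ ∀ c : Fin r × (Fin 3 →₀ ℕ) → ℂ, eval c P ≠ 0 → sf d c i ≠ 0 := by
  refine ⟨X (i, Finsupp.single 0 (d i)), X_ne_zero _, fun c hc h => hc ?_⟩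
  have h1 : ∑ j, (Finsupp.single (0 : Fin 3) (d i)) j = d i := by
    simp
  have h2 := coeff_sf d c i (Finsupp.single 0 (d i))
  rw [if_pos h1, h, coeff_zero] at h2
  rw [eval_X]
  exact h2.symm

theorem range_elim_zero {ι : Type} (f : ι → MvPolynomial (Fin 3) ℂ)
    (B : Fin 0 → MvPolynomial (Fin 3) ℂ) : Set.range (Sum.elim f B) = Set.range f := by
  rw [Set.Sum.elim_range, Set.range_eq_empty B, Set.union_empty]

theorem claim (hOL : S_OpenL) (hOR : S_OpenR)
    (hFS : S_FinSurj) (hFI : S_FinInj) (hML : S_MatL) (hMR : S_MatR) (hCC : S_CardCols)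
    (hSq : S_LASq) (hExtR : S_ExtR2) (hExtC : S_ExtC) (hTP : S_TP) (hTS : S_TS) (hN1 : S_N1)
    (hB4 : S_B4) (hN2 : S_N2) (hFO : S_FillOpen) (hCI : S_CIgen) (hKos : S_Koszul)
    (hInj : S_InjCount) {r : ℕ} (d : Fin r → ℕ) (hd : ∀ j, 1 ≤ d j)
    (z : Fin 3) {i j : Fin r} (hij : i ≠ j) (hmin : ∀ m, m ≠ i → m ≠ j → d i ≤ d m ∧ d j ≤ d m)
    (b k : ℕ) :
    ∃ P : Rg (Fin r) 3, P ≠ 0 ∧ ∀ c : Fin r × (Fin 3 →₀ ℕ) → ℂ, eval c P ≠ 0 →
      MaxRk (Ideal.span (Set.range (sf d c))) (X z) b k := by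
  classical
  rcases Nat.eq_zero_or_pos k with rfl | hk
  · refine ⟨1, one_ne_zero, fun c _ => Or.inl fun g _ hg => ?_⟩
    rwa [pow_zero, one_mul] at hg
  have surj : ¬ LK z k (b + k) d → ∃ P : Rg (Fin r) 3, P ≠ 0 ∧
      ∀ c : Fin r × (Fin 3 →₀ ℕ) → ℂ, eval c P ≠ 0 →
      MaxRk (Ideal.span (Set.range (sf d c))) (X z) b k := by
    intro h
    obtain ⟨P, hP, hP'⟩ := hOL (Fin r) 3 z k (b + k) d h
    exact ⟨P, hP, fun c hc => maxRk_of hFS hFI (fun l => sf_hom d c l) (Or.inl (hP' c hc))⟩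
  rcases Nat.lt_or_ge (b + k + 1) (d i + d j) with hT | hH
  · have hpair : ∀ l l', l ≠ l' → b + k + 2 ≤ d l + d l' := by
      intro l l' hll
      by_cases h1 : l = i
      · subst h1
        by_cases h2 : l' = j
        · subst h2; omega
        · have := hmin l' (Ne.symm hll) h2
          omega
      · by_cases h2 : l = j
        · subst h2
          by_cases h3 : l' = i
          · subst h3; omega
          · have := hmin l' h3 (Ne.symm hll)
            omega
        · have h5 := hmin l h1 h2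
          by_cases h3 : l' = i
          · subst h3; omega
          · by_cases h4 : l' = j
            · subst h4; omega
            · have := hmin l' h3 h4
              omega
    by_cases hv : (Mk z k (b + k)).card ≤ nC z k (b + k) d
    · exact surj (hTP (Fin r) z k (b + k) d hd hpair hv)
    · have hRK : ¬ RK z k (b + k) d := by
        intro h1
        set s := (Mk z k (b + k)).card - nC z k (b + k) d with hs
        have h3 : RK z k (b + k) (Sum.elim d (fun _ : Fin s => b + k)) :=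
          hExtR (Fin r) 3 z k (b + k) s d h1
        have h4 : nC z k (b + k) (Sum.elim d (fun _ : Fin s => b + k)) =
            (Mk z k (b + k)).card := by
          rw [hExtC (Fin r) 3 z k (b + k) s d hk]
          omega
        have h5 := LK_of_RK hML hMR hCC hSq h4 h3
        exact hTS (Fin r) z k (b + k) s d hd hpair (by omega) h5
      obtain ⟨P, hP, hP'⟩ := hOR (Fin r) 3 z k (b + k) d hRK
      exact ⟨P, hP, fun c hc => maxRk_of hFS hFI (fun l => sf_hom d c l) (Or.inr (hP' c hc))⟩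
  · by_cases h1 : ∃ l, l ≠ i ∧ l ≠ j ∧ d l ≤ b + 1
    · obtain ⟨l, hli, hlj, hl⟩ := h1
      exact surj (hN1 (Fin r) z k b d i j l hij hli hlj hd hmin (by omega) hl)
    by_cases h2 : ∃ l m, l ≠ i ∧ l ≠ j ∧ m ≠ i ∧ m ≠ j ∧ l ≠ m ∧
        d i + d j + d l + d m ≤ 2 * (b + k) + 3
    · obtain ⟨l, m, a1, a2, a3, a4, a5, h⟩ := h2
      exact surj (hB4 (Fin r) z k (b + k) d i j l m hij a1.symm a3.symm a2.symm a4.symm a5 h)
    push Not at h1 h2
    set v := Hc (d i) (d j) (b + k) - cnt d i j (b + k) - Hc (d i) (d j) b with hv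
    have hNL : ¬ LK z k (b + k) (dv d v (b + k)) := by
      refine hN2 (Fin r) z k b v d i j hij hd (fun m hm1 hm2 => ?_) (by omega)
        (fun l m a1 a2 a3 a4 a5 => ?_) (by omega)
      · have e1 := hmin m hm1 hm2
        have e2 := h1 m hm1 hm2
        exact ⟨e1.1, e1.2, by omega⟩
      · have := h2 l m a1 a2 a3 a4 a5
        omega
    obtain ⟨P1, hP1, hP1'⟩ := hFO (Fin r) 3 z k (b + k) v d hNL
    rcases Nat.eq_zero_or_pos v with hv0 | hvpos
    · refine ⟨P1, hP1, fun c hc => ?_⟩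
      obtain ⟨B, _, hB2⟩ := hP1' c hc
      refine maxRk_of hFS hFI (fun l => sf_hom d c l) (Or.inl fun h hh => ?_)
      obtain ⟨w, hw, hw'⟩ := hB2 h hh
      refine ⟨w, ?_, hw'⟩
      have : Set.range (Sum.elim (sf d c) B) = Set.range (sf d c) := by
        have hE : IsEmpty (Fin v) := by rw [hv0]; infer_instance
        rw [Set.Sum.elim_range, Set.range_eq_empty B, Set.union_empty]
      rwa [this] at hw
    · obtain ⟨P2, hP2, hP2'⟩ := hCI (Fin r) b d i j hij
      obtain ⟨P3, hP3, hP3'⟩ := prodP (σ := Fin r × (Fin 3 →₀ ℕ)) (Finset.univ : Finset (Fin r))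
        (fun m c => Module.finrank ℂ (VV3 (b + k - d m)) ≤
          Module.finrank ℂ (UU3 (sf d c i) (sf d c j) (b + k - d m)) +
            Hc (d i) (d j) (b + k - d m))
        (fun m _ => hCI (Fin r) (b + k - d m) d i j hij)
      obtain ⟨P4, hP4, hP4'⟩ := sf_ne d i
      obtain ⟨P5, hP5, hP5'⟩ := sf_ne d j
      refine ⟨P1 * P2 * P3 * P4 * P5,
        mul_ne_zero (mul_ne_zero (mul_ne_zero (mul_ne_zero hP1 hP2) hP3) hP4) hP5,
        fun c hc => Or.inl ?_⟩
      simp only [eval_mul] at hc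
      have c5 := right_ne_zero_of_mul hc
      have hc4 := left_ne_zero_of_mul hc
      have c4 := right_ne_zero_of_mul hc4
      have hc3 := left_ne_zero_of_mul hc4
      have c3 := right_ne_zero_of_mul hc3
      have hc2 := left_ne_zero_of_mul hc3
      have c2 := right_ne_zero_of_mul hc2
      have c1 := left_ne_zero_of_mul hc2
      obtain ⟨B, hB1, hB2⟩ := hP1' c c1
      exact hInj (Fin r) z k b v d i j (sf d c) B hij (fun l => sf_hom d c l) hB1 hB2
        (hKos (d i) (d j) (b + k) _ _ (sf_hom d c i) (sf_hom d c j) (hP4' c c4) (hP5' c c5))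
        (hP2' c c2) (fun m _ _ _ => hP3' c c3 m (Finset.mem_univ m)) (by omega)

theorem sum_four {r : ℕ} (hr : 3 < r) (d : Fin r → ℕ) :
    ∃ i j l m : Fin r, i ≠ j ∧ i ≠ l ∧ i ≠ m ∧ j ≠ l ∧ j ≠ m ∧ l ≠ m ∧
      d i + d j + d l + d m ≤ ∑ t, d t := by
  have e1 : (⟨0, by omega⟩ : Fin r) ≠ ⟨1, by omega⟩ := by simp
  have e2 : (⟨0, by omega⟩ : Fin r) ≠ ⟨2, by omega⟩ := by simp
  have e3 : (⟨0, by omega⟩ : Fin r) ≠ ⟨3, by omega⟩ := by simp
  have e4 : (⟨1, by omega⟩ : Fin r) ≠ ⟨2, by omega⟩ := by simp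
  have e5 : (⟨1, by omega⟩ : Fin r) ≠ ⟨3, by omega⟩ := by simp
  have e6 : (⟨2, by omega⟩ : Fin r) ≠ ⟨3, by omega⟩ := by simp
  refine ⟨⟨0, by omega⟩, ⟨1, by omega⟩, ⟨2, by omega⟩, ⟨3, by omega⟩, e1, e2, e3, e4, e5, e6, ?_⟩
  have h1 : ∑ t ∈ ({⟨0, by omega⟩, ⟨1, by omega⟩, ⟨2, by omega⟩, ⟨3, by omega⟩} :
      Finset (Fin r)), d t ≤ ∑ t, d t :=
    Finset.sum_le_sum_of_subset (Finset.subset_univ _)
  rw [Finset.sum_insert (by simp [e1, e2, e3]), Finset.sum_insert (by simp [e4, e5]),
    Finset.sum_insert (by simp [e6]), Finset.sum_singleton] at h1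
  omega

theorem fin3 (hOL : S_OpenL) (hOR : S_OpenR) (hPull : S_Pull) (hMono : S_Mono) (hFull : S_Full)
    (hFS : S_FinSurj) (hFI : S_FinInj) (hML : S_MatL) (hMR : S_MatR) (hCC : S_CardCols)
    (hSq : S_LASq) (hExtR : S_ExtR2) (hExtC : S_ExtC) (hTP : S_TP) (hTS : S_TS) (hN1 : S_N1)
    (hB4 : S_B4) (hN2 : S_N2) (hFO : S_FillOpen) (hCI : S_CIgen) (hKos : S_Koszul)
    (hInj : S_InjCount) {r : ℕ} (hr : 3 < r) (d : Fin r → ℕ) (hd : ∀ j, 1 ≤ d j) :
    Generic (n := 3) d (fun f => ∃ l : MvPolynomial (Fin 3) ℂ, l.IsHomogeneous 1 ∧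
      ∀ i k : ℕ, MaxRk (Ideal.span (Set.range f)) l i k) := by
  classical
  have : Nontrivial (Fin r) := Fin.nontrivial_iff_two_le.2 (by omega)
  obtain ⟨i, j, hij, hmin⟩ := exists_pair d
  set z : Fin 3 := 0 with hz
  set E := ∑ t, d t with hE
  obtain ⟨P1, hP1, hP1'⟩ := prodP (σ := Fin r × (Fin 3 →₀ ℕ)) ((range E) ×ˢ (range (E + 1)))
    (fun bk c => MaxRk (Ideal.span (Set.range (sf d c))) (X z) bk.1 bk.2)
    (fun bk _ => claim hOL hOR hFS hFI hML hMR hCC hSq hExtR hExtC hTP hTS hN1 hB4 hN2 hFO hCI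
      hKos hInj d hd z hij hmin bk.1 bk.2)
  obtain ⟨i1, i2, i3, i4, a1, a2, a3, a4, a5, a6, h7⟩ := sum_four hr d
  obtain ⟨P2, hP2, hP2'⟩ := hOL (Fin r) 3 z (E + 1) E d
    (hB4 (Fin r) z (E + 1) E d i1 i2 i3 i4 a1 a2 a3 a4 a5 a6 (by omega))
  refine (generic_of hPull (Q := fun f => (∀ bk ∈ ((range E) ×ˢ (range (E + 1))),
      MaxRk (Ideal.span (Set.range f)) (X z) bk.1 bk.2) ∧ SurjAt z (E + 1) E f)
      ⟨P1 * P2, mul_ne_zero hP1 hP2, fun c hc => ?_⟩).mono fun f hf h => ?_
  · rw [eval_mul] at hc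
    exact ⟨hP1' c (left_ne_zero_of_mul hc), hP2' c (right_ne_zero_of_mul hc)⟩
  · refine ⟨X z, isHomogeneous_X _ _, fun b k => ?_⟩
    rcases Nat.lt_or_ge (b + k) E with hbk | hbk
    · refine h.1 (b, k) ?_
      rw [Finset.mem_product, Finset.mem_range, Finset.mem_range]
      exact ⟨by simp only; omega, by simp only; omega⟩
    · exact maxRk_of hFS hFI hf (Or.inl (hMono _ 3 z k _ _ f hbk (hFull _ 3 z k _ d f hf h.2)))

end Pool.Agent.Work.MP_2ad852_ag.G3

end

section

/-!
# Item HcMk: numerical identity for the Hilbert functions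
-/

namespace Pool.Agent.Work.MP_2ad852_ag.G3

open Finset Pool.Agent.Work.MP_2ad852_ag.GF Pool.Agent.Work.MP_2ad852_ag.GS

namespace ItHcMk

/-- triangular numbers -/
def Tn (s : ℕ) : ℕ := ∑ j ∈ range s, (j + 1)

lemma Tn_zero : Tn 0 = 0 := by simp [Tn]

lemma Tn_succ (s : ℕ) : Tn (s + 1) = Tn s + (s + 1) := Finset.sum_range_succ _ _

lemma Mk_card (z : Fin 3) (t : ℕ) : ∀ k, (Mk z k t).card + Tn (t + 1 - k) = Tn (t + 1) := by
  intro k
  rw [card_Mk_eq (by norm_num) z k t]
  have h : ∀ j, (t - j + 3 - 2).choose (3 - 2) = t - j + 1 := by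
    intro j
    rw [show (3 : ℕ) - 2 = 1 from rfl, Nat.choose_one_right]
    omega
  simp only [h]
  induction k with
  | zero => simp
  | succ k ih =>
    rcases Nat.lt_or_ge k (t + 1) with hk | hk
    · rw [min_eq_left (by omega)] at ih ⊢
      rw [Finset.sum_range_succ]
      obtain ⟨s, hs⟩ : ∃ s, t + 1 - k = s + 1 := ⟨t - k, by omega⟩
      rw [hs, Tn_succ] at ih
      rw [show t + 1 - (k + 1) = s by omega]
      omega
    · rw [min_eq_right (by omega)] at ih ⊢
      rw [show t + 1 - (k + 1) = t + 1 - k by omega]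
      exact ih

lemma Hc_sum (a c t : ℕ) : Hc a c t = ∑ p ∈ range a, min c (t + 1 - p) := by
  unfold Hc
  rw [Finset.card_eq_sum_card_fiberwise (f := fun pq : ℕ × ℕ => pq.1) (t := range a)]
  · refine Finset.sum_congr rfl fun p hp => ?_
    rw [← Finset.card_range (min c (t + 1 - p))]
    refine Finset.card_bij (fun pq _ => pq.2) ?_ ?_ ?_
    · rintro ⟨x, y⟩ h
      simp only [Finset.mem_filter, Finset.mem_product, Finset.mem_range] at h ⊢
      omega
    · rintro ⟨x, y⟩ h ⟨x', y'⟩ h' e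
      simp only [Finset.mem_filter, Finset.mem_product, Finset.mem_range] at h h'
      simp only at e
      rw [Prod.mk.injEq]
      exact ⟨by omega, e⟩
    · intro q hq
      rw [Finset.mem_range] at hq hp
      refine ⟨(p, q), ?_, rfl⟩
      rw [Finset.mem_filter, Finset.mem_filter, Finset.mem_product, Finset.mem_range,
        Finset.mem_range]
      refine ⟨⟨⟨hp, ?_⟩, ?_⟩, rfl⟩
      · show q < c
        omega
      · show p + q ≤ t
        omega
  · rintro ⟨x, y⟩ h
    simp only [Finset.coe_filter, Finset.mem_product, Finset.mem_range, Set.mem_ofPred_eq] at h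
    simp only [Finset.coe_range, Set.mem_Iio]
    omega

lemma Hc_eq (c t : ℕ) : ∀ a, Hc a c t + Tn (t + 1 - a) + Tn (t + 1 - c) =
    Tn (t + 1) + Tn (t + 1 - a - c) := by
  intro a
  rw [Hc_sum]
  induction a with
  | zero => simp
  | succ a ih =>
    rw [Finset.sum_range_succ]
    rcases Nat.eq_zero_or_pos (t + 1 - a) with h0 | h0
    · rw [show t + 1 - (a + 1) = t + 1 - a by omega, h0]
      rw [h0] at ih
      simpa using ih
    · obtain ⟨s, hs⟩ : ∃ s, t + 1 - a = s + 1 := ⟨t - a, by omega⟩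
      rw [show t + 1 - (a + 1) = s by omega, hs]
      rw [hs, Tn_succ s] at ih
      rcases Nat.lt_or_ge c (s + 1) with hc | hc
      · rw [min_eq_left (by omega)]
        obtain ⟨r, hr⟩ : ∃ r, s + 1 - c = r + 1 := ⟨s - c, by omega⟩
        rw [hr, Tn_succ r] at ih
        rw [show s - c = r by omega]
        omega
      · rw [min_eq_right (by omega)]
        rw [show s + 1 - c = 0 by omega, Tn_zero] at ih
        rw [show s - c = 0 by omega, Tn_zero]
        omega

end ItHcMk

open ItHcMk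

theorem pr_HcMk : S_HcMk := by
  intro ι _ _ z k b d i j hij hsum hm
  have hA : ∀ a, (if a ≤ b + k then (Mk z k (b + k - a)).card else 0) + Tn (b + 1 - a) =
      Tn (b + k + 1 - a) := by
    intro a
    split_ifs with h
    · have := Mk_card z (b + k - a) k
      rw [show b + k - a + 1 - k = b + 1 - a by omega, show b + k - a + 1 = b + k + 1 - a by omega]
        at this
      exact this
    · rw [show b + 1 - a = 0 by omega, show b + k + 1 - a = 0 by omega, zero_add]
  have hsplit : nC z k (b + k) d = (if d i ≤ b + k then (Mk z k (b + k - d i)).card else 0) +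
      (if d j ≤ b + k then (Mk z k (b + k - d j)).card else 0) + cnt d i j (b + k) := by
    unfold nC cnt
    rw [Finset.sum_filter]
    have hterm : ∀ l, (if d l ≤ b + k then (Mk z k (b + k - d l)).card else 0) =
        (if l = i then (if d i ≤ b + k then (Mk z k (b + k - d i)).card else 0) else 0) +
        (if l = j then (if d j ≤ b + k then (Mk z k (b + k - d j)).card else 0) else 0) +
        (if l ≠ i ∧ l ≠ j ∧ d l ≤ b + k then Hc (d i) (d j) (b + k - d l) else 0) := by
      intro l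
      by_cases h1 : l = i
      · subst h1
        simp [hij]
      · by_cases h2 : l = j
        · subst h2
          simp [h1]
        · obtain ⟨h3, h4, h5⟩ := hm l h1 h2
          by_cases h6 : d l ≤ b + k
          · simp only [h1, h2, h6, if_false, if_true, zero_add, ne_eq, not_false_eq_true, and_self]
            have e1 := Mk_card z (b + k - d l) k
            have e2 := Hc_eq (d j) (b + k - d l) (d i)
            rw [show b + k - d l + 1 - k = 0 by omega, Tn_zero] at e1
            rw [show b + k - d l + 1 - d i = 0 by omega, show b + k - d l + 1 - d j = 0 by omega,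
              show 0 - d j = 0 by omega, Tn_zero] at e2
            omega
          · simp [h1, h2, h6]
    rw [Finset.sum_congr rfl fun l _ => hterm l, Finset.sum_add_distrib, Finset.sum_add_distrib,
      Finset.sum_ite_eq' univ i, Finset.sum_ite_eq' univ j]
    simp
  have h1 := Mk_card z (b + k) k
  have h2 := Hc_eq (d j) b (d i)
  have h3 := Hc_eq (d j) (b + k) (d i)
  have h4 := hA (d i)
  have h5 := hA (d j)
  rw [show b + k + 1 - k = b + 1 by omega] at h1
  rw [show b + 1 - d i - d j = 0 by omega, Tn_zero] at h2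
  rw [show b + k + 1 - d i - d j = 0 by omega, Tn_zero] at h3
  rw [hsplit]
  omega

end Pool.Agent.Work.MP_2ad852_ag.G3

end

section

/-!
# Item MkChi
-/

namespace Pool.Agent.Work.MP_2ad852_ag.G3

open MvPolynomial Finset Pool.Agent.Work.MP_2ad852_ag.GF Pool.Agent.Work.MP_2ad852_ag.GS

/-- number of monomials in three variables, `z`-exponent less than `k` -/
theorem card_Mk3 (z : Fin 3) (k t : ℕ) :
    (Mk z k t).card = ∑ j ∈ range (min k (t + 1)), (t - j + 1) := by
  rw [card_Mk_eq (by norm_num) z k t]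
  refine Finset.sum_congr rfl fun j hj => ?_
  rw [show t - j + 3 - 2 = t - j + 1 by omega, show 3 - 2 = 1 by norm_num, Nat.choose_one_right]

/-- the same with a common range of summation -/
theorem card_Mk3' (z : Fin 3) (k e D : ℕ) (hD : D ≤ e) :
    (Mk z k (e - D)).card = ∑ m ∈ range (min k (e + 1)), (e - m + 1 - D) := by
  rw [card_Mk3]
  have h1 : range (min k (e - D + 1)) ⊆ range (min k (e + 1)) :=
    Finset.range_subset_range.2 (by omega)
  rw [← Finset.sum_subset h1]
  · refine Finset.sum_congr rfl fun j hj => ?_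
    rw [Finset.mem_range] at hj
    omega
  · intro m hm hm'
    rw [Finset.mem_range] at hm hm'
    omega

theorem pr_MkChi : S_MkChi := by
  intro ι _ z k e d
  have h1 : ((Mk z k e).card : ℤ) = ∑ m ∈ range (min k (e + 1)), (((e - m : ℕ) : ℤ) + 1) := by
    rw [card_Mk3]
    push_cast
    rfl
  have h2 : (nC z k e d : ℤ) =
      ∑ m ∈ range (min k (e + 1)), ∑ l, ((e - m + 1 - d l : ℕ) : ℤ) := by
    unfold nC
    rw [Finset.sum_comm, Finset.sum_filter]
    push_cast
    refine Finset.sum_congr rfl fun l _ => ?_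
    split_ifs with hl
    · rw [card_Mk3' z k e (d l) hl]
      push_cast
      rfl
    · symm
      refine Finset.sum_eq_zero fun m _ => ?_
      have : e - m + 1 - d l = 0 := by omega
      rw [this]
      rfl
  rw [h1, h2, ← Finset.sum_sub_distrib]
  rfl

end Pool.Agent.Work.MP_2ad852_ag.G3

end

section

/-!
# Item N1Num
-/

namespace Pool.Agent.Work.MP_2ad852_ag.G3

open MvPolynomial Finset Pool.Agent.Work.MP_2ad852_ag.GF Pool.Agent.Work.MP_2ad852_ag.GS

theorem gauss_sum (k : ℕ) : (2 : ℤ) * ∑ m ∈ range k, (m : ℤ) = k * (k - 1) := by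
  induction k with
  | zero => simp
  | succ n ih =>
    rw [Finset.sum_range_succ, mul_add, ih]
    push_cast
    ring

theorem card_Mk3_int (z : Fin 3) (k b D : ℕ) (hk : 1 ≤ k) (hD : D ≤ b + 1) :
    ((Mk z k (b + k - D)).card : ℤ) = ∑ m ∈ range k, ((b : ℤ) + k - m + 1 - D) := by
  rw [card_Mk3' z k (b + k) D (by omega), show min k (b + k + 1) = k by omega]
  push_cast
  refine Finset.sum_congr rfl fun m hm => ?_
  rw [Finset.mem_range] at hm
  omega

theorem pr_N1Num : S_N1Num := by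
  intro ι _ _ z k b d i j l hij hli hlj hs hi hj hl
  rcases Nat.eq_zero_or_pos k with rfl | hk
  · have : Mk z 0 (b + 0) = ∅ := by
      rw [Finset.eq_empty_iff_forall_notMem]
      intro p hp
      rw [mem_Mk] at hp
      exact absurd hp.2 (Nat.not_lt_zero _)
    rw [this, Finset.card_empty]
    exact Nat.zero_le _
  have h1 : ∑ t ∈ ({i, j, l} : Finset ι), (Mk z k (b + k - d t)).card ≤ nC z k (b + k) d := by
    unfold nC
    refine Finset.sum_le_sum_of_subset ?_
    intro t ht
    rw [Finset.mem_filter]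
    refine ⟨Finset.mem_univ _, ?_⟩
    simp only [Finset.mem_insert, Finset.mem_singleton] at ht
    rcases ht with rfl | rfl | rfl <;> omega
  rw [Finset.sum_insert (by simp [hij, hli.symm]), Finset.sum_insert (by simp [hlj.symm]),
    Finset.sum_singleton] at h1
  have e0 := card_Mk3_int z k b 0 hk (by omega)
  have e1 := card_Mk3_int z k b (d i) hk (by omega)
  have e2 := card_Mk3_int z k b (d j) hk (by omega)
  have e3 := card_Mk3_int z k b (d l) hk (by omega)
  rw [Nat.sub_zero] at e0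
  have key : ∀ D : ℤ, ∑ m ∈ range k, ((b : ℤ) + k - m + 1 - D) =
      k * (b + k + 1 - D) - ∑ m ∈ range k, (m : ℤ) := by
    intro D
    have : ∀ m ∈ range k, ((b : ℤ) + k - m + 1 - D) = ((b : ℤ) + k + 1 - D) - m := by
      intro m _; ring
    rw [Finset.sum_congr rfl this, Finset.sum_sub_distrib, Finset.sum_const, card_range,
      nsmul_eq_mul]
  rw [key] at e0 e1 e2 e3
  have g := gauss_sum k
  have hs' : (d i : ℤ) + d j = b + k + 2 := by exact_mod_cast hs.symm
  have hl' : (d l : ℤ) ≤ b + 1 := by exact_mod_cast hl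
  have hk' : (0 : ℤ) ≤ k := by positivity
  have h3 : (0 : ℤ) ≤ k * (b + 1 - d l) := mul_nonneg hk' (by linarith)
  have h4 : ((Mk z k (b + k)).card : ℤ) ≤ (Mk z k (b + k - d i)).card +
      ((Mk z k (b + k - d j)).card + (Mk z k (b + k - d l)).card) := by
    rw [e0, e1, e2, e3]
    have h5 : (k : ℤ) * (b + k + 1 - d i) + k * (b + k + 1 - d j) + k * (b + k + 1 - d l) -
        k * (b + k + 1) = k * (b + 1 - d l) + k * (k - 1) := by
      have : (d i : ℤ) = b + k + 2 - d j := by linarith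
      rw [this]
      ring
    push_cast
    nlinarith [h5, h3, g]
  have h6 : (Mk z k (b + k)).card ≤ (Mk z k (b + k - d i)).card +
      ((Mk z k (b + k - d j)).card + (Mk z k (b + k - d l)).card) := by exact_mod_cast h4
  exact le_trans h6 h1

end Pool.Agent.Work.MP_2ad852_ag.G3

end
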